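import Pool.Agent.H97.KlsA

set_option autoImplicit false
set_option linter.unusedSectionVars false
set_option linter.unusedSimpArgs false

open MeasureTheory Measure Set TopologicalSpace

namespace Pool.H97.KLSG

open Pool.Agent.H84 (CB Qop kern avg ww cE)

variable {E : Type*} [NormedAddCommGroup E] [InnerProductSpace ℝ E]
    [FiniteDimensional ℝ E] [MeasurableSpace E] [BorelSpace E]
variable {ι : Type*} [Fintype ι]

/-- Gaussian averages of bounded measurable functions are `C¹`. -/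
theorem contDiff_Aop_bm {d : ℝ} (hd : 0 < d) {h : E → ℝ} {C : ℝ} (hb : BM h C) :
    ContDiff ℝ 1 (Aop d h) := by
  rw [contDiff_one_iff_hasFDerivAt]
  refine ⟨_, ?_, fun x => hasFDerivAt_Aop hd hb x⟩
  suffices key : Continuous (fun x : E => ∫ y, adint d h x y) from key.const_smul ((gN E d)⁻¹)
  rw [continuous_iff_continuousAt]
  intro x0
  apply continuousAt_of_dominated
    (bound := fun y => C / d * (Real.exp (1/4) * Real.exp (-(‖y - x0‖ ^ 2) / (8 * d ^ 2))))
  · exact Filter.Eventually.of_forall (fun x => meas_adint d hb.meas x)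
  · filter_upwards [Metric.ball_mem_nhds x0 hd] with x hx
    refine Filter.Eventually.of_forall (fun y => ?_)
    refine (norm_adint_le hd hb x y).trans ?_
    refine mul_le_mul_of_nonneg_left ?_ (div_nonneg hb.nonneg hd.le)
    refine exp_shift_le hd x0 x y ?_
    have := Metric.mem_ball.mp hx
    rw [dist_eq_norm] at this
    exact this.le
  · exact ((integrable_shift (integrable_exp8 hd) x0).const_mul _).const_mul _
  · refine Filter.Eventually.of_forall (fun y => ?_)
    have hc : Continuous (fun x : E => adint d h x y) := by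
      unfold adint gk
      fun_prop
    exact hc.continuousAt

variable {K : Set E} {R δ : ℝ}

/-- partial derivative of `avg` -/
noncomputable def gpart (K : Set E) (δ : ℝ) (ψ : E → ℝ) (v : E) (y : E) : ℝ :=
  fderiv ℝ (avg K δ ψ) y v

theorem gpart_bm (hδ : 0 < δ) (hK : CB K R) {ψ : E → ℝ} (h : Pool.Agent.H84.BM K ψ) (v : E) :
    ∃ C, BM (gpart K δ ψ v) C := by
  obtain ⟨M, h1, h2, h3⟩ := Pool.Agent.H84.avg_props hδ hK h
  refine ⟨M / δ * ‖v‖, ?_, fun y => ?_⟩
  · have hc : Continuous (fderiv ℝ (avg K δ ψ)) := h1.continuous_fderiv one_ne_zero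
    have : Continuous (gpart K δ ψ v) := by
      unfold gpart
      exact hc.clm_apply continuous_const
    exact this.measurable
  · unfold gpart
    rw [← Real.norm_eq_abs]
    exact (ContinuousLinearMap.le_opNorm _ _).trans
      (mul_le_mul_of_nonneg_right (h3 y) (norm_nonneg _))

/-- derivative of `Q ψ` in the direction `v` is the Gaussian average of the derivative of
`avg`. -/
theorem fderiv_Qop_apply (hδ : 0 < δ) (hK : CB K R) {ψ : E → ℝ} (h : Pool.Agent.H84.BM K ψ)
    (v x : E) : fderiv ℝ (Qop K δ ψ) x v = Aop δ (gpart K δ ψ v) x := by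
  obtain ⟨M, h1, h2, h3⟩ := Pool.Agent.H84.avg_props hδ hK h
  have hA := Pool.Agent.H84.hasFDerivAt_Aop hδ h1 h2 h3 x
  have hQ : fderiv ℝ (Qop K δ ψ) x = _ := hA.fderiv
  rw [hQ, ← Aop_eq_H84, Pool.Agent.H84.Aop_eq]
  rw [_root_.smul_apply, ContinuousLinearMap.integral_apply, smul_eq_mul]
  · congr 1
    refine integral_congr_ae (Filter.Eventually.of_forall (fun z => ?_))
    simp only [_root_.smul_apply, smul_eq_mul, gpart]
    ring
  · have hc : Continuous (fderiv ℝ (avg K δ ψ)) := h1.continuous_fderiv one_ne_zero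
    refine ((Pool.Agent.H84.integrable_kern_zero (E := E) hδ).mul_const (M / δ)).mono' ?_ ?_
    · have hk : Continuous (fun z : E => kern δ z 0) := by unfold kern; fun_prop
      exact (hk.smul (hc.comp (continuous_const.add continuous_id))).aestronglyMeasurable
    · refine Filter.Eventually.of_forall (fun z => ?_)
      rw [norm_smul, Real.norm_eq_abs, abs_of_pos (Pool.Agent.H84.kern_pos δ z 0)]
      exact mul_le_mul_of_nonneg_left (h3 _) (Pool.Agent.H84.kern_pos δ z 0).le

/-- The pointwise second order inequality. -/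
theorem second_order_pt (hδ : 0 < δ) (hK : CB K R) {ψ : E → ℝ} (h : Pool.Agent.H84.BM K ψ)
    (b : OrthonormalBasis ι ℝ E) (x : E) :
    ‖fderiv ℝ (Qop K δ ψ) x‖ ^ 2
      + δ ^ 2 * ∑ i, ‖fderiv ℝ (fun z => fderiv ℝ (Qop K δ ψ) z (b i)) x‖ ^ 2
      ≤ Aop δ (fun y => ‖fderiv ℝ (avg K δ ψ) y‖ ^ 2) x := by
  have e1 : ∀ i, (fun z => fderiv ℝ (Qop K δ ψ) z (b i)) = Aop δ (gpart K δ ψ (b i)) := by
    intro i; ext z; exact fderiv_Qop_apply hδ hK h (b i) z
  simp only [e1]
  rw [norm_sq_dual b, Finset.mul_sum, ← Finset.sum_add_distrib]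
  have e2 : ∀ i, fderiv ℝ (Qop K δ ψ) x (b i) = Aop δ (gpart K δ ψ (b i)) x :=
    fun i => fderiv_Qop_apply hδ hK h (b i) x
  simp only [e2]
  have h3 : ∀ i, (Aop δ (gpart K δ ψ (b i)) x) ^ 2
      + δ ^ 2 * ‖fderiv ℝ (Aop δ (gpart K δ ψ (b i))) x‖ ^ 2
      ≤ Aop δ (fun y => gpart K δ ψ (b i) y ^ 2) x := by
    intro i
    obtain ⟨C, hC⟩ := gpart_bm hδ hK h (b i)
    exact bessel hδ hC x
  refine (Finset.sum_le_sum (fun i _ => h3 i)).trans (le_of_eq ?_)
  unfold Aop
  rw [← Finset.mul_sum, ← integral_finsetSum]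
  · congr 1
    refine integral_congr_ae (Filter.Eventually.of_forall (fun y => ?_))
    show ∑ i, gpart K δ ψ (b i) y ^ 2 * gk δ (y - x)
      = ‖fderiv ℝ (avg K δ ψ) y‖ ^ 2 * gk δ (y - x)
    rw [← Finset.sum_mul, norm_sq_dual b]
    rfl
  · intro i _
    obtain ⟨C, hC⟩ := gpart_bm hδ hK h (b i)
    have hb2 : BM (fun y => gpart K δ ψ (b i) y ^ 2) (C ^ 2) :=
      ⟨hC.meas.pow_const 2, fun y => by
        rw [abs_pow]; exact pow_le_pow_left₀ (abs_nonneg _) (hC.bound y) 2⟩
    exact integrable_h_gk hδ hb2 x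

theorem contDiff_partial_Qop (hδ : 0 < δ) (hK : CB K R) {ψ : E → ℝ}
    (h : Pool.Agent.H84.BM K ψ) (v : E) :
    ContDiff ℝ 1 (fun z => fderiv ℝ (Qop K δ ψ) z v) := by
  have e1 : (fun z => fderiv ℝ (Qop K δ ψ) z v) = Aop δ (gpart K δ ψ v) := by
    ext z; exact fderiv_Qop_apply hδ hK h v z
  rw [e1]
  obtain ⟨C, hC⟩ := gpart_bm hδ hK h v
  exact contDiff_Aop_bm hδ hC

theorem integrableOn_cont (hK : CB K R) {f : E → ℝ} (hf : Continuous f) : IntegrableOn f K :=
  (hK.bm_of_cont hf).integrableOn hK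

/-- **Discrete Bochner inequality.** -/
theorem second_order (hδ : 0 < δ) (hK : CB K R) {ψ : E → ℝ} (hψ : ContDiff ℝ 1 ψ)
    (b : OrthonormalBasis ι ℝ E) :
    (∫ x in K, ‖fderiv ℝ (Qop K δ ψ) x‖ ^ 2)
      + δ ^ 2 * ∫ x in K, ∑ i, ‖fderiv ℝ (fun z => fderiv ℝ (Qop K δ ψ) z (b i)) x‖ ^ 2
      ≤ ∫ x in K, ‖fderiv ℝ ψ x‖ ^ 2 := by
  have h : Pool.Agent.H84.BM K ψ := hK.bm_of_cont hψ.continuous
  obtain ⟨M, h1, h2, h3⟩ := Pool.Agent.H84.avg_props hδ hK h
  have hcf : Continuous (fderiv ℝ (avg K δ ψ)) := h1.continuous_fderiv one_ne_zero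
  have hM0 : 0 ≤ M / δ := (norm_nonneg _).trans (h3 0)
  have hbm : BM (fun y => ‖fderiv ℝ (avg K δ ψ) y‖ ^ 2) ((M / δ) ^ 2) := by
    refine ⟨(by fun_prop : Continuous (fun y => ‖fderiv ℝ (avg K δ ψ) y‖ ^ 2)).measurable,
      fun y => ?_⟩
    rw [abs_of_nonneg (sq_nonneg _)]
    exact pow_le_pow_left₀ (norm_nonneg _) (h3 y) 2
  have c1 : Continuous (fun x => ‖fderiv ℝ (Qop K δ ψ) x‖ ^ 2) := by
    have := (Pool.Agent.H84.contDiff_Qop hδ hK h).continuous_fderiv one_ne_zero
    fun_prop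
  have c2 : Continuous (fun x =>
      ∑ i, ‖fderiv ℝ (fun z => fderiv ℝ (Qop K δ ψ) z (b i)) x‖ ^ 2) := by
    refine continuous_finsetSum _ (fun i _ => ?_)
    have := (contDiff_partial_Qop hδ hK h (b i)).continuous_fderiv one_ne_zero
    fun_prop
  have c3 : Continuous (Aop δ (fun y => ‖fderiv ℝ (avg K δ ψ) y‖ ^ 2)) := continuous_Aop hδ hbm
  have s1 : (∫ x in K, ‖fderiv ℝ (Qop K δ ψ) x‖ ^ 2)
      + δ ^ 2 * ∫ x in K, ∑ i, ‖fderiv ℝ (fun z => fderiv ℝ (Qop K δ ψ) z (b i)) x‖ ^ 2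
      ≤ ∫ x in K, Aop δ (fun y => ‖fderiv ℝ (avg K δ ψ) y‖ ^ 2) x := by
    rw [← integral_const_mul, ← integral_add (integrableOn_cont hK c1)
      ((integrableOn_cont hK c2).const_mul _)]
    refine integral_mono ((integrableOn_cont hK c1).add
      ((integrableOn_cont hK c2).const_mul _)) (integrableOn_cont hK c3) (fun x => ?_)
    exact second_order_pt hδ hK h b x
  have s2 : ∫ x in K, Aop δ (fun y => ‖fderiv ℝ (avg K δ ψ) y‖ ^ 2) x
      = ∫ y, ‖fderiv ℝ (avg K δ ψ) y‖ ^ 2 * ww K δ y := by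
    have := Pool.Agent.H84.duality hδ hK (h := fun y => ‖fderiv ℝ (avg K δ ψ) y‖ ^ 2)
      hbm.meas (M := (M / δ) ^ 2) hbm.bound (ψ := fun _ => (1:ℝ)) (hK.bm_of_cont continuous_const)
    simp only [mul_one, Pool.Agent.H84.avg_one hδ hK] at this
    rw [← this]
    rw [Aop_eq_H84]
  have hb' : Pool.Agent.H84.BM K (fun x => ‖fderiv ℝ ψ x‖ ^ 2) := by
    have := hψ.continuous_fderiv one_ne_zero
    exact hK.bm_of_cont (by fun_prop)
  obtain ⟨M', h1', h2', -⟩ := Pool.Agent.H84.avg_props hδ hK hb'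
  have s3 : ∫ y, ‖fderiv ℝ (avg K δ ψ) y‖ ^ 2 * ww K δ y
      ≤ ∫ y, avg K δ (fun x => ‖fderiv ℝ ψ x‖ ^ 2) y * ww K δ y := by
    refine integral_mono (Pool.Agent.H84.integrable_mul_ww hδ hK hbm.meas hbm.bound)
      (Pool.Agent.H84.integrable_mul_ww hδ hK h1'.continuous.measurable h2') (fun y => ?_)
    refine mul_le_mul_of_nonneg_right ?_ (Pool.Agent.H84.ww_pos hδ hK y).le
    have := Pool.Agent.H84.norm_fderiv_avg_sq_le hδ hK.conv hK.meas hK.sub hK.vol0 hψ y
    rwa [Pool.Agent.H84.integral_PP hδ hK.meas hK.vol0] at this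
  rw [Pool.Agent.H84.integral_avg_ww hδ hK hb'] at s3
  rw [s2] at s1
  exact s1.trans s3

/-- one step loses little `L²` norm -/
theorem one_step (hδ : 0 < δ) (hK : CB K R) {f : E → ℝ} (hf : ContDiff ℝ 1 f) :
    (∫ x in K, f x ^ 2) - (∫ x in K, (Qop K δ f x) ^ 2)
      ≤ 2 * δ ^ 2 * ∫ x in K, ‖fderiv ℝ f x‖ ^ 2 := by
  have h : Pool.Agent.H84.BM K f := hK.bm_of_cont hf.continuous
  have hcQ := (Pool.Agent.H84.contDiff_Qop hδ hK h).continuous
  have hcf := hf.continuous
  have d1 := Pool.Agent.H84.dirichlet_eq hδ hK h h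
  have hb' : Pool.Agent.H84.BM K (fun x => ‖fderiv ℝ f x‖ ^ 2) := by
    have := hf.continuous_fderiv one_ne_zero
    exact hK.bm_of_cont (by fun_prop)
  obtain ⟨M, h1, h2, -⟩ := Pool.Agent.H84.avg_props hδ hK h
  obtain ⟨M', h1', h2', -⟩ := Pool.Agent.H84.avg_props hδ hK hb'
  obtain ⟨M'', h1'', h2'', -⟩ := Pool.Agent.H84.avg_props hδ hK (h.mul h)
  have d2 : ∫ y, (avg K δ (fun x => f x * f x) y - avg K δ f y * avg K δ f y) * ww K δ y
      ≤ ∫ y, (δ ^ 2 * avg K δ (fun x => ‖fderiv ℝ f x‖ ^ 2) y) * ww K δ y := by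
    refine integral_mono ?_ ?_ (fun y => ?_)
    · refine Pool.Agent.H84.integrable_mul_ww hδ hK (M := M'' + M * M) ?_ ?_
      · exact (h1''.continuous.sub (h1.continuous.mul h1.continuous)).measurable
      · intro y
        refine (abs_sub _ _).trans (add_le_add (h2'' y) ?_)
        rw [abs_mul]
        exact mul_le_mul (h2 y) (h2 y) (abs_nonneg _) ((abs_nonneg _).trans (h2 y))
    · refine Pool.Agent.H84.integrable_mul_ww hδ hK (M := δ ^ 2 * M') ?_ ?_
      · exact (continuous_const.mul h1'.continuous).measurable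
      · intro y
        rw [abs_mul, abs_of_pos (by positivity : (0:ℝ) < δ ^ 2)]
        exact mul_le_mul_of_nonneg_left (h2' y) (by positivity)
    · refine mul_le_mul_of_nonneg_right ?_ (Pool.Agent.H84.ww_pos hδ hK y).le
      have hp := Pool.Agent.H84.PP_poincare hδ hK.conv hK.meas
        (Metric.isBounded_closedBall.subset hK.sub) hK.vol0 y hf
      rw [Pool.Agent.H84.integral_PP hδ hK.meas hK.vol0,
        Pool.Agent.H84.integral_PP hδ hK.meas hK.vol0,
        Pool.Agent.H84.integral_PP hδ hK.meas hK.vol0] at hp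
      have e : (fun x => f x * f x) = fun x => f x ^ 2 := by ext x; ring
      rw [e, ← sq]
      exact hp
  rw [← d1] at d2
  have d3 : ∫ y, (δ ^ 2 * avg K δ (fun x => ‖fderiv ℝ f x‖ ^ 2) y) * ww K δ y
      = δ ^ 2 * ∫ x in K, ‖fderiv ℝ f x‖ ^ 2 := by
    simp only [mul_assoc]
    rw [integral_const_mul, Pool.Agent.H84.integral_avg_ww hδ hK hb']
  rw [d3] at d2
  have i1 : IntegrableOn (fun x => f x ^ 2) K := integrableOn_cont hK (by fun_prop)
  have i2 : IntegrableOn (fun x => (Qop K δ f x) ^ 2) K := integrableOn_cont hK (by fun_prop)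
  have i3 : IntegrableOn (fun x => (f x - Qop K δ f x) * f x) K := integrableOn_cont hK (by fun_prop)
  rw [← integral_sub i1 i2]
  have d4 : ∫ x in K, (f x ^ 2 - (Qop K δ f x) ^ 2)
      ≤ ∫ x in K, 2 * ((f x - Qop K δ f x) * f x) := by
    refine integral_mono (i1.sub i2) (i3.const_mul 2) (fun x => ?_)
    show f x ^ 2 - (Qop K δ f x) ^ 2 ≤ 2 * ((f x - Qop K δ f x) * f x)
    nlinarith [sq_nonneg (f x - Qop K δ f x)]
  rw [integral_const_mul] at d4
  linarith

theorem integral_Qop (hδ : 0 < δ) (hK : CB K R) {f : E → ℝ} (hf : Pool.Agent.H84.BM K f) :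
    ∫ x in K, Qop K δ f x = ∫ x in K, f x := by
  have h := Pool.Agent.H84.Qop_symm hδ hK hf (g := fun _ => (1:ℝ)) (hK.bm_of_cont continuous_const)
  have e : ∀ x, Qop K δ (fun _ => (1:ℝ)) x = 1 := by
    intro x
    have : avg K δ (fun _ : E => (1:ℝ)) = fun _ => 1 := by
      ext y; exact Pool.Agent.H84.avg_one hδ hK y
    rw [Qop, this]
    exact Pool.Agent.H84.Aop_one hδ hK x
  simpa [e] using h

/-- A crude Poincaré inequality on bounded convex sets. -/
theorem crude (hK : CB K R) :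
    ∃ C : ℝ, 0 ≤ C ∧ ∀ f : E → ℝ, ContDiff ℝ 1 f →
      volume.real K * (∫ x in K, f x ^ 2) - (∫ x in K, f x) ^ 2
        ≤ C * ∫ x in K, ‖fderiv ℝ f x‖ ^ 2 := by
  set r := |R| + 1 with hr
  have hr0 : 0 < r := by positivity
  have hV : 0 ≤ volume.real K := measureReal_nonneg
  refine ⟨volume.real K * (Real.exp (1/2) * r ^ 2), by positivity, fun f hf => ?_⟩
  have hZ := Pool.Agent.H84.ZZ_pos hr0 hK.meas hK.vol0 (0:E)
  have hcf := hf.continuous
  have hcd : Continuous (fderiv ℝ f) := hf.continuous_fderiv one_ne_zero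
  have hck : Continuous (fun x : E => kern r x 0) := by unfold kern; fun_prop
  set c := avg K r f 0 with hc
  set Z := Pool.Agent.H84.ZZ K r (0:E) with hZdef
  have hfin : IsFiniteMeasure (volume.restrict K) := ⟨by simpa using hK.lt_top⟩
  -- variance with weight
  have hp := Pool.Agent.H84.PP_poincare hr0 hK.conv hK.meas
        (Metric.isBounded_closedBall.subset hK.sub) hK.vol0 (0:E) hf
  rw [Pool.Agent.H84.integral_PP hr0 hK.meas hK.vol0,
        Pool.Agent.H84.integral_PP hr0 hK.meas hK.vol0,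
        Pool.Agent.H84.integral_PP hr0 hK.meas hK.vol0, ← hc] at hp
  have a1 : avg K r (fun x => f x ^ 2) 0 = (∫ x in K, f x ^ 2 * kern r x 0) / Z := rfl
  have a2 : c = (∫ x in K, f x * kern r x 0) / Z := rfl
  have a3 : avg K r (fun x => ‖fderiv ℝ f x‖ ^ 2) 0
      = (∫ x in K, ‖fderiv ℝ f x‖ ^ 2 * kern r x 0) / Z := rfl
  have i1 : IntegrableOn (fun x => f x ^ 2 * kern r x 0) K := integrableOn_cont hK (by fun_prop)
  have i2 : IntegrableOn (fun x => f x * kern r x 0) K := integrableOn_cont hK (by fun_prop)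
  have i3 : IntegrableOn (fun x => kern r x (0:E)) K := integrableOn_cont hK (by fun_prop)
  have w1 : ∫ x in K, (f x - c) ^ 2 * kern r x 0
      = (∫ x in K, f x ^ 2 * kern r x 0) - 2 * c * (∫ x in K, f x * kern r x 0) + c ^ 2 * Z := by
    have e : ∀ x, (f x - c) ^ 2 * kern r x 0
        = (f x ^ 2 * kern r x 0 - 2 * c * (f x * kern r x 0)) + c ^ 2 * kern r x 0 := by
      intro x; ring
    simp only [e]
    have i2' : IntegrableOn (fun x => 2 * c * (f x * kern r x 0)) K := i2.const_mul _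
    have i12 : IntegrableOn (fun x => f x ^ 2 * kern r x 0 - 2 * c * (f x * kern r x 0)) K :=
      i1.sub i2'
    rw [integral_add i12 (i3.const_mul _), integral_sub i1 i2', integral_const_mul,
      integral_const_mul]
    rfl
  have w2 : ∫ x in K, (f x - c) ^ 2 * kern r x 0
      ≤ r ^ 2 * ∫ x in K, ‖fderiv ℝ f x‖ ^ 2 * kern r x 0 := by
    rw [a1, a3] at hp
    have e1 : (∫ x in K, f x * kern r x 0) = c * Z := by rw [a2]; field_simp
    rw [w1, e1]
    have e2 : (∫ x in K, f x ^ 2 * kern r x 0) / Z - c ^ 2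
        = ((∫ x in K, f x ^ 2 * kern r x 0) - 2 * c * (c * Z) + c ^ 2 * Z) / Z := by
      field_simp; ring
    rw [e2, ← mul_div_assoc] at hp
    exact (div_le_div_iff_of_pos_right hZ).mp hp
  -- remove the weights
  have hlow : ∀ x ∈ K, 1 ≤ Real.exp (1/2) * kern r x 0 := by
    intro x hx
    have hx1 : ‖x‖ ≤ r := by
      have := hK.sub hx
      rw [mem_closedBall_zero_iff] at this
      exact this.trans ((le_abs_self R).trans (by linarith))
    unfold kern
    rw [← Real.exp_add, sub_zero]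
    apply Real.one_le_exp
    have h1 : ‖x‖ ^ 2 ≤ r ^ 2 := pow_le_pow_left₀ (norm_nonneg _) hx1 2
    have h2 : ‖x‖ ^ 2 / (2 * r ^ 2) ≤ 1 / 2 := by
      rw [div_le_div_iff₀ (by positivity) (by norm_num)]; nlinarith
    have h3 : -‖x‖ ^ 2 / (2 * r ^ 2) = -(‖x‖ ^ 2 / (2 * r ^ 2)) := by ring
    rw [h3]; linarith
  have i4 : IntegrableOn (fun x => (f x - c) ^ 2) K := integrableOn_cont hK (by fun_prop)
  have i5 : IntegrableOn (fun x => (f x - c) ^ 2 * kern r x 0) K :=
    integrableOn_cont hK (by fun_prop)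
  have w3 : ∫ x in K, (f x - c) ^ 2 ≤ Real.exp (1/2) * ∫ x in K, (f x - c) ^ 2 * kern r x 0 := by
    rw [← integral_const_mul]
    refine setIntegral_mono_on i4 (i5.const_mul _) hK.meas (fun x hx => ?_)
    nlinarith [hlow x hx, sq_nonneg (f x - c)]
  have w4 : ∫ x in K, ‖fderiv ℝ f x‖ ^ 2 * kern r x 0 ≤ ∫ x in K, ‖fderiv ℝ f x‖ ^ 2 := by
    refine integral_mono (integrableOn_cont hK (by fun_prop)) (integrableOn_cont hK (by fun_prop))
      (fun x => ?_)
    have := Pool.Agent.H84.kern_le_one r x (0:E)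
    exact mul_le_of_le_one_right (sq_nonneg _) this
  have i6 : IntegrableOn (fun x => f x ^ 2) K := integrableOn_cont hK (by fun_prop)
  have i7 : IntegrableOn (fun x => f x) K := integrableOn_cont hK hcf
  have w5 : volume.real K * (∫ x in K, f x ^ 2) - (∫ x in K, f x) ^ 2
      ≤ volume.real K * ∫ x in K, (f x - c) ^ 2 := by
    have e : ∀ x, (f x - c) ^ 2 = (f x ^ 2 - 2 * c * f x) + c ^ 2 := by intro x; ring
    simp only [e]
    have i7' : IntegrableOn (fun x => 2 * c * f x) K := i7.const_mul _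
    have i67 : IntegrableOn (fun x => f x ^ 2 - 2 * c * f x) K := i6.sub i7'
    rw [integral_add i67 (integrable_const _), integral_sub i6 i7', integral_const_mul,
      integral_const]
    have : (volume.restrict K).real univ = volume.real K := by simp [Measure.real]
    rw [this, smul_eq_mul]
    nlinarith [sq_nonneg ((∫ x in K, f x) - c * volume.real K)]
  calc volume.real K * (∫ x in K, f x ^ 2) - (∫ x in K, f x) ^ 2
      ≤ volume.real K * ∫ x in K, (f x - c) ^ 2 := w5
    _ ≤ volume.real K * (Real.exp (1/2) * (r ^ 2 * ∫ x in K, ‖fderiv ℝ f x‖ ^ 2)) := by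
        refine mul_le_mul_of_nonneg_left ?_ hV
        refine w3.trans (mul_le_mul_of_nonneg_left ?_ (Real.exp_pos _).le)
        exact w2.trans (mul_le_mul_of_nonneg_left w4 (by positivity))
    _ = _ := by ring

/-- **Discrete Bochner theorem**: a second order lower bound on an invariant class of functions
implies a Poincaré inequality on that class. -/
theorem discrete_bochner (hK : CB K R) (b : OrthonormalBasis ι ℝ E) (P : (E → ℝ) → Prop)
    {κ : ℝ} (hκ : 0 < κ)
    (hPQ : ∀ δ : ℝ, 0 < δ → ∀ ψ : E → ℝ, ContDiff ℝ 1 ψ → P ψ → P (Qop K δ ψ))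
    (hP : ∀ δ : ℝ, 0 < δ → ∀ ψ : E → ℝ, ContDiff ℝ 1 ψ → P ψ →
      κ * ∫ x in K, ‖fderiv ℝ (Qop K δ ψ) x‖ ^ 2
        ≤ ∫ x in K, ∑ i, ‖fderiv ℝ (fun z => fderiv ℝ (Qop K δ ψ) z (b i)) x‖ ^ 2)
    (f : E → ℝ) (hf : ContDiff ℝ 1 f) (hPf : P f) :
    volume.real K * (∫ x in K, f x ^ 2) - (∫ x in K, f x) ^ 2
      ≤ 2 / κ * (volume.real K * ∫ x in K, ‖fderiv ℝ f x‖ ^ 2) := by
  obtain ⟨C, hC0, hC⟩ := crude hK
  have hV : 0 ≤ volume.real K := measureReal_nonneg
  set E0 := ∫ x in K, ‖fderiv ℝ f x‖ ^ 2 with hE0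
  have hE00 : 0 ≤ E0 := integral_nonneg (fun _ => sq_nonneg _)
  -- for each δ
  have main : ∀ δ : ℝ, 0 < δ → volume.real K * (∫ x in K, f x ^ 2) - (∫ x in K, f x) ^ 2
      ≤ volume.real K * (2 * (1 / κ + δ ^ 2) * E0) := by
    intro δ hδ
    set F : ℕ → E → ℝ := fun j => (Qop K δ)^[j] f with hF
    have hF0 : F 0 = f := rfl
    have hFs : ∀ j, F (j + 1) = Qop K δ (F j) := by
      intro j; simp only [hF]; rw [Function.iterate_succ_apply']
    have hbm : Pool.Agent.H84.BM K f := hK.bm_of_cont hf.continuous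
    have hFc : ∀ j, ContDiff ℝ 1 (F j) ∧ P (F j) := by
      intro j
      induction j with
      | zero => exact ⟨hf, hPf⟩
      | succ j ih =>
        rw [hFs]
        exact ⟨Pool.Agent.H84.contDiff_Qop hδ hK (hK.bm_of_cont ih.1.continuous),
          hPQ δ hδ _ ih.1 ih.2⟩
    set e : ℕ → ℝ := fun j => ∫ x in K, ‖fderiv ℝ (F j) x‖ ^ 2 with he
    have he0 : e 0 = E0 := rfl
    have henn : ∀ j, 0 ≤ e j := fun j => integral_nonneg (fun _ => sq_nonneg _)
    have hdec : ∀ j, (1 + κ * δ ^ 2) * e (j + 1) ≤ e j := by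
      intro j
      have h1 := second_order hδ hK (hFc j).1 b
      have h2 := hP δ hδ (F j) (hFc j).1 (hFc j).2
      rw [← hFs] at h1 h2
      have h3 := mul_le_mul_of_nonneg_left h2 (by positivity : 0 ≤ δ ^ 2)
      simp only [he]
      linarith
    set q : ℝ := (1 + κ * δ ^ 2)⁻¹ with hq
    have hqp : 0 < 1 + κ * δ ^ 2 := by positivity
    have hq0 : 0 < q := inv_pos.mpr hqp
    have hq1 : q < 1 := by
      rw [hq]; exact inv_lt_one_of_one_lt₀ (by have : 0 < κ * δ ^ 2 := by positivity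
                                               linarith)
    have hle : ∀ j, e j ≤ q ^ j * E0 := by
      intro j
      induction j with
      | zero => simp [he0]
      | succ j ih =>
        have h1 := hdec j
        have h2 : e (j + 1) ≤ q * e j := by
          rw [hq, inv_mul_eq_div, le_div_iff₀ hqp]; linarith
        calc e (j + 1) ≤ q * e j := h2
          _ ≤ q * (q ^ j * E0) := mul_le_mul_of_nonneg_left ih hq0.le
          _ = _ := by ring
    -- L² telescoping
    have htel : ∀ n : ℕ, (∫ x in K, f x ^ 2) - (∫ x in K, (F n x) ^ 2)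
        ≤ 2 * δ ^ 2 * ∑ j ∈ Finset.range n, e j := by
      intro n
      induction n with
      | zero => simp [hF0]
      | succ n ih =>
        have h1 := one_step hδ hK (hFc n).1
        rw [← hFs] at h1
        rw [Finset.sum_range_succ]
        simp only [he] at ih ⊢
        linarith
    have hsum : ∀ n : ℕ, ∑ j ∈ Finset.range n, e j ≤ E0 / (1 - q) := by
      intro n
      have h1 : ∑ j ∈ Finset.range n, e j ≤ ∑ j ∈ Finset.range n, q ^ j * E0 :=
        Finset.sum_le_sum (fun j _ => hle j)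
      refine h1.trans ?_
      rw [← Finset.sum_mul, geom_sum_eq hq1.ne, div_mul_eq_mul_div,
        ← neg_div_neg_eq (a := (q ^ n - 1) * E0)]
      have h2 : -(q - 1) = 1 - q := by ring
      rw [h2]
      refine div_le_div_of_nonneg_right ?_ (by linarith)
      have h3 : 0 ≤ q ^ n := by positivity
      nlinarith
    have hq2 : 2 * δ ^ 2 * (E0 / (1 - q)) = 2 * (1 / κ + δ ^ 2) * E0 := by
      have h1 : 1 - q = κ * δ ^ 2 / (1 + κ * δ ^ 2) := by
        rw [hq]; field_simp; ring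
      rw [h1]
      field_simp
    -- means
    have hmean : ∀ n, ∫ x in K, F n x = ∫ x in K, f x := by
      intro n
      induction n with
      | zero => rfl
      | succ n ih =>
        rw [hFs, integral_Qop hδ hK (hK.bm_of_cont (hFc n).1.continuous), ih]
    have hfinal : ∀ n : ℕ, volume.real K * (∫ x in K, f x ^ 2) - (∫ x in K, f x) ^ 2
        ≤ volume.real K * (2 * (1 / κ + δ ^ 2) * E0) + C * (q ^ n * E0) := by
      intro n
      have h1 := hC (F n) (hFc n).1
      rw [hmean n] at h1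
      have h2 := htel n
      have h3 : 2 * δ ^ 2 * ∑ j ∈ Finset.range n, e j ≤ 2 * (1 / κ + δ ^ 2) * E0 := by
        rw [← hq2]
        exact mul_le_mul_of_nonneg_left (hsum n) (by positivity)
      have h4 := mul_le_mul_of_nonneg_left (h2.trans h3) hV
      have h5 := mul_le_mul_of_nonneg_left (hle n) hC0
      simp only [he] at h5
      linarith
    have hlim : Filter.Tendsto (fun n : ℕ =>
        volume.real K * (2 * (1 / κ + δ ^ 2) * E0) + C * (q ^ n * E0)) Filter.atTop
        (nhds (volume.real K * (2 * (1 / κ + δ ^ 2) * E0) + C * (0 * E0))) := by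
      refine Filter.Tendsto.const_add _ (Filter.Tendsto.const_mul _ (Filter.Tendsto.mul_const _ ?_))
      exact tendsto_pow_atTop_nhds_zero_of_lt_one hq0.le hq1
    have := ge_of_tendsto' hlim hfinal
    simpa using this
  -- δ → 0
  have hlim2 : Filter.Tendsto (fun δ : ℝ => volume.real K * (2 * (1 / κ + δ ^ 2) * E0))
      (nhdsWithin 0 (Ioi 0)) (nhds (volume.real K * (2 * (1 / κ + 0 ^ 2) * E0))) := by
    have hc : Continuous (fun δ : ℝ => volume.real K * (2 * (1 / κ + δ ^ 2) * E0)) := by fun_prop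
    exact (hc.tendsto 0).mono_left nhdsWithin_le_nhds
  have h3 := ge_of_tendsto hlim2 (Filter.eventually_of_mem self_mem_nhdsWithin
    (fun δ hδ => main δ hδ))
  refine h3.trans (le_of_eq ?_)
  ring

end Pool.H97.KLSG
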