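import Pool.Agent.H97.KlsRep
import Pool.Agent.H84.KlsMachine

set_option autoImplicit false
set_option linter.unusedSectionVars false
set_option linter.unusedSimpArgs false

open MeasureTheory Measure Set TopologicalSpace Matrix

namespace Pool.H97.KLSR

open Pool.H97.KLS
open Pool.Agent.H84 (CB NN ZZ PC)
open Pool.H97.KLSG (qf wt Fac BW QW Aop BW_eq NN_comp avg_comp Aop_eq_H84)

variable {ι : Type*} [Fintype ι] [DecidableEq ι]
variable {ι' : Type*} [Fintype ι'] [DecidableEq ι']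
variable {E : Type*} [NormedAddCommGroup E] [InnerProductSpace ℝ E]

/-- two commuting representations -/
def Comm (ρ : Rep ι E) (ρ' : Rep ι' E) : Prop :=
  ∀ (O : OG ι) (O' : OG ι'), O.1.det = 1 → O'.1.det = 1 → ∀ X,
    ρ.act O (ρ'.act O' X) = ρ'.act O' (ρ.act O X)

theorem Comm.symm {ρ : Rep ι E} {ρ' : Rep ι' E} (h : Comm ρ ρ') : Comm ρ' ρ :=
  fun O' O hO' hO X => (h O O' hO hO' X).symm

/-- generators commute with the commuting action -/
theorem Comm.gen {ρ : Rep ι E} {ρ' : Rep ι' E} (h : Comm ρ ρ') (b j : ι) (O' : OG ι')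
    (hO' : O'.1.det = 1) (X : E) : ρ'.act O' (ρ.gen b j X) = ρ.gen b j (ρ'.act O' X) := by
  by_cases hbj : b = j
  · subst hbj; rw [ρ.gen_diag]; simp
  have h1 := ρ.der_ev_zero hbj (ρ'.act O' X)
  have h2 := ρ.der_ev_zero hbj X
  have h3 := (ρ'.act O').hasFDerivAt.comp_hasDerivAt (0:ℝ) h2
  have e : (fun t => ρ'.act O' (ρ.act (rot j (ev b) (Rep.ev_ne hbj) (ev_dot_ev b) t) X))
      = fun t => ρ.act (rot j (ev b) (Rep.ev_ne hbj) (ev_dot_ev b) t) (ρ'.act O' X) := by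
    ext t; exact (h _ _ (Rep.det_rot _ _ _ _ _) hO' X).symm
  have h4 : HasDerivAt (fun t => ρ'.act O' (ρ.act (rot j (ev b) (Rep.ev_ne hbj) (ev_dot_ev b) t) X))
      (ρ'.act O' (ρ.gen b j X)) 0 := h3
  rw [e] at h4
  exact h4.unique h1

namespace Rep

variable (ρ : Rep ι E)

/-- first derivative of an invariant function along the orbit -/
theorem fderiv_equivariant {u : E → ℝ} (hu : ρ.Inv u) (hd : Differentiable ℝ u)
    (O : OG ι) (hO : O.1.det = 1) (X v : E) :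
    fderiv ℝ u (ρ.act O X) (ρ.act O v) = fderiv ℝ u X v := by
  have h1 : (fun Y => u (ρ.act O Y)) = u := by
    ext Y; exact hu O hO Y
  have h2 : HasFDerivAt (fun Y => u (ρ.act O Y))
      ((fderiv ℝ u (ρ.act O X)).comp (ρ.act O)) X := by
    have h3 : HasFDerivAt u (fderiv ℝ u (ρ.act O X)) (ρ.act O X) := (hd _).hasFDerivAt
    exact h3.comp X (ρ.act O).hasFDerivAt
  rw [h1] at h2
  rw [h2.fderiv]
  rfl

/-- second derivative of an invariant function along the orbit -/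
theorem second_deriv_orbit {u : E → ℝ} (hu : ρ.Inv u) (hd : ContDiff ℝ 1 u)
    (v : E) (hv : ContDiff ℝ 1 (fun z => fderiv ℝ u z v)) (b j : ι) (X : E) :
    ρ.ang (fun z => fderiv ℝ u z v) b j X = - fderiv ℝ u X (ρ.gen b j v) := by
  by_cases hbj : b = j
  · subst hbj
    simp [ang, ρ.gen_diag]
  -- the identity along the curve
  have hid : ∀ t : ℝ, fderiv ℝ u (ρ.act (rot j (ev b) (ev_ne hbj) (ev_dot_ev b) t) X) v
      = fderiv ℝ u X (ρ.act (rot j (ev b) (ev_ne hbj) (ev_dot_ev b) (-t)) v) := by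
    intro t
    have h1 := ρ.fderiv_equivariant hu (hd.differentiable (by norm_num))
      (rot j (ev b) (ev_ne hbj) (ev_dot_ev b) t) (det_rot _ _ _ _ _) X
      (ρ.act (rot j (ev b) (ev_ne hbj) (ev_dot_ev b) (-t)) v)
    rw [rot_neg, ρ.act_act_inv (det_rot _ _ _ _ _)] at h1
    rw [rot_neg]
    exact h1
  -- left derivative
  have hL : HasDerivAt
      (fun t => fderiv ℝ u (ρ.act (rot j (ev b) (ev_ne hbj) (ev_dot_ev b) t) X) v)
      (ρ.ang (fun z => fderiv ℝ u z v) b j X) 0 := by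
    have h1 := ρ.der_ev_zero hbj X
    have h2 : HasFDerivAt (fun z => fderiv ℝ u z v)
        (fderiv ℝ (fun z => fderiv ℝ u z v)
          (ρ.act (rot j (ev b) (ev_ne hbj) (ev_dot_ev b) 0) X))
        (ρ.act (rot j (ev b) (ev_ne hbj) (ev_dot_ev b) 0) X) :=
      ((hv.differentiable (by norm_num)) _).hasFDerivAt
    have h3 := h2.comp_hasDerivAt (0:ℝ) h1
    rw [rot_zero, ρ.act_one] at h3
    exact h3
  have hRr : HasDerivAt
      (fun t => fderiv ℝ u X (ρ.act (rot j (ev b) (ev_ne hbj) (ev_dot_ev b) (-t)) v))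
      (- fderiv ℝ u X (ρ.gen b j v)) 0 := by
    have h1 := ρ.der_ev hbj v (-0)
    have h2 : HasDerivAt (fun t : ℝ => -t) (-1) 0 := hasDerivAt_neg 0
    have h3 := HasDerivAt.scomp (0:ℝ) h1 h2
    rw [neg_zero, rot_zero, ρ.act_one] at h3
    have h4 := ((fderiv ℝ u X).hasFDerivAt
      (x := ρ.act (rot j (ev b) (ev_ne hbj) (ev_dot_ev b) (-0)) v)).comp_hasDerivAt (0:ℝ) h3
    have h5 : (fderiv ℝ u X) ((-1 : ℝ) • ρ.gen b j v) = - fderiv ℝ u X (ρ.gen b j v) := by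
      rw [neg_one_smul, map_neg]
    rw [h5] at h4
    exact h4
  have h6 : (fun t => fderiv ℝ u (ρ.act (rot j (ev b) (ev_ne hbj) (ev_dot_ev b) t) X) v)
      = fun t => fderiv ℝ u X (ρ.act (rot j (ev b) (ev_ne hbj) (ev_dot_ev b) (-t)) v) := by
    ext t; exact hid t
  rw [h6] at hL
  exact hL.unique hRr

variable [FiniteDimensional ℝ E] [MeasurableSpace E] [BorelSpace E]

omit [MeasurableSpace E] [BorelSpace E] in
/-- the gradient vector -/
theorem sum_gen_sq {α : Type*} [Fintype α] (e : OrthonormalBasis α ℝ E) (L : E →L[ℝ] ℝ)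
    (b j : ι) :
    ∑ p, (L (ρ.gen b j (e p))) ^ 2
      = ‖ρ.gen b j ((InnerProductSpace.toDual ℝ E).symm L)‖ ^ 2 := by
  set g := (InnerProductSpace.toDual ℝ E).symm L with hg
  have hgi : ∀ Z, L Z = inner ℝ g Z := by
    intro Z; rw [hg, InnerProductSpace.toDual_symm_apply]
  rw [← e.sum_sq_norm_inner_left (ρ.gen b j g)]
  refine Finset.sum_congr rfl fun p _ => ?_
  rw [hgi, ρ.gen_skew, Real.norm_eq_abs, sq_abs, neg_sq]

omit [MeasurableSpace E] [BorelSpace E] in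
/-- the angular derivative commutes with the average over a commuting action -/
theorem ang_Pavg (ρ' : Rep ι' E) (h : Comm ρ ρ') (f : E → ℝ) (hf : ContDiff ℝ 1 f) (b j : ι)
    (X : E) : ρ.ang (ρ'.Pavg f) b j X = ρ'.Pavg (ρ.ang f b j) X := by
  unfold ang
  rw [(ρ'.hasFDerivAt_Pavg f hf X).fderiv, ContinuousLinearMap.integral_apply]
  · unfold Pavg
    refine integral_congr_ae ?_
    filter_upwards [ae_det] with O hO
    show fderiv ℝ f (ρ'.act O X) (ρ'.act O (ρ.gen b j X))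
      = fderiv ℝ f (ρ'.act O X) (ρ.gen b j (ρ'.act O X))
    rw [h.gen b j O hO]
  · exact ((ρ'.continuous_dint f hf).comp (Continuous.prodMk_right X)).integrable_of_hasCompactSupport
      (HasCompactSupport.of_compactSpace _)

omit [MeasurableSpace E] [BorelSpace E] in
theorem Pavg_inv_of_comm (ρ' : Rep ι' E) (h : Comm ρ ρ') (f : E → ℝ) (hf : ρ.Inv f) :
    ρ.Inv (ρ'.Pavg f) := by
  intro O hO X
  unfold Pavg
  refine integral_congr_ae ?_
  filter_upwards [ae_det] with O' hO'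
  rw [← h O O' hO hO' X, hf O hO]

omit [MeasurableSpace E] [BorelSpace E] in
theorem Pavg_sq_le (u : E → ℝ) (hu : Continuous u) (X : E) :
    (ρ.Pavg u X) ^ 2 ≤ ρ.Pavg (fun Y => u Y ^ 2) X := by
  have hc : Continuous (fun O : OG ι => u (ρ.act O X)) :=
    hu.comp (ρ.continuous_act'.comp (Continuous.prodMk_right X))
  have h2 := sq_integral_le (nuS (Finset.univ : Finset ι))
    (fun O : OG ι => u (ρ.act O X)) (integrable_of_cont _ _ hc)
    (integrable_of_cont _ _ (hc.pow 2))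
  rw [probReal_univ, one_mul] at h2
  exact h2

/-- the angular energy does not increase under a commuting average -/
theorem setIntegral_ang_le (ρ' : Rep ι' E) (h : Comm ρ ρ') {K : Set E}
    (hKb : Bornology.IsBounded K) (hKinv : ρ'.InvSet K) (f : E → ℝ) (hf : ContDiff ℝ 1 f) :
    ∫ X in K, ∑ b, ∑ j, ρ.ang (ρ'.Pavg f) b j X ^ 2 ≤ ∫ X in K, ∑ b, ∑ j, ρ.ang f b j X ^ 2 := by
  have hcP := ρ'.contDiff_Pavg f hf
  have i1 : ∀ (g : E → ℝ), ContDiff ℝ 1 g → ∀ b j, IntegrableOn (fun X => ρ.ang g b j X ^ 2) K :=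
    fun g hg b j => integrableOn_K hKb _ ((ρ.continuous_ang g hg b j).pow 2)
  have e1 : ∀ (g : E → ℝ), ContDiff ℝ 1 g → ∫ X in K, ∑ b, ∑ j, ρ.ang g b j X ^ 2
      = ∑ b, ∑ j, ∫ X in K, ρ.ang g b j X ^ 2 := by
    intro g hg
    rw [integral_finsetSum _ fun b _ => integrable_finsetSum _ fun j _ => i1 g hg b j]
    refine Finset.sum_congr rfl fun b _ => ?_
    rw [integral_finsetSum _ fun j _ => i1 g hg b j]
  rw [e1 _ hcP, e1 _ hf]
  refine Finset.sum_le_sum fun b _ => Finset.sum_le_sum fun j _ => ?_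
  have hc := ρ.continuous_ang f hf b j
  rw [← ρ'.setIntegral_Pavg hKb hKinv (fun X => ρ.ang f b j X ^ 2) (hc.pow 2)]
  refine setIntegral_mono (i1 _ hcP b j)
    (integrableOn_K hKb _ (ρ'.continuous_Pavg _ (hc.pow 2))) fun X => ?_
  simp only
  rw [ρ.ang_Pavg ρ' h f hf]
  exact ρ'.Pavg_sq_le _ hc X

/-- invariance is preserved by the weighted operator -/
theorem QW_inv {ν : Type*} [Fintype ν] {a : ν → E} {K : Set E} (hKm : MeasurableSet K)
    (hK : ρ.InvSet K)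
    (ha : ∀ O, O.1.det = 1 → ∀ x, qf a (ρ.act O x) = qf a x) {δ : ℝ} (hδ : 0 < δ)
    {σ : E ≃L[ℝ] E} (hσ : Fac a δ σ) {ψ : E → ℝ} (hψ : ρ.Inv ψ) : ρ.Inv (QW K δ σ ψ) := by
  intro O hO x
  have hT := ρ.preimage_li hK O hO
  have hw : ∀ x, wt a (ρ.li O hO x) = wt a x := by
    intro x; unfold wt; rw [ρ.li_apply, ha O hO]
  have h1 : (fun y => BW K δ σ ψ (ρ.li O hO y)) = BW K δ σ ψ := by
    ext y
    rw [BW_eq hδ hKm hσ, BW_eq hδ hKm hσ, ← NN_comp (ρ.li O hO) hT, ← NN_comp (ρ.li O hO) hT]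
    congr 2
    · ext x; rw [hw]; congr 1; exact hψ O hO x
    · ext x; exact hw x
  have h2 := avg_comp (K := univ) (δ := δ) (ρ.li O hO) (by simp) (BW K δ σ ψ) x
  rw [h1] at h2
  show Aop δ (BW K δ σ ψ) (ρ.act O x) = Aop δ (BW K δ σ ψ) x
  rw [← Aop_eq_H84]
  exact h2.symm

end Rep

section multi

variable [FiniteDimensional ℝ E] [MeasurableSpace E] [BorelSpace E]
variable {p : ℕ} {k : Fin p → ℕ} (ρ : ∀ l : Fin p, Rep (Fin (k l)) E)

/-- successive averages -/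
noncomputable def Pl : List (Fin p) → (E → ℝ) → (E → ℝ)
  | [], f => f
  | l :: ls, f => (ρ l).Pavg (Pl ls f)

omit [MeasurableSpace E] [BorelSpace E] in
theorem contDiff_Pl (f : E → ℝ) (hf : ContDiff ℝ 1 f) (ls : List (Fin p)) :
    ContDiff ℝ 1 (Pl ρ ls f) := by
  induction ls with
  | nil => exact hf
  | cons l ls ih => exact (ρ l).contDiff_Pavg _ ih

variable (hcomm : ∀ l l', l ≠ l' → Comm (ρ l) (ρ l'))

include hcomm in
omit [MeasurableSpace E] [BorelSpace E] in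
theorem Pl_inv (f : E → ℝ) (hf : ContDiff ℝ 1 f) (ls : List (Fin p)) :
    ∀ l ∈ ls, (ρ l).Inv (Pl ρ ls f) := by
  induction ls with
  | nil => intro l hl; simp at hl
  | cons l0 ls ih =>
    intro l hl
    by_cases h : l = l0
    · subst h
      exact (ρ l).Pavg_inv _ (contDiff_Pl ρ f hf ls).continuous
    · have hl' : l ∈ ls := by
        rcases List.mem_cons.mp hl with h1 | h1
        · exact absurd h1 h
        · exact h1
      exact (ρ l).Pavg_inv_of_comm (ρ l0) (hcomm l l0 h) _ (ih l hl')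

variable {K : Set E} (hKm : MeasurableSet K) (hKb : Bornology.IsBounded K)
  (hKinv : ∀ l, (ρ l).InvSet K)

include hKb hKinv in
theorem setIntegral_Pl (f : E → ℝ) (hf : ContDiff ℝ 1 f) (ls : List (Fin p)) :
    ∫ X in K, Pl ρ ls f X = ∫ X in K, f X := by
  induction ls with
  | nil => rfl
  | cons l ls ih =>
    rw [← ih]
    exact (ρ l).setIntegral_Pavg hKb (hKinv l) _ (contDiff_Pl ρ f hf ls).continuous

include hKm hKb hKinv in
theorem setIntegral_fderiv_Pl (f : E → ℝ) (hf : ContDiff ℝ 1 f) (ls : List (Fin p)) :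
    ∫ X in K, ‖fderiv ℝ (Pl ρ ls f) X‖ ^ 2 ≤ ∫ X in K, ‖fderiv ℝ f X‖ ^ 2 := by
  induction ls with
  | nil => exact le_rfl
  | cons l ls ih =>
    exact ((ρ l).setIntegral_fderiv_Pavg_le hKm hKb (hKinv l) _ (contDiff_Pl ρ f hf ls)).trans ih

include hcomm hKm hKb hKinv in
theorem setIntegral_ang_Pl (f : E → ℝ) (hf : ContDiff ℝ 1 f) (l' : Fin p)
    (ls : List (Fin p)) (hl' : l' ∉ ls) :
    ∫ X in K, ∑ b, ∑ j, (ρ l').ang (Pl ρ ls f) b j X ^ 2
      ≤ ∫ X in K, ∑ b, ∑ j, (ρ l').ang f b j X ^ 2 := by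
  induction ls with
  | nil => exact le_rfl
  | cons l ls ih =>
    have h1 : l' ≠ l := fun h => hl' (by simp [h])
    have h2 : l' ∉ ls := fun h => hl' (by simp [h])
    exact ((ρ l').setIntegral_ang_le (ρ l) (hcomm l' l h1) hKb (hKinv l) _
      (contDiff_Pl ρ f hf ls)).trans (ih h2)

include hcomm hKm hKb hKinv in
theorem angular_Pl (hk : ∀ l, 1 ≤ k l) (f : E → ℝ) (hf : ContDiff ℝ 1 f) (ls : List (Fin p))
    (hls : ls.Nodup) :
    (∫ X in K, f X ^ 2) - ∫ X in K, (Pl ρ ls f X) ^ 2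
      ≤ (ls.map fun l => Real.pi ^ 2 / (2 * k l)
          * ∫ X in K, ∑ b, ∑ j, (ρ l).ang f b j X ^ 2).sum := by
  induction ls with
  | nil => simp [Pl]
  | cons l ls ih =>
    rw [List.nodup_cons] at hls
    have h1 := ih hls.2
    have h2 := (ρ l).angular hKm hKb (hKinv l) (by simpa using hk l) _ (contDiff_Pl ρ f hf ls)
    have h3 := setIntegral_ang_Pl ρ hcomm hKm hKb hKinv f hf l ls hls.1
    rw [List.map_cons, List.sum_cons]
    simp only [Fintype.card_fin] at h2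
    have h4 : Real.pi ^ 2 / (2 * (k l : ℝ)) *
        (∫ X in K, ∑ b, ∑ j, (ρ l).ang (Pl ρ ls f) b j X ^ 2)
        ≤ Real.pi ^ 2 / (2 * (k l : ℝ)) * ∫ X in K, ∑ b, ∑ j, (ρ l).ang f b j X ^ 2 :=
      mul_le_mul_of_nonneg_left h3 (by positivity)
    have h5 : (∫ X in K, (Pl ρ (l :: ls) f X) ^ 2)
        = ∫ X in K, ((ρ l).Pavg (Pl ρ ls f) X) ^ 2 := rfl
    rw [h5]
    linarith

omit [MeasurableSpace E] [BorelSpace E] in
/-- pointwise second order inequality for invariant functions -/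
theorem pointwise_rep {α : Type*} [Fintype α] (e : OrthonormalBasis α ℝ E)
    {ν : Type*} [Fintype ν] (a : ν → E) (lam : Fin p → ℝ) {κ ℓ : ℝ} (hκ : 0 < κ)
    (hcas : ∀ w : E, ‖w‖ ^ 2 - ℓ * qf a w ≤ ∑ l, lam l * ∑ b, ∑ j, ‖(ρ l).gen b j w‖ ^ 2)
    {u : E → ℝ} (hu1 : ContDiff ℝ 1 u) (hu2 : ∀ v, ContDiff ℝ 1 (fun z => fderiv ℝ u z v))
    (hinv : ∀ l, (ρ l).Inv u) (X : E)
    (hfr : ∀ v : E, κ * ∑ l, lam l * ∑ b, ∑ j, inner ℝ ((ρ l).gen b j X) v ^ 2 ≤ ‖v‖ ^ 2) :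
    κ * (‖fderiv ℝ u X‖ ^ 2 - ℓ * ∑ k, (fderiv ℝ u X (a k)) ^ 2)
        ≤ ∑ i, ‖fderiv ℝ (fun z => fderiv ℝ u z (e i)) X‖ ^ 2 := by
  set G := (InnerProductSpace.toDual ℝ E).symm (fderiv ℝ u X) with hG
  have hGn : ‖G‖ = ‖fderiv ℝ u X‖ := LinearIsometryEquiv.norm_map _ _
  have hGi : ∀ Z, fderiv ℝ u X Z = inner ℝ G Z := by
    intro Z; rw [hG, InnerProductSpace.toDual_symm_apply]
  have h1 : ∑ k, (fderiv ℝ u X (a k)) ^ 2 = qf a G := by
    unfold qf
    refine Finset.sum_congr rfl fun k _ => ?_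
    rw [hGi, real_inner_comm]
  rw [h1, ← hGn]
  refine (mul_le_mul_of_nonneg_left (hcas G) hκ.le).trans ?_
  have h2 : ∀ l b j, ‖(ρ l).gen b j G‖ ^ 2
      = ∑ i, ((ρ l).ang (fun z => fderiv ℝ u z (e i)) b j X) ^ 2 := by
    intro l b j
    rw [hG, ← (ρ l).sum_gen_sq e]
    refine Finset.sum_congr rfl fun i _ => ?_
    rw [(ρ l).second_deriv_orbit (hinv l) hu1 _ (hu2 _), neg_sq]
  simp only [h2]
  have h3 : κ * ∑ l, lam l * ∑ b, ∑ j, ∑ i, ((ρ l).ang (fun z => fderiv ℝ u z (e i)) b j X) ^ 2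
      = ∑ i, κ * ∑ l, lam l * ∑ b, ∑ j, ((ρ l).ang (fun z => fderiv ℝ u z (e i)) b j X) ^ 2 := by
    rw [← Finset.mul_sum]
    congr 1
    rw [Finset.sum_comm (s := (Finset.univ : Finset α))]
    refine Finset.sum_congr rfl fun l _ => ?_
    rw [← Finset.mul_sum]
    congr 1
    rw [Finset.sum_comm (s := (Finset.univ : Finset α))]
    refine Finset.sum_congr rfl fun b _ => ?_
    rw [Finset.sum_comm (s := (Finset.univ : Finset α))]
  rw [h3]
  refine Finset.sum_le_sum fun i _ => ?_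
  set H := (InnerProductSpace.toDual ℝ E).symm (fderiv ℝ (fun z => fderiv ℝ u z (e i)) X) with hH
  have hHn : ‖H‖ = ‖fderiv ℝ (fun z => fderiv ℝ u z (e i)) X‖ := LinearIsometryEquiv.norm_map _ _
  rw [← hHn]
  refine le_trans (le_of_eq ?_) (hfr H)
  congr 1
  refine Finset.sum_congr rfl fun l _ => ?_
  congr 1
  refine Finset.sum_congr rfl fun b _ => Finset.sum_congr rfl fun j _ => ?_
  congr 1
  show fderiv ℝ (fun z => fderiv ℝ u z (e i)) X ((ρ l).gen b j X) = _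
  rw [real_inner_comm, hH, InnerProductSpace.toDual_symm_apply]

/-- removal of a weight between `exp (-1/2)` and one -/
theorem unweight {K : Set E} {R : ℝ} (hK : CB K R) {ν : Type*} [Fintype ν] (a : ν → E)
    (haK : ∀ x ∈ K, qf a x ≤ 1) {Θ : ℝ} (hΘ : 0 ≤ Θ) {g : E → ℝ} (hg : ContDiff ℝ 1 g)
    (h : (∫ x in K, wt a x) * (∫ x in K, g x ^ 2 * wt a x) - (∫ x in K, g x * wt a x) ^ 2
      ≤ Θ * ((∫ x in K, wt a x) * ∫ x in K, ‖fderiv ℝ g x‖ ^ 2 * wt a x)) :
    volume.real K * (∫ x in K, g x ^ 2) - (∫ x in K, g x) ^ 2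
      ≤ 2 * Θ * (volume.real K * ∫ x in K, ‖fderiv ℝ g x‖ ^ 2) := by
  set V := volume.real K with hV
  have hV0 : 0 < V := ENNReal.toReal_pos hK.vol0 hK.lt_top.ne
  have hfin : IsFiniteMeasure (volume.restrict K) := ⟨by simpa using hK.lt_top⟩
  have hcw := Pool.H97.KLSG.continuous_wt a
  have hcg := hg.continuous
  have hcd : Continuous (fderiv ℝ g) := hg.continuous_fderiv one_ne_zero
  set W := ∫ x in K, wt a x with hW
  have i3 : IntegrableOn (fun x => wt a x) K := Pool.H97.KLSG.integrableOn_cont hK hcw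
  have hwlow : ∀ x ∈ K, 1 ≤ 2 * wt a x := by
    intro x hx
    have h1 := haK x hx
    have h2 : Real.exp (-(1/2)) ≤ wt a x := by
      unfold wt
      apply Real.exp_le_exp.mpr
      linarith
    have h3 : (1:ℝ) - 1/2 ≤ Real.exp (-(1/2)) := by
      have := Real.add_one_le_exp (-(1/2 : ℝ))
      linarith
    linarith
  have hW0 : 0 < W := by
    have h1 : ∫ x in K, (1:ℝ) ≤ ∫ x in K, 2 * wt a x :=
      setIntegral_mono_on (integrable_const _) (i3.const_mul _) hK.meas hwlow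
    rw [integral_const, integral_const_mul] at h1
    have h2 : (volume.restrict K).real univ = V := by simp [Measure.real, hV]
    rw [h2, smul_eq_mul, mul_one] at h1
    linarith
  set c := (∫ x in K, g x * wt a x) / W with hc
  have i1 : IntegrableOn (fun x => g x ^ 2 * wt a x) K := Pool.H97.KLSG.i_wt hK a (hcg.pow 2)
  have i2 : IntegrableOn (fun x => g x * wt a x) K := Pool.H97.KLSG.i_wt hK a hcg
  have i4 : IntegrableOn (fun x => (g x - c) ^ 2 * wt a x) K :=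
    Pool.H97.KLSG.i_wt hK a (by fun_prop)
  have i5 : IntegrableOn (fun x => (g x - c) ^ 2) K :=
    Pool.H97.KLSG.integrableOn_cont hK (by fun_prop)
  have i6 : IntegrableOn (fun x => g x ^ 2) K :=
    Pool.H97.KLSG.integrableOn_cont hK (by fun_prop)
  have i7 : IntegrableOn (fun x => g x) K := Pool.H97.KLSG.integrableOn_cont hK hcg
  -- weighted variance
  have w1 : W * ∫ x in K, (g x - c) ^ 2 * wt a x
      = W * (∫ x in K, g x ^ 2 * wt a x) - (∫ x in K, g x * wt a x) ^ 2 := by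
    have e : ∀ x, (g x - c) ^ 2 * wt a x
        = (g x ^ 2 * wt a x - 2 * c * (g x * wt a x)) + c ^ 2 * wt a x := by intro x; ring
    simp only [e]
    have i2' : IntegrableOn (fun x => 2 * c * (g x * wt a x)) K := i2.const_mul _
    have i12 : IntegrableOn (fun x => g x ^ 2 * wt a x - 2 * c * (g x * wt a x)) K := i1.sub i2'
    rw [integral_add i12 (i3.const_mul _), integral_sub i1 i2', integral_const_mul,
      integral_const_mul, ← hW, hc]
    field_simp
    ring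
  have w2 : ∫ x in K, (g x - c) ^ 2 * wt a x
      ≤ Θ * ∫ x in K, ‖fderiv ℝ g x‖ ^ 2 * wt a x := by
    have h1 : W * ∫ x in K, (g x - c) ^ 2 * wt a x
        ≤ W * (Θ * ∫ x in K, ‖fderiv ℝ g x‖ ^ 2 * wt a x) := by
      rw [w1]; linarith
    exact le_of_mul_le_mul_left h1 hW0
  have w3 : ∫ x in K, (g x - c) ^ 2 ≤ 2 * ∫ x in K, (g x - c) ^ 2 * wt a x := by
    rw [← integral_const_mul]
    refine setIntegral_mono_on i5 (i4.const_mul _) hK.meas fun x hx => ?_
    nlinarith [hwlow x hx, sq_nonneg (g x - c)]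
  have w4 : ∫ x in K, ‖fderiv ℝ g x‖ ^ 2 * wt a x ≤ ∫ x in K, ‖fderiv ℝ g x‖ ^ 2 := by
    refine setIntegral_mono (Pool.H97.KLSG.i_wt hK a (by fun_prop))
      (Pool.H97.KLSG.integrableOn_cont hK (by fun_prop)) fun x => ?_
    exact mul_le_of_le_one_right (sq_nonneg _) (Pool.H97.KLSG.wt_le_one a x)
  have w5 : V * (∫ x in K, g x ^ 2) - (∫ x in K, g x) ^ 2
      ≤ V * ∫ x in K, (g x - c) ^ 2 := by
    have e : ∀ x, (g x - c) ^ 2 = (g x ^ 2 - 2 * c * g x) + c ^ 2 := by intro x; ring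
    simp only [e]
    have i7' : IntegrableOn (fun x => 2 * c * g x) K := i7.const_mul _
    have i67 : IntegrableOn (fun x => g x ^ 2 - 2 * c * g x) K := i6.sub i7'
    rw [integral_add i67 (integrable_const _), integral_sub i6 i7', integral_const_mul,
      integral_const]
    have : (volume.restrict K).real univ = V := by simp [Measure.real, hV]
    rw [this, smul_eq_mul]
    nlinarith [sq_nonneg ((∫ x in K, g x) - c * V)]
  have w6 : ∫ x in K, (g x - c) ^ 2 ≤ 2 * (Θ * ∫ x in K, ‖fderiv ℝ g x‖ ^ 2) := by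
    have := mul_le_mul_of_nonneg_left w4 hΘ
    linarith
  have w7 := mul_le_mul_of_nonneg_left w6 hV0.le
  linarith

/-- **General Poincaré inequality** for bounded convex sets invariant under commuting
orthogonal representations of special orthogonal groups, with a Gaussian weight handling
the fixed directions. -/
theorem rep_poincare_gen (hcomm : ∀ l l', l ≠ l' → Comm (ρ l) (ρ l')) (hk : ∀ l, 1 ≤ k l)
    {K : Set E} {R : ℝ} (hK : CB K R) (hKinv : ∀ l, (ρ l).InvSet K)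
    {ν : Type*} [Fintype ν] (a : ν → E) (haK : ∀ x ∈ K, qf a x ≤ 1)
    (ha : ∀ l, ∀ O : OG (Fin (k l)), O.1.det = 1 → ∀ x, qf a ((ρ l).act O x) = qf a x)
    (lam : Fin p → ℝ) {κ ℓ B : ℝ} (hκ : 0 < κ) (hκℓ : κ * ℓ ≤ 1)
    (hcas : ∀ w : E, ‖w‖ ^ 2 - ℓ * qf a w ≤ ∑ l, lam l * ∑ b, ∑ j, ‖(ρ l).gen b j w‖ ^ 2)
    (hfr : ∀ X ∈ K, ∀ v : E, κ * ∑ l, lam l * ∑ b, ∑ j, inner ℝ ((ρ l).gen b j X) v ^ 2
      ≤ ‖v‖ ^ 2)
    (hang : ∀ X ∈ K, ∀ v : E, ∑ l, (1 / (k l : ℝ)) * ∑ b, ∑ j, inner ℝ ((ρ l).gen b j X) v ^ 2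
      ≤ B * ‖v‖ ^ 2) :
    PC K (Real.sqrt (5 * B + 4 / κ)) := by
  have hKm := hK.meas
  have hKb : Bornology.IsBounded K := Metric.isBounded_closedBall.subset hK.sub
  intro f hf
  set V := volume.real K with hV
  have hV0 : 0 < V := ENNReal.toReal_pos hK.vol0 hK.lt_top.ne
  set ls := List.finRange p with hls
  set g := Pl ρ ls f with hgdef
  have hg : ContDiff ℝ 1 g := contDiff_Pl ρ f hf ls
  have hginv : ∀ l, (ρ l).Inv g := fun l => Pl_inv ρ hcomm f hf ls l (List.mem_finRange l)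
  set DF := ∫ x in K, ‖fderiv ℝ f x‖ ^ 2 with hDF
  have hDF0 : 0 ≤ DF := integral_nonneg fun _ => sq_nonneg _
  have hDg : ∫ x in K, ‖fderiv ℝ g x‖ ^ 2 ≤ DF :=
    setIntegral_fderiv_Pl ρ hKm hKb hKinv f hf ls
  have hmean : ∫ x in K, g x = ∫ x in K, f x := setIntegral_Pl ρ hKb hKinv f hf ls
  -- angular part
  have hA := angular_Pl ρ hcomm hKm hKb hKinv hk f hf ls (List.nodup_finRange p)
  rw [← Fin.sum_univ_def] at hA
  have hcont : ∀ l, Continuous (fun X => ∑ b, ∑ j, (ρ l).ang f b j X ^ 2) := fun l =>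
    continuous_finsetSum _ fun b _ => continuous_finsetSum _ fun j _ =>
      ((ρ l).continuous_ang f hf b j).pow 2
  have hA2 : ∑ l, Real.pi ^ 2 / (2 * (k l : ℝ)) * (∫ X in K, ∑ b, ∑ j, (ρ l).ang f b j X ^ 2)
      ≤ Real.pi ^ 2 / 2 * (B * DF) := by
    have e1 : ∑ l, Real.pi ^ 2 / (2 * (k l : ℝ))
        * (∫ X in K, ∑ b, ∑ j, (ρ l).ang f b j X ^ 2)
        = ∫ X in K, Real.pi ^ 2 / 2 * ∑ l, (1 / (k l : ℝ)) * ∑ b, ∑ j, (ρ l).ang f b j X ^ 2 := by
      rw [integral_const_mul, integral_finsetSum, Finset.mul_sum]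
      · refine Finset.sum_congr rfl fun l _ => ?_
        rw [integral_const_mul]
        ring
      · intro l _
        exact (Rep.integrableOn_K hKb _ (hcont l)).const_mul _
    rw [e1, ← mul_assoc, hDF, ← integral_const_mul]
    refine setIntegral_mono_on ?_ ?_ hKm fun X hX => ?_
    · refine Rep.integrableOn_K hKb _ (continuous_const.mul ?_)
      exact continuous_finsetSum _ fun l _ => continuous_const.mul (hcont l)
    · refine Rep.integrableOn_K hKb _ (continuous_const.mul ?_)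
      exact ((hf.continuous_fderiv one_ne_zero).norm).pow 2
    · rw [mul_assoc]
      refine mul_le_mul_of_nonneg_left ?_ (by positivity)
      set v := (InnerProductSpace.toDual ℝ E).symm (fderiv ℝ f X) with hv
      have hvn : ‖v‖ = ‖fderiv ℝ f X‖ := LinearIsometryEquiv.norm_map _ _
      rw [← hvn]
      refine le_trans (le_of_eq ?_) (hang X hX v)
      refine Finset.sum_congr rfl fun l _ => ?_
      congr 1
      refine Finset.sum_congr rfl fun b _ => Finset.sum_congr rfl fun j _ => ?_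
      congr 1
      show fderiv ℝ f X ((ρ l).gen b j X) = _
      rw [real_inner_comm, hv, InnerProductSpace.toDual_symm_apply]
  -- radial part
  have hR0 := Pool.H97.KLSG.weighted_bochner hK (stdOrthonormalBasis ℝ E) a
    (fun u => ∀ l, (ρ l).Inv u) hκ hκℓ
    (fun δ hδ σ hσ ψ _ hψ l => (ρ l).QW_inv hKm (hKinv l) (ha l) hδ hσ (hψ l))
    (fun u hu1 hu2 hinv x hx =>
      pointwise_rep ρ (stdOrthonormalBasis ℝ E) a lam hκ hcas hu1 hu2 hinv x (hfr x hx))
    g hg hginv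
  have hR := unweight hK a haK (by positivity) hg hR0
  have hR' : V * (∫ x in K, g x ^ 2) - (∫ x in K, f x) ^ 2 ≤ 4 / κ * (V * DF) := by
    rw [← hmean]
    refine hR.trans ?_
    have : 2 * (2 / κ) = 4 / κ := by ring
    rw [this]
    exact mul_le_mul_of_nonneg_left (mul_le_mul_of_nonneg_left hDg hV0.le) (by positivity)
  have hpi : Real.pi ^ 2 ≤ 10 := by
    have := Real.pi_lt_d2
    have h0 := Real.pi_pos
    nlinarith
  by_cases hB : 0 ≤ B
  · have hsq : Real.sqrt (5 * B + 4 / κ) ^ 2 = 5 * B + 4 / κ := Real.sq_sqrt (by positivity)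
    rw [hsq]
    have h1 : (∫ x in K, f x ^ 2) - (∫ x in K, g x ^ 2) ≤ 5 * B * DF := by
      refine (hA.trans hA2).trans ?_
      have : 0 ≤ B * DF := mul_nonneg hB hDF0
      nlinarith
    have h2 := mul_le_mul_of_nonneg_left h1 hV0.le
    have h3 : (5 * B + 4 / κ) * (V * DF) = V * (5 * B * DF) + 4 / κ * (V * DF) := by ring
    rw [h3]
    linarith
  · -- the space is trivial
    have hKne : K.Nonempty := by
      by_contra hne
      rw [not_nonempty_iff_eq_empty] at hne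
      exact hK.vol0 (by rw [hne]; simp)
    obtain ⟨x0, hx0⟩ := hKne
    have hz : ∀ v : E, ‖v‖ = 0 := by
      intro v
      have h1 := hang x0 hx0 v
      have h2 : 0 ≤ ∑ l, (1 / (k l : ℝ)) * ∑ b, ∑ j, inner ℝ ((ρ l).gen b j x0) v ^ 2 :=
        Finset.sum_nonneg fun l _ => mul_nonneg (by positivity)
          (Finset.sum_nonneg fun _ _ => Finset.sum_nonneg fun _ _ => sq_nonneg _)
      have h3 : 0 ≤ ‖v‖ ^ 2 := sq_nonneg _
      have hB := not_le.mp hB
      have h4 : ‖v‖ ^ 2 = 0 := by nlinarith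
      exact pow_eq_zero_iff two_ne_zero |>.mp h4
    have hDF' : DF = 0 := by
      rw [hDF]
      have : ∀ x, ‖fderiv ℝ f x‖ ^ 2 = 0 := by
        intro x
        have h1 := LinearIsometryEquiv.norm_map (InnerProductSpace.toDual ℝ E).symm (fderiv ℝ f x)
        rw [← h1, hz]; norm_num
      simp [this]
    have h1 : (∫ x in K, f x ^ 2) - (∫ x in K, g x ^ 2) ≤ 0 := by
      refine (hA.trans hA2).trans ?_
      rw [hDF']; simp
    have h2 := mul_le_mul_of_nonneg_left h1 hV0.le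
    rw [hDF'] at hR' ⊢
    simp only [mul_zero] at hR' h2 ⊢
    linarith

/-- Poincaré inequality for commuting representations without fixed directions. -/
theorem rep_poincare (hcomm : ∀ l l', l ≠ l' → Comm (ρ l) (ρ l')) (hk : ∀ l, 1 ≤ k l)
    {K : Set E} {R : ℝ} (hK : CB K R) (hKinv : ∀ l, (ρ l).InvSet K)
    (lam : Fin p → ℝ) {κ B : ℝ} (hκ : 0 < κ)
    (hcas : ∀ w : E, ‖w‖ ^ 2 ≤ ∑ l, lam l * ∑ b, ∑ j, ‖(ρ l).gen b j w‖ ^ 2)
    (hfr : ∀ X ∈ K, ∀ v : E, κ * ∑ l, lam l * ∑ b, ∑ j, inner ℝ ((ρ l).gen b j X) v ^ 2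
      ≤ ‖v‖ ^ 2)
    (hang : ∀ X ∈ K, ∀ v : E, ∑ l, (1 / (k l : ℝ)) * ∑ b, ∑ j, inner ℝ ((ρ l).gen b j X) v ^ 2
      ≤ B * ‖v‖ ^ 2) :
    PC K (Real.sqrt (5 * B + 4 / κ)) := by
  refine rep_poincare_gen ρ hcomm hk hK hKinv (ν := Empty) (fun x => x.elim) ?_ ?_ lam
    (ℓ := 0) hκ (by simp) ?_ hfr hang
  · intro x _; simp [qf]
  · intro l O _ x; simp [qf]
  · intro w; simpa using hcas w

end multi

section fixed

variable [FiniteDimensional ℝ E] [MeasurableSpace E] [BorelSpace E]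

/-- Poincaré inequality for one representation with fixed directions detected by `P`. -/
theorem rep_poincare_fixed {k : ℕ} (ρ : Rep (Fin k) E) (hk : 1 ≤ k)
    {K : Set E} {R : ℝ} (hK : CB K R) (hKinv : ρ.InvSet K)
    {F : Type*} [NormedAddCommGroup F] [InnerProductSpace ℝ F] [FiniteDimensional ℝ F]
    (P : E →L[ℝ] F) (hP : ∀ O : OG (Fin k), O.1.det = 1 → ∀ x, P (ρ.act O x) = P x)
    {c M s : ℝ} (hc : 0 < c) (hM : 0 < M) (hs : 0 < s)
    (H1 : ∀ w : E, c * (‖w‖ ^ 2 - ‖P w‖ ^ 2) ≤ ∑ b, ∑ j, ‖ρ.gen b j w‖ ^ 2)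
    (H2 : ∀ X ∈ K, ∀ v : E, ∑ b, ∑ j, inner ℝ (ρ.gen b j X) v ^ 2 ≤ M * ‖v‖ ^ 2)
    (H3 : ∀ x ∈ K, ‖P x‖ ≤ s) :
    PC K (Real.sqrt (5 * (M / k) + 4 * (M / c + s ^ 2))) := by
  set f := stdOrthonormalBasis ℝ F with hf
  set a : Fin (Module.finrank ℝ F) → E := fun i =>
    s⁻¹ • ContinuousLinearMap.adjoint P (f i) with ha
  have hqf : ∀ x, qf a x = ‖P x‖ ^ 2 / s ^ 2 := by
    intro x
    unfold qf
    rw [← f.sum_sq_norm_inner_right (P x), Finset.sum_div]
    refine Finset.sum_congr rfl fun i _ => ?_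
    rw [ha]
    simp only
    rw [inner_smul_left, ContinuousLinearMap.adjoint_inner_left, Real.norm_eq_abs, sq_abs]
    simp only [conj_trivial]
    field_simp
  have hkr : (0:ℝ) < k := by exact_mod_cast hk
  have hcs : 0 < M / c + s ^ 2 := by positivity
  have key := rep_poincare_gen (p := 1) (k := fun _ => k) (fun _ => ρ)
    (fun l l' h => absurd (Subsingleton.elim l l') h) (fun _ => hk) hK (fun _ => hKinv) a
    ?_ ?_ (fun _ => 1 / c) (κ := (M / c + s ^ 2)⁻¹) (ℓ := s ^ 2) (B := M / k)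
    (by positivity) ?_ ?_ ?_ ?_
  · have e : 4 / (M / c + s ^ 2)⁻¹ = 4 * (M / c + s ^ 2) := by field_simp
    rw [e] at key
    exact key
  · intro x hx
    rw [hqf, div_le_one (by positivity)]
    exact pow_le_pow_left₀ (norm_nonneg _) (H3 x hx) 2
  · intro l O hO x
    rw [hqf, hqf, hP O hO]
  · rw [inv_mul_eq_div, div_le_one hcs]
    have : 0 < M / c := by positivity
    linarith
  · intro w
    rw [hqf]
    simp only [Finset.univ_unique, Finset.sum_singleton]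
    have h1 := H1 w
    have e : s ^ 2 * (‖P w‖ ^ 2 / s ^ 2) = ‖P w‖ ^ 2 := by field_simp
    rw [e, one_div, inv_mul_eq_div, le_div_iff₀ hc]
    linarith
  · intro X hX v
    simp only [Finset.univ_unique, Finset.sum_singleton]
    have h1 := H2 X hX v
    rw [inv_mul_eq_div, div_le_iff₀ hcs]
    have h2 : 1 / c * ∑ b, ∑ j, inner ℝ (ρ.gen b j X) v ^ 2 ≤ 1 / c * (M * ‖v‖ ^ 2) :=
      mul_le_mul_of_nonneg_left h1 (by positivity)
    have h3 : 1 / c * (M * ‖v‖ ^ 2) = M / c * ‖v‖ ^ 2 := by ring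
    nlinarith [mul_nonneg (sq_nonneg s) (sq_nonneg ‖v‖)]
  · intro X hX v
    simp only [Finset.univ_unique, Finset.sum_singleton]
    have h1 := H2 X hX v
    have h2 : 1 / (k:ℝ) * ∑ b, ∑ j, inner ℝ (ρ.gen b j X) v ^ 2 ≤ 1 / (k:ℝ) * (M * ‖v‖ ^ 2) :=
      mul_le_mul_of_nonneg_left h1 (by positivity)
    have h3 : 1 / (k:ℝ) * (M * ‖v‖ ^ 2) = M / k * ‖v‖ ^ 2 := by ring
    linarith

end fixed

end Pool.H97.KLSR
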