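import Pool.Agent.H97.KlsAngular

set_option autoImplicit false
set_option linter.unusedSectionVars false
set_option linter.unusedSimpArgs false

open MeasureTheory Measure Set TopologicalSpace Matrix

namespace Pool.H97.KLS

variable {m k : ℕ}

/-- `rotL` as a linear map -/
noncomputable def rotLin : Matrix (Fin k) (Fin k) ℝ →ₗ[ℝ] (Mat m k →L[ℝ] Mat m k) where
  toFun A := rotL A
  map_add' A B := by ext1 X; simp [rotX_add_left]
  map_smul' c A := by ext1 X; simp [rotX_smul_left]

theorem continuous_rotL : Continuous (fun O : OG (Fin k) => (rotL O.1 : Mat m k →L[ℝ] Mat m k)) := by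
  have h : Continuous (rotLin : Matrix (Fin k) (Fin k) ℝ →ₗ[ℝ] (Mat m k →L[ℝ] Mat m k)) :=
    LinearMap.continuous_of_finiteDimensional _
  exact h.comp continuous_subtype_val

/-- derivative integrand -/
noncomputable def dint (f : Mat m k → ℝ) (X : Mat m k) (O : OG (Fin k)) : Mat m k →L[ℝ] ℝ :=
  (fderiv ℝ f (rotX O.1 X)).comp (rotL O.1)

theorem continuous_rotX'' : Continuous (fun p : Mat m k × OG (Fin k) => rotX p.2.1 p.1) :=
  continuous_rotX'.comp (continuous_snd.prodMk continuous_fst)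

theorem continuous_dint (f : Mat m k → ℝ) (hf : ContDiff ℝ 1 f) :
    Continuous (fun p : Mat m k × OG (Fin k) => dint f p.1 p.2) := by
  unfold dint
  refine Continuous.clm_comp ?_ (continuous_rotL.comp continuous_snd)
  exact (hf.continuous_fderiv (by norm_num)).comp continuous_rotX''

theorem norm_dint_le (f : Mat m k → ℝ) (X : Mat m k) (O : OG (Fin k)) :
    ‖dint f X O‖ ≤ ‖fderiv ℝ f (rotX O.1 X)‖ := by
  unfold dint
  refine (ContinuousLinearMap.opNorm_comp_le _ _).trans ?_
  calc ‖fderiv ℝ f (rotX O.1 X)‖ * ‖(rotL O.1 : Mat m k →L[ℝ] Mat m k)‖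
      ≤ ‖fderiv ℝ f (rotX O.1 X)‖ * 1 :=
        mul_le_mul_of_nonneg_left (norm_rotL_le O.1 (mul_transpose_self O)) (norm_nonneg _)
    _ = _ := mul_one _

theorem continuous_param' {E : Type*} [NormedAddCommGroup E] [NormedSpace ℝ E]
    (F : Mat m k → OG (Fin k) → E) (hF : Continuous (fun p : Mat m k × OG (Fin k) => F p.1 p.2)) :
    Continuous (fun X => ∫ O, F X O ∂(nuS (Finset.univ : Finset (Fin k)))) := by
  have := continuous_parametric_integral_of_continuous
    (μ := nuS (Finset.univ : Finset (Fin k))) (f := F) hF (s := Set.univ) isCompact_univ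
  simpa using this

theorem hasFDerivAt_Pavg (f : Mat m k → ℝ) (hf : ContDiff ℝ 1 f) (X : Mat m k) :
    HasFDerivAt (Pavg f) (∫ O, dint f X O ∂(nuS (Finset.univ : Finset (Fin k)))) X := by
  have hc := continuous_dint f hf
  obtain ⟨C, hC⟩ := ((isCompact_closedBall X 1).prod
    (isCompact_univ (X := OG (Fin k)))).exists_bound_of_continuousOn hc.continuousOn
  unfold Pavg
  refine hasFDerivAt_integral_of_dominated_of_fderiv_le (F' := fun X O => dint f X O)
    (s := Metric.ball X 1) (bound := fun _ => C) (Metric.ball_mem_nhds X one_pos) ?_ ?_ ?_ ?_ ?_ ?_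
  · refine Filter.Eventually.of_forall (fun Y => ?_)
    exact (hf.continuous.comp (continuous_rotX''.comp (Continuous.prodMk_right Y))).aestronglyMeasurable
  · exact integrable_of_cont _ _
      (hf.continuous.comp (continuous_rotX''.comp (Continuous.prodMk_right X)))
  · exact (hc.comp (Continuous.prodMk_right X)).aestronglyMeasurable
  · refine Filter.Eventually.of_forall (fun O Y hY => ?_)
    exact hC (Y, O) ⟨Metric.ball_subset_closedBall hY, mem_univ _⟩
  · exact integrable_const C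
  · refine Filter.Eventually.of_forall (fun O Y _ => ?_)
    have h1 : HasFDerivAt f (fderiv ℝ f (rotX O.1 Y)) (rotX O.1 Y) :=
      ((hf.differentiable (by norm_num)) _).hasFDerivAt
    have h2 : HasFDerivAt (fun Y : Mat m k => rotX O.1 Y) (rotL O.1) Y := (rotL O.1).hasFDerivAt
    exact h1.comp Y h2

theorem contDiff_Pavg (f : Mat m k → ℝ) (hf : ContDiff ℝ 1 f) : ContDiff ℝ 1 (Pavg f) := by
  rw [contDiff_one_iff_fderiv]
  refine ⟨fun X => (hasFDerivAt_Pavg f hf X).differentiableAt, ?_⟩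
  have : fderiv ℝ (Pavg f) = fun X => ∫ O, dint f X O ∂(nuS (Finset.univ : Finset (Fin k))) := by
    ext1 X; exact (hasFDerivAt_Pavg f hf X).fderiv
  rw [this]
  exact continuous_param' _ (continuous_dint f hf)

theorem norm_fderiv_Pavg_sq_le (f : Mat m k → ℝ) (hf : ContDiff ℝ 1 f) (X : Mat m k) :
    ‖fderiv ℝ (Pavg f) X‖ ^ 2 ≤ Pavg (fun Y => ‖fderiv ℝ f Y‖ ^ 2) X := by
  rw [(hasFDerivAt_Pavg f hf X).fderiv]
  have hcf : Continuous (fun O : OG (Fin k) => ‖fderiv ℝ f (rotX O.1 X)‖) :=
    ((hf.continuous_fderiv (by norm_num)).comp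
      (continuous_rotX''.comp (Continuous.prodMk_right X))).norm
  have h1 : ‖∫ O, dint f X O ∂(nuS (Finset.univ : Finset (Fin k)))‖
      ≤ ∫ O : OG (Fin k), ‖fderiv ℝ f (rotX O.1 X)‖ ∂(nuS (Finset.univ : Finset (Fin k))) := by
    refine norm_integral_le_of_norm_le (integrable_of_cont _ _ hcf)
      (Filter.Eventually.of_forall (fun O => norm_dint_le f X O))
  have h2 := sq_integral_le (nuS (Finset.univ : Finset (Fin k)))
    (fun O : OG (Fin k) => ‖fderiv ℝ f (rotX O.1 X)‖) (integrable_of_cont _ _ hcf)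
    (integrable_of_cont _ _ (hcf.pow 2))
  rw [probReal_univ, one_mul] at h2
  exact (pow_le_pow_left₀ (norm_nonneg _) h1 2).trans h2

section onK

variable (K : Set (Mat m k)) (hKm : MeasurableSet K) (hKb : Bornology.IsBounded K)
  (hKinv : ∀ O ∈ Matrix.orthogonalGroup (Fin k) ℝ, ∀ X ∈ K, rotX O X ∈ K)

include hKb in
theorem integrable_prod_K (F : Mat m k → OG (Fin k) → ℝ)
    (hF : Continuous (fun p : Mat m k × OG (Fin k) => F p.1 p.2)) :
    Integrable (fun p : Mat m k × OG (Fin k) => F p.1 p.2)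
      ((volume.restrict K).prod (nuS (Finset.univ : Finset (Fin k)))) := by
  have h1 : (volume.restrict K).prod (nuS (Finset.univ : Finset (Fin k)))
      = ((volume : Measure (Mat m k)).prod (nuS (Finset.univ : Finset (Fin k)))).restrict
        (K ×ˢ (univ : Set (OG (Fin k)))) := by
    rw [← Measure.prod_restrict, Measure.restrict_univ]
  rw [h1]
  have h2 : IsCompact ((closure K) ×ˢ (univ : Set (OG (Fin k)))) :=
    hKb.isCompact_closure.prod isCompact_univ
  have h3 : IntegrableOn (fun p : Mat m k × OG (Fin k) => F p.1 p.2)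
      ((closure K) ×ˢ (univ : Set (OG (Fin k))))
      ((volume : Measure (Mat m k)).prod (nuS (Finset.univ : Finset (Fin k)))) :=
    hF.continuousOn.integrableOn_compact h2
  exact h3.mono_set (Set.prod_mono subset_closure (Subset.refl _))

include hKb in
theorem integrableOn_K (u : Mat m k → ℝ) (hu : Continuous u) : IntegrableOn u K := by
  have h3 : IntegrableOn u (closure K) := hu.continuousOn.integrableOn_compact hKb.isCompact_closure
  exact h3.mono_set subset_closure

theorem orth_mem (O : OG (Fin k)) : O.1 ∈ Matrix.orthogonalGroup (Fin k) ℝ :=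
  (Matrix.mem_orthogonalGroup_iff (Fin k) ℝ).mpr (mul_transpose_self O)

include hKinv in
theorem preimage_K (O : OG (Fin k)) : (fun X : Mat m k => rotX O.1 X) ⁻¹' K = K := by
  ext X
  constructor
  · intro hX
    have h1 := hKinv (O⁻¹).1 (orth_mem O⁻¹) (rotX O.1 X) hX
    rw [coe_inv, ← rotX_mul, mul_transpose_self, rotX_one] at h1
    exact h1
  · intro hX
    exact hKinv O.1 (orth_mem O) X hX

include hKinv in
theorem setIntegral_rot (u : Mat m k → ℝ) (O : OG (Fin k)) :
    ∫ X in K, u (rotX O.1 X) = ∫ X in K, u X := by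
  have h1 : MeasurePreserving (rotXLI (m := m) O.1 (mul_transpose_self O)) volume volume :=
    LinearIsometryEquiv.measurePreserving _
  have h2 : MeasurableEmbedding (rotXLI (m := m) O.1 (mul_transpose_self O)) :=
    (rotXLI (m := m) O.1 (mul_transpose_self O)).toHomeomorph.measurableEmbedding
  have h3 := h1.setIntegral_preimage_emb h2 u K
  have h4 : (rotXLI (m := m) O.1 (mul_transpose_self O)) ⁻¹' K = K := preimage_K K hKinv O
  rw [h4] at h3
  exact h3

include hKb hKinv in
theorem setIntegral_Pavg (u : Mat m k → ℝ) (hu : Continuous u) :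
    ∫ X in K, Pavg u X = ∫ X in K, u X := by
  unfold Pavg
  have hint := integrable_prod_K K hKb (fun X O => u (rotX O.1 X)) (hu.comp continuous_rotX'')
  rw [integral_integral_swap (f := fun X (O : OG (Fin k)) => u (rotX O.1 X)) hint]
  simp only [setIntegral_rot K hKinv]
  rw [integral_const, probReal_univ, one_smul]

theorem continuous_Pavg (u : Mat m k → ℝ) (hu : Continuous u) : Continuous (Pavg u) :=
  continuous_param' (fun X O => u (rotX O.1 X)) (hu.comp continuous_rotX'')

include hKinv in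
/-- pointwise variance bound on orbits -/
theorem orbit_var_le (hk : 1 ≤ k) (R : ℝ)
    (hR : ∀ X ∈ K, ∀ v : EuclideanSpace ℝ (Fin m), ‖rowComb v X‖ ≤ R * ‖v‖)
    (f : Mat m k → ℝ) (hf : ContDiff ℝ 1 f) (X : Mat m k) (hX : X ∈ K) :
    Pavg (fun Y => f Y ^ 2) X - (Pavg f X) ^ 2
      ≤ 2 * Real.pi ^ 2 * R ^ 2 / k * Pavg (fun Y => ‖fderiv ℝ f Y‖ ^ 2) X := by
  have h1 := so_poincare k (Finset.univ : Finset (Fin k)) (by simp) hk _ _
    (good_of_contDiff f hf X)
  have hcd : ∀ a b, Continuous (fun O : OG (Fin k) => ang f a b (rotX O.1 X) ^ 2) :=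
    fun a b => ((good_of_contDiff f hf X).contD a b).pow 2
  have hcf : Continuous (fun O : OG (Fin k) => ‖fderiv ℝ f (rotX O.1 X)‖ ^ 2) :=
    (((hf.continuous_fderiv (by norm_num)).comp
      (continuous_rotX''.comp (Continuous.prodMk_right X))).norm).pow 2
  have h2 : ∑ a, ∑ b, ∫ O, ang f a b (rotX O.1 X) ^ 2 ∂(nuS (Finset.univ : Finset (Fin k)))
      ≤ 4 * R ^ 2 * Pavg (fun Y => ‖fderiv ℝ f Y‖ ^ 2) X := by
    have e1 : ∑ a, ∑ b, ∫ O, ang f a b (rotX O.1 X) ^ 2 ∂(nuS (Finset.univ : Finset (Fin k)))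
        = ∫ O, ∑ a, ∑ b, ang f a b (rotX O.1 X) ^ 2 ∂(nuS (Finset.univ : Finset (Fin k))) := by
      rw [integral_finsetSum]
      · refine Finset.sum_congr rfl (fun a _ => ?_)
        rw [integral_finsetSum]
        exact fun b _ => integrable_of_cont _ _ (hcd a b)
      · exact fun a _ => integrable_finsetSum _ (fun b _ => integrable_of_cont _ _ (hcd a b))
    rw [e1]
    unfold Pavg
    rw [← integral_const_mul]
    refine integral_mono ?_ ?_ ?_
    · exact integrable_finsetSum _ (fun a _ => integrable_finsetSum _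
        (fun b _ => integrable_of_cont _ _ (hcd a b)))
    · exact (integrable_of_cont _ _ hcf).const_mul _
    · intro O
      exact sum_ang_sq_le f (rotX O.1 X) R (hR _ (hKinv O.1 (orth_mem O) X hX))
  have hkr : (0:ℝ) < k := by exact_mod_cast hk
  calc Pavg (fun Y => f Y ^ 2) X - (Pavg f X) ^ 2
      ≤ Real.pi ^ 2 / (2 * k) * ∑ a, ∑ b, ∫ O, ang f a b (rotX O.1 X) ^ 2
          ∂(nuS (Finset.univ : Finset (Fin k))) := h1
    _ ≤ Real.pi ^ 2 / (2 * k) * (4 * R ^ 2 * Pavg (fun Y => ‖fderiv ℝ f Y‖ ^ 2) X) :=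
        mul_le_mul_of_nonneg_left h2 (by positivity)
    _ = _ := by field_simp; ring

include hKb hKinv hKm in
/-- **M5**: the angular part. -/
theorem angular_poincare (hmk : m < k) (R : ℝ)
    (hR : ∀ X ∈ K, ∀ v : EuclideanSpace ℝ (Fin m), ‖rowComb v X‖ ≤ R * ‖v‖)
    (f : Mat m k → ℝ) (hf : ContDiff ℝ 1 f) :
    ∫ X in K, (f X - Pavg f X) ^ 2 ≤ 2 * Real.pi ^ 2 * R ^ 2 / k * ∫ X in K, ‖fderiv ℝ f X‖ ^ 2 := by
  have hk : 1 ≤ k := by omega
  have hcP : Continuous (Pavg f) := continuous_Pavg f hf.continuous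
  have hcf : Continuous (fun Y => ‖fderiv ℝ f Y‖ ^ 2) :=
    ((hf.continuous_fderiv (by norm_num)).norm).pow 2
  have h1 : ∫ X in K, (f X - Pavg f X) ^ 2 = ∫ X in K, Pavg (fun Y => (f Y - Pavg f Y) ^ 2) X :=
    (setIntegral_Pavg K hKb hKinv _ ((hf.continuous.sub hcP).pow 2)).symm
  have h2 : ∀ X, Pavg (fun Y => (f Y - Pavg f Y) ^ 2) X
      = Pavg (fun Y => f Y ^ 2) X - (Pavg f X) ^ 2 := by
    intro X
    have hcO : Continuous (fun O : OG (Fin k) => f (rotX O.1 X)) :=
      hf.continuous.comp (continuous_rotX''.comp (Continuous.prodMk_right X))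
    unfold Pavg
    have e1 : ∀ᵐ O : OG (Fin k) ∂(nuS (Finset.univ : Finset (Fin k))),
        (f (rotX O.1 X) - ∫ O' : OG (Fin k), f (rotX O'.1 (rotX O.1 X))
          ∂(nuS (Finset.univ : Finset (Fin k)))) ^ 2
        = (f (rotX O.1 X) ^ 2 - (2 * Pavg f X) * f (rotX O.1 X)) + Pavg f X ^ 2 := by
      filter_upwards [ae_mem (HS (Finset.univ : Finset (Fin k))) (isClosed_HS _)] with O hO
      have := Pavg_rot_so f hf.continuous X O ((mem_HS_univ O).mp hO)
      unfold Pavg at this
      rw [this]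
      unfold Pavg
      ring
    have a1 : Integrable (fun O : OG (Fin k) => f (rotX O.1 X) ^ 2)
        (nuS (Finset.univ : Finset (Fin k))) := integrable_of_cont _ _ (hcO.pow 2)
    have a2 : Integrable (fun O : OG (Fin k) => (2 * Pavg f X) * f (rotX O.1 X))
        (nuS (Finset.univ : Finset (Fin k))) := (integrable_of_cont _ _ hcO).const_mul _
    have a3 : Integrable (fun O : OG (Fin k) => f (rotX O.1 X) ^ 2 - (2 * Pavg f X) * f (rotX O.1 X))
        (nuS (Finset.univ : Finset (Fin k))) := a1.sub a2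
    rw [integral_congr_ae e1, integral_add a3 (integrable_const _), integral_sub a1 a2,
      integral_const_mul, integral_const, probReal_univ, one_smul]
    unfold Pavg
    ring
  rw [h1]
  simp only [h2]
  have h3 : ∫ X in K, (Pavg (fun Y => f Y ^ 2) X - (Pavg f X) ^ 2)
      ≤ ∫ X in K, (2 * Real.pi ^ 2 * R ^ 2 / k * Pavg (fun Y => ‖fderiv ℝ f Y‖ ^ 2) X) := by
    refine setIntegral_mono_on ?_ ?_ hKm ?_
    · exact integrableOn_K K hKb _ ((continuous_Pavg _ (hf.continuous.pow 2)).sub (hcP.pow 2))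
    · exact integrableOn_K K hKb _ (continuous_const.mul (continuous_Pavg _ hcf))
    · intro X hX
      exact orbit_var_le K hKinv hk R hR f hf X hX
  refine h3.trans (le_of_eq ?_)
  rw [integral_const_mul, setIntegral_Pavg K hKb hKinv _ hcf]

include hKb hKinv hKm in
theorem setIntegral_fderiv_Pavg_le (f : Mat m k → ℝ) (hf : ContDiff ℝ 1 f) :
    ∫ X in K, ‖fderiv ℝ (Pavg f) X‖ ^ 2 ≤ ∫ X in K, ‖fderiv ℝ f X‖ ^ 2 := by
  have hcf : Continuous (fun Y => ‖fderiv ℝ f Y‖ ^ 2) :=
    ((hf.continuous_fderiv (by norm_num)).norm).pow 2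
  rw [← setIntegral_Pavg K hKb hKinv _ hcf]
  refine setIntegral_mono_on ?_ ?_ hKm ?_
  · exact integrableOn_K K hKb _
      ((((contDiff_Pavg f hf).continuous_fderiv (by norm_num)).norm).pow 2)
  · exact integrableOn_K K hKb _ (continuous_Pavg _ hcf)
  · intro X _
    exact norm_fderiv_Pavg_sq_le f hf X

end onK

end Pool.H97.KLS
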