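import Pool.Agent.H97.KlsBochner
import Pool.Agent.H97.KlsAngular2

set_option autoImplicit false
set_option linter.unusedSectionVars false
set_option linter.unusedSimpArgs false

open MeasureTheory Measure Set TopologicalSpace

namespace Pool.H97.KLSG

open Pool.Agent.H84 (CB Qop kern avg ww cE NN ZZ)

section iso

variable {E : Type*} [NormedAddCommGroup E] [InnerProductSpace ℝ E]
    [FiniteDimensional ℝ E] [MeasurableSpace E] [BorelSpace E]

variable {K : Set E} {R δ : ℝ}

theorem NN_comp (T : E ≃ₗᵢ[ℝ] E) (hT : T ⁻¹' K = K) (ψ : E → ℝ) (y : E) :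
    NN K δ (fun x => ψ (T x)) y = NN K δ ψ (T y) := by
  unfold NN
  have h1 : MeasurePreserving T volume volume := T.measurePreserving
  have h2 : MeasurableEmbedding T := T.toHomeomorph.measurableEmbedding
  have h3 := h1.setIntegral_preimage_emb h2 (fun x => ψ x * kern δ x (T y)) K
  rw [hT] at h3
  rw [← h3]
  refine integral_congr_ae (Filter.Eventually.of_forall (fun x => ?_))
  show ψ (T x) * kern δ x y = ψ (T x) * kern δ (T x) (T y)
  unfold kern
  rw [← map_sub, T.norm_map]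

theorem ZZ_comp (T : E ≃ₗᵢ[ℝ] E) (hT : T ⁻¹' K = K) (y : E) :
    ZZ K δ y = ZZ K δ (T y) := by
  rw [Pool.Agent.H84.ZZ_eq_NN, Pool.Agent.H84.ZZ_eq_NN, ← NN_comp T hT]

theorem avg_comp (T : E ≃ₗᵢ[ℝ] E) (hT : T ⁻¹' K = K) (ψ : E → ℝ) (y : E) :
    avg K δ (fun x => ψ (T x)) y = avg K δ ψ (T y) := by
  unfold avg
  rw [NN_comp T hT, ZZ_comp T hT]

/-- `Q` commutes with isometries preserving `K`. -/
theorem Qop_comp (T : E ≃ₗᵢ[ℝ] E) (hT : T ⁻¹' K = K) (ψ : E → ℝ) (x : E) :
    Qop K δ (fun x => ψ (T x)) x = Qop K δ ψ (T x) := by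
  unfold Qop
  have e : avg K δ (fun x => ψ (T x)) = fun y => avg K δ ψ (T y) := by
    ext y; exact avg_comp T hT ψ y
  rw [e]
  exact avg_comp (K := univ) T (by simp) (avg K δ ψ) x

/-- invariance is preserved by `Q`. -/
theorem Qop_invariant (T : E ≃ₗᵢ[ℝ] E) (hT : T ⁻¹' K = K) (ψ : E → ℝ)
    (hψ : ∀ x, ψ (T x) = ψ x) (x : E) : Qop K δ ψ (T x) = Qop K δ ψ x := by
  rw [← Qop_comp T hT]
  congr 1
  ext y; exact hψ y

end iso

end Pool.H97.KLSG

namespace Pool.H97.KLS

open Pool.Agent.H84 (CB Qop kern avg ww cE NN ZZ)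
open Pool.H97.KLSG (Qop_invariant discrete_bochner contDiff_partial_Qop)

variable {m k : ℕ}

/-- right `SO(k)` invariance of a function -/
def SOInv (u : Mat m k → ℝ) : Prop :=
  ∀ O : OG (Fin k), O.1.det = 1 → ∀ X, u (rotX O.1 X) = u X

/-- right `SO(k)` invariance of a set -/
def SOInvSet (K : Set (Mat m k)) : Prop :=
  ∀ O : OG (Fin k), O.1.det = 1 → ∀ X ∈ K, rotX O.1 X ∈ K

theorem preimage_SO {K : Set (Mat m k)} (hK : SOInvSet K) (O : OG (Fin k)) (hO : O.1.det = 1) :
    (rotXLI (m := m) O.1 (mul_transpose_self O)) ⁻¹' K = K := by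
  ext X
  constructor
  · intro hX
    have hdet : (O⁻¹).1.det = 1 := by rw [coe_inv, Matrix.det_transpose, hO]
    have h1 := hK O⁻¹ hdet (rotX O.1 X) hX
    rw [coe_inv, ← rotX_mul, mul_transpose_self, rotX_one] at h1
    exact h1
  · intro hX
    exact hK O hO X hX

theorem SOInv.Qop {K : Set (Mat m k)} (hK : SOInvSet K) {δ : ℝ} {ψ : Mat m k → ℝ}
    (hψ : SOInv ψ) : SOInv (Qop K δ ψ) := by
  intro O hO X
  exact Qop_invariant (rotXLI (m := m) O.1 (mul_transpose_self O)) (preimage_SO hK O hO) ψ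
    (fun x => hψ O hO x) X

/-- first derivative of an invariant function along the orbit -/
theorem fderiv_equivariant {u : Mat m k → ℝ} (hu : SOInv u) (hd : Differentiable ℝ u)
    (O : OG (Fin k)) (hO : O.1.det = 1) (X v : Mat m k) :
    fderiv ℝ u (rotX O.1 X) (rotX O.1 v) = fderiv ℝ u X v := by
  have h1 : (fun Y => u (rotX O.1 Y)) = u := by
    ext Y; exact hu O hO Y
  have h2 : HasFDerivAt (fun Y => u (rotX O.1 Y))
      ((fderiv ℝ u (rotX O.1 X)).comp (rotL O.1)) X := by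
    have h3 : HasFDerivAt u (fderiv ℝ u (rotX O.1 X)) (rotX O.1 X) := (hd _).hasFDerivAt
    have h4 : HasFDerivAt (fun Y : Mat m k => rotX O.1 Y) (rotL O.1) X := (rotL O.1).hasFDerivAt
    exact h3.comp X h4
  rw [h1] at h2
  rw [h2.fderiv]
  rfl

theorem rotM_neg_mulVec (j : Fin k) (w : Fin k → ℝ) (hj : w j = 0) (hw : w ⬝ᵥ w = 1) (t : ℝ) :
    rotM j w (-t) * rotM j w t = 1 := by
  rw [rotM_mul j w hj hw, neg_add_cancel, rotM_zero]

/-- second derivative of an invariant function along the orbit -/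
theorem second_deriv_orbit {u : Mat m k → ℝ} (hu : SOInv u) (hd : ContDiff ℝ 1 u)
    (v : Mat m k) (hv : ContDiff ℝ 1 (fun z => fderiv ℝ u z v)) (b j : Fin k) (hbj : b ≠ j)
    (X : Mat m k) :
    ang (fun z => fderiv ℝ u z v) b j X = - fderiv ℝ u X (rotX (Em j (ev b)) v) := by
  have hj0 : ev b j = 0 := by simp [ev, hbj.symm]
  -- the identity along the curve
  have hid : ∀ t : ℝ, fderiv ℝ u (rotX (rotM j (ev b) t) X) v
      = fderiv ℝ u X (rotX (rotM j (ev b) (-t)) v) := by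
    intro t
    have h1 := fderiv_equivariant hu (hd.differentiable (by norm_num))
      (rot j (ev b) hj0 (ev_dot_ev b) t) (rotM_det j _ hj0 (ev_dot_ev b) t) X
      (rotX (rotM j (ev b) (-t)) v)
    have h2 : rotX (rot j (ev b) hj0 (ev_dot_ev b) t).1 (rotX (rotM j (ev b) (-t)) v) = v := by
      show rotX (rotM j (ev b) t) (rotX (rotM j (ev b) (-t)) v) = v
      rw [← rotX_mul, rotM_neg_mulVec j _ hj0 (ev_dot_ev b), rotX_one]
    rw [h2] at h1
    exact h1
  -- left derivative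
  have hL : HasDerivAt (fun t => fderiv ℝ u (rotX (rotM j (ev b) t) X) v)
      (ang (fun z => fderiv ℝ u z v) b j X) 0 := by
    have h1 := hasDerivAt_rotX (m := m) j (ev b) hj0 (ev_dot_ev b) X 0
    rw [rotM_zero, rotX_one] at h1
    have h2 : HasFDerivAt (fun z => fderiv ℝ u z v)
        (fderiv ℝ (fun z => fderiv ℝ u z v) (rotX (rotM j (ev b) 0) X))
        (rotX (rotM j (ev b) 0) X) :=
      ((hv.differentiable (by norm_num)) _).hasFDerivAt
    have h3 := h2.comp_hasDerivAt (0:ℝ) h1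
    rw [rotM_zero, rotX_one] at h3
    exact h3
  have hRr : HasDerivAt (fun t => fderiv ℝ u X (rotX (rotM j (ev b) (-t)) v))
      (- fderiv ℝ u X (rotX (Em j (ev b)) v)) 0 := by
    have h1 := hasDerivAt_rotX (m := m) j (ev b) hj0 (ev_dot_ev b) v (-0)
    have h2 : HasDerivAt (fun t : ℝ => -t) (-1) 0 := hasDerivAt_neg 0
    have h3 := HasDerivAt.scomp (0:ℝ) h1 h2
    rw [neg_zero, rotM_zero, rotX_one] at h3
    have h4 := ((fderiv ℝ u X).hasFDerivAt (x := rotX (rotM j (ev b) (-0)) v)).comp_hasDerivAt (0:ℝ) h3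
    have h5 : (fderiv ℝ u X) ((-1 : ℝ) • rotX (Em j (ev b)) v)
        = - fderiv ℝ u X (rotX (Em j (ev b)) v) := by
      rw [neg_one_smul, map_neg]
    rw [h5] at h4
    exact h4
  have h6 : (fun t => fderiv ℝ u (rotX (rotM j (ev b) t) X) v)
      = fun t => fderiv ℝ u X (rotX (rotM j (ev b) (-t)) v) := by
    ext t; exact hid t
  rw [h6] at hL
  exact hL.unique hRr

/-- the standard orthonormal basis of `Mat m k` -/
noncomputable abbrev matBasis (m k : ℕ) : OrthonormalBasis (Fin m × Fin k) ℝ (Mat m k) :=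
  EuclideanSpace.basisFun (Fin m × Fin k) ℝ

theorem rotX_Em_basis (b j : Fin k) (i : Fin m) (l : Fin k) :
    rotX (Em j (ev b)) (matBasis m k (i, l))
      = (if l = b then (1:ℝ) else 0) • matBasis m k (i, j)
        - (if l = j then (1:ℝ) else 0) • matBasis m k (i, b) := by
  ext p
  obtain ⟨i', q⟩ := p
  simp only [rotX_apply, matBasis, EuclideanSpace.basisFun_apply, PiLp.single_apply,
    PiLp.sub_apply, PiLp.smul_apply, smul_eq_mul, Em, Matrix.sub_apply, Matrix.vecMulVec_apply,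
    ev, Pi.single_apply, Prod.mk.injEq]
  rw [Finset.sum_eq_single l]
  · by_cases h1 : i' = i <;> by_cases h2 : l = b <;> by_cases h3 : l = j <;>
      by_cases h4 : q = j <;> by_cases h5 : q = b <;> simp [h1, h2, h3, h4, h5]
  · intro c _ hc
    simp [hc]
  · intro h; exact absurd (Finset.mem_univ l) h

/-- the Casimir computation -/
theorem casimir (L : Mat m k →L[ℝ] ℝ) :
    ∑ b, ∑ j, ∑ p, (L (rotX (Em j (ev b)) (matBasis m k p))) ^ 2
      = 2 * ((k : ℝ) - 1) * ‖L‖ ^ 2 := by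
  rw [Pool.H97.KLSG.norm_sq_dual (matBasis m k) L]
  have h1 : ∀ b j : Fin k, ∑ p : Fin m × Fin k, (L (rotX (Em j (ev b)) (matBasis m k p))) ^ 2
      = if b = j then 0 else ∑ i, ((L (matBasis m k (i, j))) ^ 2 + (L (matBasis m k (i, b))) ^ 2) := by
    intro b j
    rw [Fintype.sum_prod_type]
    split_ifs with hbj
    · subst hbj
      refine Finset.sum_eq_zero (fun i _ => Finset.sum_eq_zero (fun l _ => ?_))
      rw [rotX_Em_basis, sub_self, map_zero]; simp
    · refine Finset.sum_congr rfl (fun i _ => ?_)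
      have h2 : ∀ l, (L (rotX (Em j (ev b)) (matBasis m k (i, l)))) ^ 2
          = (if l = b then (L (matBasis m k (i, j))) ^ 2 else 0)
            + (if l = j then (L (matBasis m k (i, b))) ^ 2 else 0) := by
        intro l
        rw [rotX_Em_basis, map_sub, map_smul, map_smul, smul_eq_mul, smul_eq_mul]
        by_cases h3 : l = b
        · have h4 : l ≠ j := fun h => hbj (h3.symm.trans h)
          simp [h3, hbj]
        · by_cases h4 : l = j
          · have : ¬ (j = b) := fun h => hbj h.symm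
            simp [h4, this]
          · simp [h3, h4]
      simp only [h2]
      rw [Finset.sum_add_distrib, Finset.sum_ite_eq', Finset.sum_ite_eq']
      simp
  simp only [h1]
  have h3 : ∀ b : Fin k, ∑ j, (if b = j then (0:ℝ) else
      ∑ i, ((L (matBasis m k (i, j))) ^ 2 + (L (matBasis m k (i, b))) ^ 2))
      = (∑ j, ∑ i, (L (matBasis m k (i, j))) ^ 2)
        + ((k : ℝ) - 2) * ∑ i, (L (matBasis m k (i, b))) ^ 2 := by
    intro b
    have h4 : ∀ j : Fin k, (if b = j then (0:ℝ) else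
        ∑ i, ((L (matBasis m k (i, j))) ^ 2 + (L (matBasis m k (i, b))) ^ 2))
        = (∑ i, ((L (matBasis m k (i, j))) ^ 2 + (L (matBasis m k (i, b))) ^ 2))
          - (if b = j then 2 * ∑ i, (L (matBasis m k (i, b))) ^ 2 else 0) := by
      intro j
      split_ifs with h
      · subst h
        rw [Finset.sum_add_distrib]; ring
      · ring
    simp only [h4]
    rw [Finset.sum_sub_distrib, Finset.sum_ite_eq]
    simp only [Finset.mem_univ, if_true, Finset.sum_add_distrib, Finset.sum_const,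
      Finset.card_univ, Fintype.card_fin, nsmul_eq_mul]
    ring
  simp only [h3]
  rw [Finset.sum_add_distrib, ← Finset.mul_sum, Finset.sum_const, Finset.card_univ,
    Fintype.card_fin, nsmul_eq_mul, Fintype.sum_prod_type]
  rw [Finset.sum_comm (f := fun (j : Fin k) (i : Fin m) => (L (matBasis m k (i, j))) ^ 2)]
  ring

/-- **Pointwise second order inequality** for `SO(k)`-invariant functions. -/
theorem pointwise_bochner {u : Mat m k → ℝ} (hu : SOInv u) (hd : ContDiff ℝ 1 u)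
    (hv : ∀ v, ContDiff ℝ 1 (fun z => fderiv ℝ u z v)) (X : Mat m k) (R : ℝ)
    (hX : ∀ v : EuclideanSpace ℝ (Fin m), ‖rowComb v X‖ ≤ R * ‖v‖) :
    2 * ((k : ℝ) - 1) * ‖fderiv ℝ u X‖ ^ 2
      ≤ 4 * R ^ 2 * ∑ p, ‖fderiv ℝ (fun z => fderiv ℝ u z (matBasis m k p)) X‖ ^ 2 := by
  rw [← casimir, Finset.mul_sum]
  have h1 : ∀ b j : Fin k, ∀ p, (fderiv ℝ u X (rotX (Em j (ev b)) (matBasis m k p))) ^ 2
      = ang (fun z => fderiv ℝ u z (matBasis m k p)) b j X ^ 2 := by
    intro b j p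
    by_cases hbj : b = j
    · subst hbj
      simp [ang, Em_self, rotX_zero_mat]
    · rw [second_deriv_orbit hu hd _ (hv _) b j hbj X]; ring
  simp only [h1]
  have h2 : ∑ b : Fin k, ∑ j : Fin k, ∑ p, ang (fun z => fderiv ℝ u z (matBasis m k p)) b j X ^ 2
      = ∑ p, ∑ b : Fin k, ∑ j : Fin k, ang (fun z => fderiv ℝ u z (matBasis m k p)) b j X ^ 2 := by
    rw [Finset.sum_congr rfl (fun b _ => Finset.sum_comm), Finset.sum_comm]
  rw [h2]
  refine Finset.sum_le_sum (fun p _ => ?_)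
  exact sum_ang_sq_le _ X R hX

/-- **Radial Poincaré inequality**: `SO(k)`-invariant functions, all `m`. -/
theorem radial_poincare (hk : 2 ≤ k) {K : Set (Mat m k)} {R0 : ℝ} (hK : CB K R0)
    (hKinv : SOInvSet K) {R : ℝ} (hR0 : 0 < R)
    (hR : ∀ X ∈ K, ∀ v : EuclideanSpace ℝ (Fin m), ‖rowComb v X‖ ≤ R * ‖v‖)
    (g : Mat m k → ℝ) (hg : ContDiff ℝ 1 g) (hginv : SOInv g) :
    volume.real K * (∫ X in K, g X ^ 2) - (∫ X in K, g X) ^ 2
      ≤ 4 * R ^ 2 / ((k : ℝ) - 1) * (volume.real K * ∫ X in K, ‖fderiv ℝ g X‖ ^ 2) := by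
  have hk1 : (0:ℝ) < (k : ℝ) - 1 := by
    have : (2:ℝ) ≤ k := by exact_mod_cast hk
    linarith
  have key := discrete_bochner hK (matBasis m k) SOInv (κ := ((k : ℝ) - 1) / (2 * R ^ 2))
    (by positivity) (fun δ _ ψ _ hψ => SOInv.Qop hKinv hψ) ?_ g hg hginv
  · refine key.trans (le_of_eq ?_)
    congr 1
    field_simp
    norm_num
  · intro δ hδ ψ hψ hinv
    have hb : Pool.Agent.H84.BM K ψ := hK.bm_of_cont hψ.continuous
    have hQ : ContDiff ℝ 1 (Qop K δ ψ) := Pool.Agent.H84.contDiff_Qop hδ hK hb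
    have hc1 : Continuous (fun x => ‖fderiv ℝ (Qop K δ ψ) x‖ ^ 2) := by
      have := hQ.continuous_fderiv one_ne_zero
      fun_prop
    have hc2 : Continuous (fun x =>
        ∑ p, ‖fderiv ℝ (fun z => fderiv ℝ (Qop K δ ψ) z (matBasis m k p)) x‖ ^ 2) := by
      refine continuous_finsetSum _ (fun p _ => ?_)
      have := (contDiff_partial_Qop hδ hK hb (matBasis m k p)).continuous_fderiv one_ne_zero
      fun_prop
    rw [← integral_const_mul]
    refine setIntegral_mono_on ((Pool.H97.KLSG.integrableOn_cont hK hc1).const_mul _)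
      (Pool.H97.KLSG.integrableOn_cont hK hc2) hK.meas (fun X hX => ?_)
    have h1 := pointwise_bochner (SOInv.Qop hKinv hinv (δ := δ)) hQ
      (fun v => contDiff_partial_Qop hδ hK hb v) X R (hR X hX)
    rw [div_mul_eq_mul_div, div_le_iff₀ (by positivity)]
    linarith

end Pool.H97.KLS
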