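import Pool.Agent.H97.KlsWBochner
import Pool.Agent.H97.KlsRadial

set_option autoImplicit false
set_option linter.unusedSectionVars false
set_option linter.unusedSimpArgs false

open MeasureTheory Measure Set TopologicalSpace

namespace Pool.H97.KLSG

open Pool.Agent.H84 (CB Qop kern avg ww cE NN ZZ)

variable {E : Type*} [NormedAddCommGroup E] [InnerProductSpace ℝ E]
    [FiniteDimensional ℝ E] [MeasurableSpace E] [BorelSpace E]
variable {ι : Type*} [Fintype ι] {ν : Type*} [Fintype ν]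
variable {K : Set E} {R δ : ℝ} {a : ν → E} {σ : E ≃L[ℝ] E}

/-- `QW` commutes with isometries preserving the set and the weight. -/
theorem QW_comp (hKm : MeasurableSet K) (hδ : 0 < δ) (hσ : Fac a δ σ) (T : E ≃ₗᵢ[ℝ] E)
    (hT : T ⁻¹' K = K) (ha : ∀ x, qf a (T x) = qf a x) (ψ : E → ℝ) (x : E) :
    QW K δ σ (fun z => ψ (T z)) x = QW K δ σ ψ (T x) := by
  have hw : ∀ x, wt a (T x) = wt a x := by
    intro x; unfold wt; rw [ha]
  have h1 : BW K δ σ (fun z => ψ (T z)) = fun y => BW K δ σ ψ (T y) := by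
    ext y
    rw [BW_eq hδ hKm hσ, BW_eq hδ hKm hσ, ← NN_comp T hT, ← NN_comp T hT]
    congr 2
    · ext z; rw [hw]
    · ext z; exact (hw z).symm
  have h2 := avg_comp (K := univ) (δ := δ) T (by simp) (BW K δ σ ψ) x
  show Aop δ (BW K δ σ (fun z => ψ (T z))) x = Aop δ (BW K δ σ ψ) (T x)
  rw [h1, ← Aop_eq_H84, ← Aop_eq_H84]
  exact h2

theorem QW_invariant (hKm : MeasurableSet K) (hδ : 0 < δ) (hσ : Fac a δ σ) (T : E ≃ₗᵢ[ℝ] E)
    (hT : T ⁻¹' K = K) (ha : ∀ x, qf a (T x) = qf a x) (ψ : E → ℝ)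
    (hψ : ∀ x, ψ (T x) = ψ x) (x : E) : QW K δ σ ψ (T x) = QW K δ σ ψ x := by
  rw [← QW_comp hKm hδ hσ T hT ha]
  congr 1
  ext y; exact hψ y

/-- **Weighted discrete Bochner theorem**, integrated hypothesis. -/
theorem weighted_bochner_int (hK : CB K R) (b : OrthonormalBasis ι ℝ E) (a : ν → E)
    (P : (E → ℝ) → Prop) {κ ℓ : ℝ} (hκ : 0 < κ) (hκℓ : κ * ℓ ≤ 1)
    (hPQ : ∀ δ : ℝ, 0 < δ → ∀ σ : E ≃L[ℝ] E, Fac a δ σ → ∀ ψ : E → ℝ, ContDiff ℝ 1 ψ → P ψ →
      P (QW K δ σ ψ))
    (hP : ∀ u : E → ℝ, ContDiff ℝ 1 u → (∀ v, ContDiff ℝ 1 (fun z => fderiv ℝ u z v)) → P u →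
      κ * ((∫ x in K, ‖fderiv ℝ u x‖ ^ 2 * wt a x)
          - ℓ * ∫ x in K, (∑ k, (fderiv ℝ u x (a k)) ^ 2) * wt a x)
        ≤ ∫ x in K, (∑ i, ‖fderiv ℝ (fun z => fderiv ℝ u z (b i)) x‖ ^ 2) * wt a x)
    (f : E → ℝ) (hf : ContDiff ℝ 1 f) (hPf : P f) :
    (∫ x in K, wt a x) * (∫ x in K, f x ^ 2 * wt a x) - (∫ x in K, f x * wt a x) ^ 2
      ≤ 2 / κ * ((∫ x in K, wt a x) * ∫ x in K, ‖fderiv ℝ f x‖ ^ 2 * wt a x) := by
  obtain ⟨C, hC0, hC⟩ := crudeW hK a
  set W := ∫ x in K, wt a x with hWdef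
  have hV : 0 ≤ W := integral_nonneg fun x => (wt_pos a x).le
  set E0 := ∫ x in K, ‖fderiv ℝ f x‖ ^ 2 * wt a x with hE0
  have hE00 : 0 ≤ E0 := integral_nonneg (fun x => mul_nonneg (sq_nonneg _) (wt_pos a x).le)
  -- for each δ
  have main : ∀ δ : ℝ, 0 < δ → W * (∫ x in K, f x ^ 2 * wt a x) - (∫ x in K, f x * wt a x) ^ 2
      ≤ W * (2 * (1 / κ + δ ^ 2) * E0) := by
    intro δ hδ
    obtain ⟨σ, hσ⟩ := exists_fac a δ
    set F : ℕ → E → ℝ := fun j => (QW K δ σ)^[j] f with hF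
    have hF0 : F 0 = f := rfl
    have hFs : ∀ j, F (j + 1) = QW K δ σ (F j) := by
      intro j; simp only [hF]; rw [Function.iterate_succ_apply']
    have hFc : ∀ j, ContDiff ℝ 1 (F j) ∧ P (F j) := by
      intro j
      induction j with
      | zero => exact ⟨hf, hPf⟩
      | succ j ih =>
        rw [hFs]
        exact ⟨contDiff_QW hδ hK σ (hK.bm_of_cont ih.1.continuous), hPQ δ hδ σ hσ _ ih.1 ih.2⟩
    set e : ℕ → ℝ := fun j => ∫ x in K, en σ (F j) x * wt a x with he
    have he0 : e 0 ≤ E0 := by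
      refine setIntegral_mono (i_wt hK a (continuous_en hf)) (i_wt hK a ?_) fun x => ?_
      · have := hf.continuous_fderiv one_ne_zero
        fun_prop
      · exact mul_le_mul_of_nonneg_right (en_le hσ _ x) (wt_pos a x).le
    have henn : ∀ j, 0 ≤ e j :=
      fun j => integral_nonneg (fun x => mul_nonneg (en_nonneg _ _) (wt_pos a x).le)
    have hdec : ∀ j, (1 + κ * δ ^ 2) * e (j + 1) ≤ e j := by
      intro j
      have h1 := second_orderW hδ hK hσ (hFc j).1 b
      rw [← hFs] at h1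
      have hbj : Pool.Agent.H84.BM K (F j) := hK.bm_of_cont (hFc j).1.continuous
      have h2 : ∀ v, ContDiff ℝ 1 (fun z => fderiv ℝ (F (j + 1)) z v) := by
        intro v; rw [hFs]; exact contDiff_partial_QW hδ hK σ hbj v
      refine le_trans ?_ h1
      simp only [he]
      have hd1 := (hFc (j + 1)).1.continuous_fderiv one_ne_zero
      have d2 : ∀ i, Continuous (fderiv ℝ (fun z => fderiv ℝ (F (j+1)) z (b i))) :=
        fun i => (h2 (b i)).continuous_fderiv one_ne_zero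
      have d3 : ∀ k, Continuous (fun x => fderiv ℝ (F (j+1)) x (a k)) := fun k =>
        hd1.clm_apply continuous_const
      have c1 : Continuous (fun x => ‖fderiv ℝ (F (j+1)) x‖ ^ 2) := hd1.norm.pow 2
      have c2 : Continuous (fun x =>
          ∑ i, ‖fderiv ℝ (fun z => fderiv ℝ (F (j+1)) z (b i)) x‖ ^ 2) :=
        continuous_finsetSum _ fun i _ => (d2 i).norm.pow 2
      have c3 : Continuous (fun x => ∑ k, (fderiv ℝ (F (j+1)) x (a k)) ^ 2) :=
        continuous_finsetSum _ fun k _ => (d3 k).pow 2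
      have j1 := i_wt hK a c1
      have j2 := i_wt hK a c2
      have j3 := i_wt hK a c3
      set I1 := ∫ x in K, ‖fderiv ℝ (F (j+1)) x‖ ^ 2 * wt a x with hI1
      set I2 := ∫ x in K, (∑ i, ‖fderiv ℝ (fun z => fderiv ℝ (F (j+1)) z (b i)) x‖ ^ 2)
        * wt a x with hI2
      set I3 := ∫ x in K, (∑ k, (fderiv ℝ (F (j+1)) x (a k)) ^ 2) * wt a x with hI3
      have hsplit : ∫ x in K, (‖fderiv ℝ (F (j+1)) x‖ ^ 2
          + δ ^ 2 * ∑ i, ‖fderiv ℝ (fun z => fderiv ℝ (F (j+1)) z (b i)) x‖ ^ 2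
          + δ ^ 2 * ∑ k, (fderiv ℝ (F (j+1)) x (a k)) ^ 2) * wt a x
          = I1 + δ ^ 2 * I2 + δ ^ 2 * I3 := by
        have j12 : IntegrableOn (fun x => ‖fderiv ℝ (F (j+1)) x‖ ^ 2 * wt a x
            + δ ^ 2 * ((∑ i, ‖fderiv ℝ (fun z => fderiv ℝ (F (j+1)) z (b i)) x‖ ^ 2) * wt a x)) K :=
          j1.add (j2.const_mul _)
        rw [hI1, hI2, hI3, ← integral_const_mul, ← integral_const_mul,
          ← integral_add j1 (j2.const_mul _), ← integral_add j12 (j3.const_mul _)]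
        refine integral_congr_ae (Filter.Eventually.of_forall fun x => ?_)
        simp only
        ring
      rw [hsplit]
      have hI30 : 0 ≤ I3 := integral_nonneg fun x => mul_nonneg
        (Finset.sum_nonneg fun _ _ => sq_nonneg _) (wt_pos a x).le
      have h3 := hP _ (hFc (j+1)).1 h2 (hFc (j+1)).2
      have h4 : ∫ x in K, en σ (F (j+1)) x * wt a x ≤ I1 := by
        refine setIntegral_mono (i_wt hK a (continuous_en (hFc (j+1)).1)) j1 fun x => ?_
        exact mul_le_mul_of_nonneg_right (en_le hσ _ x) (wt_pos a x).le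
      have h6 := mul_le_mul_of_nonneg_left h3 (by positivity : 0 ≤ δ ^ 2)
      have h7 : κ * ℓ * I3 ≤ 1 * I3 := mul_le_mul_of_nonneg_right hκℓ hI30
      have h8 := mul_le_mul_of_nonneg_left h7 (by positivity : 0 ≤ δ ^ 2)
      have h9 := mul_le_mul_of_nonneg_left h4 (by positivity : 0 ≤ 1 + κ * δ ^ 2)
      linarith
    set q : ℝ := (1 + κ * δ ^ 2)⁻¹ with hq
    have hqp : 0 < 1 + κ * δ ^ 2 := by positivity
    have hq0 : 0 < q := inv_pos.mpr hqp
    have hq1 : q < 1 := by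
      rw [hq]; exact inv_lt_one_of_one_lt₀ (by have : 0 < κ * δ ^ 2 := by positivity
                                               linarith)
    have hle : ∀ j, e j ≤ q ^ j * E0 := by
      intro j
      induction j with
      | zero => simpa using he0
      | succ j ih =>
        have h1 := hdec j
        have h2 : e (j + 1) ≤ q * e j := by
          rw [hq, inv_mul_eq_div, le_div_iff₀ hqp]; linarith
        calc e (j + 1) ≤ q * e j := h2
          _ ≤ q * (q ^ j * E0) := mul_le_mul_of_nonneg_left ih hq0.le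
          _ = _ := by ring
    -- L² telescoping
    have htel : ∀ n : ℕ, (∫ x in K, f x ^ 2 * wt a x) - (∫ x in K, (F n x) ^ 2 * wt a x)
        ≤ 2 * δ ^ 2 * ∑ j ∈ Finset.range n, e j := by
      intro n
      induction n with
      | zero => simp [hF0]
      | succ n ih =>
        have h1 := one_stepW hδ hK hσ (hFc n).1
        rw [← hFs] at h1
        rw [Finset.sum_range_succ]
        simp only [he] at ih ⊢
        linarith
    have hsum : ∀ n : ℕ, ∑ j ∈ Finset.range n, e j ≤ E0 / (1 - q) := by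
      intro n
      have h1 : ∑ j ∈ Finset.range n, e j ≤ ∑ j ∈ Finset.range n, q ^ j * E0 :=
        Finset.sum_le_sum (fun j _ => hle j)
      refine h1.trans ?_
      rw [← Finset.sum_mul, geom_sum_eq hq1.ne, div_mul_eq_mul_div,
        ← neg_div_neg_eq (a := (q ^ n - 1) * E0)]
      have h2 : -(q - 1) = 1 - q := by ring
      rw [h2]
      refine div_le_div_of_nonneg_right ?_ (by linarith)
      have h3 : 0 ≤ q ^ n := by positivity
      nlinarith
    have hq2 : 2 * δ ^ 2 * (E0 / (1 - q)) = 2 * (1 / κ + δ ^ 2) * E0 := by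
      have h1 : 1 - q = κ * δ ^ 2 / (1 + κ * δ ^ 2) := by
        rw [hq]; field_simp; ring
      rw [h1]
      field_simp
    -- means
    have hmean : ∀ n, ∫ x in K, F n x * wt a x = ∫ x in K, f x * wt a x := by
      intro n
      induction n with
      | zero => rfl
      | succ n ih =>
        rw [hFs, integral_QW hδ hK hσ (hK.bm_of_cont (hFc n).1.continuous), ih]
    have hgrad : ∀ n, ∫ x in K, ‖fderiv ℝ (F n) x‖ ^ 2 * wt a x
        ≤ ‖(σ : E →L[ℝ] E)‖ ^ 2 * e n := by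
      intro n
      simp only [he]
      rw [← integral_const_mul]
      have hd1 := (hFc n).1.continuous_fderiv one_ne_zero
      refine setIntegral_mono (i_wt hK a (by fun_prop))
        ((i_wt hK a (continuous_en (hFc n).1)).const_mul _) fun x => ?_
      rw [← mul_assoc]
      exact mul_le_mul_of_nonneg_right (le_en _ x) (wt_pos a x).le
    have hfinal : ∀ n : ℕ, W * (∫ x in K, f x ^ 2 * wt a x) - (∫ x in K, f x * wt a x) ^ 2
        ≤ W * (2 * (1 / κ + δ ^ 2) * E0) + C * (‖(σ : E →L[ℝ] E)‖ ^ 2 * (q ^ n * E0)) := by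
      intro n
      have h1 := hC (F n) (hFc n).1
      rw [hmean n] at h1
      have h2 := htel n
      have h3 : 2 * δ ^ 2 * ∑ j ∈ Finset.range n, e j ≤ 2 * (1 / κ + δ ^ 2) * E0 := by
        rw [← hq2]
        exact mul_le_mul_of_nonneg_left (hsum n) (by positivity)
      have h4 := mul_le_mul_of_nonneg_left (h2.trans h3) hV
      have h5 := mul_le_mul_of_nonneg_left ((hgrad n).trans
        (mul_le_mul_of_nonneg_left (hle n) (sq_nonneg _))) hC0
      linarith
    have hlim : Filter.Tendsto (fun n : ℕ =>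
        W * (2 * (1 / κ + δ ^ 2) * E0) + C * (‖(σ : E →L[ℝ] E)‖ ^ 2 * (q ^ n * E0)))
        Filter.atTop
        (nhds (W * (2 * (1 / κ + δ ^ 2) * E0) + C * (‖(σ : E →L[ℝ] E)‖ ^ 2 * (0 * E0)))) := by
      refine Filter.Tendsto.const_add _ (Filter.Tendsto.const_mul _
        (Filter.Tendsto.const_mul _ (Filter.Tendsto.mul_const _ ?_)))
      exact tendsto_pow_atTop_nhds_zero_of_lt_one hq0.le hq1
    have := ge_of_tendsto' hlim hfinal
    simpa using this
  -- δ → 0
  have hlim2 : Filter.Tendsto (fun δ : ℝ => W * (2 * (1 / κ + δ ^ 2) * E0))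
      (nhdsWithin 0 (Ioi 0)) (nhds (W * (2 * (1 / κ + 0 ^ 2) * E0))) := by
    have hc : Continuous (fun δ : ℝ => W * (2 * (1 / κ + δ ^ 2) * E0)) := by fun_prop
    exact (hc.tendsto 0).mono_left nhdsWithin_le_nhds
  have h3 := ge_of_tendsto hlim2 (Filter.eventually_of_mem self_mem_nhdsWithin
    (fun δ hδ => main δ hδ))
  refine h3.trans (le_of_eq ?_)
  ring

end Pool.H97.KLSG
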