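import Pool.Agent.H97.KlsWeight

set_option autoImplicit false
set_option linter.unusedSectionVars false
set_option linter.unusedSimpArgs false

open MeasureTheory Measure Set TopologicalSpace

namespace Pool.H97.KLSG

open Pool.Agent.H84 (CB Qop kern avg ww cE NN ZZ)

variable {E : Type*} [NormedAddCommGroup E] [InnerProductSpace ℝ E]
    [FiniteDimensional ℝ E] [MeasurableSpace E] [BorelSpace E]
variable {ι : Type*} [Fintype ι] {ν : Type*} [Fintype ν]
variable {K : Set E} {R δ : ℝ} {a : ν → E} {σ : E ≃L[ℝ] E}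

/-- weighted dual density -/
noncomputable def wW (K : Set E) (δ : ℝ) (a : ν → E) (y : E) : ℝ :=
  avg K δ (wt a) y * ww K δ y

theorem bm_wt (hK : CB K R) (a : ν → E) : Pool.Agent.H84.BM K (wt a) :=
  hK.bm_of_cont (continuous_wt a)

theorem bm_mul_wt (hK : CB K R) (a : ν → E) {ψ : E → ℝ} (h : Pool.Agent.H84.BM K ψ) :
    Pool.Agent.H84.BM K (fun x => ψ x * wt a x) := h.mul (bm_wt hK a)

theorem NN_wt_pos (_hδ : 0 < δ) (hK : CB K R) (a : ν → E) (y : E) : 0 < NN K δ (wt a) y := by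
  unfold NN
  have hi : IntegrableOn (fun x => wt a x * kern δ x y) K := by
    refine integrableOn_cont hK ?_
    have h1 := continuous_wt a
    have h2 : Continuous (fun x : E => kern δ x y) := by unfold kern; fun_prop
    exact h1.mul h2
  rw [setIntegral_pos_iff_support_of_nonneg_ae
    (Filter.Eventually.of_forall fun x => (mul_pos (wt_pos a x)
      (Pool.Agent.H84.kern_pos δ x y)).le) hi]
  have : Function.support (fun x : E => wt a x * kern δ x y) = univ := by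
    ext x
    simp [(wt_pos a x).ne', (Pool.Agent.H84.kern_pos δ x y).ne']
  rw [this, univ_inter]
  exact pos_iff_ne_zero.mpr hK.vol0

theorem avg_wt_pos (hδ : 0 < δ) (hK : CB K R) (a : ν → E) (y : E) : 0 < avg K δ (wt a) y :=
  div_pos (NN_wt_pos hδ hK a y) (Pool.Agent.H84.ZZ_pos hδ hK.meas hK.vol0 y)

theorem wW_pos (hδ : 0 < δ) (hK : CB K R) (a : ν → E) (y : E) : 0 < wW K δ a y :=
  mul_pos (avg_wt_pos hδ hK a y) (Pool.Agent.H84.ww_pos hδ hK y)

theorem avg_wt_mul (hδ : 0 < δ) (hK : CB K R) (hσ : Fac a δ σ) (ψ : E → ℝ) (y : E) :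
    avg K δ (fun x => ψ x * wt a x) y * ww K δ y = BW K δ σ ψ y * wW K δ a y := by
  have h1 := NN_wt_pos hδ hK a y
  rw [BW_eq hδ hK.meas hσ, wW]
  unfold avg
  field_simp

theorem dualityW (hδ : 0 < δ) (hK : CB K R) (hσ : Fac a δ σ) {h : E → ℝ} {C : ℝ} (hb : BM h C)
    {ψ : E → ℝ} (hψ : Pool.Agent.H84.BM K ψ) :
    ∫ x in K, Aop δ h x * (ψ x * wt a x) = ∫ y, h y * BW K δ σ ψ y * wW K δ a y := by
  have h1 := Pool.Agent.H84.duality hδ hK hb.meas hb.bound (bm_mul_wt hK a hψ)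
  rw [Aop_eq_H84] at h1
  rw [h1]
  refine integral_congr_ae (Filter.Eventually.of_forall (fun y => ?_))
  show h y * avg K δ (fun x => ψ x * wt a x) y * ww K δ y
    = h y * BW K δ σ ψ y * wW K δ a y
  rw [mul_assoc, avg_wt_mul hδ hK hσ, mul_assoc]

theorem integrable_mul_wW (hδ : 0 < δ) (hK : CB K R) (a : ν → E) {h : E → ℝ} {C : ℝ}
    (hb : BM h C) : Integrable (fun y => h y * wW K δ a y) := by
  obtain ⟨M, h1, h2, -⟩ := Pool.Agent.H84.avg_props hδ hK (bm_wt hK a)
  have h3 := Pool.Agent.H84.integrable_mul_ww hδ hK (h := fun y => h y * avg K δ (wt a) y)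
    (hb.meas.mul h1.continuous.measurable) (M := C * M) (fun y => by
      rw [abs_mul]
      exact mul_le_mul (hb.bound y) (h2 y) (abs_nonneg _) hb.nonneg)
  refine h3.congr (Filter.Eventually.of_forall fun y => ?_)
  show h y * avg K δ (wt a) y * ww K δ y = h y * (avg K δ (wt a) y * ww K δ y)
  ring

/-- weighted Markov operator -/
noncomputable def QW (K : Set E) (δ : ℝ) (σ : E ≃L[ℝ] E) (ψ : E → ℝ) : E → ℝ :=
  Aop δ (BW K δ σ ψ)

theorem contDiff_QW (hδ : 0 < δ) (hK : CB K R) (σ : E ≃L[ℝ] E) {ψ : E → ℝ}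
    (h : Pool.Agent.H84.BM K ψ) : ContDiff ℝ 1 (QW K δ σ ψ) := by
  obtain ⟨M, L, hn⟩ := nice_BW hδ hK σ h
  exact contDiff_Aop_bm hδ hn.bm

theorem contDiff_partial_QW (hδ : 0 < δ) (hK : CB K R) (σ : E ≃L[ℝ] E) {ψ : E → ℝ}
    (h : Pool.Agent.H84.BM K ψ) (v : E) :
    ContDiff ℝ 1 (fun z => fderiv ℝ (QW K δ σ ψ) z v) := by
  obtain ⟨M, L, hn⟩ := nice_BW hδ hK σ h
  exact contDiff_partial_Aop hδ hn v

theorem BW_one (hδ : 0 < δ) (hK : CB K R) (σ : E ≃L[ℝ] E) (y : E) :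
    BW K δ σ (fun _ => (1:ℝ)) y = 1 :=
  Pool.Agent.H84.avg_one hδ (CB.image hK σ) _

theorem integral_BW_wW (hδ : 0 < δ) (hK : CB K R) (hσ : Fac a δ σ) {ψ : E → ℝ}
    (hψ : Pool.Agent.H84.BM K ψ) :
    ∫ y, BW K δ σ ψ y * wW K δ a y = ∫ x in K, ψ x * wt a x := by
  have h1 : BM (fun _ : E => (1:ℝ)) 1 := ⟨measurable_const, fun _ => by simp⟩
  have := dualityW hδ hK hσ h1 hψ
  simp only [Aop_const hδ, one_mul] at this
  exact this.symm

theorem integral_QW (hδ : 0 < δ) (hK : CB K R) (hσ : Fac a δ σ) {ψ : E → ℝ}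
    (hψ : Pool.Agent.H84.BM K ψ) :
    ∫ x in K, QW K δ σ ψ x * wt a x = ∫ x in K, ψ x * wt a x := by
  obtain ⟨M, L, hn⟩ := nice_BW hδ hK σ hψ
  have h1 : Pool.Agent.H84.BM K (fun _ : E => (1:ℝ)) := hK.bm_of_cont continuous_const
  have h2 := dualityW hδ hK hσ hn.bm h1
  simp only [one_mul, BW_one hδ hK, mul_one] at h2
  rw [← integral_BW_wW hδ hK hσ hψ, ← h2]
  rfl

theorem i_wt (hK : CB K R) (a : ν → E) {f : E → ℝ} (hf : Continuous f) :
    IntegrableOn (fun x => f x * wt a x) K :=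
  integrableOn_cont hK (hf.mul (continuous_wt a))

/-- **Weighted discrete Bochner inequality.** -/
theorem second_orderW (hδ : 0 < δ) (hK : CB K R) (hσ : Fac a δ σ) {ψ : E → ℝ}
    (hψ : ContDiff ℝ 1 ψ) (b : OrthonormalBasis ι ℝ E) :
    ∫ x in K, (‖fderiv ℝ (QW K δ σ ψ) x‖ ^ 2
      + δ ^ 2 * ∑ i, ‖fderiv ℝ (fun z => fderiv ℝ (QW K δ σ ψ) z (b i)) x‖ ^ 2
      + δ ^ 2 * ∑ k, (fderiv ℝ (QW K δ σ ψ) x (a k)) ^ 2) * wt a x
      ≤ ∫ x in K, en σ ψ x * wt a x := by
  have h : Pool.Agent.H84.BM K ψ := hK.bm_of_cont hψ.continuous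
  obtain ⟨M, L, hn⟩ := nice_BW hδ hK σ h
  set B := BW K δ σ ψ with hB
  set H : E → ℝ := fun y => ‖fderiv ℝ B y‖ ^ 2 + δ ^ 2 * ∑ k, (fderiv ℝ B y (a k)) ^ 2 with hH
  have hp : ∀ k, BM (fun y => (fderiv ℝ B y (a k)) ^ 2) ((L * ‖a k‖) ^ 2) :=
    fun k => (hn.part_bm (a k)).sq'
  have hsum : BM (fun y => ∑ k, (fderiv ℝ B y (a k)) ^ 2) (∑ k, (L * ‖a k‖) ^ 2) := by
    refine ⟨Finset.measurable_sum _ fun k _ => (hp k).meas, fun y => ?_⟩
    exact (Finset.abs_sum_le_sum_abs _ _).trans (Finset.sum_le_sum fun k _ => (hp k).bound y)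
  have hsum' : BM (fun y => δ ^ 2 * ∑ k, (fderiv ℝ B y (a k)) ^ 2)
      (δ ^ 2 * ∑ k, (L * ‖a k‖) ^ 2) := by
    refine ⟨hsum.meas.const_mul _, fun y => ?_⟩
    rw [abs_mul, abs_of_pos (by positivity : (0:ℝ) < δ ^ 2)]
    exact mul_le_mul_of_nonneg_left (hsum.bound y) (by positivity)
  have hHbm : BM H (L ^ 2 + δ ^ 2 * ∑ k, (L * ‖a k‖) ^ 2) := by
    refine ⟨hn.normsq_bm.meas.add hsum'.meas, fun y => ?_⟩
    exact (abs_add_le _ _).trans (add_le_add (hn.normsq_bm.bound y) (hsum'.bound y))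
  -- pointwise
  have hpt : ∀ x, ‖fderiv ℝ (QW K δ σ ψ) x‖ ^ 2
      + δ ^ 2 * ∑ i, ‖fderiv ℝ (fun z => fderiv ℝ (QW K δ σ ψ) z (b i)) x‖ ^ 2
      + δ ^ 2 * ∑ k, (fderiv ℝ (QW K δ σ ψ) x (a k)) ^ 2 ≤ Aop δ H x := by
    intro x
    have e1 : Aop δ H x = Aop δ (fun y => ‖fderiv ℝ B y‖ ^ 2) x
        + δ ^ 2 * ∑ k, Aop δ (fun y => (fderiv ℝ B y (a k)) ^ 2) x := by
      rw [hH, Aop_add' hδ hn.normsq_bm hsum', Aop_const_mul',
        Aop_sum' hδ Finset.univ _ _ (fun k _ => hp k)]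
    rw [e1]
    refine add_le_add (second_order_nice hδ hn b x) ?_
    refine mul_le_mul_of_nonneg_left ?_ (by positivity)
    exact Finset.sum_le_sum fun k _ => jensen_part hδ hn (a k) x
  have c1 : Continuous (fun x => ‖fderiv ℝ (QW K δ σ ψ) x‖ ^ 2
      + δ ^ 2 * ∑ i, ‖fderiv ℝ (fun z => fderiv ℝ (QW K δ σ ψ) z (b i)) x‖ ^ 2
      + δ ^ 2 * ∑ k, (fderiv ℝ (QW K δ σ ψ) x (a k)) ^ 2) := by
    have d1 := (contDiff_QW hδ hK σ h).continuous_fderiv one_ne_zero
    have d2 : ∀ i, Continuous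
        (fderiv ℝ (fun z => fderiv ℝ (QW K δ σ ψ) z (b i))) := fun i =>
      (contDiff_partial_QW hδ hK σ h (b i)).continuous_fderiv one_ne_zero
    have d3 : ∀ k, Continuous (fun x => fderiv ℝ (QW K δ σ ψ) x (a k)) := fun k =>
      d1.clm_apply continuous_const
    refine ((d1.norm.pow 2).add (continuous_const.mul ?_)).add (continuous_const.mul ?_)
    · exact continuous_finsetSum _ fun i _ => (d2 i).norm.pow 2
    · exact continuous_finsetSum _ fun k _ => (d3 k).pow 2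
  have c3 : Continuous (Aop δ H) := continuous_Aop hδ hHbm
  have s1 := setIntegral_mono (i_wt hK a c1) (i_wt hK a c3)
    (fun x => mul_le_mul_of_nonneg_right (hpt x) (wt_pos a x).le)
  have h1 : Pool.Agent.H84.BM K (fun _ : E => (1:ℝ)) := hK.bm_of_cont continuous_const
  have s2 := dualityW hδ hK hσ hHbm h1
  simp only [one_mul, BW_one hδ hK, mul_one] at s2
  rw [s2] at s1
  have hen : Pool.Agent.H84.BM K (en σ ψ) := hK.bm_of_cont (continuous_en hψ)
  obtain ⟨M', L', hn'⟩ := nice_BW hδ hK σ hen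
  have s3 : ∫ y, H y * wW K δ a y ≤ ∫ y, BW K δ σ (en σ ψ) y * wW K δ a y := by
    refine integral_mono (integrable_mul_wW hδ hK a hHbm) (integrable_mul_wW hδ hK a hn'.bm)
      fun y => ?_
    exact mul_le_mul_of_nonneg_right (grad_BW_le hδ hK hσ hψ y) (wW_pos hδ hK a y).le
  rw [integral_BW_wW hδ hK hσ hen] at s3
  exact s1.trans s3

/-- one step loses little `L²` norm -/
theorem one_stepW (hδ : 0 < δ) (hK : CB K R) (hσ : Fac a δ σ) {f : E → ℝ}
    (hf : ContDiff ℝ 1 f) :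
    (∫ x in K, f x ^ 2 * wt a x) - (∫ x in K, (QW K δ σ f x) ^ 2 * wt a x)
      ≤ 2 * δ ^ 2 * ∫ x in K, en σ f x * wt a x := by
  have h : Pool.Agent.H84.BM K f := hK.bm_of_cont hf.continuous
  have h2 : Pool.Agent.H84.BM K (fun x => f x ^ 2) := hK.bm_of_cont (hf.continuous.pow 2)
  have hen : Pool.Agent.H84.BM K (en σ f) := hK.bm_of_cont (continuous_en hf)
  obtain ⟨M, L, hn⟩ := nice_BW hδ hK σ h
  obtain ⟨M2, L2, hn2⟩ := nice_BW hδ hK σ h2
  obtain ⟨M3, L3, hn3⟩ := nice_BW hδ hK σ hen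
  have hcf := hf.continuous
  have hcQ := (contDiff_QW hδ hK σ h).continuous
  have d1 : ∫ x in K, f x ^ 2 * wt a x = ∫ y, BW K δ σ (fun x => f x ^ 2) y * wW K δ a y :=
    (integral_BW_wW hδ hK hσ h2).symm
  have d2 : ∫ x in K, QW K δ σ f x * (f x * wt a x)
      = ∫ y, (BW K δ σ f y) ^ 2 * wW K δ a y := by
    have := dualityW hδ hK hσ hn.bm h
    rw [show (∫ x in K, QW K δ σ f x * (f x * wt a x))
      = ∫ x in K, Aop δ (BW K δ σ f) x * (f x * wt a x) from rfl, this]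
    refine integral_congr_ae (Filter.Eventually.of_forall (fun y => ?_))
    show BW K δ σ f y * BW K δ σ f y * wW K δ a y = (BW K δ σ f y) ^ 2 * wW K δ a y
    ring
  have i1 : IntegrableOn (fun x => f x ^ 2 * wt a x) K := i_wt hK a (hcf.pow 2)
  have i2 : IntegrableOn (fun x => (QW K δ σ f x) ^ 2 * wt a x) K := i_wt hK a (hcQ.pow 2)
  have i3 : IntegrableOn (fun x => QW K δ σ f x * (f x * wt a x)) K := by
    have := i_wt hK a (hcQ.mul hcf)
    refine this.congr (Filter.Eventually.of_forall fun x => ?_)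
    show QW K δ σ f x * f x * wt a x = QW K δ σ f x * (f x * wt a x)
    ring
  have j1 : Integrable (fun y => BW K δ σ (fun x => f x ^ 2) y * wW K δ a y) :=
    integrable_mul_wW hδ hK a hn2.bm
  have j2 : Integrable (fun y => (BW K δ σ f y) ^ 2 * wW K δ a y) :=
    integrable_mul_wW hδ hK a hn.bm.sq'
  have j3 : Integrable (fun y => BW K δ σ (en σ f) y * wW K δ a y) :=
    integrable_mul_wW hδ hK a hn3.bm
  have d3 : (∫ y, BW K δ σ (fun x => f x ^ 2) y * wW K δ a y)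
      - (∫ y, (BW K δ σ f y) ^ 2 * wW K δ a y)
      ≤ δ ^ 2 * ∫ x in K, en σ f x * wt a x := by
    rw [← integral_BW_wW hδ hK hσ hen, ← integral_sub j1 j2, ← integral_const_mul]
    refine integral_mono (j1.sub j2) (j3.const_mul _) fun y => ?_
    have h5 := mul_le_mul_of_nonneg_right (var_BW_le (σ := σ) hδ hK hf y) (wW_pos hδ hK a y).le
    show BW K δ σ (fun x => f x ^ 2) y * wW K δ a y - (BW K δ σ f y) ^ 2 * wW K δ a y
      ≤ δ ^ 2 * (BW K δ σ (en σ f) y * wW K δ a y)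
    linarith
  rw [← d1, ← d2] at d3
  have d4 : (∫ x in K, f x ^ 2 * wt a x) - (∫ x in K, (QW K δ σ f x) ^ 2 * wt a x)
      ≤ 2 * ((∫ x in K, f x ^ 2 * wt a x) - ∫ x in K, QW K δ σ f x * (f x * wt a x)) := by
    rw [← integral_sub i1 i2, ← integral_sub i1 i3, ← integral_const_mul]
    refine integral_mono (i1.sub i2) ((i1.sub i3).const_mul 2) fun x => ?_
    show f x ^ 2 * wt a x - (QW K δ σ f x) ^ 2 * wt a x
      ≤ 2 * (f x ^ 2 * wt a x - QW K δ σ f x * (f x * wt a x))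
    nlinarith [mul_nonneg (sq_nonneg (f x - QW K δ σ f x)) (wt_pos a x).le]
  linarith

/-- weighted crude Poincaré inequality -/
theorem crudeW (hK : CB K R) (a : ν → E) :
    ∃ C : ℝ, 0 ≤ C ∧ ∀ f : E → ℝ, ContDiff ℝ 1 f →
      (∫ x in K, wt a x) * (∫ x in K, f x ^ 2 * wt a x) - (∫ x in K, f x * wt a x) ^ 2
        ≤ C * ∫ x in K, ‖fderiv ℝ f x‖ ^ 2 * wt a x := by
  obtain ⟨C, hC0, hC⟩ := crude hK
  set V := volume.real K with hV
  have hV0 : 0 < V := ENNReal.toReal_pos hK.vol0 hK.lt_top.ne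
  have hfin : IsFiniteMeasure (volume.restrict K) := ⟨by simpa using hK.lt_top⟩
  -- lower bound of the weight
  obtain ⟨w0, hw0, hw⟩ : ∃ w0 : ℝ, 0 < w0 ∧ ∀ x ∈ K, w0 ≤ wt a x := by
    obtain ⟨x0, -, hx0⟩ := (isCompact_closedBall (0:E) (max R 0)).exists_isMinOn
      (Metric.nonempty_closedBall.mpr (le_max_right _ _)) (continuous_wt a).continuousOn
    refine ⟨wt a x0, wt_pos a x0, fun x hx => hx0 ?_⟩
    exact Metric.closedBall_subset_closedBall (le_max_left _ _) (hK.sub hx)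
  set W := ∫ x in K, wt a x with hW
  have hW0 : 0 ≤ W := integral_nonneg fun x => (wt_pos a x).le
  refine ⟨W * (C / V) / w0, by positivity, fun f hf => ?_⟩
  set c := (∫ x in K, f x) / V with hc
  have hcf := hf.continuous
  have hcd : Continuous (fderiv ℝ f) := hf.continuous_fderiv one_ne_zero
  have hcw := continuous_wt a
  have i1 : IntegrableOn (fun x => f x ^ 2 * wt a x) K := i_wt hK a (hcf.pow 2)
  have i2 : IntegrableOn (fun x => f x * wt a x) K := i_wt hK a hcf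
  have i3 : IntegrableOn (fun x => wt a x) K := integrableOn_cont hK hcw
  have i4 : IntegrableOn (fun x => (f x - c) ^ 2 * wt a x) K := i_wt hK a (by fun_prop)
  have i5 : IntegrableOn (fun x => (f x - c) ^ 2) K := integrableOn_cont hK (by fun_prop)
  have w1 : W * (∫ x in K, f x ^ 2 * wt a x) - (∫ x in K, f x * wt a x) ^ 2
      ≤ W * ∫ x in K, (f x - c) ^ 2 * wt a x := by
    have e : ∀ x, (f x - c) ^ 2 * wt a x
        = (f x ^ 2 * wt a x - 2 * c * (f x * wt a x)) + c ^ 2 * wt a x := by intro x; ring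
    simp only [e]
    have i2' : IntegrableOn (fun x => 2 * c * (f x * wt a x)) K := i2.const_mul _
    have i12 : IntegrableOn (fun x => f x ^ 2 * wt a x - 2 * c * (f x * wt a x)) K := i1.sub i2'
    rw [integral_add i12 (i3.const_mul _), integral_sub i1 i2', integral_const_mul,
      integral_const_mul]
    nlinarith [sq_nonneg ((∫ x in K, f x * wt a x) - c * W)]
  have w2 : ∫ x in K, (f x - c) ^ 2 * wt a x ≤ ∫ x in K, (f x - c) ^ 2 := by
    refine setIntegral_mono i4 i5 fun x => ?_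
    exact mul_le_of_le_one_right (sq_nonneg _) (wt_le_one a x)
  have w3 : V * ∫ x in K, (f x - c) ^ 2 = V * (∫ x in K, f x ^ 2) - (∫ x in K, f x) ^ 2 := by
    have e : ∀ x, (f x - c) ^ 2 = (f x ^ 2 - 2 * c * f x) + c ^ 2 := by intro x; ring
    simp only [e]
    have i6 : IntegrableOn (fun x => f x ^ 2) K := integrableOn_cont hK (by fun_prop)
    have i7 : IntegrableOn (fun x => f x) K := integrableOn_cont hK hcf
    have i7' : IntegrableOn (fun x => 2 * c * f x) K := i7.const_mul _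
    have i67 : IntegrableOn (fun x => f x ^ 2 - 2 * c * f x) K := i6.sub i7'
    rw [integral_add i67 (integrable_const _), integral_sub i6 i7', integral_const_mul,
      integral_const]
    have : (volume.restrict K).real univ = V := by simp [Measure.real, hV]
    rw [this, smul_eq_mul, hc]
    field_simp
    ring
  have w4 : ∫ x in K, (f x - c) ^ 2 ≤ C / V * ∫ x in K, ‖fderiv ℝ f x‖ ^ 2 := by
    have := hC f hf
    rw [← w3] at this
    rw [div_mul_eq_mul_div, le_div_iff₀ hV0]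
    linarith
  have w5 : ∫ x in K, ‖fderiv ℝ f x‖ ^ 2
      ≤ w0⁻¹ * ∫ x in K, ‖fderiv ℝ f x‖ ^ 2 * wt a x := by
    rw [← integral_const_mul]
    refine setIntegral_mono_on (integrableOn_cont hK (by fun_prop))
      ((i_wt hK a (by fun_prop)).const_mul _) hK.meas fun x hx => ?_
    rw [inv_mul_eq_div, le_div_iff₀ hw0]
    exact mul_le_mul_of_nonneg_left (hw x hx) (sq_nonneg _)
  calc W * (∫ x in K, f x ^ 2 * wt a x) - (∫ x in K, f x * wt a x) ^ 2
      ≤ W * ∫ x in K, (f x - c) ^ 2 * wt a x := w1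
    _ ≤ W * (C / V * (w0⁻¹ * ∫ x in K, ‖fderiv ℝ f x‖ ^ 2 * wt a x)) := by
        refine mul_le_mul_of_nonneg_left ?_ hW0
        refine w2.trans (w4.trans ?_)
        exact mul_le_mul_of_nonneg_left w5 (by positivity)
    _ = _ := by field_simp

/-- **Weighted discrete Bochner theorem.** -/
theorem weighted_bochner (hK : CB K R) (b : OrthonormalBasis ι ℝ E) (a : ν → E)
    (P : (E → ℝ) → Prop) {κ ℓ : ℝ} (hκ : 0 < κ) (hκℓ : κ * ℓ ≤ 1)
    (hPQ : ∀ δ : ℝ, 0 < δ → ∀ σ : E ≃L[ℝ] E, Fac a δ σ → ∀ ψ : E → ℝ, ContDiff ℝ 1 ψ → P ψ →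
      P (QW K δ σ ψ))
    (hP : ∀ u : E → ℝ, ContDiff ℝ 1 u → (∀ v, ContDiff ℝ 1 (fun z => fderiv ℝ u z v)) → P u →
      ∀ x ∈ K, κ * (‖fderiv ℝ u x‖ ^ 2 - ℓ * ∑ k, (fderiv ℝ u x (a k)) ^ 2)
        ≤ ∑ i, ‖fderiv ℝ (fun z => fderiv ℝ u z (b i)) x‖ ^ 2)
    (f : E → ℝ) (hf : ContDiff ℝ 1 f) (hPf : P f) :
    (∫ x in K, wt a x) * (∫ x in K, f x ^ 2 * wt a x) - (∫ x in K, f x * wt a x) ^ 2
      ≤ 2 / κ * ((∫ x in K, wt a x) * ∫ x in K, ‖fderiv ℝ f x‖ ^ 2 * wt a x) := by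
  obtain ⟨C, hC0, hC⟩ := crudeW hK a
  set W := ∫ x in K, wt a x with hWdef
  have hV : 0 ≤ W := integral_nonneg fun x => (wt_pos a x).le
  set E0 := ∫ x in K, ‖fderiv ℝ f x‖ ^ 2 * wt a x with hE0
  have hE00 : 0 ≤ E0 := integral_nonneg (fun x => mul_nonneg (sq_nonneg _) (wt_pos a x).le)
  -- for each δ
  have main : ∀ δ : ℝ, 0 < δ → W * (∫ x in K, f x ^ 2 * wt a x) - (∫ x in K, f x * wt a x) ^ 2
      ≤ W * (2 * (1 / κ + δ ^ 2) * E0) := by
    intro δ hδ
    obtain ⟨σ, hσ⟩ := exists_fac a δ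
    set F : ℕ → E → ℝ := fun j => (QW K δ σ)^[j] f with hF
    have hF0 : F 0 = f := rfl
    have hFs : ∀ j, F (j + 1) = QW K δ σ (F j) := by
      intro j; simp only [hF]; rw [Function.iterate_succ_apply']
    have hFc : ∀ j, ContDiff ℝ 1 (F j) ∧ P (F j) := by
      intro j
      induction j with
      | zero => exact ⟨hf, hPf⟩
      | succ j ih =>
        rw [hFs]
        exact ⟨contDiff_QW hδ hK σ (hK.bm_of_cont ih.1.continuous), hPQ δ hδ σ hσ _ ih.1 ih.2⟩
    set e : ℕ → ℝ := fun j => ∫ x in K, en σ (F j) x * wt a x with he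
    have he0 : e 0 ≤ E0 := by
      refine setIntegral_mono (i_wt hK a (continuous_en hf)) (i_wt hK a ?_) fun x => ?_
      · have := hf.continuous_fderiv one_ne_zero
        fun_prop
      · exact mul_le_mul_of_nonneg_right (en_le hσ _ x) (wt_pos a x).le
    have henn : ∀ j, 0 ≤ e j :=
      fun j => integral_nonneg (fun x => mul_nonneg (en_nonneg _ _) (wt_pos a x).le)
    have hdec : ∀ j, (1 + κ * δ ^ 2) * e (j + 1) ≤ e j := by
      intro j
      have h1 := second_orderW hδ hK hσ (hFc j).1 b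
      rw [← hFs] at h1
      have hbj : Pool.Agent.H84.BM K (F j) := hK.bm_of_cont (hFc j).1.continuous
      have h2 : ∀ v, ContDiff ℝ 1 (fun z => fderiv ℝ (F (j + 1)) z v) := by
        intro v; rw [hFs]; exact contDiff_partial_QW hδ hK σ hbj v
      refine le_trans ?_ h1
      simp only [he]
      rw [← integral_const_mul]
      have hd1 := (hFc (j + 1)).1.continuous_fderiv one_ne_zero
      refine setIntegral_mono_on ((i_wt hK a (continuous_en (hFc (j+1)).1)).const_mul _) ?_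
        hK.meas fun x hx => ?_
      · refine i_wt hK a ?_
        have d2 : ∀ i, Continuous (fderiv ℝ (fun z => fderiv ℝ (F (j+1)) z (b i))) :=
          fun i => (h2 (b i)).continuous_fderiv one_ne_zero
        have d3 : ∀ k, Continuous (fun x => fderiv ℝ (F (j+1)) x (a k)) := fun k =>
          hd1.clm_apply continuous_const
        refine ((hd1.norm.pow 2).add (continuous_const.mul ?_)).add (continuous_const.mul ?_)
        · exact continuous_finsetSum _ fun i _ => (d2 i).norm.pow 2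
        · exact continuous_finsetSum _ fun k _ => (d3 k).pow 2
      · rw [← mul_assoc]
        refine mul_le_mul_of_nonneg_right ?_ (wt_pos a x).le
        have h3 := hP _ (hFc (j+1)).1 h2 (hFc (j+1)).2 x hx
        have h4 := en_le hσ (F (j+1)) x
        have h5 : 0 ≤ ∑ k, (fderiv ℝ (F (j+1)) x (a k)) ^ 2 :=
          Finset.sum_nonneg fun _ _ => sq_nonneg _
        have h6 := mul_le_mul_of_nonneg_left h3 (by positivity : 0 ≤ δ ^ 2)
        have h7 : κ * ℓ * ∑ k, (fderiv ℝ (F (j+1)) x (a k)) ^ 2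
            ≤ 1 * ∑ k, (fderiv ℝ (F (j+1)) x (a k)) ^ 2 := mul_le_mul_of_nonneg_right hκℓ h5
        have h8 := mul_le_mul_of_nonneg_left h7 (by positivity : 0 ≤ δ ^ 2)
        have h9 : (1 + κ * δ ^ 2) * en σ (F (j+1)) x
            ≤ (1 + κ * δ ^ 2) * ‖fderiv ℝ (F (j+1)) x‖ ^ 2 :=
          mul_le_mul_of_nonneg_left h4 (by positivity)
        linarith
    set q : ℝ := (1 + κ * δ ^ 2)⁻¹ with hq
    have hqp : 0 < 1 + κ * δ ^ 2 := by positivity
    have hq0 : 0 < q := inv_pos.mpr hqp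
    have hq1 : q < 1 := by
      rw [hq]; exact inv_lt_one_of_one_lt₀ (by have : 0 < κ * δ ^ 2 := by positivity
                                               linarith)
    have hle : ∀ j, e j ≤ q ^ j * E0 := by
      intro j
      induction j with
      | zero => simpa using he0
      | succ j ih =>
        have h1 := hdec j
        have h2 : e (j + 1) ≤ q * e j := by
          rw [hq, inv_mul_eq_div, le_div_iff₀ hqp]; linarith
        calc e (j + 1) ≤ q * e j := h2
          _ ≤ q * (q ^ j * E0) := mul_le_mul_of_nonneg_left ih hq0.le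
          _ = _ := by ring
    -- L² telescoping
    have htel : ∀ n : ℕ, (∫ x in K, f x ^ 2 * wt a x) - (∫ x in K, (F n x) ^ 2 * wt a x)
        ≤ 2 * δ ^ 2 * ∑ j ∈ Finset.range n, e j := by
      intro n
      induction n with
      | zero => simp [hF0]
      | succ n ih =>
        have h1 := one_stepW hδ hK hσ (hFc n).1
        rw [← hFs] at h1
        rw [Finset.sum_range_succ]
        simp only [he] at ih ⊢
        linarith
    have hsum : ∀ n : ℕ, ∑ j ∈ Finset.range n, e j ≤ E0 / (1 - q) := by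
      intro n
      have h1 : ∑ j ∈ Finset.range n, e j ≤ ∑ j ∈ Finset.range n, q ^ j * E0 :=
        Finset.sum_le_sum (fun j _ => hle j)
      refine h1.trans ?_
      rw [← Finset.sum_mul, geom_sum_eq hq1.ne, div_mul_eq_mul_div,
        ← neg_div_neg_eq (a := (q ^ n - 1) * E0)]
      have h2 : -(q - 1) = 1 - q := by ring
      rw [h2]
      refine div_le_div_of_nonneg_right ?_ (by linarith)
      have h3 : 0 ≤ q ^ n := by positivity
      nlinarith
    have hq2 : 2 * δ ^ 2 * (E0 / (1 - q)) = 2 * (1 / κ + δ ^ 2) * E0 := by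
      have h1 : 1 - q = κ * δ ^ 2 / (1 + κ * δ ^ 2) := by
        rw [hq]; field_simp; ring
      rw [h1]
      field_simp
    -- means
    have hmean : ∀ n, ∫ x in K, F n x * wt a x = ∫ x in K, f x * wt a x := by
      intro n
      induction n with
      | zero => rfl
      | succ n ih =>
        rw [hFs, integral_QW hδ hK hσ (hK.bm_of_cont (hFc n).1.continuous), ih]
    have hgrad : ∀ n, ∫ x in K, ‖fderiv ℝ (F n) x‖ ^ 2 * wt a x
        ≤ ‖(σ : E →L[ℝ] E)‖ ^ 2 * e n := by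
      intro n
      simp only [he]
      rw [← integral_const_mul]
      have hd1 := (hFc n).1.continuous_fderiv one_ne_zero
      refine setIntegral_mono (i_wt hK a (by fun_prop))
        ((i_wt hK a (continuous_en (hFc n).1)).const_mul _) fun x => ?_
      rw [← mul_assoc]
      exact mul_le_mul_of_nonneg_right (le_en _ x) (wt_pos a x).le
    have hfinal : ∀ n : ℕ, W * (∫ x in K, f x ^ 2 * wt a x) - (∫ x in K, f x * wt a x) ^ 2
        ≤ W * (2 * (1 / κ + δ ^ 2) * E0) + C * (‖(σ : E →L[ℝ] E)‖ ^ 2 * (q ^ n * E0)) := by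
      intro n
      have h1 := hC (F n) (hFc n).1
      rw [hmean n] at h1
      have h2 := htel n
      have h3 : 2 * δ ^ 2 * ∑ j ∈ Finset.range n, e j ≤ 2 * (1 / κ + δ ^ 2) * E0 := by
        rw [← hq2]
        exact mul_le_mul_of_nonneg_left (hsum n) (by positivity)
      have h4 := mul_le_mul_of_nonneg_left (h2.trans h3) hV
      have h5 := mul_le_mul_of_nonneg_left ((hgrad n).trans
        (mul_le_mul_of_nonneg_left (hle n) (sq_nonneg _))) hC0
      linarith
    have hlim : Filter.Tendsto (fun n : ℕ =>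
        W * (2 * (1 / κ + δ ^ 2) * E0) + C * (‖(σ : E →L[ℝ] E)‖ ^ 2 * (q ^ n * E0)))
        Filter.atTop
        (nhds (W * (2 * (1 / κ + δ ^ 2) * E0) + C * (‖(σ : E →L[ℝ] E)‖ ^ 2 * (0 * E0)))) := by
      refine Filter.Tendsto.const_add _ (Filter.Tendsto.const_mul _
        (Filter.Tendsto.const_mul _ (Filter.Tendsto.mul_const _ ?_)))
      exact tendsto_pow_atTop_nhds_zero_of_lt_one hq0.le hq1
    have := ge_of_tendsto' hlim hfinal
    simpa using this
  -- δ → 0
  have hlim2 : Filter.Tendsto (fun δ : ℝ => W * (2 * (1 / κ + δ ^ 2) * E0))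
      (nhdsWithin 0 (Ioi 0)) (nhds (W * (2 * (1 / κ + 0 ^ 2) * E0))) := by
    have hc : Continuous (fun δ : ℝ => W * (2 * (1 / κ + δ ^ 2) * E0)) := by fun_prop
    exact (hc.tendsto 0).mono_left nhdsWithin_le_nhds
  have h3 := ge_of_tendsto hlim2 (Filter.eventually_of_mem self_mem_nhdsWithin
    (fun δ hδ => main δ hδ))
  refine h3.trans (le_of_eq ?_)
  ring

end Pool.H97.KLSG
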