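import Pool.Agent.H97.KlsRotation
import Pool.Agent.H97.KlsWBochner

set_option autoImplicit false
set_option linter.unusedSectionVars false
set_option linter.unusedSimpArgs false

open MeasureTheory Measure Set TopologicalSpace Matrix

namespace Pool.H97.KLSR

open Pool.H97.KLS
open Pool.Agent.H84 (CB)

/-- An orthogonal representation (right action) of the special orthogonal group of `ι`
on a Euclidean space, with its generators. The maps `act O` are defined for all orthogonal
matrices, but only those with determinant one need to be isometries. -/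
structure Rep (ι : Type*) [Fintype ι] [DecidableEq ι] (E : Type*) [NormedAddCommGroup E]
    [InnerProductSpace ℝ E] where
  act : OG ι → (E →L[ℝ] E)
  gen : ι → ι → (E →L[ℝ] E)
  act_mul : ∀ A B : OG ι, B.1.det = 1 → ∀ X, act (A * B) X = act B (act A X)
  act_one : ∀ X, act 1 X = X
  norm_act : ∀ O : OG ι, O.1.det = 1 → ∀ X, ‖act O X‖ = ‖X‖
  cont : Continuous act
  gen_diag : ∀ a, gen a a = 0
  der : ∀ (j : ι) (w : ι → ℝ) (hj : w j = 0) (hw : w ⬝ᵥ w = 1) (Y : E) (θ : ℝ),
    HasDerivAt (fun t => act (rot j w hj hw t) Y)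
      (∑ b, w b • gen b j (act (rot j w hj hw θ) Y)) θ

variable {ι : Type*} [Fintype ι] [DecidableEq ι]
variable {E : Type*} [NormedAddCommGroup E] [InnerProductSpace ℝ E]

namespace Rep

variable (ρ : Rep ι E)

/-- invariance of a set under the special orthogonal group -/
def InvSet (K : Set E) : Prop := ∀ O : OG ι, O.1.det = 1 → ∀ X ∈ K, ρ.act O X ∈ K

/-- invariance of a function under the special orthogonal group -/
def Inv (u : E → ℝ) : Prop := ∀ O : OG ι, O.1.det = 1 → ∀ X, u (ρ.act O X) = u X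

theorem det_inv {O : OG ι} (hO : O.1.det = 1) : (O⁻¹).1.det = 1 := by
  rw [coe_inv, Matrix.det_transpose, hO]

theorem act_inv_act {O : OG ι} (hO : O.1.det = 1) (X : E) :
    ρ.act O⁻¹ (ρ.act O X) = X := by
  rw [← ρ.act_mul _ _ (det_inv hO), mul_inv_cancel, ρ.act_one]

theorem act_act_inv {O : OG ι} (hO : O.1.det = 1) (X : E) :
    ρ.act O (ρ.act O⁻¹ X) = X := by
  rw [← ρ.act_mul _ _ hO, inv_mul_cancel, ρ.act_one]

/-- the action of an element of determinant one as a linear isometry equivalence -/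
noncomputable def li (O : OG ι) (hO : O.1.det = 1) : E ≃ₗᵢ[ℝ] E where
  toFun X := ρ.act O X
  invFun X := ρ.act O⁻¹ X
  map_add' X Y := map_add _ X Y
  map_smul' c X := map_smul _ c X
  left_inv X := ρ.act_inv_act hO X
  right_inv X := ρ.act_act_inv hO X
  norm_map' X := ρ.norm_act O hO X

@[simp] theorem li_apply (O : OG ι) (hO : O.1.det = 1) (X : E) : ρ.li O hO X = ρ.act O X := rfl

theorem preimage_li {K : Set E} (hK : ρ.InvSet K) (O : OG ι) (hO : O.1.det = 1) :
    (ρ.li O hO) ⁻¹' K = K := by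
  ext X
  constructor
  · intro hX
    have h1 := hK O⁻¹ (det_inv hO) (ρ.act O X) hX
    rwa [ρ.act_inv_act hO] at h1
  · intro hX
    exact hK O hO X hX

theorem det_rot (j : ι) (w : ι → ℝ) (hj : w j = 0) (hw : w ⬝ᵥ w = 1) (t : ℝ) :
    (rot j w hj hw t).1.det = 1 := rotM_det j w hj hw t

theorem rot_zero (j : ι) (w : ι → ℝ) (hj : w j = 0) (hw : w ⬝ᵥ w = 1) :
    rot j w hj hw 0 = 1 := by
  apply Subtype.ext; exact rotM_zero j w

theorem rot_neg (j : ι) (w : ι → ℝ) (hj : w j = 0) (hw : w ⬝ᵥ w = 1) (t : ℝ) :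
    rot j w hj hw (-t) = (rot j w hj hw t)⁻¹ := by
  apply Subtype.ext
  rw [coe_inv]
  show rotM j w (-t) = (rotM j w t)ᵀ
  rw [rotM_transpose]

theorem ev_ne {b j : ι} (hbj : b ≠ j) : ev b j = 0 := by simp [ev, hbj.symm]

theorem der_ev {b j : ι} (hbj : b ≠ j) (Y : E) (θ : ℝ) :
    HasDerivAt (fun t => ρ.act (rot j (ev b) (ev_ne hbj) (ev_dot_ev b) t) Y)
      (ρ.gen b j (ρ.act (rot j (ev b) (ev_ne hbj) (ev_dot_ev b) θ) Y)) θ := by
  have h := ρ.der j (ev b) (ev_ne hbj) (ev_dot_ev b) Y θ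
  have e : ∑ c, ev b c • ρ.gen c j (ρ.act (rot j (ev b) (ev_ne hbj) (ev_dot_ev b) θ) Y)
      = ρ.gen b j (ρ.act (rot j (ev b) (ev_ne hbj) (ev_dot_ev b) θ) Y) := by
    rw [Finset.sum_eq_single b]
    · simp [ev]
    · intro c _ hc; simp [ev, hc]
    · intro h; exact absurd (Finset.mem_univ b) h
  rw [e] at h
  exact h

theorem der_ev_zero {b j : ι} (hbj : b ≠ j) (Y : E) :
    HasDerivAt (fun t => ρ.act (rot j (ev b) (ev_ne hbj) (ev_dot_ev b) t) Y)
      (ρ.gen b j Y) 0 := by
  have h := ρ.der_ev hbj Y 0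
  rw [rot_zero, ρ.act_one] at h
  exact h

/-- generators are skew-adjoint -/
theorem gen_self (b j : ι) (X : E) : inner ℝ (ρ.gen b j X) X = 0 := by
  by_cases hbj : b = j
  · subst hbj; rw [ρ.gen_diag]; simp
  have h := ρ.der_ev_zero hbj X
  have h1 : HasDerivAt (fun t => ‖ρ.act (rot j (ev b) (ev_ne hbj) (ev_dot_ev b) t) X‖ ^ 2)
      (2 * inner ℝ (ρ.act (rot j (ev b) (ev_ne hbj) (ev_dot_ev b) 0) X) (ρ.gen b j X)) 0 :=
    h.norm_sq
  have e : (fun t => ‖ρ.act (rot j (ev b) (ev_ne hbj) (ev_dot_ev b) t) X‖ ^ 2)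
      = fun _ => ‖X‖ ^ 2 := by
    ext t; rw [ρ.norm_act _ (det_rot _ _ _ _ _)]
  rw [e] at h1
  have h2 := h1.unique (hasDerivAt_const (0:ℝ) (‖X‖ ^ 2))
  rw [rot_zero, ρ.act_one] at h2
  rw [real_inner_comm]
  linarith

theorem gen_skew (b j : ι) (X Y : E) : inner ℝ (ρ.gen b j X) Y = - inner ℝ X (ρ.gen b j Y) := by
  have h := ρ.gen_self b j (X + Y)
  rw [map_add, inner_add_left, inner_add_right, inner_add_right, ρ.gen_self, ρ.gen_self] at h
  rw [real_inner_comm (ρ.gen b j Y) X]
  linarith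

/-- the angular derivative of a function -/
noncomputable def ang (f : E → ℝ) (b j : ι) (Y : E) : ℝ := fderiv ℝ f Y (ρ.gen b j Y)

theorem continuous_act : Continuous (fun p : OG ι × E => ρ.act p.1 p.2) := by
  exact (ρ.cont.comp continuous_fst).clm_apply continuous_snd

theorem continuous_act' : Continuous (fun p : E × OG ι => ρ.act p.2 p.1) :=
  (ρ.cont.comp continuous_snd).clm_apply continuous_fst

theorem good (f : E → ℝ) (hf : ContDiff ℝ 1 f) (X : E) :
    Good (fun O : OG ι => f (ρ.act O X)) (fun b j O => ρ.ang f b j (ρ.act O X)) := by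
  have hrot : Continuous (fun O : OG ι => ρ.act O X) := ρ.cont.clm_apply continuous_const
  refine ⟨hf.continuous.comp hrot, fun a b => ?_, fun a O => ?_, fun j w hj hw O θ => ?_⟩
  · unfold ang
    have h1 : Continuous (fun O : OG ι => fderiv ℝ f (ρ.act O X)) :=
      (hf.continuous_fderiv (by norm_num)).comp hrot
    have h2 : Continuous (fun O : OG ι => ρ.gen a b (ρ.act O X)) :=
      (ρ.gen a b).continuous.comp hrot
    exact h1.clm_apply h2
  · simp [ang, ρ.gen_diag]
  · have h1 := ρ.der j w hj hw (ρ.act O X) θ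
    have h2 : HasFDerivAt f (fderiv ℝ f (ρ.act (rot j w hj hw θ) (ρ.act O X)))
        (ρ.act (rot j w hj hw θ) (ρ.act O X)) :=
      ((hf.differentiable (by norm_num)) _).hasFDerivAt
    have h3 := h2.comp_hasDerivAt θ h1
    have e1 : ∀ t, ρ.act (O * rot j w hj hw t) X = ρ.act (rot j w hj hw t) (ρ.act O X) :=
      fun t => ρ.act_mul _ _ (det_rot _ _ _ _ _) X
    simp only [e1]
    have e2 : ∑ b, w b * ρ.ang f b j (ρ.act (rot j w hj hw θ) (ρ.act O X))
        = fderiv ℝ f (ρ.act (rot j w hj hw θ) (ρ.act O X))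
          (∑ b, w b • ρ.gen b j (ρ.act (rot j w hj hw θ) (ρ.act O X))) := by
      rw [_root_.map_sum]
      refine Finset.sum_congr rfl (fun b _ => ?_)
      rw [map_smul, smul_eq_mul]
      rfl
    rw [e2]
    exact h3

/-- the sum of squares of the angular derivatives at a point -/
theorem sum_ang_sq_le [FiniteDimensional ℝ E] (f : E → ℝ) (Y : E) (B : ℝ)
    (hY : ∀ v : E, ∑ b, ∑ j, inner ℝ (ρ.gen b j Y) v ^ 2 ≤ B * ‖v‖ ^ 2) :
    ∑ b, ∑ j, ρ.ang f b j Y ^ 2 ≤ B * ‖fderiv ℝ f Y‖ ^ 2 := by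
  set g : E := (InnerProductSpace.toDual ℝ E).symm (fderiv ℝ f Y) with hg
  have hgn : ‖g‖ = ‖fderiv ℝ f Y‖ := by rw [hg]; exact LinearIsometryEquiv.norm_map _ _
  have hgi : ∀ Z, fderiv ℝ f Y Z = inner ℝ g Z := by
    intro Z; rw [hg, InnerProductSpace.toDual_symm_apply]
  rw [← hgn]
  refine le_trans (le_of_eq ?_) (hY g)
  refine Finset.sum_congr rfl (fun b _ => Finset.sum_congr rfl (fun j _ => ?_))
  unfold ang
  rw [hgi, real_inner_comm]

/-- Haar average -/
noncomputable def Pavg (f : E → ℝ) (X : E) : ℝ :=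
  ∫ O : OG ι, f (ρ.act O X) ∂(nuS Finset.univ)

theorem mem_univ_iff (O : OG ι) : O ∈ HS (Finset.univ : Finset ι) ↔ O.1.det = 1 := by
  rw [mem_HS]; simp

theorem ae_det : ∀ᵐ O : OG ι ∂(nuS (Finset.univ : Finset ι)), O.1.det = 1 := by
  filter_upwards [ae_mem (HS (Finset.univ : Finset ι)) (isClosed_HS _)] with O hO
  exact (mem_univ_iff O).mp hO

theorem Pavg_inv (f : E → ℝ) (hf : Continuous f) : ρ.Inv (ρ.Pavg f) := by
  intro O' hO' X
  unfold Pavg
  have h := integral_mul_left (HS (Finset.univ : Finset ι))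
    (fun O : OG ι => f (ρ.act O X))
    (hf.comp (ρ.cont.clm_apply continuous_const)) O' ((mem_univ_iff O').mpr hO')
  rw [← h]
  refine integral_congr_ae ?_
  filter_upwards [ae_det] with O hO
  rw [ρ.act_mul _ _ hO]

theorem norm_act_le (O : OG ι) (hO : O.1.det = 1) : ‖ρ.act O‖ ≤ 1 := by
  refine ContinuousLinearMap.opNorm_le_bound _ zero_le_one (fun X => ?_)
  rw [ρ.norm_act O hO, one_mul]

/-- derivative integrand -/
noncomputable def dint (f : E → ℝ) (X : E) (O : OG ι) : E →L[ℝ] ℝ :=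
  (fderiv ℝ f (ρ.act O X)).comp (ρ.act O)

theorem continuous_dint (f : E → ℝ) (hf : ContDiff ℝ 1 f) :
    Continuous (fun p : E × OG ι => ρ.dint f p.1 p.2) := by
  unfold dint
  refine Continuous.clm_comp ?_ (ρ.cont.comp continuous_snd)
  exact (hf.continuous_fderiv (by norm_num)).comp ρ.continuous_act'

theorem norm_dint_le (f : E → ℝ) (X : E) (O : OG ι) (hO : O.1.det = 1) :
    ‖ρ.dint f X O‖ ≤ ‖fderiv ℝ f (ρ.act O X)‖ := by
  unfold dint
  refine (ContinuousLinearMap.opNorm_comp_le _ _).trans ?_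
  calc ‖fderiv ℝ f (ρ.act O X)‖ * ‖ρ.act O‖
      ≤ ‖fderiv ℝ f (ρ.act O X)‖ * 1 :=
        mul_le_mul_of_nonneg_left (ρ.norm_act_le O hO) (norm_nonneg _)
    _ = _ := mul_one _

variable [FiniteDimensional ℝ E] [MeasurableSpace E] [BorelSpace E]

omit [MeasurableSpace E] [BorelSpace E] in
theorem continuous_param {E' : Type*} [NormedAddCommGroup E'] [NormedSpace ℝ E']
    (F : E → OG ι → E') (hF : Continuous (fun p : E × OG ι => F p.1 p.2)) :
    Continuous (fun X => ∫ O, F X O ∂(nuS (Finset.univ : Finset ι))) := by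
  have : FiniteDimensional ℝ E := inferInstance
  have : ProperSpace E := FiniteDimensional.proper_real E
  have := continuous_parametric_integral_of_continuous
    (μ := nuS (Finset.univ : Finset ι)) (f := F) hF (s := Set.univ) isCompact_univ
  simpa using this

omit [MeasurableSpace E] [BorelSpace E] in
theorem hasFDerivAt_Pavg (f : E → ℝ) (hf : ContDiff ℝ 1 f) (X : E) :
    HasFDerivAt (ρ.Pavg f) (∫ O, ρ.dint f X O ∂(nuS (Finset.univ : Finset ι))) X := by
  have : ProperSpace E := FiniteDimensional.proper_real E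
  have hc := ρ.continuous_dint f hf
  obtain ⟨C, hC⟩ := ((isCompact_closedBall X 1).prod
    (isCompact_univ (X := OG ι))).exists_bound_of_continuousOn hc.continuousOn
  unfold Pavg
  refine hasFDerivAt_integral_of_dominated_of_fderiv_le (F' := fun X O => ρ.dint f X O)
    (s := Metric.ball X 1) (bound := fun _ => C) (Metric.ball_mem_nhds X one_pos) ?_ ?_ ?_ ?_ ?_ ?_
  · refine Filter.Eventually.of_forall (fun Y => ?_)
    exact (hf.continuous.comp
      (ρ.continuous_act'.comp (Continuous.prodMk_right Y))).aestronglyMeasurable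
  · exact integrable_of_cont _ _
      (hf.continuous.comp (ρ.continuous_act'.comp (Continuous.prodMk_right X)))
  · exact (hc.comp (Continuous.prodMk_right X)).aestronglyMeasurable
  · refine Filter.Eventually.of_forall (fun O Y hY => ?_)
    exact hC (Y, O) ⟨Metric.ball_subset_closedBall hY, mem_univ _⟩
  · exact integrable_const C
  · refine Filter.Eventually.of_forall (fun O Y _ => ?_)
    have h1 : HasFDerivAt f (fderiv ℝ f (ρ.act O Y)) (ρ.act O Y) :=
      ((hf.differentiable (by norm_num)) _).hasFDerivAt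
    have h2 : HasFDerivAt (fun Y : E => ρ.act O Y) (ρ.act O) Y := (ρ.act O).hasFDerivAt
    exact h1.comp Y h2

omit [MeasurableSpace E] [BorelSpace E] in
theorem contDiff_Pavg (f : E → ℝ) (hf : ContDiff ℝ 1 f) : ContDiff ℝ 1 (ρ.Pavg f) := by
  rw [contDiff_one_iff_fderiv]
  refine ⟨fun X => (ρ.hasFDerivAt_Pavg f hf X).differentiableAt, ?_⟩
  have : fderiv ℝ (ρ.Pavg f) = fun X => ∫ O, ρ.dint f X O ∂(nuS (Finset.univ : Finset ι)) := by
    ext1 X; exact (ρ.hasFDerivAt_Pavg f hf X).fderiv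
  rw [this]
  exact continuous_param _ (ρ.continuous_dint f hf)

omit [MeasurableSpace E] [BorelSpace E] in
theorem continuous_Pavg (u : E → ℝ) (hu : Continuous u) : Continuous (ρ.Pavg u) :=
  continuous_param (fun X O => u (ρ.act O X)) (hu.comp ρ.continuous_act')

omit [MeasurableSpace E] [BorelSpace E] in
theorem norm_fderiv_Pavg_sq_le (f : E → ℝ) (hf : ContDiff ℝ 1 f) (X : E) :
    ‖fderiv ℝ (ρ.Pavg f) X‖ ^ 2 ≤ ρ.Pavg (fun Y => ‖fderiv ℝ f Y‖ ^ 2) X := by
  rw [(ρ.hasFDerivAt_Pavg f hf X).fderiv]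
  have hcf : Continuous (fun O : OG ι => ‖fderiv ℝ f (ρ.act O X)‖) :=
    ((hf.continuous_fderiv (by norm_num)).comp
      (ρ.continuous_act'.comp (Continuous.prodMk_right X))).norm
  have h1 : ‖∫ O, ρ.dint f X O ∂(nuS (Finset.univ : Finset ι))‖
      ≤ ∫ O : OG ι, ‖fderiv ℝ f (ρ.act O X)‖ ∂(nuS (Finset.univ : Finset ι)) := by
    refine norm_integral_le_of_norm_le (integrable_of_cont _ _ hcf) ?_
    filter_upwards [ae_det] with O hO
    exact ρ.norm_dint_le f X O hO
  have h2 := sq_integral_le (nuS (Finset.univ : Finset ι))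
    (fun O : OG ι => ‖fderiv ℝ f (ρ.act O X)‖) (integrable_of_cont _ _ hcf)
    (integrable_of_cont _ _ (hcf.pow 2))
  rw [probReal_univ, one_mul] at h2
  exact (pow_le_pow_left₀ (norm_nonneg _) h1 2).trans h2

section onK

variable {K : Set E} (hKm : MeasurableSet K) (hKb : Bornology.IsBounded K)
  (hKinv : ρ.InvSet K)

include hKinv in
theorem setIntegral_act (u : E → ℝ) (O : OG ι) (hO : O.1.det = 1) :
    ∫ X in K, u (ρ.act O X) = ∫ X in K, u X := by
  have h1 : MeasurePreserving (ρ.li O hO) volume volume :=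
    LinearIsometryEquiv.measurePreserving _
  have h2 : MeasurableEmbedding (ρ.li O hO) := (ρ.li O hO).toHomeomorph.measurableEmbedding
  have h3 := h1.setIntegral_preimage_emb h2 u K
  rw [ρ.preimage_li hKinv O hO] at h3
  exact h3

include hKb in
theorem integrable_prod_K (F : E → OG ι → ℝ)
    (hF : Continuous (fun p : E × OG ι => F p.1 p.2)) :
    Integrable (fun p : E × OG ι => F p.1 p.2)
      ((volume.restrict K).prod (nuS (Finset.univ : Finset ι))) := by
  have : ProperSpace E := FiniteDimensional.proper_real E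
  have h1 : (volume.restrict K).prod (nuS (Finset.univ : Finset ι))
      = ((volume : Measure E).prod (nuS (Finset.univ : Finset ι))).restrict
        (K ×ˢ (univ : Set (OG ι))) := by
    rw [← Measure.prod_restrict, Measure.restrict_univ]
  rw [h1]
  have h2 : IsCompact ((closure K) ×ˢ (univ : Set (OG ι))) :=
    hKb.isCompact_closure.prod isCompact_univ
  have h3 : IntegrableOn (fun p : E × OG ι => F p.1 p.2)
      ((closure K) ×ˢ (univ : Set (OG ι)))
      ((volume : Measure E).prod (nuS (Finset.univ : Finset ι))) :=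
    hF.continuousOn.integrableOn_compact h2
  exact h3.mono_set (Set.prod_mono subset_closure (Subset.refl _))

include hKb in
theorem integrableOn_K (u : E → ℝ) (hu : Continuous u) : IntegrableOn u K := by
  have : ProperSpace E := FiniteDimensional.proper_real E
  have h3 : IntegrableOn u (closure K) := hu.continuousOn.integrableOn_compact hKb.isCompact_closure
  exact h3.mono_set subset_closure

include hKb hKinv in
theorem setIntegral_Pavg (u : E → ℝ) (hu : Continuous u) :
    ∫ X in K, ρ.Pavg u X = ∫ X in K, u X := by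
  unfold Pavg
  have hint := integrable_prod_K hKb (fun X O => u (ρ.act O X)) (hu.comp ρ.continuous_act')
  rw [integral_integral_swap (f := fun X (O : OG ι) => u (ρ.act O X)) hint]
  have e : ∀ᵐ O : OG ι ∂(nuS (Finset.univ : Finset ι)),
      ∫ X in K, u (ρ.act O X) = ∫ X in K, u X := by
    filter_upwards [ae_det] with O hO
    exact ρ.setIntegral_act hKinv u O hO
  rw [integral_congr_ae e, integral_const, probReal_univ, one_smul]

/-- pointwise variance bound on orbits, in terms of the angular derivatives -/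
theorem orbit_var_le (hk : 1 ≤ Fintype.card ι) (f : E → ℝ) (hf : ContDiff ℝ 1 f) (X : E) :
    ρ.Pavg (fun Y => f Y ^ 2) X - (ρ.Pavg f X) ^ 2
      ≤ Real.pi ^ 2 / (2 * Fintype.card ι)
        * ρ.Pavg (fun Y => ∑ b, ∑ j, ρ.ang f b j Y ^ 2) X := by
  have h1 := so_poincare (Fintype.card ι) (Finset.univ : Finset ι) (by simp) hk _ _
    (ρ.good f hf X)
  have hcd : ∀ a b, Continuous (fun O : OG ι => ρ.ang f a b (ρ.act O X) ^ 2) :=
    fun a b => ((ρ.good f hf X).contD a b).pow 2
  refine h1.trans (le_of_eq ?_)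
  congr 1
  unfold Pavg
  rw [integral_finsetSum]
  · refine Finset.sum_congr rfl (fun a _ => ?_)
    rw [integral_finsetSum]
    exact fun b _ => integrable_of_cont _ _ (hcd a b)
  · exact fun a _ => integrable_finsetSum _ (fun b _ => integrable_of_cont _ _ (hcd a b))

theorem continuous_ang (f : E → ℝ) (hf : ContDiff ℝ 1 f) (b j : ι) :
    Continuous (ρ.ang f b j) := by
  unfold ang
  exact (hf.continuous_fderiv (by norm_num)).clm_apply (ρ.gen b j).continuous

include hKb hKinv hKm in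
/-- the angular part -/
theorem angular (hk : 1 ≤ Fintype.card ι) (f : E → ℝ) (hf : ContDiff ℝ 1 f) :
    (∫ X in K, f X ^ 2) - ∫ X in K, (ρ.Pavg f X) ^ 2
      ≤ Real.pi ^ 2 / (2 * Fintype.card ι) * ∫ X in K, ∑ b, ∑ j, ρ.ang f b j X ^ 2 := by
  have hcP : Continuous (ρ.Pavg f) := ρ.continuous_Pavg f hf.continuous
  have hcf : Continuous (fun Y => ∑ b, ∑ j, ρ.ang f b j Y ^ 2) :=
    continuous_finsetSum _ fun b _ => continuous_finsetSum _ fun j _ =>
      (ρ.continuous_ang f hf b j).pow 2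
  have i1 : IntegrableOn (ρ.Pavg (fun X => f X ^ 2)) K :=
    integrableOn_K hKb _ (ρ.continuous_Pavg _ (hf.continuous.pow 2))
  have i2 : IntegrableOn (fun X => (ρ.Pavg f X) ^ 2) K := integrableOn_K hKb _ (hcP.pow 2)
  rw [← ρ.setIntegral_Pavg hKb hKinv (fun X => f X ^ 2) (hf.continuous.pow 2),
    ← ρ.setIntegral_Pavg hKb hKinv (fun Y => ∑ b, ∑ j, ρ.ang f b j Y ^ 2) hcf,
    ← integral_sub i1 i2, ← integral_const_mul]
  refine setIntegral_mono_on ?_ ?_ hKm ?_
  · exact integrableOn_K hKb _ ((ρ.continuous_Pavg _ (hf.continuous.pow 2)).sub (hcP.pow 2))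
  · exact integrableOn_K hKb _ (continuous_const.mul (ρ.continuous_Pavg _ hcf))
  · intro X _
    exact ρ.orbit_var_le hk f hf X

include hKb hKinv hKm in
theorem setIntegral_fderiv_Pavg_le (f : E → ℝ) (hf : ContDiff ℝ 1 f) :
    ∫ X in K, ‖fderiv ℝ (ρ.Pavg f) X‖ ^ 2 ≤ ∫ X in K, ‖fderiv ℝ f X‖ ^ 2 := by
  have hcf : Continuous (fun Y => ‖fderiv ℝ f Y‖ ^ 2) :=
    ((hf.continuous_fderiv (by norm_num)).norm).pow 2
  rw [← ρ.setIntegral_Pavg hKb hKinv _ hcf]
  refine setIntegral_mono_on ?_ ?_ hKm ?_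
  · exact integrableOn_K hKb _
      ((((ρ.contDiff_Pavg f hf).continuous_fderiv (by norm_num)).norm).pow 2)
  · exact integrableOn_K hKb _ (ρ.continuous_Pavg _ hcf)
  · intro X _
    exact ρ.norm_fderiv_Pavg_sq_le f hf X

end onK

end Rep

end Pool.H97.KLSR
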