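import Mathlib

/-!
Shared conventions for matrices `X : EuclideanSpace ℝ (Fin m × Fin k)`:
`rowComb v X = vᵀ X` and `rotX O X = X O`.
-/

set_option autoImplicit false

open Matrix

namespace Pool.H97.KLS

/-- `m × k` matrices as a Euclidean space. -/
abbrev Mat (m k : ℕ) := EuclideanSpace ℝ (Fin m × Fin k)

/-- `rowComb v X = vᵀ X`, an element of `ℝ^k`. -/
noncomputable def rowComb {m k : ℕ} (v : EuclideanSpace ℝ (Fin m)) (X : Mat m k) :
    EuclideanSpace ℝ (Fin k) :=
  WithLp.toLp 2 (fun j => ∑ i, v i * X (i, j))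

/-- `rotX O X = X O`. -/
noncomputable def rotX {m k : ℕ} (O : Matrix (Fin k) (Fin k) ℝ) (X : Mat m k) : Mat m k :=
  WithLp.toLp 2 (fun p => ∑ l, X (p.1, l) * O l p.2)

@[simp] theorem rowComb_apply {m k : ℕ} (v : EuclideanSpace ℝ (Fin m)) (X : Mat m k) (j : Fin k) :
    rowComb v X j = ∑ i, v i * X (i, j) := rfl

@[simp] theorem rotX_apply {m k : ℕ} (O : Matrix (Fin k) (Fin k) ℝ) (X : Mat m k)
    (p : Fin m × Fin k) : rotX O X p = ∑ l, X (p.1, l) * O l p.2 := rfl

theorem rotX_one {m k : ℕ} (X : Mat m k) : rotX 1 X = X := by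
  ext p
  simp [Matrix.one_apply]

theorem rotX_mul {m k : ℕ} (A B : Matrix (Fin k) (Fin k) ℝ) (X : Mat m k) :
    rotX (A * B) X = rotX B (rotX A X) := by
  ext p
  simp only [rotX_apply, Matrix.mul_apply, Finset.mul_sum, Finset.sum_mul]
  rw [Finset.sum_comm]
  refine Finset.sum_congr rfl (fun _ _ => Finset.sum_congr rfl (fun _ _ => by ring))

theorem rotX_add_left {m k : ℕ} (A B : Matrix (Fin k) (Fin k) ℝ) (X : Mat m k) :
    rotX (A + B) X = rotX A X + rotX B X := by
  ext p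
  simp [mul_add, Finset.sum_add_distrib]

theorem rotX_smul_left {m k : ℕ} (c : ℝ) (A : Matrix (Fin k) (Fin k) ℝ) (X : Mat m k) :
    rotX (c • A) X = c • rotX A X := by
  ext p
  simp only [rotX_apply, Matrix.smul_apply, smul_eq_mul, PiLp.smul_apply, Finset.mul_sum]
  refine Finset.sum_congr rfl (fun _ _ => by ring)

theorem rotX_add {m k : ℕ} (A : Matrix (Fin k) (Fin k) ℝ) (X Y : Mat m k) :
    rotX A (X + Y) = rotX A X + rotX A Y := by
  ext p
  simp [add_mul, Finset.sum_add_distrib]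

theorem rotX_smul {m k : ℕ} (c : ℝ) (A : Matrix (Fin k) (Fin k) ℝ) (X : Mat m k) :
    rotX A (c • X) = c • rotX A X := by
  ext p
  simp only [rotX_apply, PiLp.smul_apply, smul_eq_mul, Finset.mul_sum]
  refine Finset.sum_congr rfl (fun _ _ => by ring)

/-- right multiplication by an orthogonal matrix preserves the Frobenius inner product. -/
theorem inner_rotX {m k : ℕ} (O : Matrix (Fin k) (Fin k) ℝ) (hO : O * Oᵀ = 1) (X Y : Mat m k) :
    inner ℝ (rotX O X) (rotX O Y) = inner ℝ X Y := by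
  simp only [PiLp.inner_apply, rotX_apply, Fintype.sum_prod_type, RCLike.inner_apply,
    conj_trivial]
  refine Finset.sum_congr rfl (fun i _ => ?_)
  have h1 : ∀ j, (∑ l, Y (i, l) * O l j) * (∑ l, X (i, l) * O l j)
      = ∑ l, ∑ l', (Y (i, l) * X (i, l')) * (O l j * O l' j) := by
    intro j
    rw [Finset.sum_mul_sum]
    refine Finset.sum_congr rfl (fun _ _ => Finset.sum_congr rfl (fun _ _ => by ring))
  simp only [h1]
  rw [Finset.sum_comm]
  refine Finset.sum_congr rfl (fun l _ => ?_)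
  rw [Finset.sum_comm]
  have h2 : ∀ l', ∑ j, (Y (i, l) * X (i, l')) * (O l j * O l' j)
      = (Y (i, l) * X (i, l')) * (1 : Matrix (Fin k) (Fin k) ℝ) l l' := by
    intro l'
    rw [← hO, Matrix.mul_apply, Finset.mul_sum]
    rfl
  simp only [h2, Matrix.one_apply]
  simp

theorem norm_rotX {m k : ℕ} (O : Matrix (Fin k) (Fin k) ℝ) (hO : O * Oᵀ = 1) (X : Mat m k) :
    ‖rotX O X‖ = ‖X‖ := by
  rw [@norm_eq_sqrt_real_inner _ _ _ (rotX O X), inner_rotX O hO, ← norm_eq_sqrt_real_inner]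

/-- right multiplication by an orthogonal matrix as a linear isometry equivalence -/
noncomputable def rotXLI {m k : ℕ} (O : Matrix (Fin k) (Fin k) ℝ) (hO : O * Oᵀ = 1) :
    Mat m k ≃ₗᵢ[ℝ] Mat m k where
  toFun X := rotX O X
  invFun X := rotX Oᵀ X
  map_add' X Y := rotX_add O X Y
  map_smul' c X := rotX_smul c O X
  left_inv X := by
    show rotX Oᵀ (rotX O X) = X
    rw [← rotX_mul, hO, rotX_one]
  right_inv X := by
    show rotX O (rotX Oᵀ X) = X
    rw [← rotX_mul, mul_eq_one_comm.mp hO, rotX_one]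
  norm_map' X := norm_rotX O hO X

@[simp] theorem rotXLI_apply {m k : ℕ} (O : Matrix (Fin k) (Fin k) ℝ) (hO : O * Oᵀ = 1)
    (X : Mat m k) : rotXLI O hO X = rotX O X := rfl

end Pool.H97.KLS
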