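import Pool.Agent.H97.KlsRepMain
import Pool.Agent.H84.Blocks

set_option autoImplicit false
set_option linter.unusedSectionVars false
set_option linter.unusedSimpArgs false

open MeasureTheory Measure Set TopologicalSpace Matrix

namespace Pool.H97.KLSR

open Pool.H97.KLS
open Pool.Agent.H84 (CB PC BMat blk blkRot blk_blkRot norm_sq_eq_sum inner_eq_sum)

/-! ### The representation on `m × k` matrices by right multiplication -/

section matrep

variable {m k : ℕ}

theorem Em_sum' (j : Fin k) (w : Fin k → ℝ) (Y : Mat m k) :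
    rotX (Em j w) Y = ∑ b, w b • rotL (Em j (ev b)) Y := by
  rw [Em_sum j w, rotX_sum_left]
  refine Finset.sum_congr rfl fun b _ => ?_
  rw [rotX_smul_left]
  rfl

/-- right multiplication as a representation -/
noncomputable def matRep (m k : ℕ) : Rep (Fin k) (Mat m k) where
  act O := rotL O.1
  gen b j := rotL (Em j (ev b))
  act_mul A B _ X := rotX_mul A.1 B.1 X
  act_one X := rotX_one X
  norm_act O _ X := norm_rotX O.1 (mul_transpose_self O) X
  cont := continuous_rotL
  gen_diag a := by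
    ext1 X
    show rotX (Em a (ev a)) X = 0
    rw [Em_self, rotX_zero_mat]
  der j w hj hw Y θ := by
    have h := hasDerivAt_rotX (m := m) j w hj hw Y θ
    rw [Em_sum'] at h
    exact h

theorem matRep_casimir (X : Mat m k) :
    ∑ b, ∑ j, ‖rotX (Em j (ev b)) X‖ ^ 2 = 2 * ((k:ℝ) - 1) * ‖X‖ ^ 2 := by
  set L : Mat m k →L[ℝ] ℝ := InnerProductSpace.toDual ℝ (Mat m k) X with hL
  have h1 := casimir L
  have h2 : ‖L‖ = ‖X‖ := by rw [hL]; exact LinearIsometryEquiv.norm_map _ _
  rw [h2] at h1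
  rw [← h1]
  refine Finset.sum_congr rfl fun b _ => Finset.sum_congr rfl fun j _ => ?_
  have h3 := (matRep m k).sum_gen_sq (matBasis m k) L b j
  rw [hL, LinearIsometryEquiv.symm_apply_apply] at h3
  exact h3.symm

theorem matRep_frame (X : Mat m k) (R : ℝ)
    (hX : ∀ v : EuclideanSpace ℝ (Fin m), ‖rowComb v X‖ ≤ R * ‖v‖) (v : Mat m k) :
    ∑ b, ∑ j, inner ℝ (rotX (Em j (ev b)) X) v ^ 2 ≤ 4 * R ^ 2 * ‖v‖ ^ 2 := by
  have h1 := sum_ang_sq_le (fun Y => inner ℝ v Y) X R hX
  have h2 : fderiv ℝ (fun Y : Mat m k => inner ℝ v Y) X = innerSL ℝ v :=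
    (innerSL ℝ v).fderiv
  rw [h2, innerSL_apply_norm] at h1
  refine le_trans (le_of_eq ?_) h1
  refine Finset.sum_congr rfl fun b _ => Finset.sum_congr rfl fun j _ => ?_
  unfold KLS.ang
  rw [h2, innerSL_apply_apply, real_inner_comm]

end matrep

section block

variable {p : ℕ} {m k : Fin p → ℕ}

theorem ext_blk {X Y : BMat p m k} (h : ∀ l, blk l X = blk l Y) : X = Y := by
  ext q
  obtain ⟨l, r⟩ := q
  have := congrArg (fun Z : Mat (m l) (k l) => Z r) (h l)
  simpa using this

/-- the block action of a matrix -/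
noncomputable def gM (l : Fin p) :
    Matrix (Fin (k l)) (Fin (k l)) ℝ →ₗ[ℝ] (BMat p m k →L[ℝ] BMat p m k) where
  toFun A := (blkRot (Pi.single l A)).toContinuousLinearMap
  map_add' A B := by
    ext1 X
    show blkRot (Pi.single l (A + B)) X = blkRot (Pi.single l A) X + blkRot (Pi.single l B) X
    refine ext_blk fun l' => ?_
    rw [map_add, blk_blkRot, blk_blkRot, blk_blkRot, Pi.single_add, Pi.add_apply, rotX_add_left]
  map_smul' c A := by
    ext1 X
    show blkRot (Pi.single l (c • A)) X = c • blkRot (Pi.single l A) X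
    refine ext_blk fun l' => ?_
    rw [map_smul, blk_blkRot, blk_blkRot, Pi.single_smul, Pi.smul_apply, rotX_smul_left]

theorem gM_apply (l : Fin p) (A : Matrix (Fin (k l)) (Fin (k l)) ℝ) (X : BMat p m k) :
    gM l A X = blkRot (Pi.single l A) X := rfl

theorem blk_gM_same (l : Fin p) (A : Matrix (Fin (k l)) (Fin (k l)) ℝ) (X : BMat p m k) :
    blk l (gM l A X) = rotX A (blk l X) := by
  rw [gM_apply, blk_blkRot, Pi.single_eq_same]

theorem blk_gM_ne {l l' : Fin p} (h : l' ≠ l) (A : Matrix (Fin (k l)) (Fin (k l)) ℝ)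
    (X : BMat p m k) : blk l' (gM l A X) = 0 := by
  rw [gM_apply, blk_blkRot, Pi.single_eq_of_ne h, rotX_zero_mat]

theorem gM_gM (l : Fin p) (A B : Matrix (Fin (k l)) (Fin (k l)) ℝ) (X : BMat p m k) :
    gM l B (gM l A X) = gM l (A * B) X := by
  refine ext_blk fun l' => ?_
  by_cases h : l' = l
  · subst h
    rw [blk_gM_same, blk_gM_same, blk_gM_same, rotX_mul]
  · rw [blk_gM_ne h, blk_gM_ne h]

theorem gM_gM_ne {l l' : Fin p} (h : l' ≠ l) (A : Matrix (Fin (k l)) (Fin (k l)) ℝ)
    (B : Matrix (Fin (k l')) (Fin (k l')) ℝ) (X : BMat p m k) : gM l' B (gM l A X) = 0 := by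
  refine ext_blk fun i => ?_
  rw [map_zero]
  by_cases hi : i = l'
  · subst hi
    rw [blk_gM_same, blk_gM_ne h]
    ext q; simp
  · rw [blk_gM_ne hi]

/-- the block action -/
noncomputable def bact (l : Fin p) (A : Matrix (Fin (k l)) (Fin (k l)) ℝ) :
    BMat p m k →L[ℝ] BMat p m k := ContinuousLinearMap.id ℝ _ + gM l (A - 1)

theorem bact_apply (l : Fin p) (A : Matrix (Fin (k l)) (Fin (k l)) ℝ) (X : BMat p m k) :
    bact l A X = X + gM l (A - 1) X := rfl

theorem blk_bact_same (l : Fin p) (A : Matrix (Fin (k l)) (Fin (k l)) ℝ) (X : BMat p m k) :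
    blk l (bact l A X) = rotX A (blk l X) := by
  rw [bact_apply, map_add, blk_gM_same, rotX_sub_left, rotX_one]
  abel

theorem blk_bact_ne {l l' : Fin p} (h : l' ≠ l) (A : Matrix (Fin (k l)) (Fin (k l)) ℝ)
    (X : BMat p m k) : blk l' (bact l A X) = blk l' X := by
  rw [bact_apply, map_add, blk_gM_ne h, add_zero]

theorem bact_eq_blkRot (l : Fin p) (A : Matrix (Fin (k l)) (Fin (k l)) ℝ) (X : BMat p m k) :
    bact l A X = blkRot (Function.update (fun _ => 1) l A) X := by
  refine ext_blk fun i => ?_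
  rw [blk_blkRot]
  by_cases hi : i = l
  · subst hi
    rw [blk_bact_same, Function.update_self]
  · rw [blk_bact_ne hi, Function.update_of_ne hi, rotX_one]

/-- block representations -/
noncomputable def blkRep (m k : Fin p → ℕ) (l : Fin p) : Rep (Fin (k l)) (BMat p m k) where
  act O := bact l O.1
  gen b j := gM l (Em j (ev b))
  act_mul A B _ X := by
    show bact l (A.1 * B.1) X = bact l B.1 (bact l A.1 X)
    refine ext_blk fun i => ?_
    by_cases hi : i = l
    · subst hi
      rw [blk_bact_same, blk_bact_same, blk_bact_same, rotX_mul]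
    · rw [blk_bact_ne hi, blk_bact_ne hi, blk_bact_ne hi]
  act_one X := by
    show X + gM l (1 - 1) X = X
    rw [sub_self, map_zero]; simp
  norm_act O _ X := by
    have h : ‖bact l O.1 X‖ ^ 2 = ‖X‖ ^ 2 := by
      rw [norm_sq_eq_sum, norm_sq_eq_sum]
      refine Finset.sum_congr rfl fun i _ => ?_
      by_cases hi : i = l
      · subst hi
        rw [blk_bact_same, norm_rotX _ (mul_transpose_self O)]
      · rw [blk_bact_ne hi]
    exact (sq_eq_sq₀ (norm_nonneg _) (norm_nonneg _)).1 h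
  cont := by
    have h : Continuous (gM (m := m) (k := k) l) := LinearMap.continuous_of_finiteDimensional _
    exact continuous_const.add (h.comp (continuous_subtype_val.sub continuous_const))
  gen_diag a := by rw [Em_self, map_zero]
  der j w hj hw Y θ := by
    have e : (fun t => bact l (rot j w hj hw t).1 Y)
        = fun t => Y + (Real.cos t - 1) • gM l (Pm j w) Y + Real.sin t • gM l (Em j w) Y := by
      ext1 t
      show Y + gM l (rotM j w t - 1) Y = _
      have : rotM j w t - 1 = (Real.cos t - 1) • Pm j w + Real.sin t • Em j w := by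
        rw [rotM]; abel
      rw [this, map_add, map_smul, map_smul, _root_.add_apply, _root_.smul_apply,
        _root_.smul_apply, add_assoc]
    rw [e]
    have h1 : HasDerivAt (fun t => Y + (Real.cos t - 1) • gM l (Pm j w) Y
        + Real.sin t • gM l (Em j w) Y)
        (0 + (-Real.sin θ) • gM l (Pm j w) Y + Real.cos θ • gM l (Em j w) Y) θ := by
      refine HasDerivAt.add (HasDerivAt.add (hasDerivAt_const _ _) ?_) ?_
      · exact ((Real.hasDerivAt_cos θ).sub_const 1).smul_const _
      · exact (Real.hasDerivAt_sin θ).smul_const _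
    refine h1.congr_deriv (Eq.symm ?_)
    have h2 : ∑ b, w b • gM l (Em j (ev b)) (bact l (rot j w hj hw θ).1 Y)
        = gM l (Em j w) (bact l (rotM j w θ) Y) := by
      rw [Em_sum j w, _root_.map_sum]
      simp only [map_smul]
      rw [_root_.sum_apply]
      rfl
    rw [h2, bact_apply, map_add, gM_gM, ← _root_.add_apply, ← map_add]
    have e2 : Em j w + (rotM j w θ - 1) * Em j w
        = (-Real.sin θ) • Pm j w + Real.cos θ • Em j w := by
      have e3 : rotM j w θ * Em j w = (-Real.sin θ) • Pm j w + Real.cos θ • Em j w := by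
        rw [rotM, Matrix.add_mul, Matrix.add_mul, Matrix.one_mul, Matrix.smul_mul, Matrix.smul_mul,
          Pm_mul_Em j w hj hw, Em_mul_Em j w hj hw]
        module
      rw [Matrix.sub_mul, e3, Matrix.one_mul]
      abel
    rw [e2, map_add, map_smul, map_smul, zero_add]
    rfl

theorem blkRep_comm {l l' : Fin p} (h : l ≠ l') : Comm (blkRep m k l) (blkRep m k l') := by
  intro O O' _ _ X
  show bact l O.1 (bact l' O'.1 X) = bact l' O'.1 (bact l O.1 X)
  refine ext_blk fun i => ?_
  by_cases hi : i = l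
  · subst hi
    rw [blk_bact_same, blk_bact_ne h, blk_bact_ne h, blk_bact_same]
  · rw [blk_bact_ne hi]
    by_cases hi' : i = l'
    · subst hi'
      rw [blk_bact_same, blk_bact_same, blk_bact_ne hi]
    · rw [blk_bact_ne hi', blk_bact_ne hi', blk_bact_ne hi]

theorem blkRep_gen_norm (l : Fin p) (b j : Fin (k l)) (X : BMat p m k) :
    ‖(blkRep m k l).gen b j X‖ ^ 2 = ‖rotX (Em j (ev b)) (blk l X)‖ ^ 2 := by
  show ‖gM l (Em j (ev b)) X‖ ^ 2 = _
  rw [norm_sq_eq_sum, Finset.sum_eq_single l]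
  · rw [blk_gM_same]
  · intro i _ hi
    rw [blk_gM_ne hi]; simp
  · intro h; exact absurd (Finset.mem_univ l) h

theorem blkRep_gen_inner (l : Fin p) (b j : Fin (k l)) (X v : BMat p m k) :
    inner ℝ ((blkRep m k l).gen b j X) v = inner ℝ (rotX (Em j (ev b)) (blk l X)) (blk l v) := by
  show inner ℝ (gM l (Em j (ev b)) X) v = _
  rw [inner_eq_sum, Finset.sum_eq_single l]
  · rw [blk_gM_same]
  · intro i _ hi
    rw [blk_gM_ne hi, inner_zero_left]
  · intro h; exact absurd (Finset.mem_univ l) h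

/-- **Block version**: Poincaré inequality for bounded convex sets in a direct sum of matrix
spaces, invariant under the right rotations of every block. -/
theorem block_poincare (hk : ∀ l, 2 ≤ k l) {K : Set (BMat p m k)} {R : ℝ} (hK : CB K R)
    (hinv : ∀ O : (l : Fin p) → Matrix (Fin (k l)) (Fin (k l)) ℝ,
      (∀ l, O l * (O l).transpose = 1 ∧ (O l).det = 1) → ∀ X ∈ K, blkRot O X ∈ K)
    {D : ℝ} (hD : 0 < D)
    (hR : ∀ X ∈ K, ∀ (l : Fin p) (v : EuclideanSpace ℝ (Fin (m l))),
      ‖rowComb v (blk l X)‖ ≤ D * Real.sqrt (k l) * ‖v‖) : PC K (6 * D) := by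
  have hk1 : ∀ l, (0:ℝ) < (k l : ℝ) - 1 := fun l => by
    have : (2:ℝ) ≤ k l := by exact_mod_cast hk l
    linarith
  have hk0 : ∀ l, (0:ℝ) < (k l : ℝ) := fun l => by linarith [hk1 l]
  have hframe : ∀ X ∈ K, ∀ v : BMat p m k, ∀ l,
      ∑ b, ∑ j, inner ℝ ((blkRep m k l).gen b j X) v ^ 2
        ≤ 4 * D ^ 2 * k l * ‖blk l v‖ ^ 2 := by
    intro X hX v l
    simp only [blkRep_gen_inner]
    refine (matRep_frame (blk l X) (D * Real.sqrt (k l)) (hR X hX l) (blk l v)).trans
      (le_of_eq ?_)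
    rw [mul_pow, Real.sq_sqrt (hk0 l).le]
    ring
  have key := rep_poincare (blkRep m k) (fun l l' h => blkRep_comm h)
    (fun l => (by omega : 1 ≤ 2).trans (hk l)) hK ?_ (fun l => 1 / (2 * ((k l : ℝ) - 1)))
    (κ := 1 / (4 * D ^ 2)) (B := 4 * D ^ 2) (by positivity) ?_ ?_ ?_
  · have e : 5 * (4 * D ^ 2) + 4 / (1 / (4 * D ^ 2)) = (6 * D) ^ 2 := by
      field_simp; ring
    rw [e, Real.sqrt_sq (by positivity)] at key
    exact key
  · intro l O hO X hX
    show bact l O.1 X ∈ K
    rw [bact_eq_blkRot]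
    refine hinv _ (fun i => ?_) X hX
    by_cases hi : i = l
    · subst hi
      rw [Function.update_self]
      exact ⟨mul_transpose_self O, hO⟩
    · rw [Function.update_of_ne hi]
      simp
  · intro w
    rw [norm_sq_eq_sum]
    refine Finset.sum_le_sum fun l _ => le_of_eq ?_
    simp only [blkRep_gen_norm]
    rw [matRep_casimir]
    have := (hk1 l).ne'
    field_simp
  · intro X hX v
    rw [norm_sq_eq_sum v, Finset.mul_sum]
    refine Finset.sum_le_sum fun l _ => ?_
    have h1 := hframe X hX v l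
    have h2 : 1 / (2 * ((k l : ℝ) - 1)) * (k l : ℝ) ≤ 1 := by
      rw [one_div, inv_mul_eq_div, div_le_one (by have := hk1 l; positivity)]
      have : (2:ℝ) ≤ k l := by exact_mod_cast hk l
      linarith
    have hp : 0 < 1 / (2 * ((k l : ℝ) - 1)) := by have := hk1 l; positivity
    calc 1 / (4 * D ^ 2) * (1 / (2 * ((k l : ℝ) - 1))
          * ∑ b, ∑ j, inner ℝ ((blkRep m k l).gen b j X) v ^ 2)
        ≤ 1 / (4 * D ^ 2) * (1 / (2 * ((k l : ℝ) - 1)) * (4 * D ^ 2 * k l * ‖blk l v‖ ^ 2)) := by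
          gcongr
      _ = (1 / (2 * ((k l : ℝ) - 1)) * (k l : ℝ)) * ‖blk l v‖ ^ 2 := by field_simp
      _ ≤ 1 * ‖blk l v‖ ^ 2 := mul_le_mul_of_nonneg_right h2 (sq_nonneg _)
      _ = _ := one_mul _
  · intro X hX v
    rw [norm_sq_eq_sum v, Finset.mul_sum]
    refine Finset.sum_le_sum fun l _ => ?_
    have h1 := hframe X hX v l
    have h0 := hk0 l
    calc 1 / (k l : ℝ) * ∑ b, ∑ j, inner ℝ ((blkRep m k l).gen b j X) v ^ 2
        ≤ 1 / (k l : ℝ) * (4 * D ^ 2 * k l * ‖blk l v‖ ^ 2) := by gcongr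
      _ = _ := by field_simp

end block

end Pool.H97.KLSR
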