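import Pool.Agent.H97.KlsGauss
import Pool.Agent.H84.Duality

set_option autoImplicit false
set_option linter.unusedSectionVars false
set_option linter.unusedSimpArgs false

open MeasureTheory Measure Set TopologicalSpace

namespace Pool.H97.KLSG

variable {E : Type*} [NormedAddCommGroup E] [InnerProductSpace ℝ E]
    [FiniteDimensional ℝ E] [MeasurableSpace E] [BorelSpace E]
variable {ι : Type*} [Fintype ι]

/-- bounded measurable -/
structure BM (h : E → ℝ) (C : ℝ) : Prop where
  meas : Measurable h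
  bound : ∀ x, |h x| ≤ C

theorem BM.nonneg {h : E → ℝ} {C : ℝ} (hb : BM h C) : 0 ≤ C :=
  (abs_nonneg _).trans (hb.bound 0)

/-- Gaussian average -/
noncomputable def Aop (d : ℝ) (h : E → ℝ) (x : E) : ℝ :=
  (gN E d)⁻¹ * ∫ y, h y * gk d (y - x)

theorem integrable_shift {f : E → ℝ} (hf : Integrable f) (x : E) :
    Integrable (fun y => f (y - x)) := hf.comp_sub_right x

theorem integrable_h_gk {d : ℝ} (hd : 0 < d) {h : E → ℝ} {C : ℝ} (hb : BM h C)
    (x : E) : Integrable (fun y => h y * gk d (y - x)) :=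
  Integrable.bdd_mul (integrable_shift (integrable_gk hd) x) hb.meas.aestronglyMeasurable
    (c := C) (Filter.Eventually.of_forall hb.bound)

theorem integrable_h_inner_gk {d : ℝ} (hd : 0 < d) {h : E → ℝ} {C : ℝ}
    (hb : BM h C) (x : E) (v : E) :
    Integrable (fun y => h y * (inner ℝ (y - x) v * gk d (y - x))) :=
  Integrable.bdd_mul (integrable_shift (integrable_inner_gk hd v) x) hb.meas.aestronglyMeasurable
    (c := C) (Filter.Eventually.of_forall hb.bound)

theorem integral_gk_shift (d : ℝ) (x : E) :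
    ∫ y, gk d (y - x) = gN E d := by
  unfold gN
  exact integral_sub_right_eq_self (fun y => gk d y) x

theorem Aop_const {d : ℝ} (hd : 0 < d) (c : ℝ) (x : E) :
    Aop d (fun _ => c) x = c := by
  unfold Aop
  rw [integral_const_mul, integral_gk_shift]
  have := (gN_pos (E := E) hd).ne'
  field_simp

theorem Aop_mono {d : ℝ} (hd : 0 < d) {f g : E → ℝ} {C C' : ℝ} (hf : BM f C)
    (hg : BM g C') (hfg : ∀ y, f y ≤ g y) (x : E) : Aop d f x ≤ Aop d g x := by
  unfold Aop
  refine mul_le_mul_of_nonneg_left ?_ (inv_nonneg.mpr (gN_pos hd).le)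
  refine integral_mono (integrable_h_gk hd hf x) (integrable_h_gk hd hg x) (fun y => ?_)
  exact mul_le_mul_of_nonneg_right (hfg y) (gk_pos d _).le

theorem Aop_abs_le {d : ℝ} (hd : 0 < d) {h : E → ℝ} {C : ℝ} (hb : BM h C)
    (x : E) : |Aop d h x| ≤ C := by
  have hc : BM (fun _ : E => C) C :=
    ⟨measurable_const, fun _ => (abs_of_nonneg hb.nonneg).le⟩
  have hc' : BM (fun _ : E => -C) C :=
    ⟨measurable_const, fun _ => by rw [abs_neg]; exact (abs_of_nonneg hb.nonneg).le⟩
  rw [abs_le]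
  constructor
  · have := Aop_mono hd hc' hb (fun y => (abs_le.mp (hb.bound y)).1) x
    rwa [Aop_const hd] at this
  · have := Aop_mono hd hb hc (fun y => (abs_le.mp (hb.bound y)).2) x
    rwa [Aop_const hd] at this

/-- derivative integrand -/
noncomputable def adint (d : ℝ) (h : E → ℝ) (x y : E) :
    E →L[ℝ] ℝ :=
  (h y * (gk d (y - x) / d ^ 2)) • innerSL ℝ (y - x)

theorem norm_adint_le {d : ℝ} (hd : 0 < d) {h : E → ℝ} {C : ℝ} (hb : BM h C)
    (x y : E) :
    ‖adint d h x y‖ ≤ C / d * Real.exp (-(‖y - x‖ ^ 2) / (4 * d ^ 2)) := by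
  unfold adint
  rw [norm_smul, innerSL_apply_norm, norm_mul, Real.norm_eq_abs, norm_div, Real.norm_eq_abs,
    Real.norm_eq_abs, abs_of_pos (gk_pos d _), abs_of_pos (by positivity : (0:ℝ) < d ^ 2)]
  have h1 := norm_mul_gk_le hd (y - x)
  calc |h y| * (gk d (y - x) / d ^ 2) * ‖y - x‖
      = |h y| * ((‖y - x‖ * gk d (y - x)) / d ^ 2) := by ring
    _ ≤ C * ((d * Real.exp (-(‖y - x‖ ^ 2) / (4 * d ^ 2))) / d ^ 2) := by
        refine mul_le_mul (hb.bound y) ?_ (by have := gk_pos d (y - x); positivity) hb.nonneg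
        exact div_le_div_of_nonneg_right h1 (by positivity)
    _ = _ := by field_simp

theorem exp_shift_le {d : ℝ} (hd : 0 < d) (x0 x y : E) (hx : ‖x - x0‖ ≤ d) :
    Real.exp (-(‖y - x‖ ^ 2) / (4 * d ^ 2))
      ≤ Real.exp (1/4) * Real.exp (-(‖y - x0‖ ^ 2) / (8 * d ^ 2)) := by
  rw [← Real.exp_add]
  apply Real.exp_le_exp.mpr
  have h1 : ‖y - x0‖ ≤ ‖y - x‖ + d := by
    have : y - x0 = (y - x) + (x - x0) := by abel
    rw [this]
    exact (norm_add_le _ _).trans (by linarith)
  have h2 : ‖y - x0‖ ^ 2 ≤ 2 * ‖y - x‖ ^ 2 + 2 * d ^ 2 := by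
    have h3 : ‖y - x0‖ ^ 2 ≤ (‖y - x‖ + d) ^ 2 := pow_le_pow_left₀ (norm_nonneg _) h1 2
    nlinarith [sq_nonneg (‖y - x‖ - d)]
  have h4 : 1/4 + -(‖y - x0‖ ^ 2) / (8 * d ^ 2) - (-(‖y - x‖ ^ 2) / (4 * d ^ 2))
      = (2 * ‖y - x‖ ^ 2 + 2 * d ^ 2 - ‖y - x0‖ ^ 2) / (8 * d ^ 2) := by
    field_simp; ring
  have h5 : 0 ≤ (2 * ‖y - x‖ ^ 2 + 2 * d ^ 2 - ‖y - x0‖ ^ 2) / (8 * d ^ 2) := by
    apply div_nonneg (by linarith) (by positivity)
  linarith

theorem meas_adint (d : ℝ) {h : E → ℝ} (hm : Measurable h)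
    (x : E) : AEStronglyMeasurable (adint d h x) := by
  unfold adint
  have h1 : AEStronglyMeasurable (fun y => h y * (gk d (y - x) / d ^ 2)) volume :=
    (hm.mul (((continuous_gk d).comp (continuous_sub_right x)).div_const _).measurable).aestronglyMeasurable
  have h2 : AEStronglyMeasurable (fun y : E => innerSL ℝ (y - x)) volume :=
    ((innerSL ℝ).continuous.comp (continuous_sub_right x)).aestronglyMeasurable
  exact h1.smul h2

theorem integrable_adint {d : ℝ} (hd : 0 < d) {h : E → ℝ} {C : ℝ} (hb : BM h C)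
    (x : E) : Integrable (adint d h x) := by
  refine (((integrable_shift (integrable_exp4 hd) x)).const_mul (C / d)).mono'
    (meas_adint d hb.meas x) ?_
  exact Filter.Eventually.of_forall (fun y => norm_adint_le hd hb x y)

theorem hasFDerivAt_int {d : ℝ} (hd : 0 < d) {h : E → ℝ} {C : ℝ} (hb : BM h C)
    (x0 : E) :
    HasFDerivAt (fun x => ∫ y, h y * gk d (y - x)) (∫ y, adint d h x0 y) x0 := by
  refine hasFDerivAt_integral_of_dominated_of_fderiv_le (F' := adint d h)
    (s := Metric.ball x0 d)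
    (bound := fun y => C / d * (Real.exp (1/4) * Real.exp (-(‖y - x0‖ ^ 2) / (8 * d ^ 2))))
    (Metric.ball_mem_nhds x0 hd) ?_ ?_ ?_ ?_ ?_ ?_
  · exact Filter.Eventually.of_forall (fun x => (integrable_h_gk hd hb x).aestronglyMeasurable)
  · exact integrable_h_gk hd hb x0
  · exact meas_adint d hb.meas x0
  · refine Filter.Eventually.of_forall (fun y x hx => ?_)
    refine (norm_adint_le hd hb x y).trans ?_
    refine mul_le_mul_of_nonneg_left ?_ (div_nonneg hb.nonneg hd.le)
    refine exp_shift_le hd x0 x y ?_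
    have := Metric.mem_ball.mp hx
    rw [dist_eq_norm] at this
    exact this.le
  · exact ((integrable_shift (integrable_exp8 hd) x0).const_mul _).const_mul _
  · refine Filter.Eventually.of_forall (fun y x _ => ?_)
    have h1 : HasFDerivAt (fun x : E => y - x)
        (-(ContinuousLinearMap.id ℝ (E))) x := by
      simpa using (hasFDerivAt_id x).const_sub y
    have h2 := (hasFDerivAt_gk hd (y - x)).comp x h1
    have h3 := h2.const_mul (h y)
    refine h3.congr_fderiv ?_
    ext v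
    simp [adint]
    ring

theorem hasFDerivAt_Aop {d : ℝ} (hd : 0 < d) {h : E → ℝ} {C : ℝ} (hb : BM h C)
    (x : E) :
    HasFDerivAt (Aop d h) ((gN E d)⁻¹ • ∫ y, adint d h x y) x :=
  (hasFDerivAt_int hd hb x).const_mul _

theorem continuous_Aop {d : ℝ} (hd : 0 < d) {h : E → ℝ} {C : ℝ} (hb : BM h C) :
    Continuous (Aop d h) :=
  continuous_iff_continuousAt.mpr (fun x => (hasFDerivAt_Aop hd hb x).continuousAt)

theorem fderiv_Aop_apply {d : ℝ} (hd : 0 < d) {h : E → ℝ} {C : ℝ} (hb : BM h C)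
    (x v : E) :
    fderiv ℝ (Aop d h) x v
      = (gN E d)⁻¹ * ((1 / d ^ 2) * ∫ y, h y * (inner ℝ (y - x) v * gk d (y - x))) := by
  rw [(hasFDerivAt_Aop hd hb x).fderiv]
  rw [_root_.smul_apply, ContinuousLinearMap.integral_apply (integrable_adint hd hb x), smul_eq_mul]
  have e : ∀ y, adint d h x y v = 1 / d ^ 2 * (h y * (inner ℝ (y - x) v * gk d (y - x))) := by
    intro y
    unfold adint
    rw [_root_.smul_apply, innerSL_apply_apply, smul_eq_mul]
    ring
  simp only [e]
  rw [integral_const_mul]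

theorem norm_sq_dual (b : OrthonormalBasis ι ℝ E) (L : E →L[ℝ] ℝ) : ‖L‖ ^ 2 = ∑ i, (L (b i)) ^ 2 := by
  set g := (InnerProductSpace.toDual ℝ E).symm L with hg
  have hgn : ‖g‖ = ‖L‖ := by rw [hg]; exact LinearIsometryEquiv.norm_map _ _
  rw [← hgn, ← b.sum_sq_norm_inner_left g]
  refine Finset.sum_congr rfl (fun i _ => ?_)
  have : L (b i) = inner ℝ g (b i) := by rw [hg, InnerProductSpace.toDual_symm_apply]
  rw [this, Real.norm_eq_abs, sq_abs]

/-- Bessel inequality for Hermite polynomials of degree at most one. -/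
theorem bessel {d : ℝ} (hd : 0 < d) {h : E → ℝ} {C : ℝ} (hb : BM h C) (x : E) :
    (Aop d h x) ^ 2 + d ^ 2 * ‖fderiv ℝ (Aop d h) x‖ ^ 2 ≤ Aop d (fun y => h y ^ 2) x := by
  have hN := gN_pos (E := E) hd
  have hN' := hN.ne'
  have hd' := hd.ne'
  set b := stdOrthonormalBasis ℝ E with hbdef
  set a0 := Aop d h x with ha0
  set g := (InnerProductSpace.toDual ℝ E).symm (fderiv ℝ (Aop d h) x) with hg
  have hgn : ‖g‖ = ‖fderiv ℝ (Aop d h) x‖ := by rw [hg]; exact LinearIsometryEquiv.norm_map _ _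
  have hgv : ∀ v, inner ℝ g v = fderiv ℝ (Aop d h) x v := by
    intro v; rw [hg, InnerProductSpace.toDual_symm_apply]
  rw [← hgn]
  have h0 : ∫ y, h y * gk d (y - x) = gN E d * a0 := by
    rw [ha0]; unfold Aop; field_simp
  have h1 : ∫ y, h y * (inner ℝ (y - x) g * gk d (y - x)) = gN E d * d ^ 2 * ‖g‖ ^ 2 := by
    have := fderiv_Aop_apply hd hb x g
    rw [← hgv g, real_inner_self_eq_norm_sq] at this
    rw [this]
    field_simp
  -- the polynomial a0 + <y - x, g>
  have hb2 : BM (fun y => h y ^ 2) (C ^ 2) :=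
    ⟨hb.meas.pow_const 2, fun y => by
      rw [abs_pow]; exact pow_le_pow_left₀ (abs_nonneg _) (hb.bound y) 2⟩
  have key : ∀ y : E, 0 ≤ (h y - (a0 + inner ℝ (y - x) g)) ^ 2 * gk d (y - x) :=
    fun y => mul_nonneg (sq_nonneg _) (gk_pos d _).le
  have hexp : ∀ y : E, (h y - (a0 + inner ℝ (y - x) g)) ^ 2 * gk d (y - x)
      = h y ^ 2 * gk d (y - x) - 2 * a0 * (h y * gk d (y - x))
        - 2 * (h y * (inner ℝ (y - x) g * gk d (y - x)))
        + a0 ^ 2 * gk d (y - x) + 2 * a0 * (inner ℝ (y - x) g * gk d (y - x))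
        + (inner ℝ (y - x) g * inner ℝ (y - x) g * gk d (y - x)) := by
    intro y; ring
  have i1 : Integrable (fun y => h y ^ 2 * gk d (y - x)) := integrable_h_gk hd hb2 x
  have i2 : Integrable (fun y => 2 * a0 * (h y * gk d (y - x))) :=
    (integrable_h_gk hd hb x).const_mul _
  have i3 : Integrable (fun y => 2 * (h y * (inner ℝ (y - x) g * gk d (y - x)))) :=
    (integrable_h_inner_gk hd hb x g).const_mul _
  have i4 : Integrable (fun y : E => a0 ^ 2 * gk d (y - x)) :=
    (integrable_shift (integrable_gk hd) x).const_mul _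
  have i5 : Integrable (fun y : E => 2 * a0 * (inner ℝ (y - x) g * gk d (y - x))) :=
    (integrable_shift (integrable_inner_gk hd g) x).const_mul _
  have i6 : Integrable (fun y : E => inner ℝ (y - x) g * inner ℝ (y - x) g * gk d (y - x)) :=
    integrable_shift (integrable_inner_inner_gk hd g g) x
  have hnn : 0 ≤ ∫ y, (h y - (a0 + inner ℝ (y - x) g)) ^ 2 * gk d (y - x) :=
    integral_nonneg key
  simp only [hexp] at hnn
  have i12 : Integrable (fun y => h y ^ 2 * gk d (y - x) - 2 * a0 * (h y * gk d (y - x))) :=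
    i1.sub i2
  have i123 : Integrable (fun y => h y ^ 2 * gk d (y - x) - 2 * a0 * (h y * gk d (y - x))
        - 2 * (h y * (inner ℝ (y - x) g * gk d (y - x)))) := i12.sub i3
  have i1234 : Integrable (fun y => h y ^ 2 * gk d (y - x) - 2 * a0 * (h y * gk d (y - x))
        - 2 * (h y * (inner ℝ (y - x) g * gk d (y - x)))
        + a0 ^ 2 * gk d (y - x)) := i123.add i4
  have i12345 : Integrable (fun y => h y ^ 2 * gk d (y - x) - 2 * a0 * (h y * gk d (y - x))
        - 2 * (h y * (inner ℝ (y - x) g * gk d (y - x)))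
        + a0 ^ 2 * gk d (y - x) + 2 * a0 * (inner ℝ (y - x) g * gk d (y - x))) :=
    i1234.add i5
  rw [integral_add i12345 i6, integral_add i1234 i5, integral_add i123 i4,
    integral_sub i12 i3, integral_sub i1 i2, integral_const_mul, integral_const_mul,
    integral_const_mul, integral_const_mul, h0, h1,
    integral_gk_shift, integral_sub_right_eq_self (fun y : E => inner ℝ y g * gk d y) x,
    integral_inner_gk,
    integral_sub_right_eq_self (fun y : E => inner ℝ y g * inner ℝ y g * gk d y) x,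
    integral_inner_inner_gk hd, real_inner_self_eq_norm_sq] at hnn
  have hfin : Aop d (fun y => h y ^ 2) x = (gN E d)⁻¹ * ∫ y, h y ^ 2 * gk d (y - x) := rfl
  rw [hfin]
  have hge : gN E d * (a0 ^ 2 + d ^ 2 * ‖g‖ ^ 2) ≤ ∫ y, h y ^ 2 * gk d (y - x) := by nlinarith
  rw [inv_mul_eq_div, le_div_iff₀ hN]
  linarith

/-- the operator agrees with the one of `H84` -/
theorem Aop_eq_H84 (d : ℝ) (h : E → ℝ) : Pool.Agent.H84.Aop d h = Aop d h := by
  ext x
  have hk : ∀ y : E, Pool.Agent.H84.kern d y x = gk d (y - x) := fun y => rfl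
  show Pool.Agent.H84.NN univ d h x / Pool.Agent.H84.ZZ univ d x = _
  unfold Pool.Agent.H84.NN Pool.Agent.H84.ZZ Aop
  simp only [Measure.restrict_univ, hk]
  rw [integral_gk_shift, div_eq_inv_mul]

end Pool.H97.KLSG
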