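import Pool.Agent.H97.KlsPoinc
import Pool.Agent.H97.KlsDefs

set_option autoImplicit false
set_option linter.unusedSectionVars false
set_option linter.unusedSimpArgs false

open MeasureTheory Measure Set TopologicalSpace Matrix

namespace Pool.H97.KLS

variable {m k : ℕ}

theorem continuous_rotX : Continuous (fun p : Matrix (Fin k) (Fin k) ℝ × Mat m k => rotX p.1 p.2) := by
  unfold rotX
  refine (PiLp.continuous_toLp 2 _).comp ?_
  refine continuous_pi (fun q => continuous_finsetSum _ (fun l _ => ?_))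
  refine Continuous.mul ?_ ?_
  · fun_prop
  · exact (continuous_apply q.2).comp ((continuous_apply l).comp continuous_fst)

theorem continuous_rotX' : Continuous (fun p : OG (Fin k) × Mat m k => rotX p.1.1 p.2) :=
  continuous_rotX.comp ((continuous_subtype_val.comp continuous_fst).prodMk continuous_snd)

/-- right multiplication by a matrix as a continuous linear map -/
noncomputable def rotL (A : Matrix (Fin k) (Fin k) ℝ) : Mat m k →L[ℝ] Mat m k :=
  LinearMap.toContinuousLinearMap
    { toFun := fun X => rotX A X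
      map_add' := rotX_add A
      map_smul' := fun c X => rotX_smul c A X }

@[simp] theorem rotL_apply (A : Matrix (Fin k) (Fin k) ℝ) (X : Mat m k) : rotL A X = rotX A X := rfl

theorem norm_rotL_le (O : Matrix (Fin k) (Fin k) ℝ) (hO : O * Oᵀ = 1) :
    ‖(rotL O : Mat m k →L[ℝ] Mat m k)‖ ≤ 1 := by
  refine ContinuousLinearMap.opNorm_le_bound _ zero_le_one (fun X => ?_)
  rw [rotL_apply, norm_rotX O hO, one_mul]

theorem rotX_zero_mat (X : Mat m k) : rotX 0 X = 0 := by
  ext p; simp

theorem rotX_sub_left (A B : Matrix (Fin k) (Fin k) ℝ) (X : Mat m k) :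
    rotX (A - B) X = rotX A X - rotX B X := by
  ext p
  simp [mul_sub, Finset.sum_sub_distrib]

theorem rotX_sum_left {α : Type*} (s : Finset α) (A : α → Matrix (Fin k) (Fin k) ℝ) (X : Mat m k) :
    rotX (∑ a ∈ s, A a) X = ∑ a ∈ s, rotX (A a) X := by
  classical
  induction s using Finset.induction_on with
  | empty => simp [rotX_zero_mat]
  | insert a s ha ih => rw [Finset.sum_insert ha, Finset.sum_insert ha, rotX_add_left, ih]

/-- derivative along the rotations -/
theorem hasDerivAt_rotX (j : Fin k) (w : Fin k → ℝ) (hj : w j = 0) (hw : w ⬝ᵥ w = 1)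
    (Y : Mat m k) (θ : ℝ) :
    HasDerivAt (fun t => rotX (rotM j w t) Y) (rotX (Em j w) (rotX (rotM j w θ) Y)) θ := by
  have e : (fun t => rotX (rotM j w t) Y)
      = fun t => Y + (Real.cos t - 1) • rotX (Pm j w) Y + Real.sin t • rotX (Em j w) Y := by
    ext t : 1
    rw [rotM, rotX_add_left, rotX_add_left, rotX_one, rotX_smul_left, rotX_smul_left]
  rw [e]
  have h1 : HasDerivAt (fun t => Y + (Real.cos t - 1) • rotX (Pm j w) Y
      + Real.sin t • rotX (Em j w) Y)
      (0 + (-Real.sin θ) • rotX (Pm j w) Y + Real.cos θ • rotX (Em j w) Y) θ := by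
    refine HasDerivAt.add (HasDerivAt.add (hasDerivAt_const _ _) ?_) ?_
    · exact ((Real.hasDerivAt_cos θ).sub_const 1).smul_const _
    · exact (Real.hasDerivAt_sin θ).smul_const _
  convert h1 using 1
  rw [← rotX_mul]
  have e2 : rotM j w θ * Em j w = (-Real.sin θ) • Pm j w + Real.cos θ • Em j w := by
    rw [rotM, Matrix.add_mul, Matrix.add_mul, Matrix.one_mul, Matrix.smul_mul, Matrix.smul_mul,
      Pm_mul_Em j w hj hw, Em_mul_Em j w hj hw]
    module
  rw [e2, rotX_add_left, rotX_smul_left, rotX_smul_left, zero_add]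

theorem Em_sum (j : Fin k) (w : Fin k → ℝ) : Em j w = ∑ b, w b • Em j (ev b) := by
  ext x y
  rw [Matrix.sum_apply]
  simp only [Em, Matrix.smul_apply, Matrix.sub_apply, vecMulVec_apply, smul_eq_mul, ev,
    Pi.single_apply]
  rw [Finset.sum_congr rfl (fun b _ => show w b * ((if x = b then (1:ℝ) else 0) * (if y = j then 1 else 0)
    - (if x = j then 1 else 0) * (if y = b then 1 else 0)) =
    (if b = x then w b * (if y = j then (1:ℝ) else 0) else 0)
      - (if b = y then w b * (if x = j then (1:ℝ) else 0) else 0) by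
      by_cases h1 : x = b <;> by_cases h2 : y = b <;> simp [h1, h2, eq_comm])]
  rw [Finset.sum_sub_distrib, Finset.sum_ite_eq', Finset.sum_ite_eq']
  simp

theorem Em_self (j : Fin k) : Em j (ev j) = 0 := by
  simp [Em]

/-- the angular derivative of a function on matrices -/
noncomputable def ang (f : Mat m k → ℝ) (b j : Fin k) (Y : Mat m k) : ℝ :=
  fderiv ℝ f Y (rotX (Em j (ev b)) Y)

theorem good_of_contDiff (f : Mat m k → ℝ) (hf : ContDiff ℝ 1 f) (X : Mat m k) :
    Good (fun O : OG (Fin k) => f (rotX O.1 X)) (fun b j O => ang f b j (rotX O.1 X)) := by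
  have hrot : Continuous (fun O : OG (Fin k) => rotX O.1 X) :=
    continuous_rotX'.comp (Continuous.prodMk_left X)
  refine ⟨hf.continuous.comp hrot, fun a b => ?_, fun a O => ?_, fun j w hj hw O θ => ?_⟩
  · unfold ang
    have h1 : Continuous (fun O : OG (Fin k) => fderiv ℝ f (rotX O.1 X)) :=
      (hf.continuous_fderiv (by norm_num)).comp hrot
    have h2 : Continuous (fun O : OG (Fin k) => rotX (Em b (ev a)) (rotX O.1 X)) :=
      (rotL (Em b (ev a))).continuous.comp hrot
    exact h1.clm_apply h2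
  · simp [ang, Em_self, rotX_zero_mat]
  · have h1 := hasDerivAt_rotX (m := m) j w hj hw (rotX O.1 X) θ
    have h2 : HasFDerivAt f (fderiv ℝ f (rotX (rotM j w θ) (rotX O.1 X)))
        (rotX (rotM j w θ) (rotX O.1 X)) :=
      ((hf.differentiable (by norm_num)) _).hasFDerivAt
    have h3 := h2.comp_hasDerivAt θ h1
    have e1 : ∀ t, rotX (O * rot j w hj hw t).1 X = rotX (rotM j w t) (rotX O.1 X) := by
      intro t
      show rotX (O.1 * rotM j w t) X = _
      rw [rotX_mul]
    simp only [e1]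
    have e2 : ∑ b, w b * ang f b j (rotX (rotM j w θ) (rotX O.1 X))
        = fderiv ℝ f (rotX (rotM j w θ) (rotX O.1 X))
          (rotX (Em j w) (rotX (rotM j w θ) (rotX O.1 X))) := by
      rw [Em_sum j w, rotX_sum_left, _root_.map_sum]
      refine Finset.sum_congr rfl (fun b _ => ?_)
      rw [rotX_smul_left, map_smul, smul_eq_mul]
      rfl
    rw [e2]
    exact h3

/-- the sum of squares of the angular derivatives -/
theorem sum_ang_sq_le (f : Mat m k → ℝ) (Y : Mat m k) (R : ℝ)
    (hY : ∀ v : EuclideanSpace ℝ (Fin m), ‖rowComb v Y‖ ≤ R * ‖v‖) :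
    ∑ b, ∑ j, ang f b j Y ^ 2 ≤ 4 * R ^ 2 * ‖fderiv ℝ f Y‖ ^ 2 := by
  set g : Mat m k := (InnerProductSpace.toDual ℝ (Mat m k)).symm (fderiv ℝ f Y) with hg
  have hgn : ‖g‖ = ‖fderiv ℝ f Y‖ := by rw [hg]; exact LinearIsometryEquiv.norm_map _ _
  have hgi : ∀ Z, fderiv ℝ f Y Z = inner ℝ g Z := by
    intro Z; rw [hg, InnerProductSpace.toDual_symm_apply]
  set A : Fin k → Fin k → ℝ := fun b j => ∑ i, g (i, j) * Y (i, b) with hA
  have h1 : ∀ b j, ang f b j Y = A b j - A j b := by
    intro b j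
    unfold ang
    rw [hgi]
    simp only [PiLp.inner_apply, rotX_apply, Fintype.sum_prod_type, RCLike.inner_apply,
      conj_trivial, hA]
    rw [← Finset.sum_sub_distrib]
    refine Finset.sum_congr rfl (fun i _ => ?_)
    simp only [Em, Matrix.sub_apply, vecMulVec_apply, ev, Pi.single_apply]
    have h2 : ∀ x, (∑ l, Y (i, l) * ((if l = b then (1:ℝ) else 0) * (if x = j then 1 else 0)
        - (if l = j then 1 else 0) * (if x = b then 1 else 0))) * g (i, x)
        = (if x = j then Y (i, b) * g (i, x) else 0) - (if x = b then Y (i, j) * g (i, x) else 0) := by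
      intro x
      simp only [mul_sub, Finset.sum_sub_distrib, sub_mul]
      congr 1
      · by_cases hx : x = j <;> simp [hx]
      · by_cases hx : x = b <;> simp [hx]
    simp only [h2]
    rw [Finset.sum_sub_distrib, Finset.sum_ite_eq', Finset.sum_ite_eq']
    simp
    ring
  have h3 : ∑ b, ∑ j, A b j ^ 2 ≤ R ^ 2 * ‖g‖ ^ 2 := by
    rw [Finset.sum_comm]
    have h4 : ∀ j, ∑ b, A b j ^ 2 ≤ R ^ 2 * ∑ i, g (i, j) ^ 2 := by
      intro j
      set v : EuclideanSpace ℝ (Fin m) := WithLp.toLp 2 (fun i => g (i, j)) with hv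
      have h5 := hY v
      have h6 : ‖rowComb v Y‖ ^ 2 = ∑ b, A b j ^ 2 := by
        rw [EuclideanSpace.norm_sq_eq]
        refine Finset.sum_congr rfl (fun b _ => ?_)
        rw [rowComb_apply, Real.norm_eq_abs, sq_abs]
      have h7 : ‖v‖ ^ 2 = ∑ i, g (i, j) ^ 2 := by
        rw [EuclideanSpace.norm_sq_eq]
        refine Finset.sum_congr rfl (fun b _ => ?_)
        rw [hv, Real.norm_eq_abs, sq_abs]
      rw [← h6, ← h7, ← mul_pow]
      exact pow_le_pow_left₀ (norm_nonneg _) h5 2
    refine (Finset.sum_le_sum (fun j _ => h4 j)).trans ?_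
    rw [← Finset.mul_sum, EuclideanSpace.norm_sq_eq, Fintype.sum_prod_type, Finset.sum_comm]
    simp
  have h8 : ∑ b, ∑ j, ang f b j Y ^ 2 ≤ ∑ b, ∑ j, (2 * A b j ^ 2 + 2 * A j b ^ 2) := by
    refine Finset.sum_le_sum (fun b _ => Finset.sum_le_sum (fun j _ => ?_))
    rw [h1]
    nlinarith [sq_nonneg (A b j + A j b)]
  have h9 : ∑ b, ∑ j, (2 * A b j ^ 2 + 2 * A j b ^ 2) = 4 * ∑ b, ∑ j, A b j ^ 2 := by
    simp only [Finset.sum_add_distrib, ← Finset.mul_sum]
    rw [Finset.sum_comm (f := fun b j => A j b ^ 2)]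
    ring
  rw [h9] at h8
  rw [← hgn]
  linarith


/-- Haar average over `SO(k)` -/
noncomputable def Pavg (f : Mat m k → ℝ) (X : Mat m k) : ℝ :=
  ∫ O : OG (Fin k), f (rotX O.1 X) ∂(nuS Finset.univ)

theorem mem_HS_univ (O : OG (Fin k)) : O ∈ HS (Finset.univ : Finset (Fin k)) ↔ O.1.det = 1 := by
  rw [mem_HS]; simp

theorem Pavg_rot_so (f : Mat m k → ℝ) (hf : Continuous f) (X : Mat m k) (O' : OG (Fin k))
    (hO' : O'.1.det = 1) : Pavg f (rotX O'.1 X) = Pavg f X := by
  unfold Pavg
  have h := integral_mul_left (HS (Finset.univ : Finset (Fin k)))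
    (fun O : OG (Fin k) => f (rotX O.1 X))
    (hf.comp (continuous_rotX'.comp (Continuous.prodMk_left X))) O' ((mem_HS_univ O').mpr hO')
  rw [← h]
  refine integral_congr_ae (Filter.Eventually.of_forall (fun O => ?_))
  show f (rotX O.1 (rotX O'.1 X)) = f (rotX (O'.1 * O.1) X)
  rw [rotX_mul]

/-- for `m < k` there is a reflection fixing `X` -/
theorem exists_reflection (hmk : m < k) (X : Mat m k) :
    ∃ S : OG (Fin k), S.1.det = -1 ∧ rotX S.1 X = X := by
  -- kernel vector
  obtain ⟨u, hu0, hu⟩ : ∃ u : Fin k → ℝ, u ≠ 0 ∧ ∀ i, ∑ l, X (i, l) * u l = 0 := by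
    let L : (Fin k → ℝ) →ₗ[ℝ] (Fin m → ℝ) := Matrix.mulVecLin (Matrix.of (fun i l => X (i, l)))
    have hker : LinearMap.ker L ≠ ⊥ := by
      apply LinearMap.ker_ne_bot_of_finrank_lt
      simpa using hmk
    obtain ⟨u, huk, hu0⟩ := Submodule.exists_mem_ne_zero_of_ne_bot hker
    refine ⟨u, hu0, fun i => ?_⟩
    have := congrFun (LinearMap.mem_ker.mp huk) i
    simpa [L, Matrix.mulVec, dotProduct] using this
  have hpos : 0 < u ⬝ᵥ u := by
    have h0 : 0 ≤ u ⬝ᵥ u := Finset.sum_nonneg (fun b _ => mul_self_nonneg _)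
    refine lt_of_le_of_ne h0 (fun h => hu0 ?_)
    exact dotProduct_self_eq_zero.mp h.symm
  set S : Matrix (Fin k) (Fin k) ℝ := 1 - (2 / (u ⬝ᵥ u)) • vecMulVec u u with hS
  have hST : Sᵀ = S := by
    ext a b; simp [hS, vecMulVec_apply, Matrix.one_apply, eq_comm, mul_comm]
  have hSS : S * S = 1 := by
    rw [hS]
    simp only [Matrix.mul_sub, Matrix.sub_mul, Matrix.one_mul, Matrix.mul_one, Matrix.smul_mul,
      Matrix.mul_smul, vv, smul_smul]
    have : 2 / (u ⬝ᵥ u) * (u ⬝ᵥ u) = 2 := by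
      field_simp
    rw [this]
    module
  refine ⟨⟨S, mem_of S (by rw [hST, hSS])⟩, ?_, ?_⟩
  · show S.det = -1
    have h1 : S = 1 + vecMulVec ((-(2 / (u ⬝ᵥ u))) • u) u := by
      rw [hS]
      ext a b
      simp [vecMulVec_apply]
      ring
    rw [h1]
    have h2 : (1 + vecMulVec ((-(2 / (u ⬝ᵥ u))) • u) u).det = 1 + u ⬝ᵥ ((-(2 / (u ⬝ᵥ u))) • u) := by
      rw [Matrix.vecMulVec_eq Unit, Matrix.det_one_add_replicateCol_mul_replicateRow]
    rw [h2, dotProduct_smul, smul_eq_mul]
    field_simp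
    norm_num
  · ext p
    rw [rotX_apply]
    have h1 : ∀ l, X (p.1, l) * S l p.2
        = X (p.1, l) * (1 : Matrix (Fin k) (Fin k) ℝ) l p.2
          - (2 / (u ⬝ᵥ u) * u p.2) * (X (p.1, l) * u l) := by
      intro l
      simp [hS, vecMulVec_apply]
      ring
    simp only [h1]
    rw [Finset.sum_sub_distrib, ← Finset.mul_sum, hu, mul_zero, sub_zero]
    simp [Matrix.one_apply]

theorem Pavg_rot (hmk : m < k) (f : Mat m k → ℝ) (hf : Continuous f) (X : Mat m k)
    (O : Matrix (Fin k) (Fin k) ℝ) (hO : O ∈ Matrix.orthogonalGroup (Fin k) ℝ) :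
    Pavg f (rotX O X) = Pavg f X := by
  have hO1 : O * Oᵀ = 1 := (Matrix.mem_orthogonalGroup_iff (Fin k) ℝ).mp hO
  have hdet : O.det = 1 ∨ O.det = -1 := by
    have := congrArg Matrix.det hO1
    rw [det_mul, det_transpose, det_one] at this
    exact mul_self_eq_one_iff.mp this
  rcases hdet with h | h
  · exact Pavg_rot_so f hf X ⟨O, mem_of O hO1⟩ h
  · obtain ⟨S, hS, hSX⟩ := exists_reflection hmk X
    have h1 : rotX O X = rotX (S.1 * O) X := by
      rw [rotX_mul, hSX]
    rw [h1]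
    have hSO : (S.1 * O) * (S.1 * O)ᵀ = 1 := by
      rw [Matrix.transpose_mul, Matrix.mul_assoc, ← Matrix.mul_assoc O, hO1, Matrix.one_mul,
        mul_transpose_self]
    refine Pavg_rot_so f hf X ⟨S.1 * O, mem_of _ hSO⟩ ?_
    show (S.1 * O).det = 1
    rw [det_mul, hS, h]; norm_num

end Pool.H97.KLS
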