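import Mathlib

set_option autoImplicit false
set_option linter.unusedSectionVars false
set_option linter.unusedSimpArgs false

open MeasureTheory Measure Set TopologicalSpace

namespace Pool.H97.KLSG

variable {E : Type*} [NormedAddCommGroup E] [InnerProductSpace ℝ E]
    [FiniteDimensional ℝ E] [MeasurableSpace E] [BorelSpace E]
variable {ι : Type*} [Fintype ι]

/-- Gaussian kernel -/
noncomputable def gk (d : ℝ) (z : E) : ℝ := Real.exp (-(‖z‖ ^ 2) / (2 * d ^ 2))

theorem gk_pos (d : ℝ) (z : E) : 0 < gk d z := Real.exp_pos _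

theorem gk_neg (d : ℝ) (z : E) : gk d (-z) = gk d z := by
  unfold gk; rw [norm_neg]

theorem gk_sub_comm (d : ℝ) (x y : E) : gk d (x - y) = gk d (y - x) := by
  rw [← gk_neg d (x - y), neg_sub]

theorem continuous_gk (d : ℝ) : Continuous (gk d : E → ℝ) := by
  unfold gk; fun_prop

theorem integrable_gk {d : ℝ} (hd : 0 < d) : Integrable (gk d : E → ℝ) := by
  by_contra hcon
  have h1 : ∫ v : E, gk d v = 0 := integral_undef hcon
  have h2 := GaussianFourier.integral_rexp_neg_mul_sq_norm (V := E)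
    (b := 1 / (2 * d ^ 2)) (by positivity)
  have h3 : ∀ v : E, Real.exp (-(1 / (2 * d ^ 2)) * ‖v‖ ^ 2) = gk d v := by
    intro v; unfold gk; congr 1; ring
  simp only [h3] at h2
  rw [h1] at h2
  have h4 : (0:ℝ) < (Real.pi / (1 / (2 * d ^ 2))) ^ (Module.finrank ℝ (E) / 2 : ℝ) := by
    positivity
  linarith

/-- normalising constant -/
noncomputable def gN (E : Type*) [NormedAddCommGroup E] [InnerProductSpace ℝ E]
    [FiniteDimensional ℝ E] [MeasurableSpace E] [BorelSpace E] (d : ℝ) : ℝ := ∫ z : E, gk d z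

theorem gN_pos {d : ℝ} (hd : 0 < d) : 0 < gN E d := by
  unfold gN
  refine (integral_pos_iff_support_of_nonneg (fun z => (gk_pos d z).le) (integrable_gk hd)).mpr ?_
  have : Function.support (gk d : E → ℝ) = univ := by
    ext z; simp [(gk_pos d z).ne']
  rw [this]
  exact isOpen_univ.measure_pos volume univ_nonempty

theorem norm_mul_gk_le {d : ℝ} (hd : 0 < d) (z : E) :
    ‖z‖ * gk d z ≤ d * Real.exp (-(‖z‖ ^ 2) / (4 * d ^ 2)) := by
  unfold gk
  have e : -(‖z‖ ^ 2) / (2 * d ^ 2) = -(‖z‖ ^ 2) / (4 * d ^ 2) + -(‖z‖ ^ 2) / (4 * d ^ 2) := by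
    field_simp; ring
  rw [e, Real.exp_add, ← mul_assoc]
  refine mul_le_mul_of_nonneg_right ?_ (Real.exp_pos _).le
  have h1 : ‖z‖ ^ 2 / (4 * d ^ 2) + 1 ≤ Real.exp (‖z‖ ^ 2 / (4 * d ^ 2)) := Real.add_one_le_exp _
  have h2 : ‖z‖ ≤ d * (‖z‖ ^ 2 / (4 * d ^ 2) + 1) := by
    have : d * (‖z‖ ^ 2 / (4 * d ^ 2) + 1) - ‖z‖ = (‖z‖ / 2 - d) ^ 2 / d := by
      field_simp; ring
    have h3 : 0 ≤ (‖z‖ / 2 - d) ^ 2 / d := by positivity
    linarith
  have h4 : ‖z‖ ≤ d * Real.exp (‖z‖ ^ 2 / (4 * d ^ 2)) :=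
    h2.trans (mul_le_mul_of_nonneg_left h1 hd.le)
  have h5 : Real.exp (-(‖z‖ ^ 2) / (4 * d ^ 2)) = (Real.exp (‖z‖ ^ 2 / (4 * d ^ 2)))⁻¹ := by
    rw [← Real.exp_neg]; congr 1; ring
  rw [h5]
  rw [mul_inv_le_iff₀ (Real.exp_pos _)]
  exact h4

theorem norm_sq_mul_gk_le {d : ℝ} (hd : 0 < d) (z : E) :
    ‖z‖ ^ 2 * gk d z ≤ 4 * d ^ 2 * Real.exp (-(‖z‖ ^ 2) / (4 * d ^ 2)) := by
  unfold gk
  have e : -(‖z‖ ^ 2) / (2 * d ^ 2) = -(‖z‖ ^ 2) / (4 * d ^ 2) + -(‖z‖ ^ 2) / (4 * d ^ 2) := by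
    field_simp; ring
  rw [e, Real.exp_add, ← mul_assoc]
  refine mul_le_mul_of_nonneg_right ?_ (Real.exp_pos _).le
  have h1 : ‖z‖ ^ 2 / (4 * d ^ 2) + 1 ≤ Real.exp (‖z‖ ^ 2 / (4 * d ^ 2)) := Real.add_one_le_exp _
  have h4 : ‖z‖ ^ 2 ≤ 4 * d ^ 2 * Real.exp (‖z‖ ^ 2 / (4 * d ^ 2)) := by
    have : ‖z‖ ^ 2 = 4 * d ^ 2 * (‖z‖ ^ 2 / (4 * d ^ 2)) := by field_simp
    calc ‖z‖ ^ 2 = 4 * d ^ 2 * (‖z‖ ^ 2 / (4 * d ^ 2)) := this
      _ ≤ 4 * d ^ 2 * Real.exp (‖z‖ ^ 2 / (4 * d ^ 2)) :=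
        mul_le_mul_of_nonneg_left (by linarith) (by positivity)
  have h5 : Real.exp (-(‖z‖ ^ 2) / (4 * d ^ 2)) = (Real.exp (‖z‖ ^ 2 / (4 * d ^ 2)))⁻¹ := by
    rw [← Real.exp_neg]; congr 1; ring
  rw [h5, mul_inv_le_iff₀ (Real.exp_pos _)]
  exact h4

theorem integrable_exp4 {d : ℝ} (hd : 0 < d) :
    Integrable (fun z : E => Real.exp (-(‖z‖ ^ 2) / (4 * d ^ 2))) := by
  have h := integrable_gk (E := E) (d := Real.sqrt 2 * d) (by positivity)
  have e : (fun z : E => Real.exp (-(‖z‖ ^ 2) / (4 * d ^ 2))) = gk (Real.sqrt 2 * d) := by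
    ext z; unfold gk; congr 1
    rw [mul_pow, Real.sq_sqrt (by norm_num)]; ring
  rw [e]; exact h

theorem integrable_exp8 {d : ℝ} (hd : 0 < d) :
    Integrable (fun z : E => Real.exp (-(‖z‖ ^ 2) / (8 * d ^ 2))) := by
  have h := integrable_gk (E := E) (d := 2 * d) (by positivity)
  have e : (fun z : E => Real.exp (-(‖z‖ ^ 2) / (8 * d ^ 2))) = gk (2 * d) := by
    ext z; unfold gk; congr 1; ring
  rw [e]; exact h

theorem integrable_norm_gk {d : ℝ} (hd : 0 < d) :
    Integrable (fun z : E => ‖z‖ * gk d z) := by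
  refine ((integrable_exp4 hd).const_mul d).mono'
    ((continuous_norm.mul (continuous_gk d)).aestronglyMeasurable) ?_
  refine Filter.Eventually.of_forall (fun z => ?_)
  rw [Real.norm_eq_abs, abs_of_nonneg (mul_nonneg (norm_nonneg _) (gk_pos d z).le)]
  exact norm_mul_gk_le hd z

theorem integrable_norm_sq_gk {d : ℝ} (hd : 0 < d) :
    Integrable (fun z : E => ‖z‖ ^ 2 * gk d z) := by
  refine ((integrable_exp4 hd).const_mul (4 * d ^ 2)).mono'
    (((continuous_norm.pow 2).mul (continuous_gk d)).aestronglyMeasurable) ?_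
  refine Filter.Eventually.of_forall (fun z => ?_)
  rw [Real.norm_eq_abs, abs_of_nonneg (mul_nonneg (sq_nonneg _) (gk_pos d z).le)]
  exact norm_sq_mul_gk_le hd z

theorem integrable_inner_gk {d : ℝ} (hd : 0 < d) (v : E) :
    Integrable (fun z : E => inner ℝ z v * gk d z) := by
  refine ((integrable_norm_gk hd).mul_const ‖v‖).mono'
    (((continuous_id.inner continuous_const).mul (continuous_gk d)).aestronglyMeasurable) ?_
  refine Filter.Eventually.of_forall (fun z => ?_)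
  rw [norm_mul, Real.norm_eq_abs, Real.norm_eq_abs, abs_of_pos (gk_pos d z)]
  calc |inner ℝ z v| * gk d z ≤ (‖z‖ * ‖v‖) * gk d z :=
        mul_le_mul_of_nonneg_right (abs_real_inner_le_norm z v) (gk_pos d z).le
    _ = _ := by ring

theorem integrable_inner_inner_gk {d : ℝ} (hd : 0 < d) (u v : E) :
    Integrable (fun z : E => inner ℝ z u * inner ℝ z v * gk d z) := by
  refine ((integrable_norm_sq_gk hd).mul_const (‖u‖ * ‖v‖)).mono'
    ((((continuous_id.inner continuous_const).mul (continuous_id.inner continuous_const)).mul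
      (continuous_gk d)).aestronglyMeasurable) ?_
  refine Filter.Eventually.of_forall (fun z => ?_)
  rw [norm_mul, norm_mul, Real.norm_eq_abs, Real.norm_eq_abs, Real.norm_eq_abs,
    abs_of_pos (gk_pos d z)]
  calc |inner ℝ z u| * |inner ℝ z v| * gk d z ≤ (‖z‖ * ‖u‖) * (‖z‖ * ‖v‖) * gk d z :=
        mul_le_mul_of_nonneg_right (mul_le_mul (abs_real_inner_le_norm z u)
          (abs_real_inner_le_norm z v) (abs_nonneg _) (by positivity)) (gk_pos d z).le
    _ = _ := by ring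

theorem integral_inner_gk (d : ℝ) (v : E) :
    ∫ z : E, inner ℝ z v * gk d z = 0 := by
  have h := integral_neg_eq_self (fun z : E => inner ℝ z v * gk d z) volume
  have e : ∀ z : E, inner ℝ (-z) v * gk d (-z) = -(inner ℝ z v * gk d z) := by
    intro z; rw [gk_neg, inner_neg_left]; ring
  simp only [e] at h
  rw [integral_neg] at h
  linarith

theorem hasFDerivAt_gk {d : ℝ} (hd : 0 < d) (z : E) :
    HasFDerivAt (gk d) ((-(gk d z) / d ^ 2) • (innerSL ℝ z)) z := by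
  unfold gk
  have h1 : HasFDerivAt (fun z : E => ‖z‖ ^ 2) (2 • (innerSL ℝ z)) z :=
    (hasStrictFDerivAt_norm_sq z).hasFDerivAt
  have h2 : HasFDerivAt (fun z : E => -(‖z‖ ^ 2) / (2 * d ^ 2))
      ((-1 / (2 * d ^ 2)) • (2 • (innerSL ℝ z))) z := by
    have e : (fun z : E => -(‖z‖ ^ 2) / (2 * d ^ 2))
        = fun z => (-1 / (2 * d ^ 2)) * ‖z‖ ^ 2 := by
      ext z; ring
    rw [e]
    exact h1.const_mul (-1 / (2 * d ^ 2))
  refine h2.exp.congr_fderiv ?_
  ext v
  simp only [_root_.smul_apply, smul_eq_mul, nsmul_eq_mul, Nat.cast_ofNat]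
  field_simp

theorem fderiv_gk_apply {d : ℝ} (hd : 0 < d) (z v : E) :
    fderiv ℝ (gk d) z v = -(inner ℝ z v) / d ^ 2 * gk d z := by
  rw [(hasFDerivAt_gk hd z).fderiv]
  simp
  ring

theorem integral_inner_inner_gk {d : ℝ} (hd : 0 < d) (u v : E) :
    ∫ z : E, inner ℝ z u * inner ℝ z v * gk d z = inner ℝ u v * (d ^ 2 * gN E d) := by
  have hfa : ∀ z : E, HasFDerivAt (fun z : E => inner ℝ z u) (innerSL ℝ u) z := by
    intro z
    have h1 : (fun z : E => inner ℝ z u) = fun z => innerSL ℝ u z := by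
      ext z; rw [innerSL_apply_apply, real_inner_comm]
    rw [h1]
    exact (innerSL ℝ u).hasFDerivAt
  have hfd : ∀ z : E, fderiv ℝ (fun z : E => inner ℝ z u) z v = inner ℝ u v := by
    intro z
    rw [(hfa z).fderiv, innerSL_apply_apply]
  have hgd : ∀ z : E, fderiv ℝ (gk d) z v = -(inner ℝ z v) / d ^ 2 * gk d z :=
    fun z => fderiv_gk_apply hd z v
  have h := integral_mul_fderiv_eq_neg_fderiv_mul_of_integrable (𝕜 := ℝ)
    (μ := (volume : Measure E))
    (f := fun z : E => inner ℝ z u) (g := gk d) (v := v) ?_ ?_ ?_ ?_ ?_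
  · simp only [hfd, hgd] at h
    have e1 : ∀ z : E, inner ℝ z u * (-(inner ℝ z v) / d ^ 2 * gk d z)
        = (-1 / d ^ 2) * (inner ℝ z u * inner ℝ z v * gk d z) := by intro z; ring
    simp only [e1] at h
    rw [integral_const_mul, integral_const_mul] at h
    unfold gN
    have hd2 : d ^ 2 ≠ 0 := by positivity
    field_simp at h
    linarith
  · simp only [hfd]
    exact (integrable_gk hd).const_mul _
  · simp only [hgd]
    have e1 : ∀ z : E, inner ℝ z u * (-(inner ℝ z v) / d ^ 2 * gk d z)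
        = (-1 / d ^ 2) * (inner ℝ z u * inner ℝ z v * gk d z) := by intro z; ring
    simp only [e1]
    exact (integrable_inner_inner_gk hd u v).const_mul _
  · exact integrable_inner_gk hd u
  · exact fun z _ => (hfa z).differentiableAt
  · exact fun z _ => (hasFDerivAt_gk hd z).differentiableAt

end Pool.H97.KLSG
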