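import Mathlib

set_option autoImplicit false
set_option linter.unusedSectionVars false

open MeasureTheory Measure Set TopologicalSpace

namespace Pool.H97.KLS

section general

variable {G : Type*} [Group G] [TopologicalSpace G] [IsTopologicalGroup G] [CompactSpace G]
  [MeasurableSpace G] [BorelSpace G]

/-- The Haar probability measure of a compact group. -/
noncomputable def haarP (G : Type*) [Group G] [TopologicalSpace G] [IsTopologicalGroup G]
    [CompactSpace G] [MeasurableSpace G] [BorelSpace G] : Measure G :=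
  haarMeasure (⊤ : PositiveCompacts G)

instance : IsHaarMeasure (haarP G) := by unfold haarP; infer_instance

instance : IsProbabilityMeasure (haarP G) := by
  refine ⟨?_⟩
  have := haarMeasure_self (K₀ := (⊤ : PositiveCompacts G))
  simpa [haarP] using this

instance : IsMulRightInvariant (haarP G) := by
  refine ⟨fun g => ?_⟩
  have : IsProbabilityMeasure (Measure.map (fun x : G => x * g) (haarP G)) :=
    isProbabilityMeasure_map (measurable_mul_const g).aemeasurable
  have h := isMulInvariant_eq_smul_of_compactSpace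
    (Measure.map (fun x : G => x * g) (haarP G)) (haarP G)
  have h1 : (Measure.map (fun x : G => x * g) (haarP G)) univ = (haarP G) univ := by
    rw [measure_univ, measure_univ]
  rw [h] at h1
  rw [Measure.smul_apply, measure_univ] at h1
  have h2 : haarScalarFactor (Measure.map (fun x : G => x * g) (haarP G)) (haarP G) = 1 := by
    have : ((haarScalarFactor (Measure.map (fun x : G => x * g) (haarP G)) (haarP G) : NNReal)
      : ENNReal) * 1 = 1 := h1
    rw [mul_one] at this
    exact_mod_cast this
  rw [h, h2, one_smul]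

/-- Haar probability measure of a closed subgroup, as a measure on the ambient group. -/
noncomputable def nu (H : Subgroup G) [CompactSpace H] : Measure G :=
  (haarP H).map Subtype.val

variable (H : Subgroup G) [CompactSpace H]

instance : IsProbabilityMeasure (nu H) :=
  isProbabilityMeasure_map measurable_subtype_coe.aemeasurable

theorem map_mul_right (h : G) (hh : h ∈ H) : (nu H).map (fun x => x * h) = nu H := by
  unfold nu
  rw [Measure.map_map (measurable_mul_const h) measurable_subtype_coe]
  have : (fun x : G => x * h) ∘ (Subtype.val : H → G)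
      = (Subtype.val : H → G) ∘ (fun x : H => x * ⟨h, hh⟩) := by
    ext x; simp
  rw [this, ← Measure.map_map measurable_subtype_coe (measurable_mul_const _)]
  rw [MeasureTheory.map_mul_right_eq_self]

theorem map_mul_left (h : G) (hh : h ∈ H) : (nu H).map (fun x => h * x) = nu H := by
  unfold nu
  rw [Measure.map_map (measurable_const_mul h) measurable_subtype_coe]
  have : (fun x : G => h * x) ∘ (Subtype.val : H → G)
      = (Subtype.val : H → G) ∘ (fun x : H => ⟨h, hh⟩ * x) := by
    ext x; simp
  rw [this, ← Measure.map_map measurable_subtype_coe (measurable_const_mul _)]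
  rw [MeasureTheory.map_mul_left_eq_self]

theorem ae_mem (hc : IsClosed (H : Set G)) : ∀ᵐ x ∂(nu H), x ∈ H := by
  unfold nu
  rw [ae_map_iff (p := fun x => x ∈ H) measurable_subtype_coe.aemeasurable hc.measurableSet]
  exact Filter.Eventually.of_forall (fun x => x.2)

theorem integral_mul_right (F : G → ℝ) (hF : Continuous F) (h : G) (hh : h ∈ H) :
    ∫ x, F (x * h) ∂(nu H) = ∫ x, F x ∂(nu H) := by
  conv_rhs => rw [← map_mul_right H h hh]
  rw [integral_map (measurable_mul_const h).aemeasurable
    hF.aestronglyMeasurable]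

theorem integral_mul_left (F : G → ℝ) (hF : Continuous F) (h : G) (hh : h ∈ H) :
    ∫ x, F (h * x) ∂(nu H) = ∫ x, F x ∂(nu H) := by
  conv_rhs => rw [← map_mul_left H h hh]
  rw [integral_map (measurable_const_mul h).aemeasurable
    hF.aestronglyMeasurable]

end general

/-- continuous functions on a compact space are integrable for finite measures -/
theorem integrable_of_cont {X : Type*} [TopologicalSpace X] [CompactSpace X] [MeasurableSpace X]
    [OpensMeasurableSpace X] (μ : Measure X) [IsFiniteMeasure μ] (F : X → ℝ) (hF : Continuous F) :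
    Integrable F μ := by
  have := hF.integrable_of_hasCompactSupport (μ := μ) (HasCompactSupport.of_compactSpace F)
  exact this

/-- parametric integrals are continuous on compact spaces. -/
theorem continuous_param {X Y : Type*} [TopologicalSpace X] [TopologicalSpace Y] [CompactSpace Y]
    [MeasurableSpace Y] [OpensMeasurableSpace Y] [FirstCountableTopology X]
    [SecondCountableTopology Y] [CompactSpace X]
    (μ : Measure Y) [IsFiniteMeasure μ] (F : X → Y → ℝ)
    (hF : Continuous (fun p : X × Y => F p.1 p.2)) :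
    Continuous (fun x => ∫ y, F x y ∂μ) := by
  obtain ⟨C, hC⟩ := (isCompact_univ (X := X × Y)).exists_bound_of_continuousOn hF.continuousOn
  refine continuous_of_dominated (bound := fun _ => C) ?_ ?_ ?_ ?_
  · intro x
    exact (hF.comp (Continuous.prodMk_right x)).aestronglyMeasurable
  · intro x
    exact Filter.Eventually.of_forall (fun y => hC (x, y) (mem_univ _))
  · exact integrable_const C
  · exact Filter.Eventually.of_forall (fun y => hF.comp (Continuous.prodMk_left y))


/-- Jensen / Cauchy-Schwarz for finite measures. -/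
theorem sq_integral_le {X : Type*} [MeasurableSpace X] (μ : Measure X) [IsFiniteMeasure μ]
    (g : X → ℝ) (hg : Integrable g μ) (hg2 : Integrable (fun x => g x ^ 2) μ) :
    (∫ x, g x ∂μ) ^ 2 ≤ μ.real univ * ∫ x, g x ^ 2 ∂μ := by
  set I := ∫ x, g x ∂μ with hI
  set T := μ.real univ with hT
  have hT0 : 0 ≤ T := measureReal_nonneg
  have key : ∀ c : ℝ, 0 ≤ (∫ x, g x ^ 2 ∂μ) - 2 * c * I + c ^ 2 * T := by
    intro c
    have h1 : 0 ≤ ∫ x, (g x - c) ^ 2 ∂μ := integral_nonneg (fun x => sq_nonneg _)
    have h2 : ∫ x, (g x - c) ^ 2 ∂μ = (∫ x, g x ^ 2 ∂μ) - 2 * c * I + c ^ 2 * T := by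
      have e1 : (fun x => (g x - c) ^ 2) = fun x => (g x ^ 2 - (2 * c) * g x) + c ^ 2 := by
        ext x; ring
      have a2 : Integrable (fun x => (2 * c) * g x) μ := hg.const_mul _
      have a3 : Integrable (fun x => g x ^ 2 - (2 * c) * g x) μ := hg2.sub a2
      rw [e1, integral_add a3 (integrable_const _),
        integral_sub hg2 a2, integral_const_mul, integral_const, smul_eq_mul]
      ring
    rw [h2] at h1; exact h1
  rcases hT0.eq_or_lt with h0 | hpos
  · have hk := fun c => key c
    rw [← h0] at hk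
    have : I = 0 := by
      by_contra hne
      have := hk (((∫ x, g x ^ 2 ∂μ) + 1) / (2 * I))
      have e : 2 * (((∫ x, g x ^ 2 ∂μ) + 1) / (2 * I)) * I = (∫ x, g x ^ 2 ∂μ) + 1 := by
        field_simp
      rw [e] at this
      linarith
    rw [this, ← h0]; simp
  · have := key (I / T)
    have e : (∫ x, g x ^ 2 ∂μ) - 2 * (I / T) * I + (I / T) ^ 2 * T
        = ((T * ∫ x, g x ^ 2 ∂μ) - I ^ 2) / T := by
      field_simp; ring
    rw [e] at this
    have h3 := (div_nonneg_iff.mp this)
    rcases h3 with h3 | h3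
    · linarith [h3.1]
    · linarith [h3.2]

section flow

variable {G : Type*} [Group G] [TopologicalSpace G] [IsTopologicalGroup G] [CompactSpace G]
  [MeasurableSpace G] [BorelSpace G] [SecondCountableTopology G]
  (H : Subgroup G) [CompactSpace H]

/-- flow bound -/
theorem flow_bound (R : ℝ → G) (hR : Continuous R) (hRH : ∀ s, R s ∈ H) (hR0 : R 0 = 1)
    (F D : G → ℝ) (hF : Continuous F) (hD : Continuous D)
    (hder : ∀ O θ, HasDerivAt (fun t => F (O * R t)) (D (O * R θ)) θ) (θ : ℝ) :
    ∫ O, (F O - F (O * R θ)) ^ 2 ∂(nu H) ≤ θ ^ 2 * ∫ O, D O ^ 2 ∂(nu H) := by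
  obtain ⟨C, hC⟩ := (isCompact_univ (X := G)).exists_bound_of_continuousOn hD.continuousOn
  have hcont : Continuous (fun p : G × ℝ => D (p.1 * R p.2) ^ 2) := by fun_prop
  have hfin : IsFiniteMeasure (volume.restrict (uIoc 0 θ)) :=
    ⟨by simp [uIoc, Real.volume_Ioc]⟩
  have hint : Integrable (fun p : G × ℝ => D (p.1 * R p.2) ^ 2)
      ((nu H).prod (volume.restrict (uIoc 0 θ))) := by
    refine Integrable.of_bound hcont.aestronglyMeasurable (C ^ 2) ?_
    refine Filter.Eventually.of_forall (fun p => ?_)
    rw [norm_pow]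
    exact pow_le_pow_left₀ (norm_nonneg _) (hC _ (mem_univ _)) 2
  have hmass : (volume.restrict (uIoc 0 θ)).real univ = |θ| := by
    simp [Measure.real, uIoc, Real.volume_Ioc]
    rcases le_total 0 θ with h | h
    · simp [h, abs_of_nonneg h]
    · simp [h, abs_of_nonpos h]
  have hpt : ∀ O, (F O - F (O * R θ)) ^ 2
      ≤ |θ| * ∫ s in uIoc 0 θ, D (O * R s) ^ 2 := by
    intro O
    have hc : Continuous (fun s => D (O * R s)) := by fun_prop
    have h1 : ∫ s in (0:ℝ)..θ, D (O * R s) = F (O * R θ) - F (O * R 0) :=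
      intervalIntegral.integral_eq_sub_of_hasDerivAt (fun x _ => hder O x)
        (hc.intervalIntegrable _ _)
    rw [hR0, mul_one] at h1
    have h2 : (F O - F (O * R θ)) ^ 2 = (∫ s in uIoc 0 θ, D (O * R s)) ^ 2 := by
      have := intervalIntegral.abs_integral_eq_abs_integral_uIoc (μ := volume) (a := 0) (b := θ)
        (fun s => D (O * R s))
      rw [← sq_abs, ← sq_abs (∫ s in uIoc 0 θ, D (O * R s)), ← this, h1, abs_sub_comm]
    rw [h2, ← hmass]
    refine sq_integral_le _ _ ?_ ?_
    · exact (hc.integrableOn_uIcc (a := 0) (b := θ)).mono_set uIoc_subset_uIcc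
    · exact ((hc.pow 2).integrableOn_uIcc (a := 0) (b := θ)).mono_set uIoc_subset_uIcc
  calc ∫ O, (F O - F (O * R θ)) ^ 2 ∂(nu H)
      ≤ ∫ O, (|θ| * ∫ s in uIoc 0 θ, D (O * R s) ^ 2) ∂(nu H) := by
        refine integral_mono (integrable_of_cont _ _ (by fun_prop)) ?_ hpt
        exact (hint.integral_prod_left).const_mul _
    _ = |θ| * ∫ s in uIoc 0 θ, (∫ O, D (O * R s) ^ 2 ∂(nu H)) := by
        rw [integral_const_mul]
        congr 1
        exact integral_integral_swap (f := fun O s => D (O * R s) ^ 2) hint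
    _ = |θ| * ∫ s in uIoc 0 θ, (∫ O, D O ^ 2 ∂(nu H)) := by
        congr 1
        refine integral_congr_ae (Filter.Eventually.of_forall (fun s => ?_))
        exact integral_mul_right H (fun O => D O ^ 2) (by fun_prop) (R s) (hRH s)
    _ = θ ^ 2 * ∫ O, D O ^ 2 ∂(nu H) := by
        rw [integral_const, smul_eq_mul, hmass, ← mul_assoc, ← sq, sq_abs]

/-- Averaging operator. -/
noncomputable def avg (F : G → ℝ) (O : G) : ℝ := ∫ h, F (O * h) ∂(nu H)

theorem continuous_avg (F : G → ℝ) (hF : Continuous F) : Continuous (avg H F) := by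
  unfold avg
  exact continuous_param _ (fun O h => F (O * h)) (by fun_prop)

theorem avg_mul_right (F : G → ℝ) (hF : Continuous F) (O h : G) (hh : h ∈ H) :
    avg H F (O * h) = avg H F O := by
  unfold avg
  have := integral_mul_left H (fun x => F (O * x)) (by fun_prop) h hh
  simpa [mul_assoc] using this

theorem integral_integral_mul (K : Subgroup G) [CompactSpace K] (hK : K ≤ H)
    (hKc : IsClosed (K : Set G)) (F : G → ℝ) (hF : Continuous F) :
    ∫ O, (∫ h, F (O * h) ∂(nu K)) ∂(nu H) = ∫ O, F O ∂(nu H) := by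
  have hcont : Continuous (fun p : G × G => F (p.1 * p.2)) := by fun_prop
  have hint : Integrable (fun p : G × G => F (p.1 * p.2)) ((nu H).prod (nu K)) :=
    integrable_of_cont _ _ hcont
  rw [integral_integral_swap (f := fun O h => F (O * h)) hint]
  have : ∀ᵐ h ∂(nu K), ∫ O, F (O * h) ∂(nu H) = ∫ O, F O ∂(nu H) := by
    filter_upwards [ae_mem K hKc] with h hh
    exact integral_mul_right H F hF h (hK hh)
  rw [integral_congr_ae this, integral_const]
  simp

/-- variance through two-point differences -/
theorem var_le_of_diff (hc : IsClosed (H : Set G)) (u : G → ℝ) (hu : Continuous u) (K : ℝ)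
    (hK : ∀ O' ∈ H, ∫ O, (u O - u (O * O')) ^ 2 ∂(nu H) ≤ K) :
    (∫ O, u O ^ 2 ∂(nu H)) - (∫ O, u O ∂(nu H)) ^ 2 ≤ K / 2 := by
  have hcont : Continuous (fun p : G × G => u p.1 * u (p.1 * p.2)) := by fun_prop
  have hint : Integrable (fun p : G × G => u p.1 * u (p.1 * p.2)) ((nu H).prod (nu H)) :=
    integrable_of_cont _ _ hcont
  have e1 : ∀ᵐ O' ∂(nu H), ∫ O, (u O - u (O * O')) ^ 2 ∂(nu H)
      = 2 * (∫ O, u O ^ 2 ∂(nu H)) - 2 * ∫ O, u O * u (O * O') ∂(nu H) := by
    filter_upwards [ae_mem H hc] with O' hO'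
    have a1 : Integrable (fun O => u O ^ 2) (nu H) := integrable_of_cont _ _ (by fun_prop)
    have a2 : Integrable (fun O => u (O * O') ^ 2) (nu H) := integrable_of_cont _ _ (by fun_prop)
    have a3 : Integrable (fun O => 2 * (u O * u (O * O'))) (nu H) :=
      integrable_of_cont _ _ (by fun_prop)
    have e : (fun O => (u O - u (O * O')) ^ 2)
        = fun O => (u O ^ 2 + u (O * O') ^ 2) - 2 * (u O * u (O * O')) := by
      ext O; ring
    have a12 : Integrable (fun O => u O ^ 2 + u (O * O') ^ 2) (nu H) := a1.add a2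
    rw [e, integral_sub a12 a3, integral_add a1 a2, integral_const_mul,
      integral_mul_right H (fun O => u O ^ 2) (by fun_prop) O' hO']
    ring
  have e2 : ∫ O', (∫ O, u O * u (O * O') ∂(nu H)) ∂(nu H) = (∫ O, u O ∂(nu H)) ^ 2 := by
    rw [← integral_integral_swap (f := fun O O' => u O * u (O * O')) hint]
    have : ∀ᵐ O ∂(nu H), ∫ O', u O * u (O * O') ∂(nu H) = u O * ∫ O, u O ∂(nu H) := by
      filter_upwards [ae_mem H hc] with O hO
      rw [integral_const_mul, integral_mul_left H u hu O hO]
    rw [integral_congr_ae this, integral_mul_const]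
    ring
  have e3 : ∫ O', (∫ O, (u O - u (O * O')) ^ 2 ∂(nu H)) ∂(nu H)
      = 2 * (∫ O, u O ^ 2 ∂(nu H)) - 2 * (∫ O, u O ∂(nu H)) ^ 2 := by
    have a5 : Integrable (fun O' => 2 * ∫ O, u O * u (O * O') ∂(nu H)) (nu H) :=
      (hint.integral_prod_right).const_mul _
    have a6 : ∫ O', (2 * ∫ O, u O * u (O * O') ∂(nu H)) ∂(nu H)
        = 2 * ∫ O', (∫ O, u O * u (O * O') ∂(nu H)) ∂(nu H) := integral_const_mul _ _
    rw [integral_congr_ae e1, integral_sub (integrable_const _) a5, a6, e2, integral_const]
    simp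
  have e4 : ∫ O', (∫ O, (u O - u (O * O')) ^ 2 ∂(nu H)) ∂(nu H) ≤ ∫ _O', K ∂(nu H) := by
    refine integral_mono_ae ?_ (integrable_const _) ?_
    · have hcont2 : Continuous (fun p : G × G => (u p.2 - u (p.2 * p.1)) ^ 2) := by fun_prop
      exact integrable_of_cont _ _ (continuous_param _ (fun O' O => (u O - u (O * O')) ^ 2) hcont2)
    · filter_upwards [ae_mem H hc] with O' hO'
      exact hK O' hO'
  rw [e3, integral_const] at e4
  simp at e4
  linarith

end flow

end Pool.H97.KLS
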