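import Pool.Agent.H97.KlsBochner

set_option autoImplicit false
set_option linter.unusedSectionVars false
set_option linter.unusedSimpArgs false

open MeasureTheory Measure Set TopologicalSpace

namespace Pool.H97.KLSG

open Pool.Agent.H84 (CB Qop kern avg ww cE)

variable {E : Type*} [NormedAddCommGroup E] [InnerProductSpace ℝ E]
    [FiniteDimensional ℝ E] [MeasurableSpace E] [BorelSpace E]
variable {ι : Type*} [Fintype ι]

/-- bounded `C¹` functions with bounded gradient -/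
structure NiceF (h : E → ℝ) (M L : ℝ) : Prop where
  cd : ContDiff ℝ 1 h
  bd : ∀ y, |h y| ≤ M
  bdd : ∀ y, ‖fderiv ℝ h y‖ ≤ L

variable {h : E → ℝ} {M L δ : ℝ}

theorem NiceF.part_bm (hh : NiceF h M L) (v : E) :
    BM (fun y => fderiv ℝ h y v) (L * ‖v‖) := by
  refine ⟨?_, fun y => ?_⟩
  · have hc : Continuous (fderiv ℝ h) := hh.cd.continuous_fderiv one_ne_zero
    exact (hc.clm_apply continuous_const).measurable
  · rw [← Real.norm_eq_abs]
    exact (ContinuousLinearMap.le_opNorm _ _).trans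
      (mul_le_mul_of_nonneg_right (hh.bdd y) (norm_nonneg _))

theorem NiceF.bm (hh : NiceF h M L) : BM h M :=
  ⟨hh.cd.continuous.measurable, hh.bd⟩

theorem NiceF.L_nonneg (hh : NiceF h M L) : 0 ≤ L := (norm_nonneg _).trans (hh.bdd 0)

/-- `A` commutes with directional derivatives. -/
theorem fderiv_Aop_nice (hδ : 0 < δ) (hh : NiceF h M L) (v x : E) :
    fderiv ℝ (Aop δ h) x v = Aop δ (fun y => fderiv ℝ h y v) x := by
  have hA := Pool.Agent.H84.hasFDerivAt_Aop hδ hh.cd hh.bd hh.bdd x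
  rw [← Aop_eq_H84, ← Aop_eq_H84, hA.fderiv, Pool.Agent.H84.Aop_eq]
  rw [_root_.smul_apply, ContinuousLinearMap.integral_apply, smul_eq_mul]
  · congr 1
    refine integral_congr_ae (Filter.Eventually.of_forall (fun z => ?_))
    simp only [_root_.smul_apply, smul_eq_mul]
    ring
  · have hc : Continuous (fderiv ℝ h) := hh.cd.continuous_fderiv one_ne_zero
    refine ((Pool.Agent.H84.integrable_kern_zero (E := E) hδ).mul_const L).mono' ?_ ?_
    · have hk : Continuous (fun z : E => kern δ z 0) := by unfold kern; fun_prop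
      exact (hk.smul (hc.comp (continuous_const.add continuous_id))).aestronglyMeasurable
    · refine Filter.Eventually.of_forall (fun z => ?_)
      rw [norm_smul, Real.norm_eq_abs, abs_of_pos (Pool.Agent.H84.kern_pos δ z 0)]
      exact mul_le_mul_of_nonneg_left (hh.bdd _) (Pool.Agent.H84.kern_pos δ z 0).le

theorem contDiff_partial_Aop (hδ : 0 < δ) (hh : NiceF h M L) (v : E) :
    ContDiff ℝ 1 (fun z => fderiv ℝ (Aop δ h) z v) := by
  have e1 : (fun z => fderiv ℝ (Aop δ h) z v) = Aop δ (fun y => fderiv ℝ h y v) := by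
    ext z; exact fderiv_Aop_nice hδ hh v z
  rw [e1]
  exact contDiff_Aop_bm hδ (hh.part_bm v)

theorem Aop_add' (hδ : 0 < δ) {f g : E → ℝ} {C C' : ℝ} (hf : BM f C) (hg : BM g C') (x : E) :
    Aop δ (fun y => f y + g y) x = Aop δ f x + Aop δ g x := by
  unfold Aop
  rw [← mul_add, ← integral_add (integrable_h_gk hδ hf x) (integrable_h_gk hδ hg x)]
  congr 1
  refine integral_congr_ae (Filter.Eventually.of_forall (fun y => ?_))
  show (f y + g y) * gk δ (y - x) = f y * gk δ (y - x) + g y * gk δ (y - x)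
  ring

theorem Aop_const_mul' (f : E → ℝ) (c : ℝ) (x : E) :
    Aop δ (fun y => c * f y) x = c * Aop δ f x := by
  unfold Aop
  have : ∀ y, c * f y * gk δ (y - x) = c * (f y * gk δ (y - x)) := fun y => by ring
  simp only [this]
  rw [integral_const_mul]
  ring

theorem Aop_sum' (hδ : 0 < δ) {α : Type*} (t : Finset α) (f : α → E → ℝ) (C : α → ℝ)
    (hf : ∀ a ∈ t, BM (f a) (C a)) (x : E) :
    Aop δ (fun y => ∑ a ∈ t, f a y) x = ∑ a ∈ t, Aop δ (f a) x := by
  unfold Aop
  rw [← Finset.mul_sum, ← integral_finsetSum]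
  · congr 1
    refine integral_congr_ae (Filter.Eventually.of_forall (fun y => ?_))
    show (∑ a ∈ t, f a y) * gk δ (y - x) = ∑ a ∈ t, f a y * gk δ (y - x)
    rw [Finset.sum_mul]
  · intro a ha
    exact integrable_h_gk hδ (hf a ha) x

theorem BM.sq' {f : E → ℝ} {C : ℝ} (hf : BM f C) : BM (fun y => f y ^ 2) (C ^ 2) :=
  ⟨hf.meas.pow_const 2, fun y => by
    rw [abs_pow]; exact pow_le_pow_left₀ (abs_nonneg _) (hf.bound y) 2⟩

theorem NiceF.normsq_bm (hh : NiceF h M L) : BM (fun y => ‖fderiv ℝ h y‖ ^ 2) (L ^ 2) := by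
  have hc : Continuous (fderiv ℝ h) := hh.cd.continuous_fderiv one_ne_zero
  refine ⟨(by fun_prop : Continuous (fun y => ‖fderiv ℝ h y‖ ^ 2)).measurable, fun y => ?_⟩
  rw [abs_of_nonneg (sq_nonneg _)]
  exact pow_le_pow_left₀ (norm_nonneg _) (hh.bdd y) 2

/-- The pointwise second order inequality for `A`. -/
theorem second_order_nice (hδ : 0 < δ) (hh : NiceF h M L)
    (b : OrthonormalBasis ι ℝ E) (x : E) :
    ‖fderiv ℝ (Aop δ h) x‖ ^ 2
      + δ ^ 2 * ∑ i, ‖fderiv ℝ (fun z => fderiv ℝ (Aop δ h) z (b i)) x‖ ^ 2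
      ≤ Aop δ (fun y => ‖fderiv ℝ h y‖ ^ 2) x := by
  have e1 : ∀ i, (fun z => fderiv ℝ (Aop δ h) z (b i)) = Aop δ (fun y => fderiv ℝ h y (b i)) := by
    intro i; ext z; exact fderiv_Aop_nice hδ hh (b i) z
  simp only [e1]
  rw [norm_sq_dual b, Finset.mul_sum, ← Finset.sum_add_distrib]
  have e2 : ∀ i, fderiv ℝ (Aop δ h) x (b i) = Aop δ (fun y => fderiv ℝ h y (b i)) x :=
    fun i => fderiv_Aop_nice hδ hh (b i) x
  simp only [e2]
  have h3 : ∀ i, (Aop δ (fun y => fderiv ℝ h y (b i)) x) ^ 2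
      + δ ^ 2 * ‖fderiv ℝ (Aop δ (fun y => fderiv ℝ h y (b i))) x‖ ^ 2
      ≤ Aop δ (fun y => (fderiv ℝ h y (b i)) ^ 2) x := fun i => bessel hδ (hh.part_bm (b i)) x
  refine (Finset.sum_le_sum (fun i _ => h3 i)).trans (le_of_eq ?_)
  rw [← Aop_sum' hδ Finset.univ _ _ (fun i _ => (hh.part_bm (b i)).sq')]
  congr 1
  ext y
  rw [norm_sq_dual b]

/-- Jensen for directional derivatives. -/
theorem jensen_part (hδ : 0 < δ) (hh : NiceF h M L) (v x : E) :
    (fderiv ℝ (Aop δ h) x v) ^ 2 ≤ Aop δ (fun y => (fderiv ℝ h y v) ^ 2) x := by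
  rw [fderiv_Aop_nice hδ hh v x]
  have := bessel hδ (hh.part_bm v) x
  have h0 : 0 ≤ δ ^ 2 * ‖fderiv ℝ (Aop δ (fun y => fderiv ℝ h y v)) x‖ ^ 2 := by positivity
  linarith

end Pool.H97.KLSG
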