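import Pool.Agent.H97.KlsSO

set_option autoImplicit false
set_option linter.unusedSectionVars false
set_option linter.unusedSimpArgs false

open MeasureTheory Measure Set TopologicalSpace Matrix

namespace Pool.H97.KLS

variable {ι : Type*} [Fintype ι] [DecidableEq ι]

noncomputable abbrev nuS (S : Finset ι) : Measure (OG ι) := nu (HS S : Subgroup (OG ι))

theorem conj_rot (T : Finset ι) (j : ι) (hjT : j ∉ T) (w : ι → ℝ) (hj : w j = 0)
    (hw : w ⬝ᵥ w = 1) (h : OG ι) (hh : h ∈ HS T) (hj' : (h.1ᵀ *ᵥ w) j = 0)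
    (hw' : (h.1ᵀ *ᵥ w) ⬝ᵥ (h.1ᵀ *ᵥ w) = 1) (θ : ℝ) :
    rot j w hj hw θ * h = h * rot j (h.1ᵀ *ᵥ w) hj' hw' θ := by
  apply Subtype.ext
  show rotM j w θ * h.1 = h.1 * rotM j (h.1ᵀ *ᵥ w) θ
  rw [rotM_conj j _ θ h (hh.2 j hjT), mulVec_mulVec, mul_transpose_self, one_mulVec]

theorem second_part (S : Finset ι) (j : ι) (hj : j ∈ S) (hcard : 2 ≤ S.card)
    (F : OG ι → ℝ) (D : ι → ι → OG ι → ℝ) (hG : Good F D) (O' : OG ι) (hO' : O' ∈ HS S) :
    ∫ O, (avg (HS (S.erase j)) F O - avg (HS (S.erase j)) F (O * O')) ^ 2 ∂(nuS S)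
      ≤ Real.pi ^ 2 / ((S.card : ℝ) - 1) * ∑ b ∈ S.erase j, ∫ O, D b j O ^ 2 ∂(nuS S) := by
  set T := S.erase j with hT
  have hTS : T ⊆ S := Finset.erase_subset j S
  have hjT : j ∉ T := Finset.notMem_erase j S
  have hTcard : T.card = S.card - 1 := Finset.card_erase_of_mem hj
  have hTpos : 0 < T.card := by omega
  have hTr : (T.card : ℝ) = (S.card : ℝ) - 1 := by
    rw [hTcard, Nat.cast_sub (by omega)]; simp
  have hle : HS T ≤ HS S := HS_mono hTS
  obtain ⟨w, hwj, hww, θ, h', hθ, hwT, hh', rfl⟩ := exists_decomp S j hj hcard O' hO'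
  have hwS : ∀ b, b ∉ S → w b = 0 := fun b hb => hwT b (fun h => hb (hTS h))
  set r := rot j w hwj hww θ with hr
  have hrS : r ∈ HS S := rot_mem_HS S j hj w hwj hww hwS θ
  have hF := hG.contF
  -- remove h'
  have e0 : ∀ O, avg (HS T) F (O * (r * h')) = avg (HS T) F (O * r) := by
    intro O
    rw [← mul_assoc, avg_mul_right (HS T) F hF _ _ hh']
  simp only [e0]
  -- Jensen
  have hc2 : Continuous (fun p : OG ι × OG ι => (F (p.1 * p.2) - F (p.1 * r * p.2)) ^ 2) := by
    fun_prop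
  have hint : Integrable (fun p : OG ι × OG ι => (F (p.1 * p.2) - F (p.1 * r * p.2)) ^ 2)
      ((nuS S).prod (nuS T)) := integrable_of_cont _ _ hc2
  have j1 : ∀ O, (avg (HS T) F O - avg (HS T) F (O * r)) ^ 2
      ≤ ∫ h, (F (O * h) - F (O * r * h)) ^ 2 ∂(nuS T) := by
    intro O
    have a1 : Integrable (fun h => F (O * h)) (nuS T) := integrable_of_cont _ _ (by fun_prop)
    have a2 : Integrable (fun h => F (O * r * h)) (nuS T) := integrable_of_cont _ _ (by fun_prop)
    have e : avg (HS T) F O - avg (HS T) F (O * r)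
        = ∫ h, (F (O * h) - F (O * r * h)) ∂(nuS T) := by
      rw [integral_sub a1 a2]; rfl
    rw [e]
    have := sq_integral_le (nuS T) (fun h => F (O * h) - F (O * r * h)) (a1.sub a2)
      (integrable_of_cont _ _ (by fun_prop))
    simpa using this
  have j2 : ∫ O, (avg (HS T) F O - avg (HS T) F (O * r)) ^ 2 ∂(nuS S)
      ≤ ∫ h, (∫ O, (F (O * h) - F (O * r * h)) ^ 2 ∂(nuS S)) ∂(nuS T) := by
    rw [← integral_integral_swap
      (f := fun O h => (F (O * h) - F (O * r * h)) ^ 2) hint]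
    refine integral_mono ?_ hint.integral_prod_left j1
    refine integrable_of_cont _ _ ?_
    have := continuous_avg (HS T) F hF
    fun_prop
  -- bound for each h
  have j3 : ∀ h ∈ HS T, ∫ O, (F (O * h) - F (O * r * h)) ^ 2 ∂(nuS S)
      ≤ θ ^ 2 * ∫ O, (∑ b, (h.1ᵀ *ᵥ w) b * D b j O) ^ 2 ∂(nuS S) := by
    intro h hh
    have hj' : (h.1ᵀ *ᵥ w) j = 0 := by rw [HS_tr_eq T h hh w j hjT, hwj]
    have hw' : (h.1ᵀ *ᵥ w) ⬝ᵥ (h.1ᵀ *ᵥ w) = 1 := by
      have := mulVec_dot h⁻¹ w w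
      rw [coe_inv, hww] at this
      exact this
    have hwS' : ∀ b, b ∉ S → (h.1ᵀ *ᵥ w) b = 0 := by
      intro b hb
      rw [HS_tr_eq T h hh w b (fun hx => hb (hTS hx)), hwS b hb]
    have e1 : ∀ O, F (O * r * h) = F (O * h * rot j (h.1ᵀ *ᵥ w) hj' hw' θ) := by
      intro O
      rw [mul_assoc O r h, hr, conj_rot T j hjT w hwj hww h hh hj' hw', ← mul_assoc]
    have e2 : ∫ O, (F (O * h) - F (O * r * h)) ^ 2 ∂(nuS S)
        = ∫ O, (F O - F (O * rot j (h.1ᵀ *ᵥ w) hj' hw' θ)) ^ 2 ∂(nuS S) := by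
      simp only [e1]
      have := integral_mul_right (HS S)
        (fun O => (F O - F (O * rot j (h.1ᵀ *ᵥ w) hj' hw' θ)) ^ 2) (by fun_prop) h (hle hh)
      exact this
    rw [e2]
    refine flow_bound (HS S) (rot j (h.1ᵀ *ᵥ w) hj' hw') (continuous_rot j _ hj' hw')
      (fun s => rot_mem_HS S j hj _ hj' hw' hwS' s) ?_ F
      (fun O => ∑ b, (h.1ᵀ *ᵥ w) b * D b j O) hF ?_ ?_ θ
    · apply Subtype.ext; exact rotM_zero j _
    · exact continuous_finsetSum _ (fun b _ => continuous_const.mul (hG.contD b j))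
    · intro O s
      exact hG.der j _ hj' hw' O s
  -- integrate over h
  have hc3 : Continuous (fun p : OG ι × OG ι => (∑ b, (p.2.1ᵀ *ᵥ w) b * D b j p.1) ^ 2) := by
    refine Continuous.pow (continuous_finsetSum _ (fun b _ => ?_)) 2
    exact ((cont_tr w b).comp continuous_snd).mul ((hG.contD b j).comp continuous_fst)
  have hint3 : Integrable (fun p : OG ι × OG ι => (∑ b, (p.2.1ᵀ *ᵥ w) b * D b j p.1) ^ 2)
      ((nuS S).prod (nuS T)) := integrable_of_cont _ _ hc3
  have j4 : ∫ h, (∫ O, (F (O * h) - F (O * r * h)) ^ 2 ∂(nuS S)) ∂(nuS T)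
      ≤ ∫ h, (θ ^ 2 * ∫ O, (∑ b, (h.1ᵀ *ᵥ w) b * D b j O) ^ 2 ∂(nuS S)) ∂(nuS T) := by
    refine integral_mono_ae hint.integral_prod_right (hint3.integral_prod_right.const_mul _) ?_
    filter_upwards [ae_mem (HS T) (isClosed_HS T)] with h hh
    exact j3 h hh
  have j5 : ∫ h, (θ ^ 2 * ∫ O, (∑ b, (h.1ᵀ *ᵥ w) b * D b j O) ^ 2 ∂(nuS S)) ∂(nuS T)
      = θ ^ 2 * ((1 / (T.card : ℝ)) * ∑ b ∈ T, ∫ O, D b j O ^ 2 ∂(nuS S)) := by
    rw [integral_const_mul]
    congr 1
    rw [← integral_integral_swap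
      (f := fun O h => (∑ b, ((h : OG ι).1ᵀ *ᵥ w) b * D b j O) ^ 2) hint3]
    simp only [mom_quadratic T hTpos w hww hwT]
    rw [integral_const_mul, integral_finsetSum]
    intro b _
    exact integrable_of_cont _ _ ((hG.contD b j).pow 2)
  calc ∫ O, (avg (HS T) F O - avg (HS T) F (O * r)) ^ 2 ∂(nuS S)
      ≤ θ ^ 2 * ((1 / (T.card : ℝ)) * ∑ b ∈ T, ∫ O, D b j O ^ 2 ∂(nuS S)) := by
        rw [← j5]; exact j2.trans j4
    _ ≤ Real.pi ^ 2 * ((1 / (T.card : ℝ)) * ∑ b ∈ T, ∫ O, D b j O ^ 2 ∂(nuS S)) := by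
        refine mul_le_mul_of_nonneg_right ?_ ?_
        · rw [← sq_abs θ]; exact pow_le_pow_left₀ (abs_nonneg _) hθ 2
        · exact mul_nonneg (by positivity)
            (Finset.sum_nonneg (fun b _ => integral_nonneg (fun _ => sq_nonneg _)))
    _ = _ := by rw [hTr]; ring

/-- Main Poincare inequality for `SO(S)`. -/
theorem so_poincare : ∀ (s : ℕ) (S : Finset ι), S.card = s → 1 ≤ s →
    ∀ (F : OG ι → ℝ) (D : ι → ι → OG ι → ℝ), Good F D →
    (∫ O, F O ^ 2 ∂(nuS S)) - (∫ O, F O ∂(nuS S)) ^ 2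
      ≤ Real.pi ^ 2 / (2 * s) * ∑ a ∈ S, ∑ b ∈ S, ∫ O, D a b O ^ 2 ∂(nuS S) := by
  intro s
  induction s with
  | zero => intro S _ h; omega
  | succ s ih =>
    intro S hS _ F D hG
    have hF := hG.contF
    have hnn : ∀ a b, 0 ≤ ∫ O, D a b O ^ 2 ∂(nuS S) :=
      fun a b => integral_nonneg (fun _ => sq_nonneg _)
    rcases Nat.eq_zero_or_pos s with hs0 | hspos
    · -- singleton
      subst hs0
      obtain ⟨j, rfl⟩ := Finset.card_eq_one.mp hS
      have h1 : ∀ᵐ O ∂(nuS ({j} : Finset ι)), F O = F 1 := by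
        filter_upwards [ae_mem (HS {j}) (isClosed_HS {j})] with O hO
        rw [HS_singleton j O hO]
      have h2 : ∀ᵐ O ∂(nuS ({j} : Finset ι)), F O ^ 2 = F 1 ^ 2 := by
        filter_upwards [h1] with O hO
        rw [hO]
      rw [integral_congr_ae h1, integral_congr_ae h2, integral_const, integral_const]
      simp only [probReal_univ, one_smul, sub_self]
      refine mul_nonneg (by positivity)
        (Finset.sum_nonneg (fun a _ => Finset.sum_nonneg (fun b _ => hnn a b)))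
    · -- inductive step
      have hcard2 : 2 ≤ S.card := by omega
      have step : ∀ j ∈ S, (∫ O, F O ^ 2 ∂(nuS S)) - (∫ O, F O ∂(nuS S)) ^ 2
          ≤ Real.pi ^ 2 / (2 * s) * (∑ a ∈ S.erase j, ∑ b ∈ S.erase j, ∫ O, D a b O ^ 2 ∂(nuS S))
            + Real.pi ^ 2 / (2 * s) * ∑ b ∈ S.erase j, ∫ O, D b j O ^ 2 ∂(nuS S) := by
        intro j hj
        set T := S.erase j with hT
        have hTcard : T.card = s := by rw [hT, Finset.card_erase_of_mem hj]; omega
        have hle : HS T ≤ HS S := HS_mono (Finset.erase_subset j S)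
        have hcl : IsClosed ((HS T : Subgroup (OG ι)) : Set (OG ι)) := isClosed_HS T
        have b1 : (∫ O, (avg (HS T) F O) ^ 2 ∂(nuS S)) - (∫ O, avg (HS T) F O ∂(nuS S)) ^ 2
            ≤ (Real.pi ^ 2 / ((S.card : ℝ) - 1) * ∑ b ∈ T, ∫ O, D b j O ^ 2 ∂(nuS S)) / 2 :=
          var_le_of_diff (HS S) (isClosed_HS S) (avg (HS T) F) (continuous_avg _ _ hF) _
            (fun O' hO' => second_part S j hj hcard2 F D hG O' hO')
        have b2 : ∫ O, avg (HS T) F O ∂(nuS S) = ∫ O, F O ∂(nuS S) :=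
          integral_integral_mul (HS S) (HS T) hle hcl F hF
        have b3 : ∫ O, F O ^ 2 ∂(nuS S) = ∫ O, (∫ h, F (O * h) ^ 2 ∂(nuS T)) ∂(nuS S) :=
          (integral_integral_mul (HS S) (HS T) hle hcl (fun O => F O ^ 2) (hF.pow 2)).symm
        have b4 : ∀ O, (∫ h, F (O * h) ^ 2 ∂(nuS T)) - (avg (HS T) F O) ^ 2
            ≤ Real.pi ^ 2 / (2 * s) * ∑ a ∈ T, ∑ b ∈ T, ∫ h, D a b (O * h) ^ 2 ∂(nuS T) := by
          intro O
          exact ih T hTcard hspos _ _ (hG.translate O)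
        have ci1 : Integrable (fun O => ∫ h, F (O * h) ^ 2 ∂(nuS T)) (nuS S) :=
          integrable_of_cont _ _ (continuous_param _ (fun O h => F (O * h) ^ 2) (by fun_prop))
        have ci2 : Integrable (fun O => (avg (HS T) F O) ^ 2) (nuS S) :=
          integrable_of_cont _ _ ((continuous_avg _ _ hF).pow 2)
        have ci3 : ∀ a b, Integrable (fun O => ∫ h, D a b (O * h) ^ 2 ∂(nuS T)) (nuS S) := by
          intro a b
          have := hG.contD a b
          exact integrable_of_cont _ _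
            (continuous_param _ (fun O h => D a b (O * h) ^ 2) (by fun_prop))
        have b5 : (∫ O, F O ^ 2 ∂(nuS S)) - ∫ O, (avg (HS T) F O) ^ 2 ∂(nuS S)
            ≤ Real.pi ^ 2 / (2 * s) * ∑ a ∈ T, ∑ b ∈ T, ∫ O, D a b O ^ 2 ∂(nuS S) := by
          rw [b3, ← integral_sub ci1 ci2]
          refine (integral_mono (ci1.sub ci2) ?_ b4).trans ?_
          · refine Integrable.const_mul ?_ _
            exact integrable_finsetSum _ (fun a _ => integrable_finsetSum _ (fun b _ => ci3 a b))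
          · rw [integral_const_mul, integral_finsetSum]
            · refine mul_le_mul_of_nonneg_left (Finset.sum_le_sum (fun a _ => ?_)) (by positivity)
              rw [integral_finsetSum]
              · refine Finset.sum_le_sum (fun b _ => ?_)
                exact (integral_integral_mul (HS S) (HS T) hle hcl (fun O => D a b O ^ 2)
                  ((hG.contD a b).pow 2)).le
              · exact fun b _ => ci3 a b
            · intro a _
              exact integrable_finsetSum _ (fun b _ => ci3 a b)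
        rw [b2] at b1
        have hsr : ((S.card : ℝ) - 1) = s := by rw [hS]; push_cast; ring
        rw [hsr] at b1
        have e : (Real.pi ^ 2 / (s : ℝ) * ∑ b ∈ T, ∫ O, D b j O ^ 2 ∂(nuS S)) / 2
          = Real.pi ^ 2 / (2 * s) * ∑ b ∈ T, ∫ O, D b j O ^ 2 ∂(nuS S) := by
          have : (s : ℝ) ≠ 0 := by positivity
          field_simp
        rw [e] at b1
        linarith
      -- sum over j
      have hsum := Finset.sum_le_sum step
      rw [Finset.sum_const, nsmul_eq_mul, Finset.sum_add_distrib, ← Finset.mul_sum,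
        ← Finset.mul_sum] at hsum
      set V := (∫ O, F O ^ 2 ∂(nuS S)) - (∫ O, F O ∂(nuS S)) ^ 2 with hV
      set d : ι → ι → ℝ := fun a b => ∫ O, D a b O ^ 2 ∂(nuS S) with hd
      have hdd : ∀ a, d a a = 0 := by
        intro a
        simp only [hd, hG.diag a]
        simp
      have c1 : ∑ j ∈ S, ∑ b ∈ S.erase j, d b j = ∑ a ∈ S, ∑ b ∈ S, d a b := by
        rw [Finset.sum_comm' (s := S) (t := fun j => S.erase j) (t' := S)
          (s' := fun b => S.erase b)]
        · refine Finset.sum_congr rfl (fun a ha => ?_)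
          rw [Finset.sum_erase _ (hdd a)]
        · intro x y
          simp only [Finset.mem_erase]
          constructor
          · rintro ⟨h1, h2, h3⟩; exact ⟨⟨Ne.symm h2, h1⟩, h3⟩
          · rintro ⟨⟨h1, h2⟩, h3⟩; exact ⟨h2, Ne.symm h1, h3⟩
      have c2 : ∑ j ∈ S, ∑ a ∈ S.erase j, ∑ b ∈ S.erase j, d a b
          = ((s : ℝ) - 1) * ∑ a ∈ S, ∑ b ∈ S, d a b := by
        have h1 : ∀ j ∈ S, ∑ a ∈ S.erase j, ∑ b ∈ S.erase j, d a b
            = (∑ a ∈ S, ∑ b ∈ S, d a b) - (∑ b ∈ S, d j b) - ∑ a ∈ S, d a j := by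
          intro j hj
          have h2 : ∀ a, ∑ b ∈ S.erase j, d a b = (∑ b ∈ S, d a b) - d a j := by
            intro a
            rw [← Finset.add_sum_erase S _ hj]; ring
          simp only [h2]
          rw [Finset.sum_sub_distrib]
          have h3 : ∑ a ∈ S.erase j, ∑ b ∈ S, d a b
              = (∑ a ∈ S, ∑ b ∈ S, d a b) - ∑ b ∈ S, d j b := by
            rw [← Finset.add_sum_erase S _ hj]; ring
          have h4 : ∑ a ∈ S.erase j, d a j = ∑ a ∈ S, d a j :=
            Finset.sum_erase _ (hdd j)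
          rw [h3, h4]
        rw [Finset.sum_congr rfl h1, Finset.sum_sub_distrib, Finset.sum_sub_distrib,
          Finset.sum_const, nsmul_eq_mul, hS, Finset.sum_comm (s := S) (t := S)
            (f := fun j a => d a j)]
        push_cast
        ring
      rw [c1, c2, hS] at hsum
      have hs1 : (0:ℝ) < s := by exact_mod_cast hspos
      have hs2 : (0:ℝ) < (s:ℝ) + 1 := by linarith
      push_cast at hsum ⊢
      set Tt := ∑ a ∈ S, ∑ b ∈ S, d a b with hTt
      have e5 : Real.pi ^ 2 / (2 * (s:ℝ)) * (((s : ℝ) - 1) * Tt) + Real.pi ^ 2 / (2 * (s:ℝ)) * Tt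
          = (s + 1) * (Real.pi ^ 2 / (2 * ((s:ℝ) + 1)) * Tt) := by
        field_simp
        ring
      rw [e5] at hsum
      exact le_of_mul_le_mul_left hsum hs2

end Pool.H97.KLS
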