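import Pool.Agent.H97.KlsHaar

set_option autoImplicit false
set_option linter.unusedSectionVars false
set_option linter.unusedSimpArgs false

open MeasureTheory Measure Set TopologicalSpace Matrix

namespace Pool.H97.KLS

/-- The orthogonal group as a type. -/
abbrev OG (ι : Type*) [Fintype ι] [DecidableEq ι] := ↥(Matrix.unitaryGroup ι ℝ)

variable {ι : Type*} [Fintype ι] [DecidableEq ι]

noncomputable instance : MeasurableSpace (OG ι) := borel _
instance : BorelSpace (OG ι) := ⟨rfl⟩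

instance : SecondCountableTopology (Matrix ι ι ℝ) :=
  inferInstanceAs (SecondCountableTopology (ι → ι → ℝ))

instance : SecondCountableTopology (OG ι) :=
  TopologicalSpace.Subtype.secondCountableTopology _

theorem entry_sq_le (O : OG ι) (a b : ι) : |O.1 a b| ≤ 1 := by
  have h : (O.1 * O.1ᵀ) a a = 1 := by
    have := O.2
    rw [Matrix.mem_unitaryGroup_iff] at this
    have h2 : star O.1 = O.1ᵀ := by
      rw [Matrix.star_eq_conjTranspose]; exact Matrix.conjTranspose_eq_transpose_of_trivial _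
    rw [h2] at this
    rw [this]; simp
  rw [Matrix.mul_apply] at h
  have h3 : O.1 a b * O.1ᵀ b a ≤ 1 := by
    rw [← h]
    exact Finset.single_le_sum (f := fun c => O.1 a c * O.1ᵀ c a)
      (fun c _ => by simp only [Matrix.transpose_apply]; exact mul_self_nonneg _) (Finset.mem_univ b)
  simp only [Matrix.transpose_apply] at h3
  rw [abs_le]
  constructor <;> nlinarith

instance : CompactSpace (OG ι) := by
  have h1 : IsClosed ((Matrix.unitaryGroup ι ℝ : Submonoid (Matrix ι ι ℝ)) : Set (Matrix ι ι ℝ)) :=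
    isClosed_unitary
  have h2 : IsCompact (Set.matrix (Icc (-1:ℝ) 1) : Set (Matrix ι ι ℝ)) :=
    IsCompact.matrix isCompact_Icc
  have h3 : ((Matrix.unitaryGroup ι ℝ : Submonoid (Matrix ι ι ℝ)) : Set (Matrix ι ι ℝ)) ⊆
      (Set.matrix (Icc (-1:ℝ) 1) : Set (Matrix ι ι ℝ)) := by
    intro O hO a b
    exact abs_le.mp (entry_sq_le ⟨O, hO⟩ a b)
  exact isCompact_iff_compactSpace.mp (h2.of_isClosed_subset h1 h3)

theorem transpose_mul_self (O : OG ι) : O.1ᵀ * O.1 = 1 := by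
  have := O.2
  rw [Matrix.mem_unitaryGroup_iff'] at this
  have h2 : star O.1 = O.1ᵀ := by
    rw [Matrix.star_eq_conjTranspose]; exact Matrix.conjTranspose_eq_transpose_of_trivial _
  rw [h2] at this
  exact this

theorem mul_transpose_self (O : OG ι) : O.1 * O.1ᵀ = 1 := by
  have := O.2
  rw [Matrix.mem_unitaryGroup_iff] at this
  have h2 : star O.1 = O.1ᵀ := by
    rw [Matrix.star_eq_conjTranspose]; exact Matrix.conjTranspose_eq_transpose_of_trivial _
  rw [h2] at this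
  exact this

theorem coe_inv (O : OG ι) : (O⁻¹).1 = O.1ᵀ := by
  show star O.1 = _
  rw [Matrix.star_eq_conjTranspose]; exact Matrix.conjTranspose_eq_transpose_of_trivial _

theorem mem_of (M : Matrix ι ι ℝ) (h : M * Mᵀ = 1) : M ∈ Matrix.unitaryGroup ι ℝ := by
  rw [Matrix.mem_unitaryGroup_iff]
  have h2 : star M = Mᵀ := by
    rw [Matrix.star_eq_conjTranspose]; exact Matrix.conjTranspose_eq_transpose_of_trivial _
  rw [h2]; exact h

/-- Basis vector -/
def ev (b : ι) : ι → ℝ := Pi.single b 1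

/-- The special orthogonal group acting on the coordinates in `S`. -/
def HS (S : Finset ι) : Subgroup (OG ι) where
  carrier := {O | O.1.det = 1 ∧ ∀ b, b ∉ S → O.1 *ᵥ ev b = ev b}
  mul_mem' := by
    rintro A B ⟨hA, hA'⟩ ⟨hB, hB'⟩
    refine ⟨?_, fun b hb => ?_⟩
    · show (A.1 * B.1).det = 1
      rw [det_mul, hA, hB, one_mul]
    · show (A.1 * B.1) *ᵥ ev b = ev b
      rw [← mulVec_mulVec, hB' b hb, hA' b hb]
  one_mem' := by
    refine ⟨by simp, fun b _ => by simp⟩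
  inv_mem' := by
    rintro A ⟨hA, hA'⟩
    refine ⟨?_, fun b hb => ?_⟩
    · rw [coe_inv, det_transpose, hA]
    · rw [coe_inv]
      conv_lhs => rw [← hA' b hb]
      rw [mulVec_mulVec, transpose_mul_self, one_mulVec]

theorem mem_HS (S : Finset ι) (O : OG ι) :
    O ∈ HS S ↔ O.1.det = 1 ∧ ∀ b, b ∉ S → O.1 *ᵥ ev b = ev b := Iff.rfl

theorem HS_mono {S T : Finset ι} (h : S ⊆ T) : HS S ≤ HS T := by
  rintro O ⟨h1, h2⟩
  exact ⟨h1, fun b hb => h2 b (fun hb' => hb (h hb'))⟩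

theorem isClosed_HS (S : Finset ι) : IsClosed ((HS S : Subgroup (OG ι)) : Set (OG ι)) := by
  have : ((HS S : Subgroup (OG ι)) : Set (OG ι)) =
      {O : OG ι | O.1.det = 1} ∩ ⋂ b, ⋂ (_ : b ∉ S), {O : OG ι | O.1 *ᵥ ev b = ev b} := by
    ext O; simp [mem_HS]
  rw [this]
  refine IsClosed.inter ?_ ?_
  · exact isClosed_eq (Continuous.matrix_det continuous_subtype_val) continuous_const
  · refine isClosed_iInter fun b => isClosed_iInter fun _ => ?_
    exact isClosed_eq (Continuous.matrix_mulVec continuous_subtype_val continuous_const)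
      continuous_const

instance (S : Finset ι) : CompactSpace (HS S : Subgroup (OG ι)) :=
  isCompact_iff_compactSpace.mp (isClosed_HS S).isCompact

/-- projection part of the planar rotation -/
def Pm (j : ι) (w : ι → ℝ) : Matrix ι ι ℝ := vecMulVec (ev j) (ev j) + vecMulVec w w
/-- infinitesimal rotation -/
def Em (j : ι) (w : ι → ℝ) : Matrix ι ι ℝ := vecMulVec w (ev j) - vecMulVec (ev j) w

theorem ev_dot_ev (j : ι) : ev j ⬝ᵥ ev j = 1 := by simp [ev]
theorem ev_dot (j : ι) (w : ι → ℝ) : ev j ⬝ᵥ w = w j := by simp [ev]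
theorem dot_ev (j : ι) (w : ι → ℝ) : w ⬝ᵥ ev j = w j := by simp [ev]

theorem vv (a b c d : ι → ℝ) : vecMulVec a b * vecMulVec c d = (b ⬝ᵥ c) • vecMulVec a d := by
  rw [vecMulVec_mul_vecMulVec]
  ext x y
  simp [vecMulVec_apply]
  ring

theorem Pm_mul_Pm (j : ι) (w : ι → ℝ) (hj : w j = 0) (hw : w ⬝ᵥ w = 1) :
    Pm j w * Pm j w = Pm j w := by
  simp [Pm, Matrix.add_mul, Matrix.mul_add, vv, ev_dot, dot_ev, hj, hw, ev_dot_ev]
  simp [ev]

theorem Pm_mul_Em (j : ι) (w : ι → ℝ) (hj : w j = 0) (hw : w ⬝ᵥ w = 1) :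
    Pm j w * Em j w = Em j w := by
  simp [Pm, Em, Matrix.add_mul, Matrix.mul_add, Matrix.mul_sub, Matrix.sub_mul, vv, ev_dot, dot_ev, hj, hw, ev_dot_ev]
  simp [ev]

theorem Em_mul_Pm (j : ι) (w : ι → ℝ) (hj : w j = 0) (hw : w ⬝ᵥ w = 1) :
    Em j w * Pm j w = Em j w := by
  simp [Pm, Em, Matrix.add_mul, Matrix.mul_add, Matrix.mul_sub, Matrix.sub_mul, vv, ev_dot, dot_ev, hj, hw, ev_dot_ev]
  simp [ev]
  abel

theorem Em_mul_Em (j : ι) (w : ι → ℝ) (hj : w j = 0) (hw : w ⬝ᵥ w = 1) :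
    Em j w * Em j w = - Pm j w := by
  simp [Pm, Em, Matrix.add_mul, Matrix.mul_add, Matrix.mul_sub, Matrix.sub_mul, vv, ev_dot, dot_ev, hj, hw, ev_dot_ev]
  simp [ev]
  abel

theorem Pm_transpose (j : ι) (w : ι → ℝ) : (Pm j w)ᵀ = Pm j w := by
  ext a b; simp [Pm, vecMulVec_apply, mul_comm]

theorem Em_transpose (j : ι) (w : ι → ℝ) : (Em j w)ᵀ = - Em j w := by
  ext a b; simp [Em, vecMulVec_apply, mul_comm]

/-- planar rotation matrix -/
noncomputable def rotM (j : ι) (w : ι → ℝ) (θ : ℝ) : Matrix ι ι ℝ :=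
  1 + (Real.cos θ - 1) • Pm j w + Real.sin θ • Em j w

theorem rotM_zero (j : ι) (w : ι → ℝ) : rotM j w 0 = 1 := by simp [rotM]

theorem rotM_transpose (j : ι) (w : ι → ℝ) (θ : ℝ) : (rotM j w θ)ᵀ = rotM j w (-θ) := by
  simp [rotM, Matrix.transpose_add, Matrix.transpose_smul, Pm_transpose, Em_transpose]

theorem rotM_mul (j : ι) (w : ι → ℝ) (hj : w j = 0) (hw : w ⬝ᵥ w = 1) (θ φ : ℝ) :
    rotM j w θ * rotM j w φ = rotM j w (θ + φ) := by
  unfold rotM
  simp only [Matrix.add_mul, Matrix.mul_add, Matrix.smul_mul, Matrix.mul_smul, Matrix.one_mul,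
    Matrix.mul_one, Pm_mul_Pm j w hj hw, Pm_mul_Em j w hj hw, Em_mul_Pm j w hj hw,
    Em_mul_Em j w hj hw, Real.cos_add, Real.sin_add]
  module

/-- rotation as group element (for admissible `w`) -/
noncomputable def rot (j : ι) (w : ι → ℝ) (hj : w j = 0) (hw : w ⬝ᵥ w = 1) (θ : ℝ) : OG ι :=
  ⟨rotM j w θ, mem_of _ (by
    rw [rotM_transpose, rotM_mul j w hj hw, add_neg_cancel, rotM_zero])⟩

theorem rotM_det (j : ι) (w : ι → ℝ) (hj : w j = 0) (hw : w ⬝ᵥ w = 1) (θ : ℝ) :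
    (rotM j w θ).det = 1 := by
  have h1 : rotM j w θ = rotM j w (θ/2) * rotM j w (θ/2) := by
    rw [rotM_mul j w hj hw]; congr 1; ring
  have h2 : (rotM j w (θ/2)).det * (rotM j w (θ/2)).det = 1 := by
    have := mul_transpose_self (rot j w hj hw (θ/2))
    have h3 := congrArg Matrix.det this
    rw [det_mul, det_transpose, det_one] at h3
    exact h3
  rw [h1, det_mul, h2]

theorem rotM_mulVec_of (j b : ι) (w : ι → ℝ) (θ : ℝ) (hbj : b ≠ j) (hb : w b = 0) :
    rotM j w θ *ᵥ ev b = ev b := by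
  have h1 : Pm j w *ᵥ ev b = 0 := by
    ext x
    simp [Pm, Matrix.mulVec, vecMulVec_apply, ev, hbj, hb, dotProduct, Pi.single_apply]
  have h2 : Em j w *ᵥ ev b = 0 := by
    ext x
    simp [Em, Matrix.mulVec, vecMulVec_apply, ev, hbj, hb, dotProduct, Pi.single_apply]
  rw [rotM, Matrix.add_mulVec, Matrix.add_mulVec, Matrix.smul_mulVec, Matrix.smul_mulVec, h1, h2]
  simp

theorem rot_mem_HS (S : Finset ι) (j : ι) (hjS : j ∈ S) (w : ι → ℝ) (hj : w j = 0)
    (hw : w ⬝ᵥ w = 1) (hwS : ∀ b, b ∉ S → w b = 0) (θ : ℝ) : rot j w hj hw θ ∈ HS S := by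
  refine ⟨rotM_det j w hj hw θ, fun b hb => ?_⟩
  exact rotM_mulVec_of j b w θ (fun h => hb (h ▸ hjS)) (hwS b hb)

theorem rotM_conj (j : ι) (w : ι → ℝ) (θ : ℝ) (h : OG ι) (hhj : h.1 *ᵥ ev j = ev j) :
    h.1 * rotM j w θ = rotM j (h.1 *ᵥ w) θ * h.1 := by
  have hT : ∀ a b : ι → ℝ, h.1 * vecMulVec a b = vecMulVec (h.1 *ᵥ a) (h.1 *ᵥ b) * h.1 := by
    intro a b
    rw [Matrix.mul_vecMulVec, Matrix.vecMulVec_mul]
    congr 1
    rw [Matrix.vecMul_mulVec, transpose_mul_self]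
    simp
  have h1 : h.1 * Pm j w = Pm j (h.1 *ᵥ w) * h.1 := by
    rw [Pm, Pm, Matrix.mul_add, Matrix.add_mul, hT, hT, hhj]
  have h2 : h.1 * Em j w = Em j (h.1 *ᵥ w) * h.1 := by
    rw [Em, Em, Matrix.mul_sub, Matrix.sub_mul, hT, hT, hhj]
  unfold rotM
  simp only [Matrix.add_mul, Matrix.mul_add, Matrix.smul_mul, Matrix.mul_smul, Matrix.one_mul,
    Matrix.mul_one, h1, h2]

theorem continuous_rot (j : ι) (w : ι → ℝ) (hj : w j = 0) (hw : w ⬝ᵥ w = 1) :
    Continuous (rot j w hj hw) := by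
  refine Continuous.subtype_mk ?_ _
  unfold rotM
  refine Continuous.add (Continuous.add continuous_const ?_) ?_
  · exact (Real.continuous_cos.sub continuous_const).smul continuous_const
  · exact Real.continuous_sin.smul continuous_const

end Pool.H97.KLS
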