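import Pool.Agent.H97.KlsRadial

set_option autoImplicit false
set_option linter.unusedSectionVars false
set_option linter.unusedSimpArgs false

open MeasureTheory Measure Set TopologicalSpace

namespace Pool.H97.KLS

open Pool.Agent.H84 (CB)

variable {m k : ℕ}

section onK

variable {K : Set (Mat m k)} (hKm : MeasurableSet K) (hKb : Bornology.IsBounded K)
  (hKinv : SOInvSet K)

include hKinv in
theorem setIntegral_rot_so (u : Mat m k → ℝ) (O : OG (Fin k)) (hO : O.1.det = 1) :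
    ∫ X in K, u (rotX O.1 X) = ∫ X in K, u X := by
  have h1 : MeasurePreserving (rotXLI (m := m) O.1 (mul_transpose_self O)) volume volume :=
    LinearIsometryEquiv.measurePreserving _
  have h2 : MeasurableEmbedding (rotXLI (m := m) O.1 (mul_transpose_self O)) :=
    (rotXLI (m := m) O.1 (mul_transpose_self O)).toHomeomorph.measurableEmbedding
  have h3 := h1.setIntegral_preimage_emb h2 u K
  rw [preimage_SO hKinv O hO] at h3
  exact h3

include hKb hKinv in
theorem setIntegral_Pavg_so (u : Mat m k → ℝ) (hu : Continuous u) :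
    ∫ X in K, Pavg u X = ∫ X in K, u X := by
  unfold Pavg
  have hint := integrable_prod_K K hKb (fun X O => u (rotX O.1 X)) (hu.comp continuous_rotX'')
  rw [integral_integral_swap (f := fun X (O : OG (Fin k)) => u (rotX O.1 X)) hint]
  have e : ∀ᵐ O : OG (Fin k) ∂(nuS (Finset.univ : Finset (Fin k))),
      ∫ X in K, u (rotX O.1 X) = ∫ X in K, u X := by
    filter_upwards [ae_mem (HS (Finset.univ : Finset (Fin k))) (isClosed_HS _)] with O hO
    exact setIntegral_rot_so hKinv u O ((mem_HS_univ O).mp hO)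
  rw [integral_congr_ae e, integral_const, probReal_univ, one_smul]

include hKinv in
/-- pointwise variance bound on orbits -/
theorem orbit_var_le_so (hk : 1 ≤ k) (R : ℝ)
    (hR : ∀ X ∈ K, ∀ v : EuclideanSpace ℝ (Fin m), ‖rowComb v X‖ ≤ R * ‖v‖)
    (f : Mat m k → ℝ) (hf : ContDiff ℝ 1 f) (X : Mat m k) (hX : X ∈ K) :
    Pavg (fun Y => f Y ^ 2) X - (Pavg f X) ^ 2
      ≤ 2 * Real.pi ^ 2 * R ^ 2 / k * Pavg (fun Y => ‖fderiv ℝ f Y‖ ^ 2) X := by
  have h1 := so_poincare k (Finset.univ : Finset (Fin k)) (by simp) hk _ _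
    (good_of_contDiff f hf X)
  have hcd : ∀ a b, Continuous (fun O : OG (Fin k) => ang f a b (rotX O.1 X) ^ 2) :=
    fun a b => ((good_of_contDiff f hf X).contD a b).pow 2
  have hcf : Continuous (fun O : OG (Fin k) => ‖fderiv ℝ f (rotX O.1 X)‖ ^ 2) :=
    (((hf.continuous_fderiv (by norm_num)).comp
      (continuous_rotX''.comp (Continuous.prodMk_right X))).norm).pow 2
  have h2 : ∑ a, ∑ b, ∫ O, ang f a b (rotX O.1 X) ^ 2 ∂(nuS (Finset.univ : Finset (Fin k)))
      ≤ 4 * R ^ 2 * Pavg (fun Y => ‖fderiv ℝ f Y‖ ^ 2) X := by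
    have e1 : ∑ a, ∑ b, ∫ O, ang f a b (rotX O.1 X) ^ 2 ∂(nuS (Finset.univ : Finset (Fin k)))
        = ∫ O, ∑ a, ∑ b, ang f a b (rotX O.1 X) ^ 2 ∂(nuS (Finset.univ : Finset (Fin k))) := by
      rw [integral_finsetSum]
      · refine Finset.sum_congr rfl (fun a _ => ?_)
        rw [integral_finsetSum]
        exact fun b _ => integrable_of_cont _ _ (hcd a b)
      · exact fun a _ => integrable_finsetSum _ (fun b _ => integrable_of_cont _ _ (hcd a b))
    rw [e1]
    unfold Pavg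
    rw [← integral_const_mul]
    refine integral_mono_ae ?_ ?_ ?_
    · exact integrable_finsetSum _ (fun a _ => integrable_finsetSum _
        (fun b _ => integrable_of_cont _ _ (hcd a b)))
    · exact (integrable_of_cont _ _ hcf).const_mul _
    · filter_upwards [ae_mem (HS (Finset.univ : Finset (Fin k))) (isClosed_HS _)] with O hO
      exact sum_ang_sq_le f (rotX O.1 X) R (hR _ (hKinv O ((mem_HS_univ O).mp hO) X hX))
  have hkr : (0:ℝ) < k := by exact_mod_cast hk
  calc Pavg (fun Y => f Y ^ 2) X - (Pavg f X) ^ 2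
      ≤ Real.pi ^ 2 / (2 * k) * ∑ a, ∑ b, ∫ O, ang f a b (rotX O.1 X) ^ 2
          ∂(nuS (Finset.univ : Finset (Fin k))) := h1
    _ ≤ Real.pi ^ 2 / (2 * k) * (4 * R ^ 2 * Pavg (fun Y => ‖fderiv ℝ f Y‖ ^ 2) X) :=
        mul_le_mul_of_nonneg_left h2 (by positivity)
    _ = _ := by field_simp; ring

theorem Pavg_mul_inv (f g : Mat m k → ℝ) (hg : SOInv g) (X : Mat m k) :
    Pavg (fun Y => f Y * g Y) X = Pavg f X * g X := by
  unfold Pavg
  rw [← integral_mul_const]
  refine integral_congr_ae ?_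
  filter_upwards [ae_mem (HS (Finset.univ : Finset (Fin k))) (isClosed_HS _)] with O hO
  rw [hg O ((mem_HS_univ O).mp hO)]

theorem Pavg_SOInv (f : Mat m k → ℝ) (hf : Continuous f) : SOInv (Pavg f) :=
  fun O hO X => Pavg_rot_so f hf X O hO

include hKb hKinv hKm in
/-- the angular part -/
theorem angular_poincare_so (hk : 1 ≤ k) (R : ℝ)
    (hR : ∀ X ∈ K, ∀ v : EuclideanSpace ℝ (Fin m), ‖rowComb v X‖ ≤ R * ‖v‖)
    (f : Mat m k → ℝ) (hf : ContDiff ℝ 1 f) :
    (∫ X in K, f X ^ 2) - ∫ X in K, (Pavg f X) ^ 2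
      ≤ 2 * Real.pi ^ 2 * R ^ 2 / k * ∫ X in K, ‖fderiv ℝ f X‖ ^ 2 := by
  have hcP : Continuous (Pavg f) := continuous_Pavg f hf.continuous
  have hcf : Continuous (fun Y => ‖fderiv ℝ f Y‖ ^ 2) :=
    ((hf.continuous_fderiv (by norm_num)).norm).pow 2
  have i1 : IntegrableOn (Pavg (fun X => f X ^ 2)) K :=
    integrableOn_K K hKb _ (continuous_Pavg _ (hf.continuous.pow 2))
  have i2 : IntegrableOn (fun X => (Pavg f X) ^ 2) K := integrableOn_K K hKb _ (hcP.pow 2)
  rw [← setIntegral_Pavg_so hKb hKinv (fun X => f X ^ 2) (hf.continuous.pow 2),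
    ← setIntegral_Pavg_so hKb hKinv (fun X => ‖fderiv ℝ f X‖ ^ 2) hcf,
    ← integral_sub i1 i2, ← integral_const_mul]
  refine setIntegral_mono_on ?_ ?_ hKm ?_
  · exact integrableOn_K K hKb _ ((continuous_Pavg _ (hf.continuous.pow 2)).sub (hcP.pow 2))
  · exact integrableOn_K K hKb _ (continuous_const.mul (continuous_Pavg _ hcf))
  · intro X hX
    exact orbit_var_le_so hKinv hk R hR f hf X hX

include hKb hKinv hKm in
theorem setIntegral_fderiv_Pavg_le_so (f : Mat m k → ℝ) (hf : ContDiff ℝ 1 f) :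
    ∫ X in K, ‖fderiv ℝ (Pavg f) X‖ ^ 2 ≤ ∫ X in K, ‖fderiv ℝ f X‖ ^ 2 := by
  have hcf : Continuous (fun Y => ‖fderiv ℝ f Y‖ ^ 2) :=
    ((hf.continuous_fderiv (by norm_num)).norm).pow 2
  rw [← setIntegral_Pavg_so hKb hKinv _ hcf]
  refine setIntegral_mono_on ?_ ?_ hKm ?_
  · exact integrableOn_K K hKb _
      ((((contDiff_Pavg f hf).continuous_fderiv (by norm_num)).norm).pow 2)
  · exact integrableOn_K K hKb _ (continuous_Pavg _ hcf)
  · intro X _
    exact norm_fderiv_Pavg_sq_le f hf X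

end onK

/-- **Poincaré inequality for right-`SO(k)`-invariant bounded convex sets of `m × k` matrices**,
all `m`, `k ≥ 2`, with constant `28 R² / k` where `R` bounds the operator norm on `K`. -/
theorem rotation_poincare (hk : 2 ≤ k) {K : Set (Mat m k)} {R0 : ℝ} (hK : CB K R0)
    (hKinv : SOInvSet K) {R : ℝ} (hR0 : 0 < R)
    (hR : ∀ X ∈ K, ∀ v : EuclideanSpace ℝ (Fin m), ‖rowComb v X‖ ≤ R * ‖v‖)
    (f : Mat m k → ℝ) (hf : ContDiff ℝ 1 f) :
    volume.real K * (∫ X in K, f X ^ 2) - (∫ X in K, f X) ^ 2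
      ≤ 28 * R ^ 2 / k * (volume.real K * ∫ X in K, ‖fderiv ℝ f X‖ ^ 2) := by
  have hKb : Bornology.IsBounded K := Metric.isBounded_closedBall.subset hK.sub
  have h1 := angular_poincare_so hK.meas hKb hKinv (by omega : 1 ≤ k) R hR f hf
  have h2 := radial_poincare hk hK hKinv hR0 hR (Pavg f) (contDiff_Pavg f hf)
    (Pavg_SOInv f hf.continuous)
  have h3 := setIntegral_fderiv_Pavg_le_so hK.meas hKb hKinv f hf
  rw [setIntegral_Pavg_so hKb hKinv f hf.continuous] at h2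
  have hV : 0 ≤ volume.real K := measureReal_nonneg
  set V := volume.real K
  set A := ∫ X in K, f X ^ 2
  set B := ∫ X in K, (Pavg f X) ^ 2
  set G := ∫ X in K, ‖fderiv ℝ f X‖ ^ 2
  set G' := ∫ X in K, ‖fderiv ℝ (Pavg f) X‖ ^ 2
  have hG : 0 ≤ G := integral_nonneg (fun _ => sq_nonneg _)
  have hk1 : (2:ℝ) ≤ k := by exact_mod_cast hk
  have hkpos : (0:ℝ) < k := by linarith
  have hk2 : (0:ℝ) < (k:ℝ) - 1 := by linarith
  have e1 : V * A - (∫ X in K, f X) ^ 2 = V * (A - B) + (V * B - (∫ X in K, f X) ^ 2) := by ring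
  rw [e1]
  have h4 : V * (A - B) ≤ V * (2 * Real.pi ^ 2 * R ^ 2 / k * G) := mul_le_mul_of_nonneg_left h1 hV
  have h5 : 4 * R ^ 2 / ((k : ℝ) - 1) * (V * G') ≤ 8 * R ^ 2 / k * (V * G) := by
    have h6 : 4 * R ^ 2 / ((k : ℝ) - 1) ≤ 8 * R ^ 2 / k := by
      rw [div_le_div_iff₀ hk2 hkpos]
      nlinarith [sq_nonneg R]
    exact mul_le_mul h6 (mul_le_mul_of_nonneg_left h3 hV)
      (mul_nonneg hV (integral_nonneg (fun _ => sq_nonneg _))) (by positivity)
  have hpi : Real.pi ^ 2 ≤ 10 := by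
    have := Real.pi_lt_d2
    have h0 := Real.pi_pos
    nlinarith
  have h7 : V * (2 * Real.pi ^ 2 * R ^ 2 / k * G) ≤ 20 * R ^ 2 / k * (V * G) := by
    have : 2 * Real.pi ^ 2 * R ^ 2 / k ≤ 20 * R ^ 2 / k := by
      apply div_le_div_of_nonneg_right _ hkpos.le
      nlinarith [sq_nonneg R]
    calc V * (2 * Real.pi ^ 2 * R ^ 2 / k * G) = 2 * Real.pi ^ 2 * R ^ 2 / k * (V * G) := by ring
      _ ≤ 20 * R ^ 2 / k * (V * G) := mul_le_mul_of_nonneg_right this (mul_nonneg hV hG)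
  have h8 : 28 * R ^ 2 / k * (V * G) = 20 * R ^ 2 / k * (V * G) + 8 * R ^ 2 / k * (V * G) := by
    ring
  rw [h8]
  linarith

end Pool.H97.KLS
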