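import Pool.Agent.H97.KlsRot

set_option autoImplicit false
set_option linter.unusedSectionVars false
set_option linter.unusedSimpArgs false

open MeasureTheory Measure Set TopologicalSpace Matrix

namespace Pool.H97.KLS

variable {ι : Type*} [Fintype ι] [DecidableEq ι]

/-- `F` is differentiable along all planar rotations, with derivatives `D`. -/
structure Good (F : OG ι → ℝ) (D : ι → ι → OG ι → ℝ) : Prop where
  contF : Continuous F
  contD : ∀ a b, Continuous (D a b)
  diag : ∀ a O, D a a O = 0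
  der : ∀ (j : ι) (w : ι → ℝ) (hj : w j = 0) (hw : w ⬝ᵥ w = 1) (O : OG ι) (θ : ℝ),
    HasDerivAt (fun t => F (O * rot j w hj hw t)) (∑ b, w b * D b j (O * rot j w hj hw θ)) θ

theorem Good.translate {F : OG ι → ℝ} {D : ι → ι → OG ι → ℝ} (h : Good F D) (O : OG ι) :
    Good (fun x => F (O * x)) (fun a b x => D a b (O * x)) := by
  refine ⟨?_, fun a b => ?_, fun a x => h.diag a _, fun j w hj hw x θ => ?_⟩
  · exact h.contF.comp (continuous_const_mul O)
  · exact (h.contD a b).comp (continuous_const_mul O)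
  · have := h.der j w hj hw (O * x) θ
    simpa [mul_assoc] using this

theorem mulVec_dot (O : OG ι) (u v : ι → ℝ) : (O.1 *ᵥ u) ⬝ᵥ (O.1 *ᵥ v) = u ⬝ᵥ v := by
  rw [Matrix.dotProduct_mulVec, ← Matrix.mulVec_transpose, mulVec_mulVec, transpose_mul_self,
    one_mulVec]

theorem rotM_mulVec_self (j : ι) (w : ι → ℝ) (hj : w j = 0) (θ : ℝ) :
    rotM j w θ *ᵥ ev j = Real.cos θ • ev j + Real.sin θ • w := by
  have h1 : Pm j w *ᵥ ev j = ev j := by
    ext x
    simp [Pm, Matrix.mulVec, vecMulVec_apply, ev, hj, dotProduct, Pi.single_apply]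
  have h2 : Em j w *ᵥ ev j = w := by
    ext x
    simp [Em, Matrix.mulVec, vecMulVec_apply, ev, hj, dotProduct, Pi.single_apply]
  rw [rotM, Matrix.add_mulVec, Matrix.add_mulVec, Matrix.smul_mulVec, Matrix.smul_mulVec, h1, h2,
    one_mulVec]
  module

theorem HS_col (S : Finset ι) (O : OG ι) (hO : O ∈ HS S) (j b : ι) (hj : j ∈ S) (hb : b ∉ S) :
    (O.1 *ᵥ ev j) b = 0 := by
  have h1 : (O.1 *ᵥ ev j) ⬝ᵥ (O.1 *ᵥ ev b) = ev j ⬝ᵥ ev b := mulVec_dot O _ _
  rw [hO.2 b hb, dot_ev, dot_ev] at h1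
  rw [h1]
  have : b ≠ j := fun h => hb (h ▸ hj)
  simp [ev, this]

/-- decomposition of an element of `HS S` -/
theorem exists_decomp (S : Finset ι) (j : ι) (hj : j ∈ S) (hcard : 2 ≤ S.card) (O : OG ι)
    (hO : O ∈ HS S) :
    ∃ (w : ι → ℝ) (hwj : w j = 0) (hw : w ⬝ᵥ w = 1) (θ : ℝ) (h : OG ι),
      |θ| ≤ Real.pi ∧ (∀ b, b ∉ S.erase j → w b = 0) ∧ h ∈ HS (S.erase j) ∧
      O = rot j w hwj hw θ * h := by
  set u : ι → ℝ := O.1 *ᵥ ev j with hu
  have huu : u ⬝ᵥ u = 1 := by rw [hu, mulVec_dot, ev_dot_ev]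
  have hub : ∀ b, b ∉ S → u b = 0 := fun b hb => HS_col S O hO j b hj hb
  set c := u j with hc
  have hc1 : -1 ≤ c ∧ c ≤ 1 := by
    have h2 : c * c ≤ 1 := by
      rw [← huu]
      exact Finset.single_le_sum (f := fun b => u b * u b) (fun b _ => mul_self_nonneg _)
        (Finset.mem_univ j)
    constructor <;> nlinarith
  set θ := Real.arccos c with hθ
  have hcos : Real.cos θ = c := Real.cos_arccos hc1.1 hc1.2
  have hsin : Real.sin θ = Real.sqrt (1 - c ^ 2) := Real.sin_arccos c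
  have hθπ : |θ| ≤ Real.pi := by
    rw [abs_of_nonneg (Real.arccos_nonneg c)]; exact Real.arccos_le_pi c
  -- choose w
  have hw : ∃ w : ι → ℝ, w j = 0 ∧ w ⬝ᵥ w = 1 ∧ (∀ b, b ∉ S.erase j → w b = 0) ∧
      u = Real.cos θ • ev j + Real.sin θ • w := by
    have hdot : (u - c • ev j) ⬝ᵥ (u - c • ev j) = 1 - c ^ 2 := by
      simp only [sub_dotProduct, dotProduct_sub, smul_dotProduct, dotProduct_smul, huu, ev_dot,
        dot_ev, smul_eq_mul, ev_dot_ev, ← hc]
      ring_nf
      simp [ev]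
      ring
    by_cases hs : Real.sin θ = 0
    · obtain ⟨a, ha⟩ : ∃ a, a ∈ S.erase j := by
        have : 0 < (S.erase j).card := by rw [Finset.card_erase_of_mem hj]; omega
        exact Finset.card_pos.mp this
      have haj : a ≠ j := (Finset.mem_erase.mp ha).1
      refine ⟨ev a, ?_, ev_dot_ev a, ?_, ?_⟩
      · simp [ev, haj.symm]
      · intro b hb
        have : b ≠ a := fun h => hb (h ▸ ha)
        simp [ev, this]
      · have h0 : (1 - c ^ 2) ≤ 0 := by
          rw [hsin] at hs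
          exact Real.sqrt_eq_zero'.mp hs
        have h1 : (u - c • ev j) ⬝ᵥ (u - c • ev j) = 0 := by
          apply le_antisymm
          · rw [hdot]; exact h0
          · exact Finset.sum_nonneg (fun b _ => mul_self_nonneg _)
        have h2 : u - c • ev j = 0 := dotProduct_self_eq_zero.mp h1
        rw [hs, hcos, zero_smul, add_zero]
        exact sub_eq_zero.mp h2
    · have hspos : 0 < Real.sin θ := lt_of_le_of_ne (by rw [hsin]; exact Real.sqrt_nonneg _)
        (Ne.symm hs)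
      refine ⟨(Real.sin θ)⁻¹ • (u - c • ev j), ?_, ?_, ?_, ?_⟩
      · simp [ev, ← hc]
      · rw [smul_dotProduct, dotProduct_smul, hdot, smul_eq_mul, smul_eq_mul]
        have h3 : Real.sin θ ^ 2 = 1 - c ^ 2 := by
          rw [hsin, Real.sq_sqrt]; nlinarith
        rw [← h3]; field_simp
      · intro b hb
        by_cases hbj : b = j
        · subst hbj; simp [ev, ← hc]
        · have hbS : b ∉ S := fun h => hb (Finset.mem_erase.mpr ⟨hbj, h⟩)
          simp [ev, hbj, hub b hbS]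
      · rw [smul_smul, mul_inv_cancel₀ hs, one_smul, hcos]
        abel
  obtain ⟨w, hwj, hww, hwS, huw⟩ := hw
  have hwS' : ∀ b, b ∉ S → w b = 0 := fun b hb => hwS b (fun h => hb (Finset.mem_of_mem_erase h))
  have hrS : rot j w hwj hww θ ∈ HS S := rot_mem_HS S j hj w hwj hww hwS' θ
  refine ⟨w, hwj, hww, θ, (rot j w hwj hww θ)⁻¹ * O, hθπ, hwS, ?_, ?_⟩
  · have hmem : (rot j w hwj hww θ)⁻¹ * O ∈ HS S := (HS S).mul_mem ((HS S).inv_mem hrS) hO
    refine ⟨hmem.1, fun b hb => ?_⟩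
    by_cases hbj : b = j
    · subst hbj
      show ((rot b w hwj hww θ)⁻¹.1 * O.1) *ᵥ ev b = ev b
      rw [← mulVec_mulVec, ← hu, huw, ← rotM_mulVec_self b w hwj θ, mulVec_mulVec]
      have : ((rot b w hwj hww θ)⁻¹).1 * rotM b w θ = 1 := by
        have := transpose_mul_self (rot b w hwj hww θ)
        rw [coe_inv]; exact this
      rw [this, one_mulVec]
    · exact hmem.2 b (fun h => hb (Finset.mem_erase.mpr ⟨hbj, h⟩))
  · rw [← mul_assoc, mul_inv_cancel, one_mul]

theorem HS_singleton (j : ι) (O : OG ι) (hO : O ∈ HS {j}) : O = 1 := by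
  have hdiag : O.1 = Matrix.diagonal (fun i => if i = j then (O.1 j j) else 1) := by
    ext a b
    by_cases hb : b = j
    · subst hb
      by_cases ha : a = b
      · subst ha; simp
      · have h1 := HS_col {b} O hO b a (by simp) (by simpa using ha)
        have h2 : (O.1 *ᵥ ev b) a = O.1 a b := by simp [ev]
        rw [h2] at h1
        rw [h1, Matrix.diagonal_apply_ne _ ha]
    · have h1 := congrFun (hO.2 b (by simpa using hb)) a
      have h2 : (O.1 *ᵥ ev b) a = O.1 a b := by simp [ev]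
      rw [h2] at h1
      rw [h1]
      by_cases ha : a = b
      · subst ha; simp [ev, hb]
      · rw [Matrix.diagonal_apply_ne _ ha]; simp [ev, ha]
  have hdet := hO.1
  have h3 : O.1.det = O.1 j j := by
    conv_lhs => rw [hdiag]
    rw [Matrix.det_diagonal]
    simp
  rw [hdet] at h3
  apply Subtype.ext
  rw [hdiag, ← h3]
  simp


/-- second moment matrix of `hᵀ w` -/
noncomputable def mom (T : Finset ι) (w : ι → ℝ) (b c : ι) : ℝ :=
  ∫ h, (h.1ᵀ *ᵥ w) b * (h.1ᵀ *ᵥ w) c ∂(nu (HS T : Subgroup (OG ι)))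

theorem cont_tr (w : ι → ℝ) (b : ι) : Continuous (fun h : OG ι => (h.1ᵀ *ᵥ w) b) := by
  have h1 : Continuous (fun h : OG ι => h.1ᵀ *ᵥ w) :=
    Continuous.matrix_mulVec (Continuous.matrix_transpose continuous_subtype_val) continuous_const
  exact (continuous_apply b).comp h1

theorem HS_tr_eq (T : Finset ι) (h : OG ι) (hh : h ∈ HS T) (w : ι → ℝ) (b : ι) (hb : b ∉ T) :
    (h.1ᵀ *ᵥ w) b = w b := by
  have h1 : (h.1ᵀ *ᵥ w) ⬝ᵥ ev b = w ⬝ᵥ (h.1 *ᵥ ev b) := by
    rw [Matrix.mulVec_transpose, Matrix.dotProduct_mulVec]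
  rw [hh.2 b hb, dot_ev, dot_ev] at h1
  exact h1

theorem mom_symm (T : Finset ι) (w : ι → ℝ) (b c : ι) : mom T w b c = mom T w c b := by
  unfold mom; congr 1; ext h; ring

theorem rot_quarter (b c : ι) (hbc : b ≠ c) (v : ι → ℝ) :
    ((rotM c (ev b) (Real.pi/2))ᵀ *ᵥ v) c = v b ∧ ((rotM c (ev b) (Real.pi/2))ᵀ *ᵥ v) b = - v c := by
  rw [rotM_transpose]
  have h1 : rotM c (ev b) (-(Real.pi/2)) = 1 - Pm c (ev b) - Em c (ev b) := by
    unfold rotM
    rw [Real.cos_neg, Real.sin_neg, Real.cos_pi_div_two, Real.sin_pi_div_two]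
    module
  rw [h1]
  have hcb : c ≠ b := hbc.symm
  constructor
  · simp [Matrix.sub_mulVec, Pm, Em, Matrix.mulVec, vecMulVec_apply, ev, dotProduct,
      Pi.single_apply, hbc, hcb]
    simp [Matrix.one_apply, add_mul, sub_mul, Finset.sum_add_distrib, Finset.sum_sub_distrib]
  · simp [Matrix.sub_mulVec, Pm, Em, Matrix.mulVec, vecMulVec_apply, ev, dotProduct,
      Pi.single_apply, hbc, hcb]
    simp [Matrix.one_apply, add_mul, sub_mul, Finset.sum_add_distrib, Finset.sum_sub_distrib]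

theorem mom_rot (T : Finset ι) (w : ι → ℝ) (b c : ι) (hbc : b ≠ c) (hb : b ∈ T) (hc : c ∈ T) :
    mom T w b c = - mom T w c b ∧ mom T w c c = mom T w b b := by
  have hbc0 : ev b c = 0 := by simp [ev, hbc.symm]
  have hr : rot c (ev b) hbc0 (ev_dot_ev b) (Real.pi/2) ∈ HS T := by
    refine rot_mem_HS T c hc _ _ _ (fun x hx => ?_) _
    have : x ≠ b := fun h => hx (h ▸ hb)
    simp [ev, this]
  have key : ∀ h : OG ι, (h * rot c (ev b) hbc0 (ev_dot_ev b) (Real.pi/2)).1ᵀ *ᵥ w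
      = (rotM c (ev b) (Real.pi/2))ᵀ *ᵥ (h.1ᵀ *ᵥ w) := by
    intro h
    show (h.1 * rotM c (ev b) (Real.pi/2))ᵀ *ᵥ w = _
    rw [Matrix.transpose_mul, mulVec_mulVec]
  constructor
  · have := integral_mul_right (HS T) (fun h : OG ι => (h.1ᵀ *ᵥ w) b * (h.1ᵀ *ᵥ w) c)
      ((cont_tr w b).mul (cont_tr w c)) _ hr
    simp only [key] at this
    unfold mom
    rw [← this, ← integral_neg]
    congr 1
    ext h
    rw [(rot_quarter b c hbc _).1, (rot_quarter b c hbc _).2]
    ring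
  · have := integral_mul_right (HS T) (fun h : OG ι => (h.1ᵀ *ᵥ w) c * (h.1ᵀ *ᵥ w) c)
      ((cont_tr w c).mul (cont_tr w c)) _ hr
    simp only [key] at this
    unfold mom
    rw [← this]
    congr 1
    ext h
    rw [(rot_quarter b c hbc _).1]

theorem mom_offdiag (T : Finset ι) (w : ι → ℝ) (b c : ι) (hbc : b ≠ c) (hb : b ∈ T) (hc : c ∈ T) :
    mom T w b c = 0 := by
  have h1 := (mom_rot T w b c hbc hb hc).1
  rw [mom_symm T w c b] at h1
  linarith

theorem mom_out (T : Finset ι) (w : ι → ℝ) (b c : ι) (hb : b ∉ T) (hwb : w b = 0) :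
    mom T w b c = 0 := by
  unfold mom
  have : ∀ᵐ h ∂(nu (HS T : Subgroup (OG ι))), (h.1ᵀ *ᵥ w) b * (h.1ᵀ *ᵥ w) c = 0 := by
    filter_upwards [ae_mem (HS T) (isClosed_HS T)] with h hh
    rw [HS_tr_eq T h hh w b hb, hwb, zero_mul]
  rw [integral_congr_ae this, integral_zero]

theorem mom_diag (T : Finset ι) (w : ι → ℝ) (hww : w ⬝ᵥ w = 1) (hwT : ∀ b, b ∉ T → w b = 0)
    (b : ι) (hb : b ∈ T) : (T.card : ℝ) * mom T w b b = 1 := by
  have h1 : ∀ c ∈ T, mom T w c c = mom T w b b := by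
    intro c hc
    by_cases hbc : b = c
    · rw [hbc]
    · exact (mom_rot T w b c hbc hb hc).2
  have h2 : ∑ c ∈ T, mom T w c c = 1 := by
    have h3 : ∑ c ∈ T, mom T w c c = ∑ c, mom T w c c := by
      refine Finset.sum_subset (Finset.subset_univ T) (fun c _ hc => ?_)
      exact mom_out T w c c hc (hwT c hc)
    rw [h3]
    unfold mom
    rw [← integral_finsetSum]
    · have : ∀ h : OG ι, ∑ c, (h.1ᵀ *ᵥ w) c * (h.1ᵀ *ᵥ w) c = 1 := by
        intro h
        have := mulVec_dot h⁻¹ w w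
        rw [coe_inv, hww] at this
        exact this
      simp [this]
    · intro c _
      exact integrable_of_cont _ _ ((cont_tr w c).mul (cont_tr w c))
  rw [Finset.sum_congr rfl h1, Finset.sum_const, nsmul_eq_mul] at h2
  exact h2

theorem mom_quadratic (T : Finset ι) (hT : 0 < T.card) (w : ι → ℝ) (hww : w ⬝ᵥ w = 1)
    (hwT : ∀ b, b ∉ T → w b = 0) (c : ι → ℝ) :
    ∫ h, (∑ b, (h.1ᵀ *ᵥ w) b * c b) ^ 2 ∂(nu (HS T : Subgroup (OG ι)))
      = (1 / (T.card : ℝ)) * ∑ b ∈ T, c b ^ 2 := by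
  have e1 : ∀ h : OG ι, (∑ b, (h.1ᵀ *ᵥ w) b * c b) ^ 2
      = ∑ b, ∑ b', (c b * c b') * ((h.1ᵀ *ᵥ w) b * (h.1ᵀ *ᵥ w) b') := by
    intro h
    rw [sq, Finset.sum_mul_sum]
    refine Finset.sum_congr rfl (fun b _ => Finset.sum_congr rfl (fun b' _ => by ring))
  simp only [e1]
  rw [integral_finsetSum]
  swap
  · intro b _
    refine integrable_of_cont _ _ ?_
    refine continuous_finsetSum _ (fun b' _ => ?_)
    exact continuous_const.mul ((cont_tr w b).mul (cont_tr w b'))
  have e2 : ∀ b, ∫ h, (∑ b', (c b * c b') * ((h.1ᵀ *ᵥ w) b * (h.1ᵀ *ᵥ w) b'))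
      ∂(nu (HS T : Subgroup (OG ι))) = ∑ b', (c b * c b') * mom T w b b' := by
    intro b
    rw [integral_finsetSum]
    · refine Finset.sum_congr rfl (fun b' _ => ?_)
      rw [integral_const_mul]; rfl
    · intro b' _
      exact integrable_of_cont _ _ (continuous_const.mul ((cont_tr w b).mul (cont_tr w b')))
  simp only [e2]
  have hTpos : (0:ℝ) < T.card := by exact_mod_cast hT
  rw [Finset.mul_sum]
  rw [← Finset.sum_subset (Finset.subset_univ T)]
  · refine Finset.sum_congr rfl (fun b hb => ?_)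
    rw [Finset.sum_eq_single b]
    · have := mom_diag T w hww hwT b hb
      have h3 : mom T w b b = 1 / T.card := by field_simp; linarith
      rw [h3]; ring
    · intro b' _ hb'
      by_cases hbT : b' ∈ T
      · rw [mom_offdiag T w b b' (Ne.symm hb') hb hbT, mul_zero]
      · rw [mom_symm, mom_out T w b' b hbT (hwT b' hbT), mul_zero]
    · intro h; exact absurd (Finset.mem_univ b) h
  · intro b _ hb
    refine Finset.sum_eq_zero (fun b' _ => ?_)
    rw [mom_out T w b b' hb (hwT b hb), mul_zero]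

end Pool.H97.KLS
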