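import Pool.Agent.H97.KlsNice

set_option autoImplicit false
set_option linter.unusedSectionVars false
set_option linter.unusedSimpArgs false

open MeasureTheory Measure Set TopologicalSpace

namespace Pool.H97.KLSG

open Pool.Agent.H84 (CB Qop kern avg ww cE NN ZZ)

variable {E : Type*} [NormedAddCommGroup E] [InnerProductSpace ℝ E]
    [FiniteDimensional ℝ E] [MeasurableSpace E] [BorelSpace E]
variable {ι : Type*} [Fintype ι] {ν : Type*} [Fintype ν]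

/-- quadratic form of a family of vectors -/
noncomputable def qf (a : ν → E) (x : E) : ℝ := ∑ k, inner ℝ (a k) x ^ 2

/-- Gaussian weight of a family of vectors -/
noncomputable def wt (a : ν → E) (x : E) : ℝ := Real.exp (-(qf a x) / 2)

theorem qf_nonneg (a : ν → E) (x : E) : 0 ≤ qf a x := Finset.sum_nonneg fun _ _ => sq_nonneg _

theorem wt_pos (a : ν → E) (x : E) : 0 < wt a x := Real.exp_pos _

theorem wt_le_one (a : ν → E) (x : E) : wt a x ≤ 1 := by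
  unfold wt
  rw [Real.exp_le_one_iff]
  have := qf_nonneg a x
  linarith

theorem continuous_wt (a : ν → E) : Continuous (wt a) := by
  unfold wt qf
  fun_prop

/-- factorisation of the quadratic form -/
def Fac (a : ν → E) (δ : ℝ) (σ : E ≃L[ℝ] E) : Prop :=
  ∀ x, ‖σ x‖ ^ 2 = ‖x‖ ^ 2 + δ ^ 2 * qf a x

theorem exists_fac (a : ν → E) (δ : ℝ) : ∃ σ : E ≃L[ℝ] E, Fac a δ σ := by
  let B : E →ₗ[ℝ] EuclideanSpace ℝ ν :=
    { toFun := fun x => WithLp.toLp 2 (fun k => δ * inner ℝ (a k) x)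
      map_add' := fun x y => by
        ext k
        simp [inner_add_right, mul_add]
      map_smul' := fun c x => by
        ext k
        simp [inner_smul_right]; ring }
  let G : E →ₗ[ℝ] WithLp 2 (E × EuclideanSpace ℝ ν) :=
    (WithLp.linearEquiv 2 ℝ (E × EuclideanSpace ℝ ν)).symm.toLinearMap ∘ₗ
      (LinearMap.id.prod B)
  have hinj : Function.Injective G := by
    intro x y hxy
    have := congrArg (fun z => z.fst) hxy
    simpa [G] using this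
  have hfin : Module.finrank ℝ (LinearMap.range G) = Module.finrank ℝ E :=
    LinearMap.finrank_range_of_inj hinj
  let e1 : E ≃ₗ[ℝ] LinearMap.range G := LinearEquiv.ofInjective G hinj
  let e2 : LinearMap.range G ≃ₗᵢ[ℝ] E :=
    ((stdOrthonormalBasis ℝ (LinearMap.range G)).reindex (finCongr hfin)).repr.trans
      (stdOrthonormalBasis ℝ E).repr.symm
  refine ⟨(e1.trans e2.toLinearEquiv).toContinuousLinearEquiv, fun x => ?_⟩
  have h1 : ‖(e1.trans e2.toLinearEquiv).toContinuousLinearEquiv x‖ = ‖G x‖ := by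
    show ‖e2 (e1 x)‖ = _
    rw [e2.norm_map]
    rfl
  rw [h1, WithLp.prod_norm_sq_eq_of_L2, EuclideanSpace.norm_sq_eq]
  show ‖x‖ ^ 2 + ∑ k, ‖δ * inner ℝ (a k) x‖ ^ 2 = _
  congr 1
  unfold qf
  rw [Finset.mul_sum]
  refine Finset.sum_congr rfl fun k _ => ?_
  rw [Real.norm_eq_abs, sq_abs, mul_pow]

variable {K : Set E} {R δ : ℝ} {a : ν → E} {σ : E ≃L[ℝ] E}

theorem Fac.inner (hσ : Fac a δ σ) (x : E) : ‖x‖ ≤ ‖σ x‖ := by
  have h1 : ‖x‖ ^ 2 ≤ ‖σ x‖ ^ 2 := by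
    rw [hσ x]
    have := mul_nonneg (sq_nonneg δ) (qf_nonneg a x)
    linarith
  exact (pow_le_pow_iff_left₀ (norm_nonneg _) (norm_nonneg _) two_ne_zero).mp h1

theorem Fac.norm_symm_le (hσ : Fac a δ σ) : ‖(σ.symm : E →L[ℝ] E)‖ ≤ 1 := by
  refine ContinuousLinearMap.opNorm_le_bound _ zero_le_one fun z => ?_
  have := hσ.inner (σ.symm z)
  rw [σ.apply_symm_apply] at this
  simpa using this

/-- the adjoint of the inverse -/
noncomputable def La (σ : E ≃L[ℝ] E) : E →L[ℝ] E :=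
  ContinuousLinearMap.adjoint (σ.symm : E →L[ℝ] E)

theorem inner_La (x y : E) : inner ℝ (σ x) (La σ y) = inner ℝ x y := by
  unfold La
  rw [ContinuousLinearMap.adjoint_inner_right]
  simp

theorem inner_La' (x y : E) : inner ℝ x (La σ y) = inner ℝ (σ.symm x) y := by
  unfold La
  rw [ContinuousLinearMap.adjoint_inner_right]
  simp

/-- the constant in the kernel identity -/
noncomputable def kc (δ : ℝ) (σ : E ≃L[ℝ] E) (y : E) : ℝ :=
  Real.exp ((‖La σ y‖ ^ 2 - ‖y‖ ^ 2) / (2 * δ ^ 2))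

theorem kern_wt (hδ : 0 < δ) (hσ : Fac a δ σ) (x y : E) :
    wt a x * kern δ x y = kc δ σ y * kern δ (σ x) (La σ y) := by
  unfold wt kern kc
  rw [← Real.exp_add, ← Real.exp_add]
  congr 1
  rw [@norm_sub_sq_real E, @norm_sub_sq_real E, inner_La, hσ x]
  field_simp
  ring

theorem integral_image (g : E → ℝ) (hKm : MeasurableSet K) :
    ∫ z in σ '' K, g z = |(σ : E →L[ℝ] E).det| * ∫ x in K, g (σ x) := by
  rw [integral_image_eq_integral_abs_det_fderiv_smul volume hKm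
    (f := σ) (f' := fun _ => (σ : E →L[ℝ] E))
    (fun x _ => σ.hasFDerivAt.hasFDerivWithinAt) (σ.injective.injOn), ← integral_const_mul]
  rfl

theorem det_pos : 0 < |(σ : E →L[ℝ] E).det| := by
  rw [abs_pos]
  have := σ.toLinearEquiv.isUnit_det'
  exact this.ne_zero

/-- the conditional average with weight -/
noncomputable def BW (K : Set E) (δ : ℝ) (σ : E ≃L[ℝ] E) (ψ : E → ℝ) (y : E) : ℝ :=
  avg (σ '' K) δ (fun z => ψ (σ.symm z)) (La σ y)

theorem NN_eq (hδ : 0 < δ) (hKm : MeasurableSet K) (hσ : Fac a δ σ) (ψ : E → ℝ) (y : E) :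
    |(σ : E →L[ℝ] E).det| * NN K δ (fun x => ψ x * wt a x) y
      = kc δ σ y * NN (σ '' K) δ (fun z => ψ (σ.symm z)) (La σ y) := by
  unfold NN
  rw [integral_image _ hKm, mul_left_comm, ← integral_const_mul (kc δ σ y)]
  congr 1
  refine integral_congr_ae (Filter.Eventually.of_forall (fun x => ?_))
  show ψ x * wt a x * kern δ x y = kc δ σ y * (ψ (σ.symm (σ x)) * kern δ (σ x) (La σ y))
  rw [σ.symm_apply_apply, mul_assoc, kern_wt hδ hσ]
  ring

theorem BW_eq (hδ : 0 < δ) (hKm : MeasurableSet K) (hσ : Fac a δ σ)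
    (ψ : E → ℝ) (y : E) :
    BW K δ σ ψ y = NN K δ (fun x => ψ x * wt a x) y / NN K δ (wt a) y := by
  have hd := det_pos (σ := σ)
  have hc : 0 < kc δ σ y := Real.exp_pos _
  have h1 := NN_eq hδ hKm hσ ψ y
  have h2 := NN_eq hδ hKm hσ (fun _ => 1) y
  simp only [one_mul] at h2
  have e2 : (fun x => wt a x) = wt a := rfl
  rw [e2] at h2
  unfold BW avg
  rw [Pool.Agent.H84.ZZ_eq_NN]
  have e3 : NN (σ '' K) δ (fun z => ψ (σ.symm z)) (La σ y)
      = |(σ : E →L[ℝ] E).det| / kc δ σ y * NN K δ (fun x => ψ x * wt a x) y := by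
    field_simp
    linarith
  have e4 : NN (σ '' K) δ (fun _ => 1) (La σ y)
      = |(σ : E →L[ℝ] E).det| / kc δ σ y * NN K δ (wt a) y := by
    field_simp
    linarith
  rw [e3, e4, mul_div_mul_left _ _ (by positivity)]

theorem CB.image (hK : CB K R) (σ : E ≃L[ℝ] E) : CB (σ '' K) (‖(σ : E →L[ℝ] E)‖ * R) := by
  refine ⟨?_, ?_, ?_, ?_⟩
  · exact hK.conv.linear_image (σ : E →ₗ[ℝ] E)
  · exact σ.toHomeomorph.measurableEmbedding.measurableSet_image.mpr hK.meas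
  · rintro _ ⟨x, hx, rfl⟩
    rw [mem_closedBall_zero_iff]
    have h1 : ‖x‖ ≤ R := by simpa using hK.sub hx
    exact ((σ : E →L[ℝ] E).le_opNorm x).trans (mul_le_mul_of_nonneg_left h1 (norm_nonneg _))
  · rw [Measure.addHaar_image_continuousLinearEquiv]
    refine mul_ne_zero ?_ hK.vol0
    rw [ENNReal.ofReal_ne_zero_iff]
    exact det_pos

theorem bm_comp (σ : E ≃L[ℝ] E) {ψ : E → ℝ} (h : Pool.Agent.H84.BM K ψ) :
    Pool.Agent.H84.BM (σ '' K) (fun z => ψ (σ.symm z)) := by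
  obtain ⟨h1, M, hM⟩ := h
  refine ⟨h1.comp σ.symm.continuous.measurable, M, ?_⟩
  rintro _ ⟨x, hx, rfl⟩
  simpa using hM x hx

theorem nice_BW (hδ : 0 < δ) (hK : CB K R) (σ : E ≃L[ℝ] E) {ψ : E → ℝ}
    (h : Pool.Agent.H84.BM K ψ) : ∃ M L, NiceF (BW K δ σ ψ) M L := by
  obtain ⟨M, h1, h2, h3⟩ := Pool.Agent.H84.avg_props hδ (CB.image hK σ) (bm_comp σ h)
  refine ⟨M, M / δ * ‖La σ‖, ?_, fun y => h2 _, fun y => ?_⟩
  · exact h1.comp (La σ).contDiff
  · have h4 : HasFDerivAt (BW K δ σ ψ)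
        ((fderiv ℝ (avg (σ '' K) δ (fun z => ψ (σ.symm z))) (La σ y)).comp (La σ)) y :=
      ((h1.differentiable one_ne_zero _).hasFDerivAt).comp y (La σ).hasFDerivAt
    rw [h4.fderiv]
    exact (ContinuousLinearMap.opNorm_comp_le _ _).trans
      (mul_le_mul_of_nonneg_right (h3 _) (norm_nonneg _))

theorem fderiv_BW (hδ : 0 < δ) (hK : CB K R) (σ : E ≃L[ℝ] E) {ψ : E → ℝ}
    (h : Pool.Agent.H84.BM K ψ) (y v : E) :
    fderiv ℝ (BW K δ σ ψ) y v
      = fderiv ℝ (avg (σ '' K) δ (fun z => ψ (σ.symm z))) (La σ y) (La σ v) := by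
  obtain ⟨M, h1, h2, h3⟩ := Pool.Agent.H84.avg_props hδ (CB.image hK σ) (bm_comp σ h)
  have h4 : HasFDerivAt (BW K δ σ ψ)
      ((fderiv ℝ (avg (σ '' K) δ (fun z => ψ (σ.symm z))) (La σ y)).comp (La σ)) y :=
    ((h1.differentiable one_ne_zero _).hasFDerivAt).comp y (La σ).hasFDerivAt
  rw [h4.fderiv]
  rfl

/-- the anisotropic norm of the gradient of `BW` -/
theorem grad_BW_eq (hδ : 0 < δ) (hK : CB K R) (hσ : Fac a δ σ) {ψ : E → ℝ}
    (h : Pool.Agent.H84.BM K ψ) (y : E) :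
    ‖fderiv ℝ (BW K δ σ ψ) y‖ ^ 2 + δ ^ 2 * ∑ k, (fderiv ℝ (BW K δ σ ψ) y (a k)) ^ 2
      = ‖fderiv ℝ (avg (σ '' K) δ (fun z => ψ (σ.symm z))) (La σ y)‖ ^ 2 := by
  set g := (InnerProductSpace.toDual ℝ E).symm (fderiv ℝ (BW K δ σ ψ) y) with hg
  set G := (InnerProductSpace.toDual ℝ E).symm
    (fderiv ℝ (avg (σ '' K) δ (fun z => ψ (σ.symm z))) (La σ y)) with hG
  have hgn : ‖g‖ = ‖fderiv ℝ (BW K δ σ ψ) y‖ := LinearIsometryEquiv.norm_map _ _
  have hGn : ‖G‖ = ‖fderiv ℝ (avg (σ '' K) δ (fun z => ψ (σ.symm z))) (La σ y)‖ :=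
    LinearIsometryEquiv.norm_map _ _
  have hgv : ∀ v, inner ℝ g v = fderiv ℝ (BW K δ σ ψ) y v := by
    intro v; rw [hg, InnerProductSpace.toDual_symm_apply]
  have hGv : ∀ v, inner ℝ G v
      = fderiv ℝ (avg (σ '' K) δ (fun z => ψ (σ.symm z))) (La σ y) v := by
    intro v; rw [hG, InnerProductSpace.toDual_symm_apply]
  have hgG : g = σ.symm G := by
    refine ext_inner_right ℝ fun v => ?_
    rw [hgv, fderiv_BW hδ hK σ h, ← hGv, inner_La']
  have h1 : σ g = G := by rw [hgG, σ.apply_symm_apply]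
  rw [← hgn, ← hGn, ← h1, hσ g]
  congr 2
  unfold qf
  refine Finset.sum_congr rfl fun k _ => ?_
  rw [← hgv, real_inner_comm]

/-- the dual energy density -/
noncomputable def en (σ : E ≃L[ℝ] E) (ψ : E → ℝ) (x : E) : ℝ :=
  ‖(fderiv ℝ ψ x).comp (σ.symm : E →L[ℝ] E)‖ ^ 2

theorem en_nonneg (ψ : E → ℝ) (x : E) : 0 ≤ en σ ψ x := sq_nonneg _

theorem en_le (hσ : Fac a δ σ) (ψ : E → ℝ) (x : E) : en σ ψ x ≤ ‖fderiv ℝ ψ x‖ ^ 2 := by
  unfold en
  refine pow_le_pow_left₀ (norm_nonneg _) ?_ 2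
  refine (ContinuousLinearMap.opNorm_comp_le _ _).trans ?_
  calc _ ≤ ‖fderiv ℝ ψ x‖ * 1 := mul_le_mul_of_nonneg_left hσ.norm_symm_le (norm_nonneg _)
    _ = _ := mul_one _

theorem le_en (ψ : E → ℝ) (x : E) :
    ‖fderiv ℝ ψ x‖ ^ 2 ≤ ‖(σ : E →L[ℝ] E)‖ ^ 2 * en σ ψ x := by
  unfold en
  rw [← mul_pow]
  refine pow_le_pow_left₀ (norm_nonneg _) ?_ 2
  have h1 : fderiv ℝ ψ x = ((fderiv ℝ ψ x).comp (σ.symm : E →L[ℝ] E)).comp (σ : E →L[ℝ] E) := by
    ext v; simp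
  calc ‖fderiv ℝ ψ x‖
      = ‖((fderiv ℝ ψ x).comp (σ.symm : E →L[ℝ] E)).comp (σ : E →L[ℝ] E)‖ := by rw [← h1]
    _ ≤ _ := ContinuousLinearMap.opNorm_comp_le _ _
    _ = _ := mul_comm _ _

theorem continuous_en {ψ : E → ℝ} (hψ : ContDiff ℝ 1 ψ) : Continuous (en σ ψ) := by
  unfold en
  have := hψ.continuous_fderiv one_ne_zero
  exact ((this.clm_comp continuous_const).norm).pow 2

theorem fderiv_comp_symm {ψ : E → ℝ} (hψ : ContDiff ℝ 1 ψ) (z : E) :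
    ‖fderiv ℝ (fun z => ψ (σ.symm z)) z‖ ^ 2 = en σ ψ (σ.symm z) := by
  have h4 : HasFDerivAt (fun z => ψ (σ.symm z))
      ((fderiv ℝ ψ (σ.symm z)).comp (σ.symm : E →L[ℝ] E)) z :=
    ((hψ.differentiable one_ne_zero _).hasFDerivAt).comp z σ.symm.hasFDerivAt
  rw [h4.fderiv]
  rfl

/-- anisotropic gradient contraction -/
theorem grad_BW_le (hδ : 0 < δ) (hK : CB K R) (hσ : Fac a δ σ) {ψ : E → ℝ}
    (hψ : ContDiff ℝ 1 ψ) (y : E) :
    ‖fderiv ℝ (BW K δ σ ψ) y‖ ^ 2 + δ ^ 2 * ∑ k, (fderiv ℝ (BW K δ σ ψ) y (a k)) ^ 2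
      ≤ BW K δ σ (en σ ψ) y := by
  have h : Pool.Agent.H84.BM K ψ := hK.bm_of_cont hψ.continuous
  rw [grad_BW_eq hδ hK hσ h]
  have hK' := CB.image hK σ
  have hψ' : ContDiff ℝ 1 (fun z => ψ (σ.symm z)) := hψ.comp σ.symm.contDiff
  have h1 := Pool.Agent.H84.norm_fderiv_avg_sq_le hδ hK'.conv hK'.meas hK'.sub hK'.vol0 hψ'
    (La σ y)
  rw [Pool.Agent.H84.integral_PP hδ hK'.meas hK'.vol0] at h1
  simp only [fderiv_comp_symm hψ] at h1
  exact h1

/-- conditional Poincaré inequality with weight -/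
theorem var_BW_le (hδ : 0 < δ) (hK : CB K R) {ψ : E → ℝ}
    (hψ : ContDiff ℝ 1 ψ) (y : E) :
    BW K δ σ (fun x => ψ x ^ 2) y - (BW K δ σ ψ y) ^ 2 ≤ δ ^ 2 * BW K δ σ (en σ ψ) y := by
  have hK' := CB.image hK σ
  have hψ' : ContDiff ℝ 1 (fun z => ψ (σ.symm z)) := hψ.comp σ.symm.contDiff
  have h1 := Pool.Agent.H84.PP_poincare hδ hK'.conv hK'.meas
    (Metric.isBounded_closedBall.subset hK'.sub) hK'.vol0 (La σ y) hψ'
  rw [Pool.Agent.H84.integral_PP hδ hK'.meas hK'.vol0,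
    Pool.Agent.H84.integral_PP hδ hK'.meas hK'.vol0,
    Pool.Agent.H84.integral_PP hδ hK'.meas hK'.vol0] at h1
  simp only [fderiv_comp_symm hψ] at h1
  exact h1

end Pool.H97.KLSG
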