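import Mathlib

set_option autoImplicit false

open Finset

namespace Pool.Agent.H97.LTCore

/-- Lattice points. -/
abbrev Pt := ℤ × ℤ

/-- `LT G V E`: the finite graph with vertex set `V` and edge set `E` is obtained from a single
vertex by repeatedly attaching a new vertex (a leaf) along an edge of `G`. -/
inductive LT (G : SimpleGraph Pt) : Finset Pt → Finset (Sym2 Pt) → Prop
  | single (v : Pt) : LT G {v} ∅
  | leaf {V : Finset Pt} {E : Finset (Sym2 Pt)} {u w : Pt} :
      LT G V E → u ∈ V → w ∉ V → G.Adj u w → LT G (insert w V) (insert s(u, w) E)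

/-- Rooted version. -/
inductive LTr (G : SimpleGraph Pt) (r : Pt) : Finset Pt → Finset (Sym2 Pt) → Prop
  | single : LTr G r {r} ∅
  | leaf {V : Finset Pt} {E : Finset (Sym2 Pt)} {u w : Pt} :
      LTr G r V E → u ∈ V → w ∉ V → G.Adj u w → LTr G r (insert w V) (insert s(u, w) E)

variable {G : SimpleGraph Pt}

lemma LTr.toLT {r : Pt} {V : Finset Pt} {E : Finset (Sym2 Pt)} (h : LTr G r V E) : LT G V E := by
  induction h with
  | single => exact LT.single r
  | leaf _ hu hw hadj ih => exact LT.leaf ih hu hw hadj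

lemma LT.nonempty {V : Finset Pt} {E : Finset (Sym2 Pt)} (h : LT G V E) : V.Nonempty := by
  cases h with
  | single v => exact ⟨v, by simp⟩
  | leaf _ _ _ _ => exact ⟨_, mem_insert_self _ _⟩

lemma LT.edge {V : Finset Pt} {E : Finset (Sym2 Pt)} (h : LT G V E) :
    ∀ a b : Pt, s(a, b) ∈ E → a ∈ V ∧ b ∈ V ∧ G.Adj a b := by
  induction h with
  | single v => intro a b h; simp at h
  | leaf h0 hu hw hadj ih =>
    intro a b h
    rw [mem_insert] at h
    rcases h with h | h
    · rw [Sym2.eq_iff] at h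
      rcases h with ⟨rfl, rfl⟩ | ⟨rfl, rfl⟩
      · exact ⟨mem_insert_of_mem hu, mem_insert_self _ _, hadj⟩
      · exact ⟨mem_insert_self _ _, mem_insert_of_mem hu, hadj.symm⟩
    · obtain ⟨h1, h2, h3⟩ := ih a b h
      exact ⟨mem_insert_of_mem h1, mem_insert_of_mem h2, h3⟩

lemma LT.card {V : Finset Pt} {E : Finset (Sym2 Pt)} (h : LT G V E) : E.card + 1 = V.card := by
  induction h with
  | single v => simp
  | @leaf V E u w h0 hu hw hadj ih =>
    have : s(u, w) ∉ E := fun hh => hw (h0.edge u w hh).2.1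
    rw [card_insert_of_notMem hw, card_insert_of_notMem this, ih]

lemma LTr.root_mem {r : Pt} {V : Finset Pt} {E : Finset (Sym2 Pt)} (h : LTr G r V E) : r ∈ V := by
  induction h with
  | single => simp
  | leaf _ _ _ _ ih => exact mem_insert_of_mem ih

/-- add a new root adjacent to the old one -/
lemma LTr.newRoot {u w : Pt} {V : Finset Pt} {E : Finset (Sym2 Pt)} (h : LTr G u V E)
    (hw : w ∉ V) (hadj : G.Adj u w) : LTr G w (insert w V) (insert s(u, w) E) := by
  induction h with
  | single =>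
    have h1 : LTr G w (insert u {w}) (insert s(w, u) ∅) :=
      LTr.leaf LTr.single (by simp) (by simp [hadj.ne]) hadj.symm
    have h2 : (insert w {u} : Finset Pt) = insert u {w} := by
      ext x; simp [or_comm]
    rw [h2, Sym2.eq_swap]
    exact h1
  | @leaf V E u' w' h0 hu' hw' hadj' ih =>
    have hwV : w ∉ V := fun h => hw (mem_insert_of_mem h)
    have hne : w' ≠ w := fun h => hw (h ▸ mem_insert_self _ _)
    have h1 := ih hwV
    have h2 : LTr G w (insert w' (insert w V)) (insert s(u', w') (insert s(u, w) E)) :=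
      LTr.leaf h1 (mem_insert_of_mem hu')
        (by rw [mem_insert]; rintro (h | h); exacts [hne h, hw' h]) hadj'
    rw [Finset.insert_comm, Finset.insert_comm s(u, w)]
    exact h2

lemma LTr.reroot {r : Pt} {V : Finset Pt} {E : Finset (Sym2 Pt)} (h : LTr G r V E) :
    ∀ s ∈ V, LTr G s V E := by
  induction h with
  | single => intro s hs; rw [mem_singleton] at hs; subst hs; exact LTr.single
  | @leaf V E u w h0 hu hw hadj ih =>
    intro s hs
    rw [mem_insert] at hs
    rcases hs with rfl | hs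
    · exact (ih u hu).newRoot hw hadj
    · exact LTr.leaf (ih s hs) hu hw hadj

lemma LT.toLTr {V : Finset Pt} {E : Finset (Sym2 Pt)} (h : LT G V E) : ∀ r ∈ V, LTr G r V E := by
  have : ∃ r, LTr G r V E := by
    induction h with
    | single v => exact ⟨v, LTr.single⟩
    | leaf _ hu hw hadj ih => obtain ⟨r, hr⟩ := ih; exact ⟨r, LTr.leaf hr hu hw hadj⟩
  obtain ⟨r, hr⟩ := this
  exact hr.reroot

/-- Joining two disjoint trees by an edge. -/
lemma LT.join {V₁ V₂ : Finset Pt} {E₁ E₂ : Finset (Sym2 Pt)} {u v : Pt}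
    (h₁ : LT G V₁ E₁) (h₂ : LT G V₂ E₂) (hd : Disjoint V₁ V₂) (hu : u ∈ V₁) (hv : v ∈ V₂)
    (hadj : G.Adj u v) : LT G (V₁ ∪ V₂) (insert s(u, v) (E₁ ∪ E₂)) := by
  have h₂' := h₂.toLTr v hv
  clear h₂ hv
  induction h₂' with
  | single =>
    have h := LT.leaf h₁ hu (Finset.disjoint_singleton_right.mp hd) hadj
    have e1 : V₁ ∪ {v} = insert v V₁ := by ext x; simp [or_comm]
    rw [e1, union_empty]
    exact h
  | @leaf V E u' w' h0 hu' hw' hadj' ih =>
    have hd' : Disjoint V₁ V := hd.mono_right (subset_insert _ _)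
    have h1 := ih hd'
    have hw1 : w' ∉ V₁ := fun h => (Finset.disjoint_left.mp hd) h (mem_insert_self _ _)
    have h2 := LT.leaf h1 (u := u') (w := w') (mem_union_right _ hu')
      (by rw [mem_union]; rintro (h | h); exacts [hw1 h, hw' h]) hadj'
    have e1 : V₁ ∪ insert w' V = insert w' (V₁ ∪ V) := by
      ext x; simp only [mem_union, mem_insert]; tauto
    have e2 : insert s(u, v) (E₁ ∪ insert s(u', w') E) =
        insert s(u', w') (insert s(u, v) (E₁ ∪ E)) := by
      ext x; simp only [mem_union, mem_insert]; tauto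
    rw [e1, e2]
    exact h2

/-- Removing an edge splits a tree into two trees. -/
lemma LT.split {V : Finset Pt} {E : Finset (Sym2 Pt)} (h : LT G V E) :
    ∀ u v : Pt, s(u, v) ∈ E → ∃ V₁ V₂ : Finset Pt, ∃ E₁ E₂ : Finset (Sym2 Pt),
      LT G V₁ E₁ ∧ LT G V₂ E₂ ∧ Disjoint V₁ V₂ ∧ u ∈ V₁ ∧ v ∈ V₂ ∧
      V = V₁ ∪ V₂ ∧ E = insert s(u, v) (E₁ ∪ E₂) := by
  induction h with
  | single v => intro a b h; simp at h
  | @leaf V E u' w' h0 hu' hw' hadj' ih =>
    intro a b hab
    rw [mem_insert] at hab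
    rcases hab with hab | hab
    · rw [Sym2.eq_iff] at hab
      rcases hab with ⟨rfl, rfl⟩ | ⟨rfl, rfl⟩
      · refine ⟨V, {b}, E, ∅, h0, LT.single _, by simpa using hw', hu', by simp, ?_, ?_⟩
        · ext x; simp [or_comm]
        · simp
      · refine ⟨{a}, V, ∅, E, LT.single _, h0, by simpa using hw', by simp, hu', ?_, ?_⟩
        · ext x; simp
        · simp [Sym2.eq_swap]
    · obtain ⟨V₁, V₂, E₁, E₂, h1, h2, hd, ha, hb, hV, hE⟩ := ih a b hab
      have hu'' : u' ∈ V₁ ∪ V₂ := hV ▸ hu'
      have hw1 : w' ∉ V₁ := fun h => hw' (hV ▸ mem_union_left _ h)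
      have hw2 : w' ∉ V₂ := fun h => hw' (hV ▸ mem_union_right _ h)
      rw [mem_union] at hu''
      rcases hu'' with hu'' | hu''
      · refine ⟨insert w' V₁, V₂, insert s(u', w') E₁, E₂, LT.leaf h1 hu'' hw1 hadj', h2, ?_,
          mem_insert_of_mem ha, hb, ?_, ?_⟩
        · rw [disjoint_insert_left]; exact ⟨hw2, hd⟩
        · rw [hV]; ext x; simp only [mem_union, mem_insert]; tauto
        · rw [hE]; ext x; simp only [mem_union, mem_insert]; tauto
      · refine ⟨V₁, insert w' V₂, E₁, insert s(u', w') E₂, h1, LT.leaf h2 hu'' hw2 hadj', ?_,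
          ha, mem_insert_of_mem hb, ?_, ?_⟩
        · rw [disjoint_insert_right]; exact ⟨hw1, hd⟩
        · rw [hV]; ext x; simp only [mem_union, mem_insert]; tauto
        · rw [hE]; ext x; simp only [mem_union, mem_insert]; tauto

/-- A set of points not crossed by any edge of the tree contains all or none of its vertices. -/
lemma LT.closed {V : Finset Pt} {E : Finset (Sym2 Pt)} (h : LT G V E) (S : Set Pt) :
    (∀ a b : Pt, s(a, b) ∈ E → (a ∈ S ↔ b ∈ S)) → ∀ a ∈ V, ∀ b ∈ V, (a ∈ S ↔ b ∈ S) := by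
  induction h with
  | single v => intro _ a ha b hb; rw [mem_singleton] at ha hb; rw [ha, hb]
  | @leaf V E u w h0 hu hw hadj ih =>
    intro hS a ha b hb
    have ih' := ih (fun a b hab => hS a b (mem_insert_of_mem hab))
    have huw := hS u w (mem_insert_self _ _)
    rw [mem_insert] at ha hb
    rcases ha with rfl | ha <;> rcases hb with rfl | hb
    · rfl
    · rw [← huw]; exact ih' u hu b hb
    · rw [← huw]; exact ih' a ha u hu
    · exact ih' a ha b hb

/-- Uniqueness of the splitting at a given (oriented) edge. -/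
lemma LT.split_unique {V₁ V₂ V₁' V₂' : Finset Pt} {E₁ E₂ E₁' E₂' : Finset (Sym2 Pt)} {u v : Pt}
    (h₁ : LT G V₁ E₁) (h₂ : LT G V₂ E₂) (hd : Disjoint V₁ V₂) (hu : u ∈ V₁) (hv : v ∈ V₂)
    (h₁' : LT G V₁' E₁') (h₂' : LT G V₂' E₂') (hd' : Disjoint V₁' V₂') (hu' : u ∈ V₁')
    (hv' : v ∈ V₂')
    (hE : insert s(u, v) (E₁ ∪ E₂) = insert s(u, v) (E₁' ∪ E₂')) :
    V₁ = V₁' ∧ V₂ = V₂' ∧ E₁ = E₁' ∧ E₂ = E₂' := by
  have key : ∀ {V₁ V₂ V₁' V₂' : Finset Pt} {E₁ E₂ E₁' E₂' : Finset (Sym2 Pt)} {u v : Pt},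
      LT G V₁ E₁ → LT G V₂ E₂ → Disjoint V₁ V₂ → u ∈ V₁ → v ∈ V₂ →
      LT G V₁' E₁' → LT G V₂' E₂' → Disjoint V₁' V₂' → u ∈ V₁' → v ∈ V₂' →
      insert s(u, v) (E₁ ∪ E₂) = insert s(u, v) (E₁' ∪ E₂') → V₁ ⊆ V₁' ∧ V₂ ⊆ V₂' := by
    intro V₁ V₂ V₁' V₂' E₁ E₂ E₁' E₂' u v h₁ h₂ hd hu hv h₁' h₂' hd' hu' hv' hE
    constructor
    · intro x hx
      have := h₁.closed (V₁' : Set Pt) ?_ u hu x hx
      · exact_mod_cast this.mp (by exact_mod_cast hu')
      · intro a b hab
        have hab' : s(a, b) ∈ insert s(u, v) (E₁' ∪ E₂') := by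
          rw [← hE]; exact mem_insert_of_mem (mem_union_left _ hab)
        rw [mem_insert, mem_union] at hab'
        rcases hab' with h | h | h
        · exfalso
          have h3 := h₁.edge a b hab
          rw [Sym2.eq_iff] at h
          rcases h with ⟨rfl, rfl⟩ | ⟨rfl, rfl⟩
          · exact (Finset.disjoint_left.mp hd) h3.2.1 hv
          · exact (Finset.disjoint_left.mp hd) h3.1 hv
        · have h3 := h₁'.edge a b h
          exact iff_of_true (by exact_mod_cast h3.1) (by exact_mod_cast h3.2.1)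
        · have h3 := h₂'.edge a b h
          exact iff_of_false
            (fun hh => (Finset.disjoint_left.mp hd') (by exact_mod_cast hh) h3.1)
            (fun hh => (Finset.disjoint_left.mp hd') (by exact_mod_cast hh) h3.2.1)
    · intro x hx
      have := h₂.closed (V₂' : Set Pt) ?_ v hv x hx
      · exact_mod_cast this.mp (by exact_mod_cast hv')
      · intro a b hab
        have hab' : s(a, b) ∈ insert s(u, v) (E₁' ∪ E₂') := by
          rw [← hE]; exact mem_insert_of_mem (mem_union_right _ hab)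
        rw [mem_insert, mem_union] at hab'
        rcases hab' with h | h | h
        · exfalso
          have h3 := h₂.edge a b hab
          rw [Sym2.eq_iff] at h
          rcases h with ⟨rfl, rfl⟩ | ⟨rfl, rfl⟩
          · exact (Finset.disjoint_left.mp hd) hu h3.1
          · exact (Finset.disjoint_left.mp hd) hu h3.2.1
        · have h3 := h₁'.edge a b h
          exact iff_of_false
            (fun hh => (Finset.disjoint_left.mp hd') h3.1 (by exact_mod_cast hh))
            (fun hh => (Finset.disjoint_left.mp hd') h3.2.1 (by exact_mod_cast hh))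
        · have h3 := h₂'.edge a b h
          exact iff_of_true (by exact_mod_cast h3.1) (by exact_mod_cast h3.2.1)
  obtain ⟨s1, s2⟩ := key h₁ h₂ hd hu hv h₁' h₂' hd' hu' hv' hE
  obtain ⟨s3, s4⟩ := key h₁' h₂' hd' hu' hv' h₁ h₂ hd hu hv hE.symm
  have e1 : V₁ = V₁' := Subset.antisymm s1 s3
  have e2 : V₂ = V₂' := Subset.antisymm s2 s4
  subst e1 e2
  -- edges
  have keyE : ∀ {E₁ E₂ E₁' E₂' : Finset (Sym2 Pt)},
      LT G V₁ E₁ → LT G V₂ E₂ → LT G V₁ E₁' → LT G V₂ E₂' →
      insert s(u, v) (E₁ ∪ E₂) = insert s(u, v) (E₁' ∪ E₂') → E₁ ⊆ E₁' ∧ E₂ ⊆ E₂' := by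
    intro E₁ E₂ E₁' E₂' h₁ h₂ h₁' h₂' hE
    constructor
    · intro e
      induction e using Sym2.ind with
      | _ a b =>
        intro hab
        have hab' : s(a, b) ∈ insert s(u, v) (E₁' ∪ E₂') := by
          rw [← hE]; exact mem_insert_of_mem (mem_union_left _ hab)
        have h3 := h₁.edge a b hab
        rw [mem_insert, mem_union] at hab'
        rcases hab' with h | h | h
        · exfalso
          rw [Sym2.eq_iff] at h
          rcases h with ⟨rfl, rfl⟩ | ⟨rfl, rfl⟩
          · exact (Finset.disjoint_left.mp hd) h3.2.1 hv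
          · exact (Finset.disjoint_left.mp hd) h3.1 hv
        · exact h
        · exact absurd (h₂'.edge a b h).1 ((Finset.disjoint_left.mp hd) h3.1)
    · intro e
      induction e using Sym2.ind with
      | _ a b =>
        intro hab
        have hab' : s(a, b) ∈ insert s(u, v) (E₁' ∪ E₂') := by
          rw [← hE]; exact mem_insert_of_mem (mem_union_right _ hab)
        have h3 := h₂.edge a b hab
        rw [mem_insert, mem_union] at hab'
        rcases hab' with h | h | h
        · exfalso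
          rw [Sym2.eq_iff] at h
          rcases h with ⟨rfl, rfl⟩ | ⟨rfl, rfl⟩
          · exact (Finset.disjoint_left.mp hd) hu h3.1
          · exact (Finset.disjoint_left.mp hd) hu h3.2.1
        · exact absurd h3.1 ((Finset.disjoint_left.mp hd) (h₁'.edge a b h).1)
        · exact h
  obtain ⟨t1, t2⟩ := keyE h₁ h₂ h₁' h₂' hE
  obtain ⟨t3, t4⟩ := keyE h₁' h₂' h₁ h₂ hE.symm
  exact ⟨rfl, rfl, Subset.antisymm t1 t3, Subset.antisymm t2 t4⟩

/-- The number of edges inside a set `U` is at most the number of vertices in `U`. -/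
lemma LT.edges_inside {V : Finset Pt} {E : Finset (Sym2 Pt)} (h : LT G V E) (U : Pt → Prop)
    [DecidablePred U] [DecidablePred fun e : Sym2 Pt => ∀ x ∈ e, U x] :
    (E.filter (fun e => ∀ x ∈ e, U x)).card ≤ (V.filter U).card := by
  classical
  induction h with
  | single v => simp
  | @leaf V E u w h0 hu hw hadj ih =>
    rw [filter_insert, filter_insert]
    by_cases hwU : U w
    · rw [if_pos hwU]
      have h1 : (insert w (V.filter U)).card = (V.filter U).card + 1 :=
        card_insert_of_notMem (by simp [hw])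
      rw [h1]
      split_ifs with h2
      · exact (card_insert_le _ _).trans (by omega)
      · omega
    · rw [if_neg hwU, if_neg (fun h => hwU (h w (by simp)))]
      exact ih

end Pool.Agent.H97.LTCore
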