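import Mathlib
import Pool.Agent.H97.LTCore

set_option autoImplicit false

open Finset

namespace Pool.Agent.H97.LTCore

/-- The properties of the lattices we use (square and triangular lattice in integer
coordinates). -/
structure Lat (G : SimpleGraph Pt) : Prop where
  trans : ∀ p q t : Pt, G.Adj p q → G.Adj (p + t) (q + t)
  dx : ∀ p q : Pt, G.Adj p q → |q.1 - p.1| ≤ 1
  dy : ∀ p q : Pt, G.Adj p q → |q.2 - p.2| ≤ 1
  up : ∀ p : Pt, G.Adj p (p + (0, 1))
  swap : ∀ p q : Pt, G.Adj p q → G.Adj p.swap q.swap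

/-- Translate of a set of points. -/
def shiftV (t : Pt) (V : Finset Pt) : Finset Pt := V.image (· + t)

/-- Translate of a set of edges. -/
def shiftE (t : Pt) (E : Finset (Sym2 Pt)) : Finset (Sym2 Pt) := E.image (Sym2.map (· + t))

lemma mem_shiftV {t p : Pt} {V : Finset Pt} : p ∈ shiftV t V ↔ p - t ∈ V := by
  unfold shiftV
  rw [mem_image]
  constructor
  · rintro ⟨a, ha, rfl⟩; simpa using ha
  · intro h; exact ⟨p - t, h, by simp⟩

lemma add_mem_shiftV {t p : Pt} {V : Finset Pt} (h : p ∈ V) : p + t ∈ shiftV t V := by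
  rw [mem_shiftV]; simpa using h

lemma mem_shiftE {t a b : Pt} {E : Finset (Sym2 Pt)} :
    s(a, b) ∈ shiftE t E ↔ s(a - t, b - t) ∈ E := by
  unfold shiftE
  rw [mem_image]
  constructor
  · rintro ⟨e, he, h⟩
    induction e using Sym2.ind with
    | _ x y =>
      rw [Sym2.map_mk, Sym2.eq_iff] at h
      rcases h with ⟨h1, h2⟩ | ⟨h1, h2⟩
      · rw [← h1, ← h2]; simpa using he
      · rw [← h1, ← h2, Sym2.eq_swap]; simpa using he
  · intro h; exact ⟨s(a - t, b - t), h, by simp⟩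

lemma shiftV_shiftV (s t : Pt) (V : Finset Pt) : shiftV s (shiftV t V) = shiftV (t + s) V := by
  ext p; rw [mem_shiftV, mem_shiftV, mem_shiftV, sub_sub, add_comm]

lemma shiftE_shiftE (s t : Pt) (E : Finset (Sym2 Pt)) :
    shiftE s (shiftE t E) = shiftE (t + s) E := by
  ext e
  induction e using Sym2.ind with
  | _ x y => rw [mem_shiftE, mem_shiftE, mem_shiftE, sub_sub, sub_sub, add_comm]

lemma shiftV_zero (V : Finset Pt) : shiftV 0 V = V := by
  ext p; rw [mem_shiftV, sub_zero]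

lemma shiftE_zero (E : Finset (Sym2 Pt)) : shiftE 0 E = E := by
  ext e
  induction e using Sym2.ind with
  | _ x y => rw [mem_shiftE, sub_zero, sub_zero]

lemma card_shiftV (t : Pt) (V : Finset Pt) : (shiftV t V).card = V.card :=
  card_image_of_injective _ (add_left_injective t)

lemma shiftV_union (t : Pt) (V W : Finset Pt) :
    shiftV t (V ∪ W) = shiftV t V ∪ shiftV t W := image_union _ _

lemma shiftE_union (t : Pt) (V W : Finset (Sym2 Pt)) :
    shiftE t (V ∪ W) = shiftE t V ∪ shiftE t W := image_union _ _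

lemma shiftE_insert (t u v : Pt) (E : Finset (Sym2 Pt)) :
    shiftE t (insert s(u, v) E) = insert s(u + t, v + t) (shiftE t E) := by
  unfold shiftE; rw [image_insert]; simp

lemma shiftV_insert (t u : Pt) (V : Finset Pt) :
    shiftV t (insert u V) = insert (u + t) (shiftV t V) := by
  unfold shiftV; rw [image_insert]

variable {G : SimpleGraph Pt}

lemma LT.shift (hG : Lat G) (t : Pt) {V : Finset Pt} {E : Finset (Sym2 Pt)} (h : LT G V E) :
    LT G (shiftV t V) (shiftE t E) := by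
  induction h with
  | single v =>
    have : shiftV t {v} = {v + t} := by unfold shiftV; simp
    rw [this]
    have : shiftE t ∅ = ∅ := by unfold shiftE; simp
    rw [this]
    exact LT.single _
  | @leaf V E u w h0 hu hw hadj ih =>
    rw [shiftV_insert, shiftE_insert]
    refine LT.leaf ih (add_mem_shiftV hu) ?_ (hG.trans _ _ _ hadj)
    rw [mem_shiftV]; simpa using hw

lemma LT.col (hG : Lat G) {V : Finset Pt} {E : Finset (Sym2 Pt)} (h : LT G V E) {a b : Pt}
    (ha : a ∈ V) (hb : b ∈ V) {c : ℤ} (h1 : a.1 ≤ c) (h2 : c ≤ b.1) : ∃ p ∈ V, p.1 = c := by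
  by_contra hcon
  push Not at hcon
  have hcl := h.closed {p | p.1 < c} ?_ a ha b hb
  · have ha' : a.1 < c := lt_of_le_of_ne h1 (hcon a ha)
    have := hcl.mp ha'
    simp only [Set.mem_ofPred_eq] at this
    omega
  · intro x y hxy
    obtain ⟨hx, hy, hadj⟩ := h.edge x y hxy
    have h3 := abs_le.mp (hG.dx x y hadj)
    have h4 := hcon x hx
    have h5 := hcon y hy
    simp only [Set.mem_ofPred_eq]
    omega

lemma LT.row (hG : Lat G) {V : Finset Pt} {E : Finset (Sym2 Pt)} (h : LT G V E) {a b : Pt}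
    (ha : a ∈ V) (hb : b ∈ V) {c : ℤ} (h1 : a.2 ≤ c) (h2 : c ≤ b.2) : ∃ p ∈ V, p.2 = c := by
  by_contra hcon
  push Not at hcon
  have hcl := h.closed {p | p.2 < c} ?_ a ha b hb
  · have ha' : a.2 < c := lt_of_le_of_ne h1 (hcon a ha)
    have := hcl.mp ha'
    simp only [Set.mem_ofPred_eq] at this
    omega
  · intro x y hxy
    obtain ⟨hx, hy, hadj⟩ := h.edge x y hxy
    have h3 := abs_le.mp (hG.dy x y hadj)
    have h4 := hcon x hx
    have h5 := hcon y hy
    simp only [Set.mem_ofPred_eq]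
    omega

lemma LT.width_lt (hG : Lat G) {V : Finset Pt} {E : Finset (Sym2 Pt)} (h : LT G V E) {a b : Pt}
    (ha : a ∈ V) (hb : b ∈ V) : b.1 - a.1 < V.card := by
  have hsub : Finset.Icc a.1 b.1 ⊆ V.image Prod.fst := by
    intro c hc
    rw [mem_Icc] at hc
    obtain ⟨p, hp, hpc⟩ := h.col hG ha hb hc.1 hc.2
    exact mem_image.mpr ⟨p, hp, hpc⟩
  have h1 := (card_le_card hsub).trans card_image_le
  rw [Int.card_Icc] at h1
  omega

lemma LT.height_lt (hG : Lat G) {V : Finset Pt} {E : Finset (Sym2 Pt)} (h : LT G V E) {a b : Pt}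
    (ha : a ∈ V) (hb : b ∈ V) : b.2 - a.2 < V.card := by
  have hsub : Finset.Icc a.2 b.2 ⊆ V.image Prod.snd := by
    intro c hc
    rw [mem_Icc] at hc
    obtain ⟨p, hp, hpc⟩ := h.row hG ha hb hc.1 hc.2
    exact mem_image.mpr ⟨p, hp, hpc⟩
  have h1 := (card_le_card hsub).trans card_image_le
  rw [Int.card_Icc] at h1
  omega

/-- `(0,0)` is the lexicographically smallest point of `V`. -/
def Norm (V : Finset Pt) : Prop :=
  ((0, 0) : Pt) ∈ V ∧ ∀ v ∈ V, 0 ≤ v.1 ∧ (v.1 = 0 → 0 ≤ v.2)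

lemma exists_norm {V : Finset Pt} (hV : V.Nonempty) : ∃ t ∈ V, Norm (shiftV (-t) V) := by
  obtain ⟨a, ha, ha'⟩ := exists_min_image V Prod.fst hV
  obtain ⟨t, ht, ht'⟩ := exists_min_image (V.filter (fun p => p.1 = a.1)) Prod.snd
    ⟨a, by simp [ha]⟩
  rw [mem_filter] at ht
  refine ⟨t, ht.1, ?_, ?_⟩
  · rw [mem_shiftV]
    have h0 : ((0, 0) : Pt) - -t = t := by ext <;> simp
    rw [h0]; exact ht.1
  · intro v hv
    rw [mem_shiftV] at hv
    have h1 := ha' _ hv
    simp only [sub_neg_eq_add, Prod.fst_add] at h1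
    refine ⟨by omega, fun h0 => ?_⟩
    have h2 := ht' (v - -t) (by rw [mem_filter]; refine ⟨hv, ?_⟩; simp; omega)
    simp only [sub_neg_eq_add, Prod.snd_add] at h2
    omega

lemma norm_unique {V : Finset Pt} {t : Pt} (h1 : Norm V) (h2 : Norm (shiftV t V)) : t = 0 := by
  have h3 := h2.2 _ (add_mem_shiftV h1.1)
  have h4 : (0, 0) - t ∈ V := mem_shiftV.mp h2.1
  have h5 := h1.2 _ h4
  simp only [Prod.fst_sub, Prod.snd_sub, Prod.fst_add, Prod.snd_add] at h3 h5
  ext
  · simp; omega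
  · have : t.1 = 0 := by omega
    have h6 := h3.2 (by omega)
    have h7 := h5.2 (by omega)
    simp; omega

/-- Trees, as pairs of a vertex set and an edge set. -/
abbrev Tr := Finset Pt × Finset (Sym2 Pt)

/-- Translate of a tree. -/
def sh (t : Pt) (T : Tr) : Tr := (shiftV t T.1, shiftE t T.2)

lemma sh_sh (s t : Pt) (T : Tr) : sh s (sh t T) = sh (t + s) T := by
  unfold sh; rw [shiftV_shiftV, shiftE_shiftE]

lemma sh_zero (T : Tr) : sh 0 T = T := by
  unfold sh; rw [shiftV_zero, shiftE_zero]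

/-- If two translates of a tree are normalized they are equal. -/
lemma sh_norm_unique {s t : Pt} {S T : Tr} (hS : Norm S.1) (hT : Norm T.1)
    (h : sh s S = sh t T) : s = t ∧ S = T := by
  have h1 : sh (s - t) S = T := by
    have := congrArg (sh (-t)) h
    rw [sh_sh, sh_sh] at this
    simpa [sh_zero, sub_eq_add_neg] using this
  have h2 : s - t = 0 := by
    apply norm_unique hS
    have : T.1 = shiftV (s - t) S.1 := by rw [← h1]; rfl
    rw [← this]; exact hT
  refine ⟨sub_eq_zero.mp h2, ?_⟩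
  rw [h2, sh_zero] at h1
  exact h1

/-- Normalized trees with `n` vertices. -/
def NT (G : SimpleGraph Pt) (n : ℕ) : Set Tr :=
  {T | LT G T.1 T.2 ∧ T.1.card = n ∧ Norm T.1}

lemma NT_finite (hG : Lat G) (n : ℕ) : (NT G n).Finite := by
  set box : Finset Pt := Finset.Icc (-n : ℤ) n ×ˢ Finset.Icc (-n : ℤ) n with hbox
  refine Set.Finite.subset (Finset.finite_toSet (box.powerset ×ˢ (box.sym2).powerset)) ?_
  rintro ⟨V, E⟩ ⟨h, hc, hN⟩
  simp only at h hc hN
  have hV : V ⊆ box := by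
    intro v hv
    have h1 := h.width_lt hG hN.1 hv
    have h2 := h.width_lt hG hv hN.1
    have h3 := h.height_lt hG hN.1 hv
    have h4 := h.height_lt hG hv hN.1
    rw [hbox, mem_product, mem_Icc, mem_Icc]
    simp only at h1 h2 h3 h4
    omega
  simp only [coe_product, Set.mem_prod, mem_coe, mem_powerset]
  refine ⟨hV, ?_⟩
  intro e he
  induction e using Sym2.ind with
  | _ a b =>
    have := h.edge a b he
    rw [Finset.mk_mem_sym2_iff]
    exact ⟨hV this.1, hV this.2.1⟩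

noncomputable def NTf (hG : Lat G) (n : ℕ) : Finset Tr := (NT_finite hG n).toFinset

lemma mem_NTf {hG : Lat G} {n : ℕ} {T : Tr} :
    T ∈ NTf hG n ↔ LT G T.1 T.2 ∧ T.1.card = n ∧ Norm T.1 := by
  unfold NTf; rw [Set.Finite.mem_toFinset]; rfl

open Classical in
/-- Normalized trees with `n` vertices and width at least `w`. -/
noncomputable def Wf (hG : Lat G) (n w : ℕ) : Finset Tr :=
  (NTf hG n).filter (fun T => ∃ v ∈ T.1, (w : ℤ) ≤ v.1)

lemma mem_Wf {hG : Lat G} {n w : ℕ} {T : Tr} :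
    T ∈ Wf hG n w ↔ (LT G T.1 T.2 ∧ T.1.card = n ∧ Norm T.1) ∧ ∃ v ∈ T.1, (w : ℤ) ≤ v.1 := by
  unfold Wf; rw [mem_filter, mem_NTf]

/-- Existence of the stacking of `B` on `A` at horizontal offset `o`. -/
lemma exists_stack (hG : Lat G) {A B : Tr} {w o : ℕ} (hA : LT G A.1 A.2) (hAn : Norm A.1)
    (hAw : ∃ v ∈ A.1, (w : ℤ) ≤ v.1) (hB : LT G B.1 B.2) (hBn : Norm B.1) (ho : o ≤ w) :
    ∃ (y : ℤ) (p : Pt), Disjoint A.1 (sh (o, y) B).1 ∧ p ∈ A.1 ∧
      p + (0, 1) ∈ (sh (o, y) B).1 ∧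
      Norm (A.1 ∪ (sh (o, y) B).1) := by
  classical
  obtain ⟨v, hv, hvw⟩ := hAw
  obtain ⟨q, hq, hqo⟩ := hA.col hG hAn.1 hv (c := (o : ℤ)) (by simp) (by omega)
  -- the set of shifts which produce an intersection
  set D : Finset ℤ := (A.1 ×ˢ B.1).image (fun z => z.1.2 - z.2.2) with hD
  set D' : Finset ℤ := D.filter (fun y => ¬ Disjoint A.1 (sh (o, y) B).1) with hD'
  have hmemD : ∀ y : ℤ, ¬ Disjoint A.1 (sh (o, y) B).1 → y ∈ D' := by
    intro y hy
    rw [hD', mem_filter]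
    refine ⟨?_, hy⟩
    rw [Finset.not_disjoint_iff] at hy
    obtain ⟨a, ha, hab⟩ := hy
    have hab' : a - ((o : ℤ), y) ∈ B.1 := mem_shiftV.mp hab
    rw [hD, mem_image]
    refine ⟨(a, a - ((o : ℤ), y)), mem_product.mpr ⟨ha, hab'⟩, ?_⟩
    simp
  have hne : D'.Nonempty := by
    refine ⟨q.2, hmemD _ ?_⟩
    rw [Finset.not_disjoint_iff]
    refine ⟨q, hq, ?_⟩
    show q ∈ shiftV _ _
    rw [mem_shiftV]
    have : q - ((o : ℤ), q.2) = (0, 0) := by ext <;> simp [hqo]
    rw [this]; exact hBn.1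
  set y₀ := D'.max' hne with hy₀
  have hlast : ∀ y : ℤ, y₀ < y → Disjoint A.1 (sh (o, y) B).1 := by
    intro y hy
    by_contra hcon
    have := D'.le_max' y (hmemD y hcon)
    omega
  have hy₀mem : ¬ Disjoint A.1 (sh (o, y₀) B).1 := by
    have := D'.max'_mem hne
    rw [← hy₀, hD', mem_filter] at this
    exact this.2
  rw [Finset.not_disjoint_iff] at hy₀mem
  obtain ⟨p, hpA, hpB⟩ := hy₀mem
  have hpB' : p - ((o : ℤ), y₀) ∈ B.1 := mem_shiftV.mp hpB
  refine ⟨y₀ + 1, p, hlast _ (by omega), hpA, ?_, ?_, ?_⟩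
  · show p + (0, 1) ∈ shiftV _ _
    rw [mem_shiftV]
    have : p + (0, 1) - ((o : ℤ), y₀ + 1) = p - ((o : ℤ), y₀) := by
      ext <;> simp
    rw [this]; exact hpB'
  · exact mem_union_left _ hAn.1
  · intro b hb
    rw [mem_union] at hb
    rcases hb with hb | hb
    · exact hAn.2 b hb
    · have hb' : b - ((o : ℤ), y₀ + 1) ∈ B.1 := mem_shiftV.mp hb
      have h1 := hBn.2 _ hb'
      simp only [Prod.fst_sub, Prod.snd_sub] at h1
      refine ⟨by omega, fun h0 => ?_⟩
      -- `b` is in column `0`; if it were below `(0,0)` it would cross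
      by_contra hneg
      push Not at hneg
      have hd := hlast (y₀ + 1 + (0 - b.2)) (by omega)
      refine (Finset.disjoint_left.mp hd) hAn.1 ?_
      show ((0, 0) : Pt) ∈ shiftV _ _
      rw [mem_shiftV]
      have : ((0, 0) : Pt) - ((o : ℤ), y₀ + 1 + (0 - b.2)) = b - ((o : ℤ), y₀ + 1) := by
        ext
        · simp; omega
        · simp; ring
      rw [this]; exact hb'

/-- The key counting inequality: stacking a tree on a tree of width at least `w`. -/
lemma stack_count (hG : Lat G) (n w : ℕ) :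
    (w + 1) * ∑ m ∈ range (n + 1), (Wf hG (n - m) w).card * (NTf hG m).card ≤
      n * (Wf hG n w).card := by
  classical
  -- source set
  set X : Finset (Σ _ : ℕ, (Tr × Tr) × ℕ) :=
    (range (n + 1)).sigma (fun m => (Wf hG (n - m) w ×ˢ NTf hG m) ×ˢ range (w + 1)) with hX
  have hXcard : X.card =
      (w + 1) * ∑ m ∈ range (n + 1), (Wf hG (n - m) w).card * (NTf hG m).card := by
    rw [hX, card_sigma, mul_sum]
    refine sum_congr rfl fun m _ => ?_
    rw [card_product, card_product, card_range]; ring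
  set Y : Finset (Σ _ : Tr, Pt) := (Wf hG n w).sigma (fun T => T.1) with hY
  have hYcard : Y.card = n * (Wf hG n w).card := by
    rw [hY, card_sigma, mul_comm, ← smul_eq_mul, ← sum_const]
    refine sum_congr rfl fun T hT => ?_
    exact (mem_Wf.mp hT).1.2.1
  rw [← hXcard, ← hYcard]
  -- choice of the stacking
  have hch : ∀ x : Σ _ : ℕ, (Tr × Tr) × ℕ, ∃ yp : ℤ × Pt, x ∈ X →
      Disjoint x.2.1.1.1 (sh (x.2.2, yp.1) x.2.1.2).1 ∧ yp.2 ∈ x.2.1.1.1 ∧
      yp.2 + (0, 1) ∈ (sh (x.2.2, yp.1) x.2.1.2).1 ∧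
      Norm (x.2.1.1.1 ∪ (sh (x.2.2, yp.1) x.2.1.2).1) := by
    intro x
    by_cases hx : x ∈ X
    · have hx' := hx
      rw [hX, mem_sigma, mem_product, mem_product, mem_range, mem_range] at hx'
      obtain ⟨_, ⟨hA, hB⟩, ho⟩ := hx'
      rw [mem_Wf] at hA
      rw [mem_NTf] at hB
      obtain ⟨y, p, h⟩ := exists_stack hG hA.1.1 hA.1.2.2 hA.2 hB.1 hB.2.2
        (o := x.2.2) (by omega)
      exact ⟨(y, p), fun _ => h⟩
    · exact ⟨(0, (0, 0)), fun h => absurd h hx⟩
  choose f hf using hch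
  refine card_le_card_of_injOn
    (fun x => ⟨(x.2.1.1.1 ∪ (sh (x.2.2, (f x).1) x.2.1.2).1,
      insert s((f x).2, (f x).2 + (0, 1)) (x.2.1.1.2 ∪ (sh (x.2.2, (f x).1) x.2.1.2).2)),
      (f x).2⟩) ?_ ?_
  · intro x hx
    have hx0 : x ∈ X := by exact_mod_cast hx
    obtain ⟨h1, h2, h3, h4⟩ := hf x hx0
    have hx' := hx0
    rw [hX, mem_sigma, mem_product, mem_product, mem_range, mem_range] at hx'
    obtain ⟨hm, ⟨hA, hB⟩, ho⟩ := hx'
    rw [mem_Wf] at hA
    rw [mem_NTf] at hB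
    simp only [hY, coe_sigma, Set.mem_sigma_iff, mem_coe, mem_Wf]
    refine ⟨⟨⟨?_, ?_, h4⟩, ?_⟩, mem_union_left _ h2⟩
    · exact LT.join hA.1.1 (hB.1.shift hG _) h1 h2 h3 (hG.up _)
    · rw [card_union_of_disjoint h1, hA.1.2.1]
      show _ + (shiftV _ _).card = n
      rw [card_shiftV, hB.2.1]
      omega
    · obtain ⟨v, hv, hvw⟩ := hA.2
      exact ⟨v, mem_union_left _ hv, hvw⟩
  · intro x hx x' hx' heq
    have hx0 : x ∈ X := by exact_mod_cast hx
    have hx0' : x' ∈ X := by exact_mod_cast hx'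
    obtain ⟨h1, h2, h3, _⟩ := hf x hx0
    obtain ⟨h1', h2', h3', _⟩ := hf x' hx0'
    have hm := hx0
    rw [hX, mem_sigma, mem_product, mem_product, mem_range, mem_range] at hm
    obtain ⟨hm, ⟨hA, hB⟩, ho⟩ := hm
    have hm' := hx0'
    rw [hX, mem_sigma, mem_product, mem_product, mem_range, mem_range] at hm'
    obtain ⟨hm', ⟨hA', hB'⟩, ho'⟩ := hm'
    rw [mem_Wf] at hA hA'
    rw [mem_NTf] at hB hB'
    simp only [Sigma.mk.injEq, Prod.mk.injEq, heq_eq_eq] at heq
    obtain ⟨⟨_, he⟩, hp⟩ := heq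
    rw [← hp] at he h2' h3'
    obtain ⟨e1, e2, e3, e4⟩ := LT.split_unique hA.1.1 (hB.1.shift hG _) h1 h2 h3
      hA'.1.1 (hB'.1.shift hG _) h1' h2' h3' he
    have hshift : sh (x.2.2, (f x).1) x.2.1.2 = sh (x'.2.2, (f x').1) x'.2.1.2 := by
      unfold sh; rw [e2, e4]
    obtain ⟨hs1, hs2⟩ := sh_norm_unique hB.2.2 hB'.2.2 hshift
    have hAeq : x.2.1.1 = x'.2.1.1 := Prod.ext e1 e3
    have hoeq : x.2.2 = x'.2.2 := by
      have := congrArg Prod.fst hs1
      simpa using this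
    have hmeq : x.1 = x'.1 := by
      rw [← hB.2.1, ← hB'.2.1, hs2]
    obtain ⟨m, ⟨A, B⟩, o⟩ := x
    obtain ⟨m', ⟨A', B'⟩, o'⟩ := x'
    simp only at hAeq hs2 hoeq hmeq
    subst hAeq hs2 hoeq hmeq
    rfl

end Pool.Agent.H97.LTCore
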