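import Mathlib
import Pool.Agent.H97.LTCount

set_option autoImplicit false

open Finset

namespace Pool.Agent.H97.LTCore

variable {G : SimpleGraph Pt}

open Classical in
/-- The vertices in the columns `k` and `k + 1`. -/
noncomputable def cols (k : ℤ) (V : Finset Pt) : Finset Pt :=
  V.filter (fun p => p.1 = k ∨ p.1 = k + 1)

/-- The edge crosses from column `k` to column `k + 1`. -/
def Cross (k : ℤ) (e : Sym2 Pt) : Prop := ∃ a b : Pt, e = s(a, b) ∧ a.1 = k ∧ b.1 = k + 1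

open Classical in
/-- The crossing edges. -/
noncomputable def cr (k : ℤ) (E : Finset (Sym2 Pt)) : Finset (Sym2 Pt) := E.filter (Cross k)

lemma mem_cols {k : ℤ} {V : Finset Pt} {p : Pt} :
    p ∈ cols k V ↔ p ∈ V ∧ (p.1 = k ∨ p.1 = k + 1) := by
  unfold cols; rw [mem_filter]

lemma mem_cr {k : ℤ} {E : Finset (Sym2 Pt)} {e : Sym2 Pt} :
    e ∈ cr k E ↔ e ∈ E ∧ Cross k e := by
  classical
  simp only [cr, mem_filter]

lemma cross_mk {k : ℤ} {a b : Pt} :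
    Cross k s(a, b) ↔ (a.1 = k ∧ b.1 = k + 1) ∨ (a.1 = k + 1 ∧ b.1 = k) := by
  unfold Cross
  constructor
  · rintro ⟨x, y, hxy, hx, hy⟩
    rw [Sym2.eq_iff] at hxy
    rcases hxy with ⟨rfl, rfl⟩ | ⟨rfl, rfl⟩
    · exact Or.inl ⟨hx, hy⟩
    · exact Or.inr ⟨hy, hx⟩
  · rintro (⟨h1, h2⟩ | ⟨h1, h2⟩)
    · exact ⟨a, b, rfl, h1, h2⟩
    · exact ⟨b, a, Sym2.eq_swap, h2, h1⟩

lemma LT.cr_card_le {V : Finset Pt} {E : Finset (Sym2 Pt)} (h : LT G V E) (k : ℤ) :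
    (cr k E).card ≤ (cols k V).card := by
  classical
  have h1 := h.edges_inside (fun p => p.1 = k ∨ p.1 = k + 1)
  refine le_trans (card_le_card ?_) (le_trans h1 (le_of_eq ?_))
  · intro e he
    rw [mem_cr] at he
    rw [mem_filter]
    refine ⟨he.1, ?_⟩
    obtain ⟨a, b, rfl, ha, hb⟩ := he.2
    intro x hx
    rw [Sym2.mem_iff] at hx
    rcases hx with rfl | rfl
    · exact Or.inl ha
    · exact Or.inr hb
  · unfold cols; congr

/-- Without crossing edges a tree lies on one side of the cut. -/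
lemma LT.one_side (hG : Lat G) {V : Finset Pt} {E : Finset (Sym2 Pt)} (h : LT G V E) {k : ℤ}
    (hcr : cr k E = ∅) : ∀ a ∈ V, ∀ b ∈ V, (a.1 ≤ k ↔ b.1 ≤ k) := by
  have := h.closed {p | p.1 ≤ k} ?_
  · intro a ha b hb
    have h1 := this a ha b hb
    simpa only [Set.mem_ofPred_eq] using h1
  · intro a b hab
    obtain ⟨_, _, hadj⟩ := h.edge a b hab
    have h3 := abs_le.mp (hG.dx a b hadj)
    have h4 : ¬ Cross k s(a, b) := by
      intro hc
      have : s(a, b) ∈ cr k E := mem_cr.mpr ⟨hab, hc⟩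
      rw [hcr] at this; simp at this
    rw [cross_mk] at h4
    simp only [Set.mem_ofPred_eq]
    omega

/-- Peeling off a piece which has no crossing edge and does not contain `z`. -/
lemma LT.peel {V : Finset Pt} {E : Finset (Sym2 Pt)} (h : LT G V E) {z : Pt} (hz : z ∈ V)
    {k : ℤ} (hcr : (cr k E).Nonempty) :
    ∃ A B : Finset Pt, ∃ EA EB : Finset (Sym2 Pt), ∃ u v : Pt,
      LT G A EA ∧ LT G B EB ∧ Disjoint A B ∧ u ∈ A ∧ v ∈ B ∧ z ∈ A ∧ V = A ∪ B ∧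
      E = insert s(u, v) (EA ∪ EB) ∧ Cross k s(u, v) ∧ cr k EB = ∅ := by
  have main : ∀ n : ℕ, ∀ A B : Finset Pt, ∀ EA EB : Finset (Sym2 Pt), ∀ u v : Pt,
      B.card = n → LT G A EA → LT G B EB → Disjoint A B → u ∈ A → v ∈ B → z ∈ A → V = A ∪ B →
      E = insert s(u, v) (EA ∪ EB) → Cross k s(u, v) →
      ∃ A B : Finset Pt, ∃ EA EB : Finset (Sym2 Pt), ∃ u v : Pt,
      LT G A EA ∧ LT G B EB ∧ Disjoint A B ∧ u ∈ A ∧ v ∈ B ∧ z ∈ A ∧ V = A ∪ B ∧
      E = insert s(u, v) (EA ∪ EB) ∧ Cross k s(u, v) ∧ cr k EB = ∅ := by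
    intro n
    induction n using Nat.strong_induction_on with
    | _ n ih =>
      intro A B EA EB u v hn hA hB hd hu hv hzA hV hE hcross
      by_cases hempty : cr k EB = ∅
      · exact ⟨A, B, EA, EB, u, v, hA, hB, hd, hu, hv, hzA, hV, hE, hcross, hempty⟩
      · obtain ⟨e, he⟩ := nonempty_iff_ne_empty.mpr hempty
        rw [mem_cr] at he
        obtain ⟨heE, hec⟩ := he
        have key : ∀ a b : Pt, s(a, b) ∈ EB → Cross k s(a, b) →
            ∀ (V₁ V₂ : Finset Pt) (E₁ E₂ : Finset (Sym2 Pt)), LT G V₁ E₁ → LT G V₂ E₂ →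
            Disjoint V₁ V₂ → a ∈ V₁ → b ∈ V₂ → B = V₁ ∪ V₂ → EB = insert s(a, b) (E₁ ∪ E₂) →
            v ∈ V₁ →
            ∃ A B : Finset Pt, ∃ EA EB : Finset (Sym2 Pt), ∃ u v : Pt,
            LT G A EA ∧ LT G B EB ∧ Disjoint A B ∧ u ∈ A ∧ v ∈ B ∧ z ∈ A ∧ V = A ∪ B ∧
            E = insert s(u, v) (EA ∪ EB) ∧ Cross k s(u, v) ∧ cr k EB = ∅ := by
          intro a b hab habc V₁ V₂ E₁ E₂ h1 h2 hd12 ha hb hB12 hEB hv1
          have hdA1 : Disjoint A V₁ := hd.mono_right (by rw [hB12]; exact subset_union_left)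
          have hdA2 : Disjoint A V₂ := hd.mono_right (by rw [hB12]; exact subset_union_right)
          have hadj : G.Adj u v := (h.edge u v (by rw [hE]; exact mem_insert_self _ _)).2.2
          have hA' := LT.join hA h1 hdA1 hu hv1 hadj
          refine ih V₂.card ?_ (A ∪ V₁) V₂ (insert s(u, v) (EA ∪ E₁)) E₂ a b rfl hA' h2 ?_
            (mem_union_right _ ha) hb (mem_union_left _ hzA) ?_ ?_ habc
          · rw [← hn, hB12, card_union_of_disjoint hd12]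
            have := card_pos.mpr h1.nonempty
            omega
          · rw [disjoint_union_left]; exact ⟨hdA2, hd12⟩
          · rw [hV, hB12, union_assoc]
          · rw [hE, hEB]
            ext x; simp only [mem_union, mem_insert]; tauto
        induction e using Sym2.ind with
        | _ a b =>
          obtain ⟨V₁, V₂, E₁, E₂, h1, h2, hd12, ha, hb, hB12, hEB⟩ := hB.split a b heE
          have hv' : v ∈ V₁ ∪ V₂ := hB12 ▸ hv
          rw [mem_union] at hv'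
          rcases hv' with hv' | hv'
          · exact key a b heE hec V₁ V₂ E₁ E₂ h1 h2 hd12 ha hb hB12 hEB hv'
          · refine key b a (by rw [Sym2.eq_swap]; exact heE) (by rw [Sym2.eq_swap]; exact hec)
              V₂ V₁ E₂ E₁ h2 h1 hd12.symm hb ha (by rw [hB12, union_comm]) ?_ hv'
            rw [hEB, union_comm, Sym2.eq_swap]
  obtain ⟨e, he⟩ := hcr
  rw [mem_cr] at he
  obtain ⟨heE, hec⟩ := he
  induction e using Sym2.ind with
  | _ a b =>
    obtain ⟨V₁, V₂, E₁, E₂, h1, h2, hd12, ha, hb, hV12, hE12⟩ := h.split a b heE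
    have hz' : z ∈ V₁ ∪ V₂ := hV12 ▸ hz
    rw [mem_union] at hz'
    rcases hz' with hz' | hz'
    · exact main _ V₁ V₂ E₁ E₂ a b rfl h1 h2 hd12 ha hb hz' hV12 hE12 hec
    · refine main _ V₂ V₁ E₂ E₁ b a rfl h2 h1 hd12.symm hb ha hz' ?_ ?_ ?_
      · rw [hV12, union_comm]
      · rw [hE12, union_comm, Sym2.eq_swap]
      · rw [Sym2.eq_swap]; exact hec

lemma card_cols_shift (k : ℤ) (t : Pt) (V : Finset Pt) :
    (cols (k + t.1) (shiftV t V)).card = (cols k V).card := by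
  have : cols (k + t.1) (shiftV t V) = shiftV t (cols k V) := by
    ext p
    rw [mem_cols, mem_shiftV, mem_shiftV, mem_cols]
    simp only [Prod.fst_sub]
    constructor
    · rintro ⟨h1, h2⟩; exact ⟨h1, by omega⟩
    · rintro ⟨h1, h2⟩; exact ⟨h1, by omega⟩
  rw [this, card_shiftV]

lemma card_cr_shift (k : ℤ) (t : Pt) (E : Finset (Sym2 Pt)) :
    (cr (k + t.1) (shiftE t E)).card = (cr k E).card := by
  have : cr (k + t.1) (shiftE t E) = shiftE t (cr k E) := by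
    ext e
    induction e using Sym2.ind with
    | _ a b =>
      rw [mem_cr, mem_shiftE, mem_shiftE, mem_cr, cross_mk, cross_mk]
      simp only [Prod.fst_sub]
      constructor
      · rintro ⟨h1, h2⟩; exact ⟨h1, by omega⟩
      · rintro ⟨h1, h2⟩; exact ⟨h1, by omega⟩
  rw [this]
  exact card_image_of_injective _ (Sym2.map.injective (add_left_injective t))

open Classical in
/-- Trees of width at least `w` (and more), marked with `r` cut columns. -/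
noncomputable def Mf (hG : Lat G) (K w r n : ℕ) : Finset (Tr × Finset ℤ) :=
  ((NTf hG n) ×ˢ (Finset.Icc (0 : ℤ) n).powersetCard r).filter
    (fun x => (∀ k' ∈ x.2, (cols k' x.1.1).card ≤ K) ∧
      ∃ z ∈ x.1.1, (w : ℤ) ≤ z.1 ∧ ∀ k' ∈ x.2, k' + 1 + w ≤ z.1)

open Classical in
/-- Trees with a current cut column `k` with `j` crossing edges and `r` further cut columns. -/
noncomputable def Nf (hG : Lat G) (K w r j n : ℕ) : Finset (Tr × ℤ × Finset ℤ) :=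
  ((NTf hG n) ×ˢ (Finset.Icc (-1 : ℤ) n) ×ˢ (Finset.Icc (0 : ℤ) n).powersetCard r).filter
    (fun x => (cr x.2.1 x.1.2).card = j ∧ (cols x.2.1 x.1.1).card ≤ K ∧
      (∀ k' ∈ x.2.2, x.2.1 < k' ∧ (cols k' x.1.1).card ≤ K) ∧
      (∃ z ∈ x.1.1, x.2.1 + 1 + w ≤ z.1 ∧ ∀ k' ∈ x.2.2, k' + 1 + w ≤ z.1) ∧
      (∃ v ∈ x.1.1, v.1 = x.2.1 ∨ v.1 = x.2.1 + 1))

lemma mem_Mf {hG : Lat G} {K w r n : ℕ} {T : Tr} {κ : Finset ℤ} :
    (T, κ) ∈ Mf hG K w r n ↔ (T ∈ NTf hG n ∧ (κ ⊆ Finset.Icc (0 : ℤ) n ∧ κ.card = r)) ∧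
      (∀ k' ∈ κ, (cols k' T.1).card ≤ K) ∧
      ∃ z ∈ T.1, (w : ℤ) ≤ z.1 ∧ ∀ k' ∈ κ, k' + 1 + w ≤ z.1 := by
  unfold Mf; rw [mem_filter, mem_product, mem_powersetCard]

lemma mem_Nf {hG : Lat G} {K w r j n : ℕ} {T : Tr} {k : ℤ} {κ : Finset ℤ} :
    (T, k, κ) ∈ Nf hG K w r j n ↔
      (T ∈ NTf hG n ∧ k ∈ Finset.Icc (-1 : ℤ) n ∧ (κ ⊆ Finset.Icc (0 : ℤ) n ∧ κ.card = r)) ∧
      (cr k T.2).card = j ∧ (cols k T.1).card ≤ K ∧
      (∀ k' ∈ κ, k < k' ∧ (cols k' T.1).card ≤ K) ∧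
      (∃ z ∈ T.1, k + 1 + w ≤ z.1 ∧ ∀ k' ∈ κ, k' + 1 + w ≤ z.1) ∧
      (∃ v ∈ T.1, v.1 = k ∨ v.1 = k + 1) := by
  unfold Nf; rw [mem_filter, mem_product, mem_product, mem_powersetCard]

lemma Mf_zero (hG : Lat G) (K w n : ℕ) : (Mf hG K w 0 n).card ≤ (Wf hG n w).card := by
  refine card_le_card_of_injOn (fun x => x.1) ?_ ?_
  · rintro ⟨T, κ⟩ hx
    have hx' : (T, κ) ∈ Mf hG K w 0 n := by exact_mod_cast hx
    rw [mem_Mf] at hx'
    obtain ⟨⟨hT, _⟩, _, z, hz, hzw, _⟩ := hx'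
    rw [mem_NTf] at hT
    simp only [mem_coe, mem_Wf]
    exact ⟨hT, z, hz, hzw⟩
  · rintro ⟨T, κ⟩ hx ⟨T', κ'⟩ hx' h
    have hx1 : (T, κ) ∈ Mf hG K w 0 n := by exact_mod_cast hx
    have hx2 : (T', κ') ∈ Mf hG K w 0 n := by exact_mod_cast hx'
    rw [mem_Mf] at hx1 hx2
    have h1 := card_eq_zero.mp hx1.1.2.2
    have h2 := card_eq_zero.mp hx2.1.2.2
    simp only at h
    rw [h, h1, h2]

lemma Nf_zero (hG : Lat G) (K w r n : ℕ) :
    (Nf hG K w r 0 n).card ≤ (Mf hG K w r n).card := by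
  have hk : ∀ T k κ, (T, k, κ) ∈ Nf hG K w r 0 n → k = -1 := by
    intro T k κ hx
    rw [mem_Nf] at hx
    obtain ⟨⟨hT, _⟩, hcr, _, _, ⟨z, hz, hzw, _⟩, v, hv, hvk⟩ := hx
    rw [mem_NTf] at hT
    have hside := hT.1.one_side hG (card_eq_zero.mp hcr)
    have h1 := hside z hz _ hT.2.2.1
    have h2 := hside z hz v hv
    have h3 := (hT.2.2.2 v hv).1
    simp only at h1
    omega
  refine card_le_card_of_injOn (fun x => (x.1, x.2.2)) ?_ ?_
  · rintro ⟨T, k, κ⟩ hx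
    have hx' : (T, k, κ) ∈ Nf hG K w r 0 n := by exact_mod_cast hx
    have hk' := hk T k κ hx'
    rw [mem_Nf] at hx'
    obtain ⟨⟨hT, _, hκ⟩, _, _, h2, ⟨z, hz, hzw, hzk⟩, _⟩ := hx'
    simp only [mem_coe, mem_Mf]
    exact ⟨⟨hT, hκ⟩, fun k' hk'' => (h2 k' hk'').2, z, hz, by omega, hzk⟩
  · rintro ⟨T, k, κ⟩ hx ⟨T', k', κ'⟩ hx' h
    have h1 := hk T k κ (by exact_mod_cast hx)
    have h2 := hk T' k' κ' (by exact_mod_cast hx')
    simp only [Prod.mk.injEq] at h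
    obtain ⟨rfl, rfl⟩ := h
    rw [h1, h2]

lemma Mf_succ (hG : Lat G) (K w r n : ℕ) :
    (Mf hG K w (r + 1) n).card ≤ ∑ j ∈ range (K + 1), (Nf hG K w r j n).card := by
  classical
  have hne : ∀ T κ, (T, κ) ∈ Mf hG K w (r + 1) n → κ.Nonempty := by
    intro T κ hx
    rw [mem_Mf] at hx
    exact card_pos.mp (by omega)
  rw [← card_sigma]
  refine card_le_card_of_injOn
    (fun x => if h : x.2.Nonempty then
      (⟨(cr (x.2.min' h) x.1.2).card, (x.1, x.2.min' h, x.2.erase (x.2.min' h))⟩ :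
        Σ _ : ℕ, Tr × ℤ × Finset ℤ) else ⟨0, (x.1, 0, ∅)⟩) ?_ ?_
  · rintro ⟨T, κ⟩ hx
    have hx' : (T, κ) ∈ Mf hG K w (r + 1) n := by exact_mod_cast hx
    have hκne := hne T κ hx'
    rw [mem_Mf] at hx'
    obtain ⟨⟨hT, hκ, hκc⟩, hcols, z, hz, hzw, hzk⟩ := hx'
    have hmem := κ.min'_mem hκne
    simp only [dif_pos hκne, coe_sigma, Set.mem_sigma_iff, mem_coe, mem_range]
    have hT' := mem_NTf.mp hT
    refine ⟨?_, ?_⟩
    · exact Nat.lt_succ_of_le ((hT'.1.cr_card_le _).trans (hcols _ hmem))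
    · rw [mem_Nf]
      have hmin := hκ hmem
      rw [Finset.mem_Icc] at hmin
      refine ⟨⟨hT, ?_, ?_, ?_⟩, rfl, hcols _ hmem, ?_, ?_, ?_⟩
      · rw [Finset.mem_Icc]; omega
      · exact (erase_subset _ _).trans hκ
      · rw [card_erase_of_mem hmem, hκc]; rfl
      · intro k' hk'
        rw [mem_erase] at hk'
        exact ⟨lt_of_le_of_ne (κ.min'_le _ hk'.2) (Ne.symm hk'.1), hcols _ hk'.2⟩
      · exact ⟨z, hz, hzk _ hmem, fun k' hk' => hzk _ (mem_of_mem_erase hk')⟩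
      · have h1 := hzk _ hmem
        obtain ⟨v, hv, hvk⟩ := hT'.1.col hG hT'.2.2.1 hz (c := κ.min' hκne) (by simpa using hmin.1)
          (by omega)
        exact ⟨v, hv, Or.inl hvk⟩
  · rintro ⟨T, κ⟩ hx ⟨T', κ'⟩ hx' h
    have hκ := hne T κ (by exact_mod_cast hx)
    have hκ' := hne T' κ' (by exact_mod_cast hx')
    simp only [dif_pos hκ, dif_pos hκ', Sigma.mk.injEq, heq_eq_eq, Prod.mk.injEq] at h
    obtain ⟨_, h1, h2, h3⟩ := h
    rw [h1]
    have e1 := insert_erase (κ.min'_mem hκ)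
    have e2 := insert_erase (κ'.min'_mem hκ')
    rw [← e1, ← e2, h3, h2]

end Pool.Agent.H97.LTCore
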