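import Mathlib
import Pool.Agent.H97.LTCut

set_option autoImplicit false

open Finset

namespace Pool.Agent.H97.LTCore

variable {G : SimpleGraph Pt}

open Classical in
/-- The leftmost column of a piece if the flag is true, the rightmost one otherwise. -/
noncomputable def ext0 (b : Prop) (B : Finset Pt) : Finset Pt :=
  B.filter (fun v => ∀ p ∈ B, (b → v.1 ≤ p.1) ∧ (¬ b → p.1 ≤ v.1))

lemma mem_ext0 {b : Prop} {B : Finset Pt} {v : Pt} :
    v ∈ ext0 b B ↔ v ∈ B ∧ ∀ p ∈ B, (b → v.1 ≤ p.1) ∧ (¬ b → p.1 ≤ v.1) := by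
  classical
  simp only [ext0, mem_filter]

open Classical in
/-- The extreme column of a piece, provided it has at most `K` vertices. -/
noncomputable def ext (K : ℕ) (b : Prop) (B : Finset Pt) : Finset Pt :=
  if (ext0 b B).card ≤ K then ext0 b B else ∅

lemma ext_card (K : ℕ) (b : Prop) (B : Finset Pt) : (ext K b B).card ≤ K := by
  unfold ext
  split
  · assumption
  · simp

lemma ext_eq {K : ℕ} {b : Prop} {B : Finset Pt} (h : (ext0 b B).card ≤ K) :
    ext K b B = ext0 b B := by
  unfold ext; rw [if_pos h]

/-- The assembled tree obtained from two pieces and the attachment data. -/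
noncomputable def asm (A : Tr) (k : ℤ) (B : Tr) (u v : Pt) (d : ℤ) : Tr := by
  classical
  exact
    (A.1 ∪ (sh (u + ((if u.1 = k then 1 else -1), d) - v) B).1,
      insert s(u, v + (u + ((if u.1 = k then 1 else -1), d) - v))
        (A.2 ∪ (sh (u + ((if u.1 = k then 1 else -1), d) - v) B).2))

lemma Nf_succ (hG : Lat G) (K w r j n : ℕ) :
    (Nf hG K w r (j + 1) n).card ≤
      3 * K ^ 2 * ∑ m ∈ range (n + 1), (Nf hG K w r j (n - m)).card * (NTf hG m).card := by
  classical
  set Y : Finset (Σ _ : ℕ, (Σ _ : (Tr × ℤ × Finset ℤ) × Tr, (Σ _ : Pt, Pt × ℤ))) :=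
    (range (n + 1)).sigma (fun m => (Nf hG K w r j (n - m) ×ˢ NTf hG m).sigma
      (fun a => (cols a.1.2.1 a.1.1.1).sigma
        (fun u => (ext K (u.1 = a.1.2.1) a.2.1) ×ˢ Finset.Icc (-1 : ℤ) 1))) with hY
  have hYcard : Y.card ≤ 3 * K ^ 2 *
      ∑ m ∈ range (n + 1), (Nf hG K w r j (n - m)).card * (NTf hG m).card := by
    rw [hY, card_sigma, mul_sum]
    refine sum_le_sum fun m _ => ?_
    rw [card_sigma]
    have : ∀ a ∈ (Nf hG K w r j (n - m) ×ˢ NTf hG m),
        ((cols a.1.2.1 a.1.1.1).sigma
          (fun u => (ext K (u.1 = a.1.2.1) a.2.1) ×ˢ Finset.Icc (-1 : ℤ) 1)).card ≤ 3 * K ^ 2 := by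
      rintro ⟨⟨T, k, κ⟩, B⟩ ha
      rw [mem_product, mem_Nf] at ha
      have hc := ha.1.2.2.1
      rw [card_sigma]
      calc ∑ u ∈ cols k T.1, ((ext K (u.1 = k) B.1) ×ˢ Finset.Icc (-1 : ℤ) 1).card
          ≤ ∑ _u ∈ cols k T.1, K * 3 := by
            refine sum_le_sum fun u _ => ?_
            rw [card_product]
            exact Nat.mul_le_mul (ext_card _ _ _) (by simp)
        _ = (cols k T.1).card * (K * 3) := by rw [sum_const, smul_eq_mul]
        _ ≤ K * (K * 3) := Nat.mul_le_mul_right _ hc
        _ = 3 * K ^ 2 := by ring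
    refine (sum_le_sum this).trans ?_
    rw [sum_const, smul_eq_mul, card_product]
    exact le_of_eq (by ring)
  refine le_trans ?_ hYcard
  -- the relation
  refine card_le_card_of_forall_subsingleton
    (fun (x : Tr × ℤ × Finset ℤ)
      (y : Σ _ : ℕ, (Σ _ : (Tr × ℤ × Finset ℤ) × Tr, (Σ _ : Pt, Pt × ℤ))) =>
      Norm x.1.1 ∧ ∃ a : Pt, sh (-a) x.1 =
        asm y.2.1.1.1 y.2.1.1.2.1 y.2.1.2 y.2.2.1 y.2.2.2.1 y.2.2.2.2 ∧
        x.2.1 = y.2.1.1.2.1 + a.1 ∧ x.2.2 = y.2.1.1.2.2.image (· + a.1)) ?_ ?_
  · rintro ⟨T, k, κ⟩ hx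
    rw [mem_Nf] at hx
    obtain ⟨⟨hT, hk, hκ, hκc⟩, hcr, hcols, hκ2, ⟨z, hz, hzk, hzκ⟩, _⟩ := hx
    rw [mem_NTf] at hT
    obtain ⟨hLT, hcard, hN⟩ := hT
    obtain ⟨A, B, EA, EB, u, v, hA, hB, hd, hu, hv, hzA, hV, hE, hcross, hcrB⟩ :=
      hLT.peel hz (k := k) (card_pos.mp (by omega))
    obtain ⟨a, haA, haN⟩ := exists_norm hA.nonempty
    obtain ⟨b, hbB, hbN⟩ := exists_norm hB.nonempty
    have hadj : G.Adj u v := (hLT.edge u v (by rw [hE]; exact mem_insert_self _ _)).2.2
    have hdy := abs_le.mp (hG.dy u v hadj)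
    rw [cross_mk] at hcross
    -- cardinalities
    have hABcard : A.card + B.card = n := by
      rw [← hcard, hV, card_union_of_disjoint hd]
    have hAsub : A ⊆ T.1 := by rw [hV]; exact subset_union_left
    have hBsub : B ⊆ T.1 := by rw [hV]; exact subset_union_right
    have hcolsA : ∀ k' : ℤ, (cols k' A).card ≤ (cols k' T.1).card := by
      intro k'
      refine card_le_card ?_
      intro p hp
      rw [mem_cols] at hp ⊢
      exact ⟨hAsub hp.1, hp.2⟩
    have haleft : ∀ p ∈ A, a.1 ≤ p.1 := by
      intro p hp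
      have h1 := (haN.2 _ (add_mem_shiftV (t := -a) hp)).1
      simp only [Prod.fst_add, Prod.fst_neg] at h1
      omega
    have hbleft : ∀ p ∈ B, b.1 ≤ p.1 := by
      intro p hp
      have h1 := (hbN.2 _ (add_mem_shiftV (t := -b) hp)).1
      simp only [Prod.fst_add, Prod.fst_neg] at h1
      omega
    have hau := haleft u hu
    have hAw : ∀ p ∈ A, p.1 - a.1 < n := by
      intro p hp
      have := hA.width_lt hG haA hp
      omega
    -- crossing edges of A
    have hnotA : s(u, v) ∉ EA := fun h =>
      (Finset.disjoint_left.mp hd) (hA.edge u v h).2.1 hv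
    have hcrA : (cr k EA).card = j := by
      have h1 : cr k T.2 = insert s(u, v) (cr k EA) := by
        ext e
        rw [mem_cr, mem_insert, mem_cr, hE, mem_insert, mem_union]
        constructor
        · rintro ⟨h | h | h, hc⟩
          · exact Or.inl h
          · exact Or.inr ⟨h, hc⟩
          · exfalso
            have : e ∈ cr k EB := mem_cr.mpr ⟨h, hc⟩
            rw [hcrB] at this; simp at this
        · rintro (rfl | ⟨h, hc⟩)
          · exact ⟨Or.inl rfl, cross_mk.mpr hcross⟩
          · exact ⟨Or.inr (Or.inl h), hc⟩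
      rw [h1, card_insert_of_notMem (by rw [mem_cr]; exact fun h => hnotA h.1)] at hcr
      omega
    refine ⟨⟨B.card, ⟨⟨(sh (-a) (A, EA), k - a.1, κ.image (· + (-a.1))), sh (-b) (B, EB)⟩,
      ⟨u - a, (v - b, v.2 - u.2)⟩⟩⟩, ?_, hN, a, ?_, ?_, ?_⟩
    · -- membership in Y
      simp only [hY, mem_sigma, mem_range, mem_product]
      refine ⟨by omega, ⟨?_, ?_⟩, ?_, ?_, ?_⟩
      · rw [mem_Nf]
        refine ⟨⟨?_, ?_, ?_, ?_⟩, ?_, ?_, ?_, ?_, ?_⟩
        · rw [mem_NTf]
          refine ⟨hA.shift hG _, ?_, haN⟩
          show (shiftV _ A).card = _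
          rw [card_shiftV]; omega
        · rw [Finset.mem_Icc]
          have h1 := hA.width_lt hG haA hzA
          omega
        · intro k' hk'
          rw [mem_image] at hk'
          obtain ⟨c, hc, rfl⟩ := hk'
          have h1 := (hκ2 c hc).1
          have h2 := hzκ c hc
          have h3 := hAw z hzA
          have h4 := hA.width_lt hG haA hzA
          rw [Finset.mem_Icc]
          omega
        · rw [card_image_of_injective _ (add_left_injective _)]; exact hκc
        · have h1 := card_cr_shift k (-a) EA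
          rw [Prod.fst_neg, ← sub_eq_add_neg, hcrA] at h1
          exact h1
        · have h1 := card_cols_shift k (-a) A
          rw [Prod.fst_neg, ← sub_eq_add_neg] at h1
          show (cols (k - a.1) (shiftV (-a) A)).card ≤ K
          rw [h1]
          exact (hcolsA k).trans hcols
        · intro k' hk'
          rw [mem_image] at hk'
          obtain ⟨c, hc, rfl⟩ := hk'
          have h1 := (hκ2 c hc)
          refine ⟨by omega, ?_⟩
          have h2 := card_cols_shift c (-a) A
          rw [Prod.fst_neg] at h2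
          show (cols (c + -a.1) (shiftV (-a) A)).card ≤ K
          rw [h2]
          exact (hcolsA c).trans h1.2
        · refine ⟨z + (-a), add_mem_shiftV hzA, ?_, ?_⟩
          · simp only [Prod.fst_add, Prod.fst_neg]; omega
          · intro k' hk'
            rw [mem_image] at hk'
            obtain ⟨c, hc, rfl⟩ := hk'
            have h2 := hzκ c hc
            simp only [Prod.fst_add, Prod.fst_neg]; omega
        · refine ⟨u + (-a), add_mem_shiftV hu, ?_⟩
          simp only [Prod.fst_add, Prod.fst_neg]; omega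
      · rw [mem_NTf]
        refine ⟨hB.shift hG _, ?_, hbN⟩
        show (shiftV _ _).card = _
        rw [card_shiftV]
      · rw [mem_cols]
        refine ⟨?_, ?_⟩
        · rw [sub_eq_add_neg]; exact add_mem_shiftV hu
        · simp only [Prod.fst_sub]; omega
      · -- extreme column
        have hvB : v - b ∈ shiftV (-b) B := by rw [sub_eq_add_neg]; exact add_mem_shiftV hv
        have hside := hB.one_side hG hcrB
        have hext : v - b ∈ ext0 ((u - a).1 = k - a.1) (shiftV (-b) B) := by
          rw [mem_ext0]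
          refine ⟨hvB, ?_⟩
          intro p hp
          rw [mem_shiftV] at hp
          have h1 := hside v hv _ hp
          simp only [Prod.fst_sub, Prod.fst_neg] at h1 ⊢
          omega
        have hcd : (ext0 ((u - a).1 = k - a.1) (shiftV (-b) B)).card ≤ K := by
          refine le_trans ?_ hcols
          refine card_le_card_of_injOn (fun p => p + b) ?_ (add_left_injective b).injOn
          intro p hp
          rw [mem_coe, mem_ext0] at hp
          rw [mem_coe, mem_cols]
          obtain ⟨hpB, hp2⟩ := hp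
          rw [mem_shiftV] at hpB
          have hpb : p + b ∈ B := by
            have : p - -b = p + b := by abel
            rw [this] at hpB; exact hpB
          refine ⟨hBsub hpb, ?_⟩
          have h1 := hp2 _ hvB
          have h2 := hside v hv _ hpb
          simp only [Prod.fst_sub, Prod.fst_add] at h1 h2 ⊢
          omega
        show v - b ∈ ext K ((u - a).1 = k - a.1) (shiftV (-b) B)
        rw [ext_eq hcd]
        exact hext
      · rw [Finset.mem_Icc]; omega
    · -- assembled tree
      have hs : (u - a) + ((if (u - a).1 = k - a.1 then (1 : ℤ) else -1), v.2 - u.2) - (v - b) =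
          b - a := by
        ext
        · simp only [Prod.fst_sub, Prod.fst_add]
          split_ifs with hc <;> omega
        · simp only [Prod.snd_sub, Prod.snd_add]
          ring
      unfold asm
      simp only
      rw [hs, sh_sh]
      have h1 : -b + (b - a) = -a := by abel
      have h2 : v - b + (b - a) = v + -a := by abel
      have h3 : u - a = u + -a := by abel
      rw [h1, h2, h3]
      unfold sh
      simp only
      rw [hV, hE, shiftV_union, shiftE_insert, shiftE_union]
    · simp
    · rw [image_image]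
      have : ((fun x : ℤ => x + a.1) ∘ fun x => x + -a.1) = id := by
        funext x; simp
      rw [this, image_id]
  · intro y _ x hx x' hx'
    obtain ⟨_, hN, a, h1, h2, h3⟩ := hx
    obtain ⟨_, hN', a', h1', h2', h3'⟩ := hx'
    have h := sh_norm_unique hN hN' (h1.trans h1'.symm)
    obtain ⟨T, k, κ⟩ := x
    obtain ⟨T', k', κ'⟩ := x'
    simp only at h h2 h3 h2' h3'
    have ha : a = a' := neg_injective h.1
    subst ha
    rw [h.2, h2, h2', h3, h3']

end Pool.Agent.H97.LTCore
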