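import Mathlib
import Pool.Agent.H97.LTPeel

set_option autoImplicit false

open Finset

namespace Pool.Agent.H97.LTCore

variable {G : SimpleGraph Pt}

/-- cost per crossing edge -/
noncomputable def aa (K w n : ℕ) : ℝ := 3 * (K : ℝ) ^ 2 * n / (w + 1)

/-- cost per cut column -/
noncomputable def Lam (K w n : ℕ) : ℝ := ∑ j ∈ range (K + 1), aa K w n ^ j

lemma aa_nonneg (K w n : ℕ) : 0 ≤ aa K w n := by unfold aa; positivity

lemma Lam_nonneg (K w n : ℕ) : 0 ≤ Lam K w n :=
  sum_nonneg fun _ _ => pow_nonneg (aa_nonneg _ _ _) _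

lemma one_le_Lam (K w n : ℕ) : 1 ≤ Lam K w n := by
  unfold Lam
  calc (1 : ℝ) = aa K w n ^ 0 := by simp
    _ ≤ _ := single_le_sum (f := fun j => aa K w n ^ j)
      (fun _ _ => pow_nonneg (aa_nonneg _ _ _) _) (by simp)

lemma stack_real (hG : Lat G) {n m w : ℕ} (hm : m ≤ n) :
    ∑ i ∈ range (m + 1), ((Wf hG (m - i) w).card : ℝ) * (NTf hG i).card ≤
      (n : ℝ) / (w + 1) * (Wf hG m w).card := by
  have h := stack_count hG m w
  have h' : ((w : ℝ) + 1) * ∑ i ∈ range (m + 1), ((Wf hG (m - i) w).card : ℝ) *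
      (NTf hG i).card ≤ (m : ℝ) * (Wf hG m w).card := by exact_mod_cast h
  have hw : (0 : ℝ) < (w : ℝ) + 1 := by positivity
  rw [div_mul_eq_mul_div, le_div_iff₀ hw, mul_comm]
  refine h'.trans ?_
  have : (m : ℝ) ≤ n := by exact_mod_cast hm
  gcongr

lemma Nf_bound (hG : Lat G) (K w n r : ℕ)
    (hM : ∀ m ≤ n, ((Mf hG K w r m).card : ℝ) ≤ Lam K w n ^ r * (Wf hG m w).card) :
    ∀ j, ∀ m ≤ n, ((Nf hG K w r j m).card : ℝ) ≤
      Lam K w n ^ r * aa K w n ^ j * (Wf hG m w).card := by
  intro j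
  induction j with
  | zero =>
    intro m hm
    have h1 : ((Nf hG K w r 0 m).card : ℝ) ≤ (Mf hG K w r m).card := by
      exact_mod_cast Nf_zero hG K w r m
    simpa using h1.trans (hM m hm)
  | succ j ih =>
    intro m hm
    have h1 : ((Nf hG K w r (j + 1) m).card : ℝ) ≤
        3 * (K : ℝ) ^ 2 * ∑ i ∈ range (m + 1),
          ((Nf hG K w r j (m - i)).card : ℝ) * (NTf hG i).card := by
      exact_mod_cast Nf_succ hG K w r j m
    refine h1.trans ?_
    have hL := Lam_nonneg K w n
    have ha := aa_nonneg K w n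
    have h2 : ∑ i ∈ range (m + 1), ((Nf hG K w r j (m - i)).card : ℝ) * (NTf hG i).card ≤
        ∑ i ∈ range (m + 1), (Lam K w n ^ r * aa K w n ^ j) *
          (((Wf hG (m - i) w).card : ℝ) * (NTf hG i).card) := by
      refine sum_le_sum fun i _ => ?_
      rw [← mul_assoc]
      exact mul_le_mul_of_nonneg_right (ih (m - i) (by omega)) (Nat.cast_nonneg _)
    rw [← mul_sum] at h2
    have h3 := stack_real hG (w := w) hm
    calc 3 * (K : ℝ) ^ 2 * ∑ i ∈ range (m + 1),
          ((Nf hG K w r j (m - i)).card : ℝ) * (NTf hG i).card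
        ≤ 3 * (K : ℝ) ^ 2 * ((Lam K w n ^ r * aa K w n ^ j) *
          ((n : ℝ) / (w + 1) * (Wf hG m w).card)) := by
          have h4 := h2.trans (mul_le_mul_of_nonneg_left h3
            (mul_nonneg (pow_nonneg hL _) (pow_nonneg ha _)))
          gcongr
      _ = Lam K w n ^ r * aa K w n ^ (j + 1) * (Wf hG m w).card := by
          rw [pow_succ (aa K w n) j]
          conv_rhs => rw [show aa K w n ^ j * aa K w n =
            aa K w n ^ j * (3 * (K : ℝ) ^ 2 * n / (w + 1)) from rfl]
          ring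

lemma Mf_bound (hG : Lat G) (K w n : ℕ) :
    ∀ r, ∀ m ≤ n, ((Mf hG K w r m).card : ℝ) ≤ Lam K w n ^ r * (Wf hG m w).card := by
  intro r
  induction r with
  | zero =>
    intro m _
    have h1 : ((Mf hG K w 0 m).card : ℝ) ≤ (Wf hG m w).card := by
      exact_mod_cast Mf_zero hG K w m
    simpa using h1
  | succ r ih =>
    intro m hm
    have h1 : ((Mf hG K w (r + 1) m).card : ℝ) ≤
        ∑ j ∈ range (K + 1), ((Nf hG K w r j m).card : ℝ) := by
      exact_mod_cast Mf_succ hG K w r m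
    refine h1.trans ?_
    have h2 : ∑ j ∈ range (K + 1), ((Nf hG K w r j m).card : ℝ) ≤
        ∑ j ∈ range (K + 1), Lam K w n ^ r * aa K w n ^ j * (Wf hG m w).card :=
      sum_le_sum fun j _ => Nf_bound hG K w n r ih j m hm
    refine h2.trans (le_of_eq ?_)
    rw [← sum_mul, ← mul_sum, pow_succ, Lam]

open Classical in
/-- The cut columns in `[0, h)` with at most `K` vertices. -/
noncomputable def good (K h : ℕ) (V : Finset Pt) : Finset ℤ :=
  (Finset.Ico (0 : ℤ) h).filter (fun k => (cols k V).card ≤ K)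

lemma mem_good {K h : ℕ} {V : Finset Pt} {k : ℤ} :
    k ∈ good K h V ↔ (0 ≤ k ∧ k < h) ∧ (cols k V).card ≤ K := by
  unfold good; rw [mem_filter, mem_Ico]

lemma sum_cols (h : ℕ) (V : Finset Pt) :
    ∑ k ∈ Finset.Ico (0 : ℤ) h, (cols k V).card ≤ 2 * V.card := by
  classical
  have h1 : ∀ k : ℤ, (cols k V).card = ∑ p ∈ V, if (p.1 = k ∨ p.1 = k + 1) then 1 else 0 := by
    intro k
    rw [← card_filter]
    congr 1
  simp_rw [h1]
  rw [sum_comm, mul_comm, ← smul_eq_mul, ← sum_const]
  refine sum_le_sum fun p _ => ?_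
  rw [← card_filter]
  refine (card_le_card (t := {p.1, p.1 - 1}) ?_).trans card_le_two
  intro k hk
  rw [mem_filter] at hk
  rw [mem_insert, mem_singleton]
  omega

lemma good_card {K h n : ℕ} (hK : 4 * n ≤ (K + 1) * h) (V : Finset Pt) (hV : V.card = n) :
    h ≤ 2 * (good K h V).card := by
  classical
  have h1 := sum_cols h V
  set bad := (Finset.Ico (0 : ℤ) h).filter (fun k => ¬ (cols k V).card ≤ K) with hbad
  have h2 : (K + 1) * bad.card ≤ ∑ k ∈ Finset.Ico (0 : ℤ) h, (cols k V).card := by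
    calc (K + 1) * bad.card = ∑ _k ∈ bad, (K + 1) := by rw [sum_const, smul_eq_mul, mul_comm]
      _ ≤ ∑ k ∈ bad, (cols k V).card := by
          refine sum_le_sum fun k hk => ?_
          rw [hbad, mem_filter] at hk
          omega
      _ ≤ _ := sum_le_sum_of_subset (filter_subset _ _)
  have h3 : (good K h V).card + bad.card = h := by
    have := card_filter_add_card_filter_not (s := Finset.Ico (0 : ℤ) h)
      (fun k => (cols k V).card ≤ K)
    rw [Int.card_Ico] at this
    have e : (good K h V) = (Finset.Ico (0 : ℤ) h).filter (fun k => (cols k V).card ≤ K) := by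
      ext k; rw [mem_good, mem_filter, mem_Ico]
    rw [e, hbad]
    simpa using this
  have h4 : (K + 1) * bad.card ≤ 2 * n := by rw [← hV]; exact h2.trans h1
  have h5 : (K + 1) * (2 * bad.card) ≤ (K + 1) * h := by
    calc (K + 1) * (2 * bad.card) = 2 * ((K + 1) * bad.card) := by ring
      _ ≤ 4 * n := by omega
      _ ≤ _ := hK
  have h6 := Nat.le_of_mul_le_mul_left h5 (by omega)
  omega

lemma choose_count (hG : Lat G) {K h n r W : ℕ} (hK : 4 * n ≤ (K + 1) * h) (hW : 2 * W ≤ h + 1) :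
    W.choose r * (Wf hG n (2 * h)).card ≤ (Mf hG K h r n).card := by
  classical
  have h1 : W.choose r * (Wf hG n (2 * h)).card ≤
      ((Wf hG n (2 * h)).sigma (fun T => (good K h T.1).powersetCard r)).card := by
    rw [card_sigma, mul_comm, ← smul_eq_mul, ← sum_const]
    refine sum_le_sum fun T hT => ?_
    rw [card_powersetCard]
    refine Nat.choose_le_choose r ?_
    have := good_card hK T.1 (mem_Wf.mp hT).1.2.1
    omega
  refine h1.trans (card_le_card_of_injOn (fun x => (x.1, x.2)) ?_ ?_)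
  · rintro ⟨T, κ⟩ hx
    simp only [coe_sigma, Set.mem_sigma_iff, mem_coe, mem_powersetCard] at hx
    obtain ⟨hT, hκ, hκc⟩ := hx
    rw [mem_Wf] at hT
    obtain ⟨hT, v, hv, hvw⟩ := hT
    simp only [mem_coe, mem_Mf]
    have hwn := hT.1.width_lt hG hT.2.2.1 hv
    simp only at hwn
    refine ⟨⟨mem_NTf.mpr hT, ?_, hκc⟩, ?_, v, hv, ?_, ?_⟩
    · intro k hk
      have := mem_good.mp (hκ hk)
      rw [Finset.mem_Icc]
      push_cast at hvw
      omega
    · intro k hk
      exact (mem_good.mp (hκ hk)).2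
    · push_cast at hvw; omega
    · intro k hk
      have := mem_good.mp (hκ hk)
      push_cast at hvw
      omega
  · rintro ⟨T, κ⟩ _ ⟨T', κ'⟩ _ heq
    simp only [Prod.mk.injEq] at heq
    obtain ⟨rfl, rfl⟩ := heq
    rfl

/-- Main counting estimate. -/
lemma main_count (hG : Lat G) {K h n r W : ℕ} (hK : 4 * n ≤ (K + 1) * h) (hW : 2 * W ≤ h + 1) :
    (W.choose r : ℝ) * (Wf hG n (2 * h)).card ≤ Lam K h n ^ r * (NTf hG n).card := by
  have h1 : (W.choose r : ℝ) * (Wf hG n (2 * h)).card ≤ (Mf hG K h r n).card := by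
    exact_mod_cast choose_count hG (r := r) hK hW
  have h2 := Mf_bound hG K h n r n le_rfl
  have h3 : ((Wf hG n h).card : ℝ) ≤ (NTf hG n).card := by
    have : (Wf hG n h).card ≤ (NTf hG n).card := card_le_card (filter_subset _ _)
    exact_mod_cast this
  exact (h1.trans h2).trans (mul_le_mul_of_nonneg_left h3 (pow_nonneg (Lam_nonneg _ _ _) _))

end Pool.Agent.H97.LTCore
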