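import Mathlib
import Pool.Agent.H97.LTCore

set_option autoImplicit false

open Finset

namespace Pool.Agent.H97.LTCore

variable {G : SimpleGraph Pt}

/-- `(V,E)` is cut at the edge `{r,c}` into `(V₁,E₁)` containing `r` and `(V₂,E₂)` containing
`c`. -/
structure IsSpl (G : SimpleGraph Pt) (V : Finset Pt) (E : Finset (Sym2 Pt)) (r c : Pt)
    (V₁ V₂ : Finset Pt) (E₁ E₂ : Finset (Sym2 Pt)) : Prop where
  h1 : LT G V₁ E₁
  h2 : LT G V₂ E₂
  hd : Disjoint V₁ V₂
  hr : r ∈ V₁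
  hc : c ∈ V₂
  hadj : G.Adj r c
  hV : V = V₁ ∪ V₂
  hE : E = insert s(r, c) (E₁ ∪ E₂)

lemma IsSpl.card {V V₁ V₂ : Finset Pt} {E E₁ E₂ : Finset (Sym2 Pt)} {r c : Pt}
    (h : IsSpl G V E r c V₁ V₂ E₁ E₂) : V.card = V₁.card + V₂.card := by
  rw [h.hV, card_union_of_disjoint h.hd]

lemma IsSpl.unique {V V₁ V₂ V₁' V₂' : Finset Pt} {E E₁ E₂ E₁' E₂' : Finset (Sym2 Pt)} {r c : Pt}
    (h : IsSpl G V E r c V₁ V₂ E₁ E₂) (h' : IsSpl G V E r c V₁' V₂' E₁' E₂') :
    V₁ = V₁' ∧ V₂ = V₂' ∧ E₁ = E₁' ∧ E₂ = E₂' :=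
  LT.split_unique h.h1 h.h2 h.hd h.hr h.hc h'.h1 h'.h2 h'.hd h'.hr h'.hc (h.hE.symm.trans h'.hE)

/-- For every vertex `x ≠ r` there is an edge at `r` whose removal separates `x` from `r`. -/
lemma LTr.rootSplit {r : Pt} {V : Finset Pt} {E : Finset (Sym2 Pt)} (h : LTr G r V E) :
    ∀ x ∈ V, x ≠ r → ∃ c V₁ V₂ E₁ E₂, IsSpl G V E r c V₁ V₂ E₁ E₂ ∧ x ∈ V₂ := by
  induction h with
  | single => intro x hx hxr; rw [mem_singleton] at hx; exact absurd hx hxr
  | @leaf V E u w h0 hu hw hadj ih =>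
    have key : ∀ x ∈ V, x ≠ r → ∃ c V₁ V₂ E₁ E₂,
        IsSpl G (insert w V) (insert s(u, w) E) r c V₁ V₂ E₁ E₂ ∧ x ∈ V₂ ∧ (u ∈ V₂ → w ∈ V₂) := by
      intro x hx hxr
      obtain ⟨c, V₁, V₂, E₁, E₂, hs, hx2⟩ := ih x hx hxr
      have hu'' : u ∈ V₁ ∪ V₂ := hs.hV ▸ hu
      have hw1 : w ∉ V₁ := fun h => hw (hs.hV ▸ mem_union_left _ h)
      have hw2 : w ∉ V₂ := fun h => hw (hs.hV ▸ mem_union_right _ h)
      rw [mem_union] at hu''
      rcases hu'' with hu1 | hu2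
      · refine ⟨c, insert w V₁, V₂, insert s(u, w) E₁, E₂, ⟨LT.leaf hs.h1 hu1 hw1 hadj, hs.h2, ?_,
          mem_insert_of_mem hs.hr, hs.hc, hs.hadj, ?_, ?_⟩, hx2, ?_⟩
        · rw [disjoint_insert_left]; exact ⟨hw2, hs.hd⟩
        · rw [hs.hV]; ext y; simp only [mem_union, mem_insert]; tauto
        · rw [hs.hE]; ext y; simp only [mem_union, mem_insert]; tauto
        · intro hu2; exact absurd hu2 ((Finset.disjoint_left.mp hs.hd) hu1)
      · refine ⟨c, V₁, insert w V₂, E₁, insert s(u, w) E₂, ⟨hs.h1, LT.leaf hs.h2 hu2 hw2 hadj, ?_,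
          hs.hr, mem_insert_of_mem hs.hc, hs.hadj, ?_, ?_⟩, mem_insert_of_mem hx2, ?_⟩
        · rw [disjoint_insert_right]; exact ⟨hw1, hs.hd⟩
        · rw [hs.hV]; ext y; simp only [mem_union, mem_insert]; tauto
        · rw [hs.hE]; ext y; simp only [mem_union, mem_insert]; tauto
        · intro _; exact mem_insert_self _ _
    intro x hx hxr
    rw [mem_insert] at hx
    rcases hx with rfl | hx
    · by_cases hur : u = r
      · subst hur
        refine ⟨x, V, {x}, E, ∅, ⟨h0.toLT, LT.single _, by simpa using hw, hu, by simp, hadj,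
          ?_, ?_⟩, by simp⟩
        · ext y; simp
        · simp
      · obtain ⟨c, V₁, V₂, E₁, E₂, hs, hu2, himp⟩ := key u hu hur
        exact ⟨c, V₁, V₂, E₁, E₂, hs, himp hu2⟩
    · obtain ⟨c, V₁, V₂, E₁, E₂, hs, hx2, _⟩ := key x hx hxr
      exact ⟨c, V₁, V₂, E₁, E₂, hs, hx2⟩

/-- data of a splitting -/
abbrev SD := Pt × (Finset Pt × Finset Pt) × (Finset (Sym2 Pt) × Finset (Sym2 Pt))

/-- `x` is a splitting of `(V,E)` at the root `r` -/
def IsSD (G : SimpleGraph Pt) (V : Finset Pt) (E : Finset (Sym2 Pt)) (r : Pt) (x : SD) : Prop :=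
  IsSpl G V E r x.1 x.2.1.1 x.2.1.2 x.2.2.1 x.2.2.2

lemma exists_SD {V : Finset Pt} {E : Finset (Sym2 Pt)} (h : LT G V E) {r : Pt} (hr : r ∈ V)
    (hc : 2 ≤ V.card) : ∃ x, IsSD G V E r x := by
  obtain ⟨x, hx, hxr⟩ := exists_mem_ne (s := V) (by omega) r
  obtain ⟨c, V₁, V₂, E₁, E₂, hs, _⟩ := (h.toLTr r hr).rootSplit x hx hxr
  exact ⟨(c, (V₁, V₂), (E₁, E₂)), hs⟩

open Classical in
/-- A choice of a splitting at the root. -/
noncomputable def spl (G : SimpleGraph Pt) (V : Finset Pt) (E : Finset (Sym2 Pt)) (r : Pt) : SD :=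
  if h : ∃ x, IsSD G V E r x then h.choose else default

lemma spl_spec {V : Finset Pt} {E : Finset (Sym2 Pt)} (h : LT G V E) {r : Pt} (hr : r ∈ V)
    (hc : 2 ≤ V.card) : IsSD G V E r (spl G V E r) := by
  have := exists_SD h hr hc
  unfold spl
  rw [dif_pos this]
  exact this.choose_spec

/-- probability of entering a branch of mass `a` when the rest has mass `b` -/
noncomputable def pr (a b : ℝ) : ℝ := a ^ 2 / (a ^ 2 + b ^ 2)

lemma pr_nonneg (a b : ℝ) : 0 ≤ pr a b := by unfold pr; positivity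

lemma pr_le_one (a b : ℝ) : pr a b ≤ 1 := by
  unfold pr
  rcases eq_or_lt_of_le (show 0 ≤ a ^ 2 + b ^ 2 by positivity) with h | h
  · rw [← h, div_zero]; exact zero_le_one
  · rw [div_le_one h]; nlinarith [sq_nonneg b]

/-- The flow: starting from `r`, enter the branches with probability proportional to the
squares of the masses, until the current tree has at most `H` vertices. -/
noncomputable def wt (G : SimpleGraph Pt) (H : ℕ) :
    ℕ → Finset Pt → Finset (Sym2 Pt) → Pt → Pt → ℝ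
  | 0, _, _, _, _ => 0
  | k + 1, V, E, r, u =>
    if V.card ≤ H then 1 else
      if u ∈ (spl G V E r).2.1.2 then
        pr (spl G V E r).2.1.2.card ((spl G V E r).2.1.1.card - 1) *
          wt G H k (spl G V E r).2.1.2 (spl G V E r).2.2.2 (spl G V E r).1 u
      else
        (1 - pr (spl G V E r).2.1.2.card ((spl G V E r).2.1.1.card - 1)) *
          wt G H k (spl G V E r).2.1.1 (spl G V E r).2.2.1 r u

lemma wt_nonneg (H : ℕ) : ∀ (k : ℕ) (V : Finset Pt) (E : Finset (Sym2 Pt)) (r u : Pt),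
    0 ≤ wt G H k V E r u
  | 0, _, _, _, _ => le_rfl
  | k + 1, V, E, r, u => by
    unfold wt
    split_ifs
    · exact zero_le_one
    · exact mul_nonneg (pr_nonneg _ _) (wt_nonneg H k _ _ _ _)
    · exact mul_nonneg (sub_nonneg.mpr (pr_le_one _ _)) (wt_nonneg H k _ _ _ _)

/-- Kraft inequality -/
lemma kraft {H : ℕ} (hH : 1 ≤ H) : ∀ (k : ℕ) (V : Finset Pt) (E : Finset (Sym2 Pt)) (r : Pt),
    LT G V E → r ∈ V → ∑ u ∈ V, wt G H k V E r u ≤ H
  | 0, V, E, r, _, _ => by simp [wt]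
  | k + 1, V, E, r, hT, hr => by
    by_cases hV : V.card ≤ H
    · have : ∀ u ∈ V, wt G H (k + 1) V E r u = 1 := by
        intro u _; unfold wt; rw [if_pos hV]
      rw [sum_congr rfl this]
      simpa using hV
    · have hs := spl_spec hT hr (by omega)
      set x := spl G V E r with hx
      unfold IsSD at hs
      have h1 := kraft hH k _ _ _ hs.h1 hs.hr
      have h2 := kraft hH k _ _ _ hs.h2 hs.hc
      have e : ∑ u ∈ V, wt G H (k + 1) V E r u =
          (1 - pr x.2.1.2.card (x.2.1.1.card - 1)) * ∑ u ∈ x.2.1.1, wt G H k x.2.1.1 x.2.2.1 r u +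
          pr x.2.1.2.card (x.2.1.1.card - 1) * ∑ u ∈ x.2.1.2, wt G H k x.2.1.2 x.2.2.2 x.1 u := by
        conv_lhs => rw [hs.hV]
        rw [sum_union hs.hd, mul_sum, mul_sum]
        congr 1
        · refine sum_congr rfl fun u hu => ?_
          rw [← hs.hV]
          conv_lhs => unfold wt
          rw [if_neg hV, ← hx, if_neg ((Finset.disjoint_left.mp hs.hd) hu)]
        · refine sum_congr rfl fun u hu => ?_
          rw [← hs.hV]
          conv_lhs => unfold wt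
          rw [if_neg hV, ← hx, if_pos hu]
      rw [e]
      have hp := pr_nonneg x.2.1.2.card ((x.2.1.1.card : ℝ) - 1)
      have hp' := pr_le_one x.2.1.2.card ((x.2.1.1.card : ℝ) - 1)
      nlinarith [mul_le_mul_of_nonneg_left h2 hp, mul_le_mul_of_nonneg_left h1 (sub_nonneg.mpr hp')]


/-- `θ` is a lower bound for the flow to `u`. -/
def LB (G : SimpleGraph Pt) (H : ℕ) (V : Finset Pt) (E : Finset (Sym2 Pt)) (r u : Pt)
    (θ : ℝ) : Prop := ∀ k, V.card ≤ k → θ ≤ wt G H k V E r u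

lemma LB.base {H : ℕ} {V : Finset Pt} {E : Finset (Sym2 Pt)} {r u : Pt} (hV : V.card ≤ H)
    (hne : V.Nonempty) : LB G H V E r u 1 := by
  intro k hk
  have : 1 ≤ V.card := hne.card_pos
  obtain ⟨k', rfl⟩ : ∃ k', k = k' + 1 := ⟨k - 1, by omega⟩
  unfold wt
  rw [if_pos hV]

lemma pr_compl {a b : ℝ} (h : 0 < a ^ 2 + b ^ 2) : 1 - pr a b = pr b a := by
  unfold pr
  rw [add_comm (b ^ 2), eq_div_iff h.ne', sub_mul, div_mul_cancel₀ _ h.ne']
  ring

lemma pr_mul_le {R x s : ℝ} (hR : 0 < R) (hx : 0 ≤ x) (hs : 0 ≤ s) :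
    pr R (x + s) ≤ pr (x + R) s * pr R x := by
  unfold pr
  have h1 : 0 < R ^ 2 + (x + s) ^ 2 := by positivity
  have h2 : 0 < (x + R) ^ 2 + s ^ 2 := by positivity
  have h3 : 0 < R ^ 2 + x ^ 2 := by positivity
  rw [div_mul_div_comm, div_le_div_iff₀ h1 (mul_pos h2 h3)]
  have h4 : ((x + R) ^ 2 + s ^ 2) * (R ^ 2 + x ^ 2) ≤ (x + R) ^ 2 * (R ^ 2 + (x + s) ^ 2) := by
    have h5 : 0 ≤ x * R := by positivity
    have h6 : 0 ≤ x * s := by positivity
    nlinarith [mul_nonneg h5 (sq_nonneg s), mul_nonneg h6 (sq_nonneg (x + R)),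
      mul_nonneg h5 (sq_nonneg x)]
  calc R ^ 2 * (((x + R) ^ 2 + s ^ 2) * (R ^ 2 + x ^ 2)) ≤
      R ^ 2 * ((x + R) ^ 2 * (R ^ 2 + (x + s) ^ 2)) := mul_le_mul_of_nonneg_left h4 (by positivity)
    _ = _ := by ring

/-- One step of the flow along the spine. -/
lemma LB.step {H : ℕ} {V₂ : Finset Pt} {E₂ : Finset (Sym2 Pt)} {r c u : Pt} {θ : ℝ}
    (h2 : LT G V₂ E₂) (hc : c ∈ V₂) (hu : u ∈ V₂) (hadj : G.Adj r c) (hθ0 : 0 ≤ θ) (hθ : θ ≤ 1)
    (hLB : LB G H V₂ E₂ c u θ) :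
    ∀ N : ℕ, ∀ (V₁ : Finset Pt) (E₁ : Finset (Sym2 Pt)), V₁.card ≤ N → LT G V₁ E₁ → r ∈ V₁ →
      Disjoint V₁ V₂ →
      LB G H (V₁ ∪ V₂) (insert s(r, c) (E₁ ∪ E₂)) r u (pr V₂.card (V₁.card - 1) * θ) := by
  intro N
  induction N with
  | zero =>
    intro V₁ E₁ hN h1 hr hd
    have : V₁.card = 0 := by omega
    rw [card_eq_zero] at this
    rw [this] at hr
    exact absurd hr (notMem_empty _)
  | succ N ih =>
    intro V₁ E₁ hN h1 hr hd k hk
    have hc1 : 1 ≤ V₁.card := card_pos.mpr ⟨r, hr⟩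
    have hc2 : 1 ≤ V₂.card := card_pos.mpr ⟨c, hc⟩
    have hcard : (V₁ ∪ V₂).card = V₁.card + V₂.card := card_union_of_disjoint hd
    rw [hcard] at hk
    obtain ⟨k', rfl⟩ : ∃ k', k = k' + 1 := ⟨k - 1, by omega⟩
    have hp0 := pr_nonneg (V₂.card : ℝ) ((V₁.card : ℝ) - 1)
    have hp1 := pr_le_one (V₂.card : ℝ) ((V₁.card : ℝ) - 1)
    by_cases hV : (V₁ ∪ V₂).card ≤ H
    · unfold wt
      rw [if_pos hV]
      calc _ ≤ 1 * 1 := mul_le_mul hp1 hθ hθ0 zero_le_one
        _ = 1 := one_mul 1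
    · have hT : IsSpl G (V₁ ∪ V₂) (insert s(r, c) (E₁ ∪ E₂)) r c V₁ V₂ E₁ E₂ :=
        ⟨h1, h2, hd, hr, hc, hadj, rfl, rfl⟩
      have hLT : LT G (V₁ ∪ V₂) (insert s(r, c) (E₁ ∪ E₂)) := LT.join h1 h2 hd hr hc hadj
      have hs := spl_spec (r := r) hLT (mem_union_left _ hr) (by omega)
      unfold wt
      rw [if_neg hV]
      generalize spl G (V₁ ∪ V₂) (insert s(r, c) (E₁ ∪ E₂)) r = x at hs ⊢
      obtain ⟨c', ⟨W₁, W₂⟩, ⟨F₁, F₂⟩⟩ := x
      unfold IsSD at hs
      simp only at hs ⊢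
      by_cases hcc : c' = c
      · subst hcc
        obtain ⟨e1, e2, e3, e4⟩ := hs.unique hT
        subst e1 e2 e3 e4
        rw [if_pos hu]
        exact mul_le_mul_of_nonneg_left (hLB k' (by omega)) hp0
      · -- the edge `{r,c'}` belongs to `E₁`
        have hmem : s(r, c') ∈ insert s(r, c) (E₁ ∪ E₂) := by
          rw [hs.hE]; exact mem_insert_self _ _
        have hmem1 : s(r, c') ∈ E₁ := by
          rw [mem_insert, mem_union] at hmem
          rcases hmem with h | h | h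
          · exfalso
            rw [Sym2.eq_iff] at h
            rcases h with ⟨_, h⟩ | ⟨h, _⟩
            · exact hcc h
            · subst h; exact (Finset.disjoint_left.mp hd) hr hc
          · exact h
          · exact absurd (h2.edge _ _ h).1 ((Finset.disjoint_left.mp hd) hr)
        obtain ⟨A, B, EA, EB, hA, hB, hdAB, hrA, hcB, hV1, hE1⟩ := h1.split r c' hmem1
        subst hV1 hE1
        rw [disjoint_union_left] at hd
        have hT' : IsSpl G ((A ∪ B) ∪ V₂) (insert s(r, c) (insert s(r, c') (EA ∪ EB) ∪ E₂)) r c'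
            (A ∪ V₂) B (insert s(r, c) (EA ∪ E₂)) EB := by
          refine ⟨LT.join hA h2 hd.1 hrA hc hadj, hB, ?_, mem_union_left _ hrA, hcB, hs.hadj, ?_, ?_⟩
          · rw [disjoint_union_left]; exact ⟨hdAB, hd.2.symm⟩
          · ext y; simp only [mem_union]; tauto
          · ext y; simp only [mem_union, mem_insert]; tauto
        obtain ⟨e1, e2, e3, e4⟩ := hs.unique hT'
        subst e1 e2 e3 e4
        have huB : u ∉ W₂ := fun h => (Finset.disjoint_left.mp hd.2) h hu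
        rw [if_neg huB]
        have hcAB : (A ∪ W₂).card = A.card + W₂.card := card_union_of_disjoint hdAB
        have hcAV : (A ∪ V₂).card = A.card + V₂.card := card_union_of_disjoint hd.1
        have hcA : 1 ≤ A.card := card_pos.mpr ⟨r, hrA⟩
        have hcB' : 1 ≤ W₂.card := card_pos.mpr ⟨c', hcB⟩
        have hih := ih A EA (by omega) hA hrA hd.1 k' (by omega)
        have hAr : (1 : ℝ) ≤ A.card := by exact_mod_cast hcA
        have hBr : (1 : ℝ) ≤ W₂.card := by exact_mod_cast hcB'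
        have hRr : (1 : ℝ) ≤ V₂.card := by exact_mod_cast hc2
        have e5 : (1 - pr (W₂.card : ℝ) (((A ∪ V₂).card : ℝ) - 1)) =
            pr ((A.card : ℝ) - 1 + V₂.card) W₂.card := by
          rw [pr_compl (by positivity), hcAV]
          push_cast
          congr 1
          ring
        have e6 : ((A ∪ W₂).card : ℝ) - 1 = ((A.card : ℝ) - 1) + W₂.card := by
          rw [hcAB]; push_cast; ring
        rw [e5, e6]
        calc pr (V₂.card : ℝ) ((A.card : ℝ) - 1 + W₂.card) * θ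
            ≤ (pr ((A.card : ℝ) - 1 + V₂.card) W₂.card * pr V₂.card ((A.card : ℝ) - 1)) * θ := by
              refine mul_le_mul_of_nonneg_right ?_ hθ0
              exact pr_mul_le (by linarith) (by linarith) (by linarith)
          _ = pr ((A.card : ℝ) - 1 + V₂.card) W₂.card * (pr V₂.card ((A.card : ℝ) - 1) * θ) := by ring
          _ ≤ _ := mul_le_mul_of_nonneg_left hih (pr_nonneg _ _)

end Pool.Agent.H97.LTCore
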