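import Mathlib
import Pool.Agent.H97.LTFlow
import Pool.Agent.H97.LTCount

set_option autoImplicit false

open Finset

namespace Pool.Agent.H97.LTCore

variable {G : SimpleGraph Pt}

/-- vertices of a segment of a chain -/
def VI (Vp : ℕ → Finset Pt) (i j : ℕ) : Finset Pt := (Icc i j).biUnion Vp

/-- edges of a segment of a chain -/
def EI (p : ℕ → Pt) (Ep : ℕ → Finset (Sym2 Pt)) (i j : ℕ) : Finset (Sym2 Pt) :=
  (Icc i j).biUnion Ep ∪ (Ico i j).image (fun k => s(p k, p (k + 1)))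

lemma mem_VI {Vp : ℕ → Finset Pt} {i j : ℕ} {x : Pt} :
    x ∈ VI Vp i j ↔ ∃ k, (i ≤ k ∧ k ≤ j) ∧ x ∈ Vp k := by
  unfold VI; simp only [mem_biUnion, mem_Icc]

lemma mem_EI {p : ℕ → Pt} {Ep : ℕ → Finset (Sym2 Pt)} {i j : ℕ} {e : Sym2 Pt} :
    e ∈ EI p Ep i j ↔ (∃ k, (i ≤ k ∧ k ≤ j) ∧ e ∈ Ep k) ∨
      ∃ k, (i ≤ k ∧ k < j) ∧ s(p k, p (k + 1)) = e := by
  unfold EI; simp only [mem_union, mem_biUnion, mem_Icc, mem_image, mem_Ico]

lemma VI_self (Vp : ℕ → Finset Pt) (i : ℕ) : VI Vp i i = Vp i := by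
  unfold VI; simp

lemma EI_self (p : ℕ → Pt) (Ep : ℕ → Finset (Sym2 Pt)) (i : ℕ) : EI p Ep i i = Ep i := by
  unfold EI; simp

lemma VI_split (Vp : ℕ → Finset Pt) {i t j : ℕ} (h1 : i ≤ t) (h2 : t < j) :
    VI Vp i j = VI Vp i t ∪ VI Vp (t + 1) j := by
  ext x
  simp only [mem_union, mem_VI]
  constructor
  · rintro ⟨k, hk, hx⟩
    by_cases hkt : k ≤ t
    · exact Or.inl ⟨k, ⟨hk.1, hkt⟩, hx⟩
    · exact Or.inr ⟨k, ⟨by omega, hk.2⟩, hx⟩
  · rintro (⟨k, hk, hx⟩ | ⟨k, hk, hx⟩)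
    · exact ⟨k, ⟨hk.1, by omega⟩, hx⟩
    · exact ⟨k, ⟨by omega, hk.2⟩, hx⟩

lemma EI_split (p : ℕ → Pt) (Ep : ℕ → Finset (Sym2 Pt)) {i t j : ℕ} (h1 : i ≤ t) (h2 : t < j) :
    EI p Ep i j = insert s(p t, p (t + 1)) (EI p Ep i t ∪ EI p Ep (t + 1) j) := by
  ext x
  simp only [mem_insert, mem_union, mem_EI]
  constructor
  · rintro (⟨k, hk, hx⟩ | ⟨k, hk, hx⟩)
    · by_cases hkt : k ≤ t
      · exact Or.inr (Or.inl (Or.inl ⟨k, ⟨hk.1, hkt⟩, hx⟩))
      · exact Or.inr (Or.inr (Or.inl ⟨k, ⟨by omega, hk.2⟩, hx⟩))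
    · rcases lt_trichotomy k t with hkt | rfl | hkt
      · exact Or.inr (Or.inl (Or.inr ⟨k, ⟨hk.1, hkt⟩, hx⟩))
      · exact Or.inl hx.symm
      · exact Or.inr (Or.inr (Or.inr ⟨k, ⟨by omega, hk.2⟩, hx⟩))
  · rintro (hx | (⟨k, hk, hx⟩ | ⟨k, hk, hx⟩) | (⟨k, hk, hx⟩ | ⟨k, hk, hx⟩))
    · exact Or.inr ⟨t, ⟨h1, h2⟩, hx.symm⟩
    · exact Or.inl ⟨k, ⟨hk.1, by omega⟩, hx⟩
    · exact Or.inr ⟨k, ⟨hk.1, by omega⟩, hx⟩
    · exact Or.inl ⟨k, ⟨by omega, hk.2⟩, hx⟩
    · exact Or.inr ⟨k, ⟨by omega, hk.2⟩, hx⟩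

/-- Decomposition of a tree along the path from `r` to `r'`. -/
structure Chain (G : SimpleGraph Pt) (V : Finset Pt) (E : Finset (Sym2 Pt)) (r r' : Pt)
    (L : ℕ) (p : ℕ → Pt) (Vp : ℕ → Finset Pt) (Ep : ℕ → Finset (Sym2 Pt)) : Prop where
  hLT : ∀ i ≤ L, LT G (Vp i) (Ep i)
  hp : ∀ i ≤ L, p i ∈ Vp i
  hd : ∀ i j, i < j → j ≤ L → Disjoint (Vp i) (Vp j)
  hadj : ∀ i < L, G.Adj (p i) (p (i + 1))
  hV : V = VI Vp 0 L
  hE : E = EI p Ep 0 L
  h0 : p 0 = r
  hL : p L = r'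

variable {V : Finset Pt} {E : Finset (Sym2 Pt)} {r r' : Pt} {L : ℕ} {p : ℕ → Pt}
  {Vp : ℕ → Finset Pt} {Ep : ℕ → Finset (Sym2 Pt)}

lemma Chain.disj (h : Chain G V E r r' L p Vp Ep) {i t s j : ℕ} (h1 : t < s) (h2 : j ≤ L) :
    Disjoint (VI Vp i t) (VI Vp s j) := by
  rw [Finset.disjoint_left]
  intro x hx hx'
  rw [mem_VI] at hx hx'
  obtain ⟨k, hk, hx⟩ := hx
  obtain ⟨k', hk', hx'⟩ := hx'
  exact (Finset.disjoint_left.mp (h.hd k k' (by omega) (by omega))) hx hx'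

lemma Chain.p_mem (h : Chain G V E r r' L p Vp Ep) {i k j : ℕ} (h1 : i ≤ k) (h2 : k ≤ j)
    (h3 : j ≤ L) : p k ∈ VI Vp i j :=
  mem_VI.mpr ⟨k, ⟨h1, h2⟩, h.hp k (by omega)⟩

lemma Chain.seg (h : Chain G V E r r' L p Vp Ep) {i : ℕ} :
    ∀ j, i ≤ j → j ≤ L → LT G (VI Vp i j) (EI p Ep i j) := by
  intro j hij
  induction j, hij using Nat.le_induction with
  | base => intro hL; rw [VI_self, EI_self]; exact h.hLT i hL
  | succ j hij ih =>
    intro hL
    rw [VI_split Vp hij (Nat.lt_succ_self j), EI_split p Ep hij (Nat.lt_succ_self j), VI_self,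
      EI_self]
    refine LT.join (ih (by omega)) (h.hLT _ hL) ?_ (h.p_mem hij le_rfl (by omega)) (h.hp _ hL)
      (h.hadj _ (by omega))
    have := h.disj (i := i) (t := j) (s := j + 1) (j := j + 1) (by omega) hL
    rwa [VI_self] at this

lemma Chain.spl (h : Chain G V E r r' L p Vp Ep) {i t j : ℕ} (h1 : i ≤ t) (h2 : t < j)
    (h3 : j ≤ L) : IsSpl G (VI Vp i j) (EI p Ep i j) (p t) (p (t + 1)) (VI Vp i t)
      (VI Vp (t + 1) j) (EI p Ep i t) (EI p Ep (t + 1) j) :=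
  ⟨h.seg t h1 (by omega), h.seg j (by omega) h3, h.disj (by omega) h3,
    h.p_mem h1 le_rfl (by omega), h.p_mem le_rfl (by omega) h3, h.hadj t (by omega),
    VI_split Vp h1 h2, EI_split p Ep h1 h2⟩

lemma Chain.card (h : Chain G V E r r' L p Vp Ep) {i : ℕ} :
    ∀ j, i ≤ j → j ≤ L → (VI Vp i j).card = ∑ y ∈ Ico i (j + 1), (Vp y).card := by
  intro j hij
  induction j, hij using Nat.le_induction with
  | base => intro _; rw [VI_self]; simp
  | succ j hij ih =>
    intro hL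
    rw [VI_split Vp hij (Nat.lt_succ_self j), card_union_of_disjoint
      (h.disj (by omega) hL), ih (by omega), VI_self,
      sum_Ico_succ_top (a := i) (b := j + 1) (by omega)]

lemma prod_pr_bounds {s : Finset ℕ} {f g : ℕ → ℝ} :
    0 ≤ ∏ z ∈ s, pr (f z) (g z) ∧ ∏ z ∈ s, pr (f z) (g z) ≤ 1 :=
  ⟨prod_nonneg fun _ _ => pr_nonneg _ _, prod_le_one (fun _ _ => pr_nonneg _ _)
    fun _ _ => pr_le_one _ _⟩

/-- Flow from the beginning to the end of a segment. -/
lemma Chain.LB_bwd (h : Chain G V E r r' L p Vp Ep) {H t : ℕ} (ht : t ≤ L)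
    (hH : (Vp t).card ≤ H) : ∀ k ≤ t,
      LB G H (VI Vp (t - k) t) (EI p Ep (t - k) t) (p (t - k)) (p t)
        (∏ z ∈ Ico (t - k) t, pr (∑ y ∈ Ico (z + 1) (t + 1), ((Vp y).card : ℝ))
          ((Vp z).card - 1)) := by
  intro k
  induction k with
  | zero =>
    intro _
    simp only [Nat.sub_zero, Ico_self, prod_empty]
    rw [VI_self, EI_self]
    exact LB.base hH (h.hLT t ht).nonempty
  | succ k ih =>
    intro hk
    have hih := ih (by omega)
    have e : t - k = t - (k + 1) + 1 := by omega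
    set i := t - (k + 1) with hi
    rw [e] at hih
    have hs := h.spl (i := i) (t := i) (j := t) le_rfl (by omega) ht
    rw [VI_self, EI_self] at hs
    have hst := LB.step hs.h2 hs.hc (h.p_mem (by omega) le_rfl ht) hs.hadj
      (prod_pr_bounds).1 (prod_pr_bounds).2 hih (Vp i).card (Vp i) (Ep i) le_rfl hs.h1 hs.hr hs.hd
    rw [← hs.hV, ← hs.hE] at hst
    rw [prod_eq_prod_Ico_succ_bot (by omega)]
    have e2 : ((VI Vp (i + 1) t).card : ℝ) = ∑ y ∈ Ico (i + 1) (t + 1), ((Vp y).card : ℝ) := by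
      rw [h.card t (by omega) ht]; push_cast; rfl
    rw [e2] at hst
    exact hst

/-- Flow from the end to the beginning of a segment. -/
lemma Chain.LB_fwd (h : Chain G V E r r' L p Vp Ep) {H i : ℕ}
    (hH : (Vp i).card ≤ H) : ∀ j, i ≤ j → j ≤ L →
      LB G H (VI Vp i j) (EI p Ep i j) (p j) (p i)
        (∏ z ∈ Ico (i + 1) (j + 1), pr (∑ y ∈ Ico i z, ((Vp y).card : ℝ))
          ((Vp z).card - 1)) := by
  intro j hij
  induction j, hij using Nat.le_induction with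
  | base =>
    intro hL
    simp only [Ico_self, prod_empty]
    rw [VI_self, EI_self]
    exact LB.base hH (h.hLT i hL).nonempty
  | succ j hij ih =>
    intro hL
    have hih := ih (by omega)
    have hs := h.spl (i := i) (t := j) (j := j + 1) hij (by omega) hL
    rw [VI_self, EI_self] at hs
    have hst := LB.step hs.h1 hs.hr (h.p_mem le_rfl hij (by omega)) hs.hadj.symm
      (prod_pr_bounds).1 (prod_pr_bounds).2 hih (Vp (j + 1)).card (Vp (j + 1)) (Ep (j + 1)) le_rfl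
      hs.h2 hs.hc hs.hd.symm
    rw [union_comm, union_comm (Ep (j + 1)), Sym2.eq_swap, ← hs.hV, ← hs.hE] at hst
    rw [prod_Ico_succ_top (by omega), mul_comm]
    have e2 : ((VI Vp i j).card : ℝ) = ∑ y ∈ Ico i (j + 1), ((Vp y).card : ℝ) := by
      rw [h.card j (by omega) (by omega)]; push_cast; rfl
    rw [e2] at hst
    exact hst

lemma VI_shift_index {Vp' : ℕ → Finset Pt} {A : Finset Pt} (L : ℕ) :
    VI (fun i => if i = 0 then A else Vp' (i - 1)) 1 (L + 1) = VI Vp' 0 L := by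
  ext x
  simp only [mem_VI]
  constructor
  · rintro ⟨k, hk, hx⟩
    rw [if_neg (by omega)] at hx
    exact ⟨k - 1, ⟨by omega, by omega⟩, hx⟩
  · rintro ⟨k, hk, hx⟩
    refine ⟨k + 1, ⟨by omega, by omega⟩, ?_⟩
    rw [if_neg (by omega), Nat.add_sub_cancel]
    exact hx

lemma EI_shift_index {p' : ℕ → Pt} {Ep' : ℕ → Finset (Sym2 Pt)} {a : Pt} {B : Finset (Sym2 Pt)}
    (L : ℕ) :
    EI (fun i => if i = 0 then a else p' (i - 1)) (fun i => if i = 0 then B else Ep' (i - 1))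
      1 (L + 1) = EI p' Ep' 0 L := by
  ext x
  simp only [mem_EI]
  constructor
  · rintro (⟨k, hk, hx⟩ | ⟨k, hk, hx⟩)
    · rw [if_neg (by omega)] at hx
      exact Or.inl ⟨k - 1, ⟨by omega, by omega⟩, hx⟩
    · rw [if_neg (by omega), if_neg (by omega)] at hx
      refine Or.inr ⟨k - 1, ⟨by omega, by omega⟩, ?_⟩
      rw [← hx, show k + 1 - 1 = k - 1 + 1 by omega]
  · rintro (⟨k, hk, hx⟩ | ⟨k, hk, hx⟩)
    · refine Or.inl ⟨k + 1, ⟨by omega, by omega⟩, ?_⟩
      rw [if_neg (by omega), Nat.add_sub_cancel]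
      exact hx
    · refine Or.inr ⟨k + 1, ⟨by omega, by omega⟩, ?_⟩
      rw [if_neg (by omega), if_neg (by omega), Nat.add_sub_cancel, Nat.add_sub_cancel]
      exact hx

/-- Every tree can be decomposed along the path between two of its vertices. -/
lemma exists_chain : ∀ (n : ℕ) (V : Finset Pt) (E : Finset (Sym2 Pt)), V.card ≤ n → LT G V E →
    ∀ r ∈ V, ∀ r' ∈ V, ∃ L p Vp Ep, Chain G V E r r' L p Vp Ep := by
  intro n
  induction n with
  | zero =>
    intro V E hn h r hr r' hr'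
    have : V.card = 0 := by omega
    rw [card_eq_zero] at this
    rw [this] at hr
    exact absurd hr (notMem_empty _)
  | succ n ih =>
    intro V E hn h r hr r' hr'
    by_cases hrr : r' = r
    · subst hrr
      refine ⟨0, fun _ => r', fun _ => V, fun _ => E, ⟨fun _ _ => h, fun _ _ => hr,
        fun i j hij hj => by omega, fun i hi => by omega, ?_, ?_, rfl, rfl⟩⟩
      · rw [VI_self]
      · rw [EI_self]
    · obtain ⟨c, V₁, V₂, E₁, E₂, hs, hr2⟩ := (h.toLTr r hr).rootSplit r' hr' hrr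
      have hcard := hs.card
      have h1 : 1 ≤ V₁.card := card_pos.mpr ⟨r, hs.hr⟩
      obtain ⟨L', p', Vp', Ep', hch⟩ := ih V₂ E₂ (by omega) hs.h2 c hs.hc r' hr2
      refine ⟨L' + 1, fun i => if i = 0 then r else p' (i - 1),
        fun i => if i = 0 then V₁ else Vp' (i - 1), fun i => if i = 0 then E₁ else Ep' (i - 1),
        ⟨?_, ?_, ?_, ?_, ?_, ?_, ?_, ?_⟩⟩
      · intro i hi
        rcases Nat.eq_zero_or_pos i with h0 | h0
        · simp only [h0, if_true]; exact hs.h1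
        · simp only [if_neg h0.ne']; exact hch.hLT _ (by omega)
      · intro i hi
        rcases Nat.eq_zero_or_pos i with h0 | h0
        · simp only [h0, if_true]; exact hs.hr
        · simp only [if_neg h0.ne']; exact hch.hp _ (by omega)
      · intro i j hij hj
        have hj0 : j ≠ 0 := by omega
        simp only [if_neg hj0]
        rcases Nat.eq_zero_or_pos i with h0 | h0
        · simp only [h0, if_true]
          refine hs.hd.mono_right ?_
          rw [hch.hV]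
          intro x hx
          exact mem_VI.mpr ⟨j - 1, ⟨by omega, by omega⟩, hx⟩
        · simp only [if_neg h0.ne']
          exact hch.hd _ _ (by omega) (by omega)
      · intro i hi
        have hi1 : i + 1 ≠ 0 := by omega
        simp only [if_neg hi1, Nat.add_sub_cancel]
        rcases Nat.eq_zero_or_pos i with h0 | h0
        · simp only [h0, if_true]
          rw [hch.h0]; exact hs.hadj
        · simp only [if_neg h0.ne']
          have := hch.hadj (i - 1) (by omega)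
          rwa [show i - 1 + 1 = i by omega] at this
      · rw [VI_split _ (le_refl 0) (by omega), VI_self, zero_add, VI_shift_index, ← hch.hV]
        simp only [if_true]
        exact hs.hV
      · rw [EI_split _ _ (le_refl 0) (by omega), EI_self, zero_add, EI_shift_index, ← hch.hE]
        simp only [if_true]
        rw [if_neg (by omega), Nat.sub_self, hch.h0]
        exact hs.hE
      · simp only [if_true]
      · simp only [Nat.add_sub_cancel]
        rw [if_neg (by omega)]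
        exact hch.hL

end Pool.Agent.H97.LTCore
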