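import Mathlib

set_option autoImplicit false

/-!
Definitions for random lattice trees: planar lattices in integer coordinates together with their
embedding in the Euclidean plane, the set of lattice trees with `n` vertices containing the
origin, and the mean diameter of a uniformly random one.
-/

namespace Pool.Agent.H97.LTDefs

/-- The square lattice. -/
def square : SimpleGraph (ℤ × ℤ) :=
  SimpleGraph.fromRel fun p q => q - p = (1, 0) ∨ q - p = (0, 1)

/-- The triangular lattice; the point `(x, y)` stands for `x • (1, 0) + y • (-1/2, √3/2)`, so the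
six neighbours of a point differ from it by `±(1, 0)`, `±(0, 1)` and `±(1, 1)`. -/
def triangular : SimpleGraph (ℤ × ℤ) :=
  SimpleGraph.fromRel fun p q => q - p = (1, 0) ∨ q - p = (0, 1) ∨ q - p = (1, 1)

/-- Position in the plane of the vertices of the square lattice. -/
noncomputable def squarePos (p : ℤ × ℤ) : EuclideanSpace ℝ (Fin 2) := !₂[(p.1 : ℝ), (p.2 : ℝ)]

/-- Position in the plane of the vertices of the triangular lattice. -/
noncomputable def triangularPos (p : ℤ × ℤ) : EuclideanSpace ℝ (Fin 2) :=
  !₂[(p.1 : ℝ) - p.2 / 2, √3 / 2 * p.2]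

/-- The lattice trees of `G` with exactly `n` vertices that contain the origin. -/
def treesAt (G : SimpleGraph (ℤ × ℤ)) (n : ℕ) : Set G.Subgraph :=
  {T | (0, 0) ∈ T.verts ∧ T.verts.ncard = n ∧ T.coe.IsTree}

/-- A subgraph as a subset of the plane: the union of its vertices and of its edge segments. -/
def body (G : SimpleGraph (ℤ × ℤ)) (pos : ℤ × ℤ → EuclideanSpace ℝ (Fin 2)) (T : G.Subgraph) :
    Set (EuclideanSpace ℝ (Fin 2)) :=
  pos '' T.verts ∪ ⋃ (p : ℤ × ℤ) (q : ℤ × ℤ) (_ : T.Adj p q), segment ℝ (pos p) (pos q)

/-- The expected diameter of a uniformly random lattice tree with `n` vertices containing the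
origin. -/
noncomputable def meanDiam (G : SimpleGraph (ℤ × ℤ)) (pos : ℤ × ℤ → EuclideanSpace ℝ (Fin 2))
    (n : ℕ) : ℝ :=
  (∑ᶠ T ∈ treesAt G n, Metric.diam (body G pos T)) / (treesAt G n).ncard

/-- The probability that the diameter of a uniformly random lattice tree with `n` vertices
containing the origin is at least `a`. -/
noncomputable def probDiam (G : SimpleGraph (ℤ × ℤ)) (pos : ℤ × ℤ → EuclideanSpace ℝ (Fin 2))
    (n : ℕ) (a : ℝ) : ℝ :=
  ({T ∈ treesAt G n | a ≤ Metric.diam (body G pos T)}.ncard : ℝ) / (treesAt G n).ncard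

end Pool.Agent.H97.LTDefs
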