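import Mathlib

set_option autoImplicit false
set_option linter.unusedSectionVars false

open Finset

namespace Pool.Agent.H97.LTSeq

variable {N : ℕ} [NeZero N]

/-- Sum of the `s` consecutive masses starting at `t` (cyclically). -/
def M (m : ZMod N → ℝ) (t : ZMod N) (s : ℕ) : ℝ := ∑ j ∈ range s, m (t + j)

lemma M_succ (m : ZMod N → ℝ) (t : ZMod N) (s : ℕ) : M m t (s + 1) = M m t s + m (t + s) := by
  unfold M; rw [sum_range_succ]

lemma M_add (m : ZMod N → ℝ) (t : ZMod N) (s s' : ℕ) :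
    M m t (s + s') = M m t s + M m (t + s) s' := by
  unfold M
  rw [sum_range_add]
  congr 1
  refine sum_congr rfl fun j _ => ?_
  push_cast
  rw [add_assoc]

lemma M_mul (m : ZMod N → ℝ) (t : ZMod N) (s b : ℕ) :
    M m t (b * s) = ∑ j ∈ range b, M m (t + (j * s : ℕ)) s := by
  induction b with
  | zero => simp [M]
  | succ b ih =>
    rw [Nat.succ_mul, M_add, ih, sum_range_succ]

variable {m : ZMod N → ℝ} (hm : ∀ i, 1 ≤ m i)

include hm in
lemma le_M (t : ZMod N) (s : ℕ) : (s : ℝ) ≤ M m t s := by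
  unfold M
  calc (s : ℝ) = ∑ _j ∈ range s, (1 : ℝ) := by simp
    _ ≤ _ := sum_le_sum fun j _ => hm _

include hm in
lemma M_pos (t : ZMod N) {s : ℕ} (hs : 1 ≤ s) : 0 < M m t s :=
  lt_of_lt_of_le (by exact_mod_cast hs) (le_M hm t s)

include hm in
lemma one_le_M (t : ZMod N) {s : ℕ} (hs : 1 ≤ s) : 1 ≤ M m t s :=
  le_trans (by exact_mod_cast hs) (le_M hm t s)

include hm in
lemma M_mono (t : ZMod N) {s s' : ℕ} (h : s ≤ s') : M m t s ≤ M m t s' := by
  unfold M
  exact sum_le_sum_of_subset_of_nonneg (range_mono h) fun j _ _ => by linarith [hm (t + j)]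

include hm in
lemma M_le (t : ZMod N) {s : ℕ} (hs : s ≤ N) : M m t s ≤ ∑ i, m i := by
  unfold M
  have hinj : Set.InjOn (fun j : ℕ => t + (j : ZMod N)) (range s : Set ℕ) := by
    intro a ha b hb hab
    simp only [coe_range, Set.mem_Iio] at ha hb
    have h1 : ((a : ℕ) : ZMod N) = (b : ℕ) := add_left_cancel hab
    rw [ZMod.natCast_eq_natCast_iff'] at h1
    rwa [Nat.mod_eq_of_lt (by omega), Nat.mod_eq_of_lt (by omega)] at h1
  rw [← sum_image (f := m) (g := fun j : ℕ => t + (j : ZMod N)) hinj]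
  exact sum_le_sum_of_subset_of_nonneg (subset_univ _) fun j _ _ => by linarith [hm j]

lemma sum_shift (f : ZMod N → ℝ) (s : ZMod N) : ∑ t, f (t + s) = ∑ t, f t :=
  Equiv.sum_comp (Equiv.addRight s) f

/-- Total logarithmic mass at scale `s`. -/
noncomputable def S (m : ZMod N → ℝ) (s : ℕ) : ℝ := ∑ t, Real.log (M m t s)

/-- The gap in the AM-GM inequality for two adjacent windows. -/
noncomputable def phi (m : ZMod N → ℝ) (s : ℕ) (t : ZMod N) : ℝ :=
  Real.log (M m t (2 * s)) - (Real.log (M m t s) + Real.log (M m (t + s) s)) / 2 - Real.log 2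

lemma two_mul_M (t : ZMod N) (s : ℕ) : M m t (2 * s) = M m t s + M m (t + s) s := by
  rw [two_mul, M_add]

lemma log_amgm {a b : ℝ} (ha : 0 < a) (hb : 0 < b) :
    (Real.log a + Real.log b) / 2 + Real.log 2 ≤ Real.log (a + b) := by
  have h1 : Real.log (4 * (a * b)) ≤ Real.log ((a + b) ^ 2) :=
    Real.log_le_log (by positivity) (by nlinarith [sq_nonneg (a - b)])
  rw [Real.log_mul (by norm_num) (by positivity), Real.log_mul ha.ne' hb.ne', Real.log_pow] at h1
  have h2 : Real.log 4 = 2 * Real.log 2 := by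
    rw [show (4 : ℝ) = 2 ^ 2 by norm_num, Real.log_pow]; norm_num
  rw [h2] at h1
  push_cast at h1
  linarith

include hm in
lemma phi_nonneg {s : ℕ} (hs : 1 ≤ s) (t : ZMod N) : 0 ≤ phi m s t := by
  unfold phi
  rw [two_mul_M]
  have := log_amgm (M_pos hm t hs) (M_pos hm (t + s) hs)
  linarith

lemma sum_phi (s : ℕ) : ∑ t, phi m s t = S m (2 * s) - S m s - N * Real.log 2 := by
  unfold phi S
  rw [sum_sub_distrib, sum_sub_distrib, ← sum_div, sum_add_distrib,
    sum_shift (fun t => Real.log (M m t s)) (s : ZMod N)]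
  simp only [sum_const, card_univ, ZMod.card, nsmul_eq_mul]
  ring

lemma sum_sum_phi (J : ℕ) :
    ∑ i ∈ range J, ∑ t, phi m (2 ^ i) t = S m (2 ^ J) - S m 1 - J * (N * Real.log 2) := by
  induction J with
  | zero => simp
  | succ J ih =>
    rw [sum_range_succ, ih, sum_phi, show 2 * 2 ^ J = 2 ^ (J + 1) by rw [pow_succ]; ring]
    push_cast
    ring

include hm in
/-- The total gap over dyadic scales. -/
lemma total_gap {n : ℝ} (hn : ∑ i, m i ≤ n) {J : ℕ} (hJ : 2 ^ J ≤ N) (hJ' : N < 2 ^ (J + 1)) :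
    ∑ i ∈ range J, ∑ t, phi m (2 ^ i) t ≤ N * Real.log (2 * n / N) := by
  have hN : 0 < N := Nat.pos_of_ne_zero (NeZero.ne N)
  have hn0 : 0 < n := lt_of_lt_of_le (lt_of_lt_of_le one_pos (le_trans (hm 0)
    (single_le_sum (f := m) (fun i _ => by linarith [hm i]) (mem_univ 0)))) hn
  rw [sum_sum_phi]
  have h1 : S m (2 ^ J) ≤ N * Real.log n := by
    unfold S
    calc ∑ t, Real.log (M m t (2 ^ J)) ≤ ∑ _t : ZMod N, Real.log n :=
          sum_le_sum fun t _ => Real.log_le_log (M_pos hm t Nat.one_le_two_pow)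
            ((M_le hm t hJ).trans hn)
      _ = N * Real.log n := by simp [ZMod.card]
  have h2 : 0 ≤ S m 1 := sum_nonneg fun t _ => Real.log_nonneg (one_le_M hm t le_rfl)
  have h3 : Real.log N ≤ Real.log 2 + J * Real.log 2 := by
    have : Real.log (N : ℝ) ≤ Real.log ((2 : ℝ) ^ (J + 1)) :=
      Real.log_le_log (by exact_mod_cast hN) (by exact_mod_cast hJ'.le)
    rw [Real.log_pow] at this
    push_cast at this
    linarith
  have h4 : Real.log (2 * n / N) = Real.log 2 + Real.log n - Real.log N := by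
    rw [Real.log_div (by positivity) (by positivity), Real.log_mul (by norm_num) hn0.ne']
  rw [h4]
  have hN' : (0 : ℝ) ≤ N := by positivity
  nlinarith [mul_le_mul_of_nonneg_left h3 hN']


include hm in
/-- telescoping over a range of distances -/
lemma shell_sum (t : ZMod N) {a b : ℕ} (ha : 1 ≤ a) (hab : a ≤ b) :
    ∑ d ∈ Ico a b, Real.log (1 + m (t + d) / M m t d) =
      Real.log (M m t b) - Real.log (M m t a) := by
  induction b, hab using Nat.le_induction with
  | base => simp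
  | succ b hab ih =>
    rw [sum_Ico_succ_top hab, ih]
    have h1 : 0 < M m t b := M_pos hm t (ha.trans hab)
    have h2 : 1 + m (t + b) / M m t b = M m t (b + 1) / M m t b := by
      rw [M_succ]; field_simp
    rw [h2, Real.log_div (M_pos hm t (by omega)).ne' h1.ne']
    ring

/-- The AM-GM gap for `b` consecutive windows of length `s`. -/
noncomputable def gap (m : ZMod N → ℝ) (b s : ℕ) (t : ZMod N) : ℝ :=
  Real.log (M m t (b * s)) - Real.log b -
    (∑ j ∈ range b, Real.log (M m (t + (j * s : ℕ)) s)) / b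

lemma sum_gap {b : ℕ} (hb : 0 < b) (s : ℕ) :
    ∑ t, gap m b s t = S m (b * s) - S m s - N * Real.log b := by
  unfold gap
  rw [sum_sub_distrib, sum_sub_distrib, ← sum_div, sum_comm]
  have h1 : ∀ j ∈ range b, ∑ t, Real.log (M m (t + (j * s : ℕ)) s) = S m s := fun j _ =>
    sum_shift (fun t => Real.log (M m t s)) _
  rw [sum_congr rfl h1]
  simp only [sum_const, card_univ, ZMod.card, nsmul_eq_mul, card_range]
  unfold S
  have : (b : ℝ) ≠ 0 := by positivity
  field_simp
  ring

lemma sum_gap_two_pow (g s : ℕ) :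
    ∑ t, gap m (2 ^ g) s t = ∑ k ∈ range g, ∑ t, phi m (2 ^ k * s) t := by
  rw [sum_gap (by positivity)]
  induction g with
  | zero => simp
  | succ g ih =>
    rw [sum_range_succ, ← ih, sum_phi, show 2 * (2 ^ g * s) = 2 ^ (g + 1) * s by rw [pow_succ]; ring]
    push_cast
    rw [pow_succ (2 : ℝ), Real.log_mul (by positivity) (by norm_num)]
    ring

include hm in
lemma gap_nonneg {b s : ℕ} (hb : 0 < b) (hs : 1 ≤ s) (t : ZMod N) : 0 ≤ gap m b s t := by
  unfold gap
  have hbs : 1 ≤ b * s := Nat.mul_pos hb hs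
  have hM := M_pos hm t hbs
  have hb' : (0 : ℝ) < b := by exact_mod_cast hb
  have h1 : ∀ j ∈ range b, Real.log (M m (t + (j * s : ℕ)) s) ≤
      M m (t + (j * s : ℕ)) s * (b / M m t (b * s)) + (Real.log (M m t (b * s)) - Real.log b) - 1 := by
    intro j _
    have hv := M_pos hm (t + (j * s : ℕ)) hs
    have := Real.log_le_sub_one_of_pos (x := M m (t + (j * s : ℕ)) s * (b / M m t (b * s)))
      (by positivity)
    rw [Real.log_mul hv.ne' (by positivity), Real.log_div hb'.ne' hM.ne'] at this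
    linarith
  have h2 := sum_le_sum h1
  rw [sum_sub_distrib, sum_add_distrib, ← sum_mul, ← M_mul] at h2
  simp only [sum_const, card_range, nsmul_eq_mul, mul_one] at h2
  rw [show M m t (b * s) * (b / M m t (b * s)) = b by field_simp] at h2
  rw [sub_nonneg, div_le_iff₀ hb']
  linarith

include hm in
/-- A window with an atom of relative mass at least `c` has a large gap. -/
lemma gap_lower {b s : ℕ} (hb : 0 < b) (hs : 1 ≤ s) (t : ZMod N) {d : ℕ} (hd : d < b * s) {c : ℝ}
    (hc : c * M m t (b * s) ≤ m (t + d)) : c - (1 + Real.log b) / b ≤ gap m b s t := by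
  unfold gap
  have hbs : 1 ≤ b * s := Nat.mul_pos hb hs
  have hM := M_pos hm t hbs
  have hb' : (0 : ℝ) < b := by exact_mod_cast hb
  have hj : d / s ∈ range b := by
    rw [mem_range]; exact Nat.div_lt_of_lt_mul (by rwa [mul_comm])
  have h1 : ∀ j ∈ (range b).erase (d / s), Real.log (M m (t + (j * s : ℕ)) s) ≤
      M m (t + (j * s : ℕ)) s * (b / M m t (b * s)) + (Real.log (M m t (b * s)) - Real.log b) - 1 := by
    intro j _
    have hv := M_pos hm (t + (j * s : ℕ)) hs
    have := Real.log_le_sub_one_of_pos (x := M m (t + (j * s : ℕ)) s * (b / M m t (b * s)))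
      (by positivity)
    rw [Real.log_mul hv.ne' (by positivity), Real.log_div hb'.ne' hM.ne'] at this
    linarith
  have h2 := sum_le_sum h1
  rw [sum_sub_distrib, sum_add_distrib, ← sum_mul] at h2
  simp only [sum_const, nsmul_eq_mul, mul_one, card_erase_of_mem hj, card_range] at h2
  have h3 : M m (t + (d / s * s : ℕ)) s + ∑ j ∈ (range b).erase (d / s), M m (t + (j * s : ℕ)) s =
      M m t (b * s) := by
    rw [M_mul, add_sum_erase (f := fun j : ℕ => M m (t + (j * s : ℕ)) s) _ hj]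
  have h4 : m (t + d) ≤ M m (t + (d / s * s : ℕ)) s := by
    unfold M
    have : m (t + d) = m (t + (d / s * s : ℕ) + ((d % s : ℕ) : ZMod N)) := by
      rw [add_assoc, ← Nat.cast_add, Nat.div_add_mod']
    rw [this]
    exact single_le_sum (f := fun j : ℕ => m (t + (d / s * s : ℕ) + (j : ZMod N)))
      (fun i _ => by linarith [hm (t + (d / s * s : ℕ) + (i : ZMod N))])
      (mem_range.mpr (Nat.mod_lt _ hs))
  have h5 : M m (t + (d / s * s : ℕ)) s ≤ M m t (b * s) := by
    have : 0 ≤ ∑ j ∈ (range b).erase (d / s), M m (t + (j * s : ℕ)) s :=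
      sum_nonneg fun j _ => (M_pos hm _ hs).le
    linarith
  have h6 : Real.log (M m (t + (d / s * s : ℕ)) s) ≤ Real.log (M m t (b * s)) :=
    Real.log_le_log (M_pos hm _ hs) h5
  have h7 : ∑ j ∈ range b, Real.log (M m (t + (j * s : ℕ)) s) =
      Real.log (M m (t + (d / s * s : ℕ)) s) +
      ∑ j ∈ (range b).erase (d / s), Real.log (M m (t + (j * s : ℕ)) s) := by
    rw [add_sum_erase (f := fun j : ℕ => Real.log (M m (t + (j * s : ℕ)) s)) _ hj]
  have h8 : (∑ j ∈ (range b).erase (d / s), M m (t + (j * s : ℕ)) s) * (b / M m t (b * s)) ≤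
      (1 - c) * b := by
    have : (∑ j ∈ (range b).erase (d / s), M m (t + (j * s : ℕ)) s) ≤ (1 - c) * M m t (b * s) := by
      linarith
    calc _ ≤ ((1 - c) * M m t (b * s)) * (b / M m t (b * s)) := by gcongr
      _ = (1 - c) * b := by field_simp
  rw [h7]
  have h9 : ((b - 1 : ℕ) : ℝ) = (b : ℝ) - 1 := by
    rw [Nat.cast_sub (by omega)]; simp
  rw [h9] at h2
  have h10 : (Real.log (M m (t + (d / s * s : ℕ)) s) +
      ∑ j ∈ (range b).erase (d / s), Real.log (M m (t + (j * s : ℕ)) s)) / b ≤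
      Real.log (M m t (b * s)) - Real.log b - c + (1 + Real.log b) / b := by
    rw [div_le_iff₀ hb', add_mul, div_mul_cancel₀ _ hb'.ne']
    nlinarith
  linarith


lemma log_one_add_sq_le {x c : ℝ} (hx : 0 ≤ x) (hc : c ≤ 1) (hxc : x ≤ c) :
    Real.log (1 + x ^ 2) ≤ 2 * c * Real.log (1 + x) := by
  have h1 : Real.log (1 + x ^ 2) ≤ x ^ 2 := by
    have := Real.log_le_sub_one_of_pos (x := 1 + x ^ 2) (by positivity)
    linarith
  have h2 : x / 2 ≤ Real.log (1 + x) := by
    have h3 := Real.one_sub_inv_le_log_of_pos (x := 1 + x) (by positivity)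
    have h4 : x / 2 ≤ 1 - (1 + x)⁻¹ := by
      rw [div_le_iff₀ (by norm_num)]
      have : (1 + x) * (1 + x)⁻¹ = 1 := mul_inv_cancel₀ (by positivity)
      have h5 : (1 + x)⁻¹ = 1 / (1 + x) := by rw [one_div]
      rw [h5]
      have h6 : 1 - 1 / (1 + x) = x / (1 + x) := by field_simp; ring
      rw [h6, div_mul_eq_mul_div, le_div_iff₀ (by positivity)]
      nlinarith
    linarith
  have h3 : 0 ≤ c := hx.trans hxc
  calc Real.log (1 + x ^ 2) ≤ x ^ 2 := h1
    _ ≤ 2 * c * (x / 2) := by nlinarith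
    _ ≤ _ := by gcongr

lemma log_one_add_sq_le' {x : ℝ} (hx : 0 ≤ x) :
    Real.log (1 + x ^ 2) ≤ 2 * Real.log (1 + x) := by
  have : Real.log (1 + x ^ 2) ≤ Real.log ((1 + x) ^ 2) :=
    Real.log_le_log (by positivity) (by nlinarith)
  rw [Real.log_pow] at this
  exact_mod_cast this

open Classical in
/-- indicator of a lumpy pair -/
noncomputable def lump (m : ZMod N → ℝ) (c : ℝ) (s : ℕ) (t : ZMod N) : ℝ :=
  if (∃ d ∈ Ico s (2 * s), c * M m t d < m (t + d)) ∧ M m t (2 * s) ≤ 8 * M m t s then 1 else 0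

include hm in
lemma shell_cost {c : ℝ} (hc0 : 0 ≤ c) (hc : c ≤ 1) {s : ℕ} (hs : 1 ≤ s) (t : ZMod N) :
    ∑ d ∈ Ico s (2 * s), Real.log (1 + (m (t + d) / M m t d) ^ 2) ≤
      2 * c * ∑ d ∈ Ico s (2 * s), Real.log (1 + m (t + d) / M m t d) +
      2 * (6 * phi m s t + Real.log 8 * lump m c s t) := by
  have hx : ∀ d ∈ Ico s (2 * s), 0 ≤ m (t + d) / M m t d := by
    intro d hd
    rw [mem_Ico] at hd
    exact div_nonneg (by linarith [hm (t + d)]) (M_pos hm t (hs.trans hd.1)).le
  have hlog : ∀ d ∈ Ico s (2 * s), 0 ≤ Real.log (1 + m (t + d) / M m t d) := fun d hd =>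
    Real.log_nonneg (by linarith [hx d hd])
  have hphi := phi_nonneg hm hs t
  have hl8 : 0 ≤ Real.log 8 := Real.log_nonneg (by norm_num)
  have hlump0 : 0 ≤ lump m c s t := by unfold lump; split_ifs <;> norm_num
  by_cases hex : ∃ d ∈ Ico s (2 * s), c * M m t d < m (t + d)
  · -- there is a heavy atom
    have h1 : ∑ d ∈ Ico s (2 * s), Real.log (1 + (m (t + d) / M m t d) ^ 2) ≤
        2 * ∑ d ∈ Ico s (2 * s), Real.log (1 + m (t + d) / M m t d) := by
      rw [mul_sum]
      exact sum_le_sum fun d hd => log_one_add_sq_le' (hx d hd)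
    have h2 : ∑ d ∈ Ico s (2 * s), Real.log (1 + m (t + d) / M m t d) ≤
        6 * phi m s t + Real.log 8 * lump m c s t := by
      rw [shell_sum hm t hs (by omega)]
      have hMs := M_pos hm t hs
      have hM2 := M_pos hm t (show 1 ≤ 2 * s by omega)
      by_cases hr : M m t (2 * s) ≤ 8 * M m t s
      · have h3 : lump m c s t = 1 := by unfold lump; rw [if_pos ⟨hex, hr⟩]
        rw [h3, mul_one]
        have h4 : Real.log (M m t (2 * s)) ≤ Real.log 8 + Real.log (M m t s) := by
          rw [← Real.log_mul (by norm_num) hMs.ne']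
          exact Real.log_le_log hM2 hr
        linarith
      · push Not at hr
        have h3 : 6 * phi m s t ≥ Real.log (M m t (2 * s)) - Real.log (M m t s) := by
          unfold phi
          have h5 : Real.log (M m (t + s) s) ≤ Real.log (M m t (2 * s)) := by
            refine Real.log_le_log (M_pos hm _ hs) ?_
            rw [two_mul_M]; linarith
          have h6 : Real.log 8 + Real.log (M m t s) ≤ Real.log (M m t (2 * s)) := by
            rw [← Real.log_mul (by norm_num) hMs.ne']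
            exact Real.log_le_log (by positivity) hr.le
          have h7 : Real.log 8 = 3 * Real.log 2 := by
            rw [show (8 : ℝ) = 2 ^ 3 by norm_num, Real.log_pow]; norm_num
          rw [h7] at h6
          linarith
        have : 0 ≤ Real.log 8 * lump m c s t := mul_nonneg hl8 hlump0
        linarith
    have h3 : 0 ≤ 2 * c * ∑ d ∈ Ico s (2 * s), Real.log (1 + m (t + d) / M m t d) :=
      mul_nonneg (by linarith) (sum_nonneg hlog)
    linarith
  · push Not at hex
    have h1 : ∑ d ∈ Ico s (2 * s), Real.log (1 + (m (t + d) / M m t d) ^ 2) ≤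
        2 * c * ∑ d ∈ Ico s (2 * s), Real.log (1 + m (t + d) / M m t d) := by
      rw [mul_sum]
      refine sum_le_sum fun d hd => log_one_add_sq_le (hx d hd) hc ?_
      rw [div_le_iff₀ (M_pos hm t (hs.trans (mem_Ico.mp hd).1))]
      exact hex d hd
    have h2 : 0 ≤ Real.log 8 * lump m c s t := mul_nonneg hl8 hlump0
    linarith

include hm in
lemma lump_le_gap {c g0 : ℝ} (hc0 : 0 ≤ c) {g : ℕ}
    (hg : g0 ≤ c / 8 - (1 + Real.log ((2 ^ g : ℕ) : ℝ)) / ((2 ^ g : ℕ) : ℝ)) {i : ℕ} (hi : g ≤ i + 1)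
    (t : ZMod N) :
    g0 * lump m c (2 ^ i) t ≤ gap m (2 ^ g) (2 ^ (i + 1 - g)) t := by
  unfold lump
  split_ifs with h
  · obtain ⟨⟨d, hd, hlt⟩, hr⟩ := h
    rw [mul_one]
    have e : 2 ^ g * 2 ^ (i + 1 - g) = 2 * 2 ^ i := by
      rw [← pow_add, show g + (i + 1 - g) = i + 1 by omega, pow_succ]; ring
    rw [mem_Ico] at hd
    refine hg.trans (gap_lower hm (by positivity) Nat.one_le_two_pow t (d := d) (c := c / 8) ?_ ?_)
    · rw [e]; exact hd.2
    · rw [e]
      have h1 : M m t (2 ^ i) ≤ M m t d := M_mono hm t hd.1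
      have h2 : c * M m t (2 ^ i) ≤ c * M m t d := mul_le_mul_of_nonneg_left h1 hc0
      have h3 : c / 8 * M m t (2 * 2 ^ i) ≤ c / 8 * (8 * M m t (2 ^ i)) :=
        mul_le_mul_of_nonneg_left hr (by linarith)
      linarith
  · rw [mul_zero]
    exact gap_nonneg hm (by positivity) Nat.one_le_two_pow t

include hm in
/-- total number of lumpy pairs -/
lemma sum_lump {n : ℝ} (hn : ∑ i, m i ≤ n) {J : ℕ} (hJ : 2 ^ J ≤ N) (hJ' : N < 2 ^ (J + 1))
    {c g0 : ℝ} (hc0 : 0 ≤ c) (hg0 : 0 < g0) {g : ℕ}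
    (hg : g0 ≤ c / 8 - (1 + Real.log ((2 ^ g : ℕ) : ℝ)) / ((2 ^ g : ℕ) : ℝ)) :
    ∑ i ∈ range J, ∑ t, lump m c (2 ^ i) t ≤
      g / g0 * (N * Real.log (2 * n / N)) + g * N := by
  have hlump1 : ∀ s t, lump m c s t ≤ 1 := by intro s t; unfold lump; split_ifs <;> norm_num
  have h1 : ∀ i ∈ range J, ∑ t, lump m c (2 ^ i) t ≤
      (1 / g0) * (if g ≤ i + 1 then ∑ k ∈ range g, ∑ t, phi m (2 ^ k * 2 ^ (i + 1 - g)) t else 0) +
      (if g ≤ i + 1 then 0 else (N : ℝ)) := by
    intro i _
    split_ifs with hi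
    · rw [← sum_gap_two_pow, add_zero, mul_sum]
      refine sum_le_sum fun t _ => ?_
      have := lump_le_gap hm hc0 hg hi t
      rw [div_mul_eq_mul_div, one_mul, le_div_iff₀ hg0]
      linarith
    · rw [mul_zero, zero_add]
      calc ∑ t, lump m c (2 ^ i) t ≤ ∑ _t : ZMod N, (1 : ℝ) := sum_le_sum fun t _ => hlump1 _ t
        _ = N := by simp [ZMod.card]
  refine (sum_le_sum h1).trans ?_
  rw [sum_add_distrib, ← mul_sum]
  have h2 : ∑ i ∈ range J, (if g ≤ i + 1 then (0 : ℝ) else N) ≤ g * N := by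
    have h3 : ∑ i ∈ range J, (if g ≤ i + 1 then (0 : ℝ) else N) ≤
        ∑ i ∈ range J, (if i ∈ range g then (N : ℝ) else 0) := by
      refine sum_le_sum fun i _ => ?_
      split_ifs with h4 h5 h5
      · positivity
      · rfl
      · rfl
      · rw [mem_range] at h5; omega
    refine h3.trans ?_
    rw [sum_ite_mem, sum_const, nsmul_eq_mul]
    have : (range J ∩ range g).card ≤ g := by
      calc _ ≤ (range g).card := card_le_card inter_subset_right
        _ = g := card_range g
    have : ((range J ∩ range g).card : ℝ) ≤ g := by exact_mod_cast this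
    gcongr
  have h4 : ∑ i ∈ range J, (if g ≤ i + 1 then
      ∑ k ∈ range g, ∑ t, phi m (2 ^ k * 2 ^ (i + 1 - g)) t else 0) ≤
      g * (N * Real.log (2 * n / N)) := by
    have h5 : ∑ i ∈ range J, (if g ≤ i + 1 then
        ∑ k ∈ range g, ∑ t, phi m (2 ^ k * 2 ^ (i + 1 - g)) t else 0) =
        ∑ k ∈ range g, ∑ i ∈ range J, (if g ≤ i + 1 then
          ∑ t, phi m (2 ^ (k + (i + 1 - g))) t else 0) := by
      rw [sum_comm]
      refine sum_congr rfl fun i _ => ?_
      split_ifs
      · exact sum_congr rfl fun k _ => by rw [pow_add]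
      · simp
    rw [h5]
    calc _ ≤ ∑ _k ∈ range g, (N * Real.log (2 * n / N)) := by
          refine sum_le_sum fun k hk => ?_
          rw [mem_range] at hk
          refine le_trans ?_ (total_gap hm hn hJ hJ')
          rw [← sum_filter]
          have hinj : Set.InjOn (fun i => k + (i + 1 - g))
              ((range J).filter (fun i => g ≤ i + 1) : Set ℕ) := by
            intro a ha b hb hab
            simp only [coe_filter, Set.mem_ofPred_eq] at ha hb hab
            omega
          rw [← sum_image (f := fun j => ∑ t, phi m (2 ^ j) t)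
            (g := fun i => k + (i + 1 - g)) hinj]
          refine sum_le_sum_of_subset_of_nonneg ?_ fun j _ _ =>
            sum_nonneg fun t _ => phi_nonneg hm Nat.one_le_two_pow t
          intro j hj
          rw [mem_image] at hj
          obtain ⟨i, hi, rfl⟩ := hj
          rw [mem_filter, mem_range] at hi
          rw [mem_range]
          omega
      _ = _ := by rw [sum_const, card_range, nsmul_eq_mul]
  calc _ ≤ 1 / g0 * (g * (N * Real.log (2 * n / N))) + g * N := by
        have : 0 ≤ 1 / g0 := by positivity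
        gcongr
    _ = _ := by ring


lemma sum_dyadic (f : ℕ → ℝ) (J : ℕ) :
    ∑ d ∈ Ico 1 (2 ^ J), f d = ∑ i ∈ range J, ∑ d ∈ Ico (2 ^ i) (2 * 2 ^ i), f d := by
  induction J with
  | zero => simp
  | succ J ih =>
    rw [sum_range_succ, ← ih, show 2 * 2 ^ J = 2 ^ (J + 1) by rw [pow_succ]; ring]
    rw [sum_Ico_consecutive _ Nat.one_le_two_pow (Nat.pow_le_pow_right (by norm_num) (by omega))]

include hm in
/-- The main estimate for cyclic sequences. -/
theorem total_cost {n : ℝ} (hn : ∑ i, m i ≤ n) {c g0 : ℝ} (hc0 : 0 ≤ c) (hc : c ≤ 1)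
    (hg0 : 0 < g0) {g : ℕ}
    (hg : g0 ≤ c / 8 - (1 + Real.log ((2 ^ g : ℕ) : ℝ)) / ((2 ^ g : ℕ) : ℝ)) :
    ∑ t, ∑ d ∈ Ico (1 : ℕ) N, Real.log (1 + (m (t + d) / M m t d) ^ 2) ≤
      N * (2 * c * Real.log n + (14 + 2 * Real.log 8 * (g / g0)) * Real.log (2 * n / N) +
        2 * Real.log 8 * g) := by
  have hN : 0 < N := Nat.pos_of_ne_zero (NeZero.ne N)
  have hn0 : 0 < n := lt_of_lt_of_le (lt_of_lt_of_le one_pos (le_trans (hm 0)
    (single_le_sum (f := m) (fun i _ => by linarith [hm i]) (mem_univ 0)))) hn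
  obtain ⟨J, hJ, hJ'⟩ : ∃ J, 2 ^ J ≤ N ∧ N < 2 ^ (J + 1) :=
    ⟨Nat.log 2 N, Nat.pow_log_le_self 2 hN.ne', Nat.lt_pow_succ_log_self (by norm_num) N⟩
  have hNr : (0 : ℝ) < N := by exact_mod_cast hN
  have hlog2n : Real.log (2 * n / N) = Real.log 2 + Real.log n - Real.log N := by
    rw [Real.log_div (by positivity) (by positivity), Real.log_mul (by norm_num) hn0.ne']
  -- bound for one t
  have h1 : ∀ t, ∑ d ∈ Ico (1 : ℕ) N, Real.log (1 + (m (t + d) / M m t d) ^ 2) ≤
      2 * c * Real.log n + 2 * Real.log (2 * n / N) +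
      12 * ∑ i ∈ range J, phi m (2 ^ i) t + 2 * Real.log 8 * ∑ i ∈ range J, lump m c (2 ^ i) t := by
    intro t
    rw [← sum_Ico_consecutive _ Nat.one_le_two_pow hJ]
    have h2 : ∑ i ∈ range J, ∑ d ∈ Ico (2 ^ i : ℕ) (2 * 2 ^ i),
        Real.log (1 + (m (t + d) / M m t d) ^ 2) ≤
        ∑ i ∈ range J, (2 * c * ∑ d ∈ Ico (2 ^ i : ℕ) (2 * 2 ^ i), Real.log (1 + m (t + d) / M m t d) +
        2 * (6 * phi m (2 ^ i) t + Real.log 8 * lump m c (2 ^ i) t)) :=
      sum_le_sum fun i _ => shell_cost hm hc0 hc Nat.one_le_two_pow t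
    rw [sum_add_distrib, ← mul_sum, ← mul_sum, sum_add_distrib, ← mul_sum, ← mul_sum,
      ← sum_dyadic, ← sum_dyadic, shell_sum hm t le_rfl Nat.one_le_two_pow] at h2
    have h3 : Real.log (M m t (2 ^ J)) ≤ Real.log n :=
      Real.log_le_log (M_pos hm t Nat.one_le_two_pow) ((M_le hm t hJ).trans hn)
    have h4 : 0 ≤ Real.log (M m t 1) := Real.log_nonneg (one_le_M hm t le_rfl)
    have h5 : 2 * c * (Real.log (M m t (2 ^ J)) - Real.log (M m t 1)) ≤ 2 * c * Real.log n := by
      apply mul_le_mul_of_nonneg_left _ (by linarith)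
      linarith
    have h6 : ∑ d ∈ Ico (2 ^ J : ℕ) N, Real.log (1 + (m (t + d) / M m t d) ^ 2) ≤
        2 * Real.log (2 * n / N) := by
      have h7 : ∑ d ∈ Ico (2 ^ J : ℕ) N, Real.log (1 + (m (t + d) / M m t d) ^ 2) ≤
          2 * ∑ d ∈ Ico (2 ^ J : ℕ) N, Real.log (1 + m (t + d) / M m t d) := by
        rw [mul_sum]
        refine sum_le_sum fun d hd => log_one_add_sq_le' ?_
        rw [mem_Ico] at hd
        exact div_nonneg (by linarith [hm (t + d)])
          (M_pos hm t (Nat.one_le_two_pow.trans hd.1)).le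
      rw [shell_sum hm t Nat.one_le_two_pow hJ] at h7
      have h8 : Real.log (M m t N) ≤ Real.log n :=
        Real.log_le_log (M_pos hm t hN) ((M_le hm t le_rfl).trans hn)
      have h9 : Real.log N - Real.log 2 ≤ Real.log (M m t (2 ^ J)) := by
        rw [← Real.log_div (by positivity) (by norm_num)]
        refine Real.log_le_log (by positivity) (le_trans ?_ (le_M hm t _))
        rw [div_le_iff₀ (by norm_num)]
        have : N ≤ 2 ^ J * 2 := by rw [← pow_succ]; exact hJ'.le
        exact_mod_cast this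
      rw [hlog2n]
      linarith
    have : 2 * (6 * ∑ i ∈ range J, phi m (2 ^ i) t + Real.log 8 * ∑ i ∈ range J, lump m c (2 ^ i) t)
        = 12 * ∑ i ∈ range J, phi m (2 ^ i) t +
          2 * Real.log 8 * ∑ i ∈ range J, lump m c (2 ^ i) t := by ring
    linarith
  have h2 := sum_le_sum (s := (univ : Finset (ZMod N))) fun t _ => h1 t
  rw [sum_add_distrib, sum_add_distrib, ← mul_sum, ← mul_sum, sum_const, card_univ, ZMod.card,
    nsmul_eq_mul, sum_comm (f := fun t i => phi m (2 ^ i) t),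
    sum_comm (f := fun t i => lump m c (2 ^ i) t)] at h2
  refine h2.trans ?_
  have h3 := total_gap hm hn hJ hJ'
  have h4 := sum_lump hm hn hJ hJ' hc0 hg0 hg
  have h5 : 0 ≤ Real.log 8 := Real.log_nonneg (by norm_num)
  have h6 : 2 * Real.log 8 * ∑ i ∈ range J, ∑ t, lump m c (2 ^ i) t ≤
      2 * Real.log 8 * (g / g0 * (N * Real.log (2 * n / N)) + g * N) :=
    mul_le_mul_of_nonneg_left h4 (by positivity)
  nlinarith [h3, h6]

end Pool.Agent.H97.LTSeq
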