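import Mathlib
import Pool.Agent.H97.LTSeq

set_option autoImplicit false

open Finset

namespace Pool.Agent.H97.LTSeq

/-- the bound on the average cost -/
noncomputable def AA (n N : ℝ) : ℝ :=
  2 * (1 / 16) * Real.log n + (14 + 2 * Real.log 8 * (12 / (1 / 200))) * Real.log (2 * n / N) +
        2 * Real.log 8 * 12

lemma sum_zmod {N : ℕ} [NeZero N] (f : ZMod N → ℝ) :
    ∑ t, f t = ∑ t ∈ range N, f (t : ZMod N) := by
  refine sum_nbij' (fun t => t.val) (fun t => (t : ZMod N)) ?_ ?_ ?_ ?_ ?_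
  · intro t _; rw [mem_range]; exact ZMod.val_lt t
  · intro t _; exact mem_univ _
  · intro t _; exact ZMod.natCast_zmod_val t
  · intro t ht; rw [mem_range] at ht; exact ZMod.val_cast_of_lt ht
  · intro t _; rw [ZMod.natCast_zmod_val]

/-- Forward cost, for sequences indexed by naturals. -/
theorem cost_fwd {N : ℕ} (hN : 0 < N) {m : ℕ → ℝ} (hm : ∀ i < N, 1 ≤ m i) {n : ℝ}
    (hn : ∑ i ∈ range N, m i ≤ n) :
    ∑ t ∈ range N, ∑ z ∈ Ico (t + 1) N, Real.log (1 + (m z / ∑ y ∈ Ico t z, m y) ^ 2) ≤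
      N * AA n N := by
  have : NeZero N := ⟨hN.ne'⟩
  set m' : ZMod N → ℝ := fun i => m i.val with hm'
  have h1 : ∀ i, 1 ≤ m' i := fun i => hm _ (ZMod.val_lt i)
  have h2 : ∑ i, m' i ≤ n := by
    rw [sum_zmod]
    refine le_trans (le_of_eq ?_) hn
    refine sum_congr rfl fun i hi => ?_
    rw [hm']
    simp only
    rw [ZMod.val_cast_of_lt (mem_range.mp hi)]
  have hlog2 := Real.log_two_lt_d9
  have hg : (1 / 200 : ℝ) ≤ (1 / 16 : ℝ) / 8 -
      (1 + Real.log ((2 ^ 12 : ℕ) : ℝ)) / ((2 ^ 12 : ℕ) : ℝ) := by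
    rw [Nat.cast_pow, Nat.cast_ofNat, Real.log_pow]
    have : (1 + ((12 : ℕ) : ℝ) * Real.log 2) / (2 : ℝ) ^ 12 ≤ 1 / 400 := by
      rw [div_le_iff₀ (by norm_num)]
      push_cast
      linarith
    linarith
  have h3 := total_cost h1 h2 (c := 1 / 16) (g0 := 1 / 200) (g := 12) (by norm_num) (by norm_num)
    (by norm_num) hg
  have h4 : (N : ℝ) * (2 * (1 / 16) * Real.log n +
      (14 + 2 * Real.log 8 * (((12 : ℕ) : ℝ) / (1 / 200))) * Real.log (2 * n / N) +
        2 * Real.log 8 * ((12 : ℕ) : ℝ)) = N * AA n N := by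
    unfold AA; push_cast; ring
  rw [h4] at h3
  refine le_trans ?_ h3
  rw [sum_zmod]
  refine sum_le_sum fun t ht => ?_
  rw [mem_range] at ht
  have h5 : ∑ z ∈ Ico (t + 1) N, Real.log (1 + (m z / ∑ y ∈ Ico t z, m y) ^ 2) =
      ∑ d ∈ Ico (1 : ℕ) (N - t), Real.log (1 + (m' (t + d) / M m' t d) ^ 2) := by
    symm
    refine sum_nbij' (fun d => t + d) (fun z => z - t) ?_ ?_ ?_ ?_ ?_
    · intro d hd; rw [mem_Ico] at hd ⊢; omega
    · intro d hd; rw [mem_Ico] at hd ⊢; omega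
    · intro d hd; rw [mem_Ico] at hd; omega
    · intro d hd; rw [mem_Ico] at hd; omega
    intro d hd
    rw [mem_Ico] at hd
    have h6 : ∀ j : ℕ, t + j < N → m' ((t : ZMod N) + (j : ZMod N)) = m (t + j) := by
      intro j hj
      rw [hm']
      simp only
      rw [← Nat.cast_add, ZMod.val_cast_of_lt hj]
    have h7 : M m' (t : ZMod N) d = ∑ y ∈ Ico t (t + d), m y := by
      unfold M
      rw [sum_Ico_eq_sum_range, show t + d - t = d by omega]
      refine sum_congr rfl fun j hj => ?_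
      rw [mem_range] at hj
      exact h6 j (by omega)
    rw [h7, h6 d (by omega)]
  rw [h5]
  refine sum_le_sum_of_subset_of_nonneg ?_ fun d _ _ => Real.log_nonneg ?_
  · exact Ico_subset_Ico le_rfl (by omega)
  · have := sq_nonneg (m' ((t : ZMod N) + d) / M m' t d)
    linarith

/-- Backward cost. -/
theorem cost_bwd {N : ℕ} (hN : 0 < N) {m : ℕ → ℝ} (hm : ∀ i < N, 1 ≤ m i) {n : ℝ}
    (hn : ∑ i ∈ range N, m i ≤ n) :
    ∑ t ∈ range N, ∑ z ∈ range t, Real.log (1 + (m z / ∑ y ∈ Ico (z + 1) (t + 1), m y) ^ 2) ≤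
      N * AA n N := by
  have h1 := cost_fwd hN (m := fun i => m (N - 1 - i)) (fun i hi => hm _ (by omega)) (n := n) ?_
  · refine le_trans (le_of_eq ?_) h1
    rw [← sum_range_reflect (fun t => ∑ z ∈ Ico (t + 1) N,
      Real.log (1 + (m (N - 1 - z) / ∑ y ∈ Ico t z, m (N - 1 - y)) ^ 2))]
    refine sum_congr rfl fun t ht => ?_
    rw [mem_range] at ht
    refine sum_nbij' (fun z => N - 1 - z) (fun z => N - 1 - z) ?_ ?_ ?_ ?_ ?_
    · intro z hz; rw [mem_range] at hz; rw [mem_Ico]; omega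
    · intro z hz; rw [mem_Ico] at hz; rw [mem_range]; omega
    · intro z hz; rw [mem_range] at hz; omega
    · intro z hz; rw [mem_Ico] at hz; omega
    · intro z hz
      rw [mem_range] at hz
      have e1 : N - 1 - (N - 1 - z) = z := by omega
      have e2 : ∑ y ∈ Ico (N - 1 - t) (N - 1 - z), m (N - 1 - y) = ∑ y ∈ Ico (z + 1) (t + 1), m y := by
        refine sum_nbij' (fun y => N - 1 - y) (fun y => N - 1 - y) ?_ ?_ ?_ ?_ ?_
        · intro y hy; rw [mem_Ico] at hy ⊢; omega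
        · intro y hy; rw [mem_Ico] at hy ⊢; omega
        · intro y hy; rw [mem_Ico] at hy; omega
        · intro y hy; rw [mem_Ico] at hy; omega
        · intro y hy; rfl
      rw [e1, e2]
  · rw [sum_range_reflect]; exact hn

end Pool.Agent.H97.LTSeq
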