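import Mathlib
import Pool.Agent.H97.LTChain

set_option autoImplicit false

open Finset

namespace Pool.Agent.H97.LTCore

variable {G : SimpleGraph Pt}

/-- `q` is the lexicographically largest point of `V`. -/
def Mx (V : Finset Pt) (q : Pt) : Prop := q ∈ V ∧ ∀ v ∈ V, v.1 < q.1 ∨ (v.1 = q.1 ∧ v.2 ≤ q.2)

lemma exists_Mx {V : Finset Pt} (hV : V.Nonempty) : ∃ q, Mx V q := by
  obtain ⟨a, ha, ha'⟩ := exists_max_image V Prod.fst hV
  obtain ⟨t, ht, ht'⟩ := exists_max_image (V.filter (fun p => p.1 = a.1)) Prod.snd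
    ⟨a, by simp [ha]⟩
  rw [mem_filter] at ht
  refine ⟨t, ht.1, fun v hv => ?_⟩
  have h1 := ha' v hv
  by_cases h : v.1 = a.1
  · right
    exact ⟨by rw [h, ht.2], ht' v (by rw [mem_filter]; exact ⟨hv, h⟩)⟩
  · left
    rw [ht.2]; omega

lemma Mx.unique {V : Finset Pt} {q q' : Pt} (h : Mx V q) (h' : Mx V q') : q = q' := by
  have h1 := h.2 _ h'.1
  have h2 := h'.2 _ h.1
  ext <;> omega

lemma Mx.mono {V W : Finset Pt} {q : Pt} (h : Mx V q) (hW : W ⊆ V) (hq : q ∈ W) : Mx W q :=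
  ⟨hq, fun v hv => h.2 v (hW hv)⟩

lemma Mx.shift {V : Finset Pt} {q : Pt} (h : Mx V q) (t : Pt) : Mx (shiftV t V) (q + t) := by
  refine ⟨add_mem_shiftV h.1, fun v hv => ?_⟩
  have := h.2 _ (mem_shiftV.mp hv)
  simp only [Prod.fst_sub, Prod.snd_sub, Prod.fst_add, Prod.snd_add] at this ⊢
  omega

open Classical in
/-- the lexicographically largest point of `V` -/
noncomputable def mx (V : Finset Pt) : Pt := if h : ∃ q, Mx V q then h.choose else 0

lemma mx_spec {V : Finset Pt} (hV : V.Nonempty) : Mx V (mx V) := by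
  have := exists_Mx hV
  unfold mx
  rw [dif_pos this]
  exact this.choose_spec

lemma mx_eq {V : Finset Pt} {q : Pt} (h : Mx V q) : mx V = q :=
  (mx_spec ⟨q, h.1⟩).unique h

variable {V : Finset Pt} {E : Finset (Sym2 Pt)} {r r' : Pt} {L : ℕ} {p : ℕ → Pt}
  {Vp : ℕ → Finset Pt} {Ep : ℕ → Finset (Sym2 Pt)}

lemma VI_shift (s : Pt) (Vp : ℕ → Finset Pt) (i j : ℕ) :
    VI (fun k => shiftV s (Vp k)) i j = shiftV s (VI Vp i j) := by
  ext x
  rw [mem_VI, mem_shiftV, mem_VI]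
  simp only [mem_shiftV]

lemma EI_shift (s : Pt) (p : ℕ → Pt) (Ep : ℕ → Finset (Sym2 Pt)) (i j : ℕ) :
    EI (fun k => p k + s) (fun k => shiftE s (Ep k)) i j = shiftE s (EI p Ep i j) := by
  ext x
  induction x using Sym2.ind with
  | _ a b =>
    rw [mem_EI, mem_shiftE, mem_EI]
    simp only [mem_shiftE]
    refine or_congr Iff.rfl ⟨?_, ?_⟩
    · rintro ⟨k, hk, hx⟩
      refine ⟨k, hk, ?_⟩
      have := congrArg (Sym2.map (fun y : Pt => y - s)) hx
      simpa using this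
    · rintro ⟨k, hk, hx⟩
      refine ⟨k, hk, ?_⟩
      have := congrArg (Sym2.map (fun y : Pt => y + s)) hx
      simpa using this

lemma disjoint_shiftV {V W : Finset Pt} (h : Disjoint V W) (s : Pt) :
    Disjoint (shiftV s V) (shiftV s W) := by
  rw [Finset.disjoint_left]
  intro x hx hx'
  exact (Finset.disjoint_left.mp h) (mem_shiftV.mp hx) (mem_shiftV.mp hx')

lemma Chain.shift (hG : Lat G) (h : Chain G V E r r' L p Vp Ep) (s : Pt) :
    Chain G (shiftV s V) (shiftE s E) (r + s) (r' + s) L (fun k => p k + s)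
      (fun k => shiftV s (Vp k)) (fun k => shiftE s (Ep k)) where
  hLT := fun i hi => (h.hLT i hi).shift hG s
  hp := fun i hi => add_mem_shiftV (h.hp i hi)
  hd := fun i j hij hj => disjoint_shiftV (h.hd i j hij hj) s
  hadj := fun i hi => hG.trans _ _ _ (h.hadj i hi)
  hV := by rw [VI_shift, ← h.hV]
  hE := by rw [EI_shift, ← h.hE]
  h0 := by rw [h.h0]
  hL := by rw [h.hL]

/-- The total flow to the cut edges of a tree. -/
lemma LB_cut_A (h : Chain G V E r r' L p Vp Ep) {H t n : ℕ} (ht : t < L)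
    (hH : (Vp t).card ≤ H) (hn : V.card ≤ n) :
    (∏ z ∈ range t, pr (∑ y ∈ Ico (z + 1) (t + 1), ((Vp y).card : ℝ)) ((Vp z).card - 1)) ≤
      wt G H n (VI Vp 0 t) (EI p Ep 0 t) r (p t) := by
  have h1 := h.LB_bwd (H := H) (t := t) ht.le hH t le_rfl
  rw [Nat.sub_self, h.h0] at h1
  have h2 := h1 n ?_
  · rw [range_eq_Ico]; exact h2
  · refine le_trans (card_le_card ?_) hn
    rw [h.hV]
    intro x hx
    rw [mem_VI] at hx ⊢
    obtain ⟨k, hk, hx⟩ := hx
    exact ⟨k, ⟨hk.1, by omega⟩, hx⟩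

lemma LB_cut_B (hG : Lat G) (h : Chain G V E r r' L p Vp Ep) {H t n : ℕ} (ht : t < L)
    (hH : (Vp (t + 1)).card ≤ H) (hn : V.card ≤ n) (s : Pt) :
    (∏ z ∈ Ico (t + 2) (L + 1), pr (∑ y ∈ Ico (t + 1) z, ((Vp y).card : ℝ)) ((Vp z).card - 1)) ≤
      wt G H n (shiftV s (VI Vp (t + 1) L)) (shiftE s (EI p Ep (t + 1) L)) (r' + s)
        (p (t + 1) + s) := by
  have h1 := (h.shift hG s).LB_fwd (H := H) (i := t + 1) (by simpa [card_shiftV] using hH) L
    (by omega) le_rfl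
  rw [VI_shift, EI_shift] at h1
  simp only [card_shiftV, h.hL] at h1
  have h2 := h1 n ?_
  · exact h2
  · rw [card_shiftV]
    refine le_trans (card_le_card ?_) hn
    rw [h.hV]
    intro x hx
    rw [mem_VI] at hx ⊢
    obtain ⟨k, hk, hx⟩ := hx
    exact ⟨k, ⟨by omega, hk.2⟩, hx⟩

/-- The set of possible directions of an edge. -/
noncomputable def Dir : Finset Pt := Icc (-1 : ℤ) 1 ×ˢ Icc (-1 : ℤ) 1

lemma card_Dir : Dir.card = 9 := by
  unfold Dir; rw [card_product]; simp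

lemma dir_mem (hG : Lat G) {a b : Pt} (h : G.Adj a b) : b - a ∈ Dir := by
  unfold Dir
  rw [mem_product, mem_Icc, mem_Icc]
  have h1 := abs_le.mp (hG.dx a b h)
  have h2 := abs_le.mp (hG.dy a b h)
  simp only [Prod.fst_sub, Prod.snd_sub]
  omega

open Classical in
/-- Pairs of normalized trees with `n` vertices in total, one of which has width at least `w`. -/
noncomputable def Pairs (hG : Lat G) (n w : ℕ) : Finset (Tr × Tr) :=
  (range (n + 1)).biUnion fun m =>
    (Wf hG (n - m) w ×ˢ NTf hG m) ∪ (NTf hG (n - m) ×ˢ Wf hG m w)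

lemma card_Pairs (hG : Lat G) (n w : ℕ) :
    (w + 1) * (Pairs hG n w).card ≤ 2 * (n * (NTf hG n).card) := by
  classical
  have h1 := stack_count hG n w
  have h2 : (Wf hG n w).card ≤ (NTf hG n).card := card_le_card (filter_subset _ _)
  have h3 : (Pairs hG n w).card ≤
      2 * ∑ m ∈ range (n + 1), (Wf hG (n - m) w).card * (NTf hG m).card := by
    unfold Pairs
    refine card_biUnion_le.trans ?_
    calc _ ≤ ∑ m ∈ range (n + 1), ((Wf hG (n - m) w).card * (NTf hG m).card +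
          (NTf hG (n - m)).card * (Wf hG m w).card) := by
          refine sum_le_sum fun m _ => (card_union_le _ _).trans ?_
          rw [card_product, card_product]
      _ = ∑ m ∈ range (n + 1), (Wf hG (n - m) w).card * (NTf hG m).card +
          ∑ m ∈ range (n + 1), (NTf hG (n - m)).card * (Wf hG m w).card := sum_add_distrib
      _ = _ := by
          rw [← sum_range_reflect (fun m => (NTf hG (n - m)).card * (Wf hG m w).card), two_mul]
          congr 1
          refine sum_congr rfl fun m hm => ?_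
          rw [mem_range] at hm
          rw [show n + 1 - 1 - m = n - m by omega, show n - (n - m) = m by omega, mul_comm]
  calc (w + 1) * (Pairs hG n w).card ≤
      (w + 1) * (2 * ∑ m ∈ range (n + 1), (Wf hG (n - m) w).card * (NTf hG m).card) := by gcongr
    _ = 2 * ((w + 1) * ∑ m ∈ range (n + 1), (Wf hG (n - m) w).card * (NTf hG m).card) := by ring
    _ ≤ 2 * (n * (Wf hG n w).card) := by gcongr
    _ ≤ _ := by gcongr

/-- chain data of a tree -/
abbrev CD := ℕ × (ℕ → Pt) × (ℕ → Finset Pt) × (ℕ → Finset (Sym2 Pt))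

open Classical in
/-- A chosen chain from the lexicographically smallest to the largest vertex. -/
noncomputable def cd (G : SimpleGraph Pt) (T : Tr) : CD :=
  if h : ∃ x : CD, Chain G T.1 T.2 (0, 0) (mx T.1) x.1 x.2.1 x.2.2.1 x.2.2.2 then h.choose
  else default

lemma cd_spec {T : Tr} (h : LT G T.1 T.2) (h0 : ((0, 0) : Pt) ∈ T.1) :
    Chain G T.1 T.2 (0, 0) (mx T.1) (cd G T).1 (cd G T).2.1 (cd G T).2.2.1 (cd G T).2.2.2 := by
  have hm := (mx_spec h.nonempty).1
  obtain ⟨L, p, Vp, Ep, hch⟩ := exists_chain _ T.1 T.2 le_rfl h (0, 0) h0 (mx T.1) hm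
  have : ∃ x : CD, Chain G T.1 T.2 (0, 0) (mx T.1) x.1 x.2.1 x.2.2.1 x.2.2.2 :=
    ⟨(L, p, Vp, Ep), hch⟩
  unfold cd
  rw [dif_pos this]
  exact this.choose_spec

open Classical in
/-- The normalizing translation. -/
noncomputable def nrm (V : Finset Pt) : Pt :=
  if h : ∃ t ∈ V, Norm (shiftV (-t) V) then h.choose else 0

lemma nrm_spec {V : Finset Pt} (hV : V.Nonempty) : nrm V ∈ V ∧ Norm (shiftV (-nrm V) V) := by
  have := exists_norm hV
  unfold nrm
  rw [dif_pos this]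
  exact this.choose_spec

/-- The length of the chain. -/
noncomputable def Ln (G : SimpleGraph Pt) (T : Tr) : ℕ := (cd G T).1

/-- The mass at position `z` of the chain. -/
noncomputable def ms (G : SimpleGraph Pt) (T : Tr) (z : ℕ) : ℕ := ((cd G T).2.2.1 z).card

/-- the flow to the cut at position `t` -/
noncomputable def PA (G : SimpleGraph Pt) (T : Tr) (t : ℕ) : ℝ :=
  ∏ z ∈ range t, pr (∑ y ∈ Ico (z + 1) (t + 1), (ms G T y : ℝ)) (ms G T z - 1)

/-- the flow to the cut at position `t`, from the other side -/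
noncomputable def PB (G : SimpleGraph Pt) (T : Tr) (t : ℕ) : ℝ :=
  ∏ z ∈ Ico (t + 1) (Ln G T + 1), pr (∑ y ∈ Ico t z, (ms G T y : ℝ)) (ms G T z - 1)

open Classical in
/-- The cutting map. -/
noncomputable def cutF (G : SimpleGraph Pt) (x : Σ _ : Tr, ℕ) : Σ _ : Tr × Tr, Pt × Pt × Pt :=
  let T := x.1
  let t := x.2
  let L := (cd G T).1
  let p := (cd G T).2.1
  let Vp := (cd G T).2.2.1
  let Ep := (cd G T).2.2.2
  let τ := nrm (VI Vp (t + 1) L)
  ⟨((VI Vp 0 t, EI p Ep 0 t), sh (-τ) (VI Vp (t + 1) L, EI p Ep (t + 1) L)),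
    (p t, p (t + 1) - τ, p (t + 1) - p t)⟩

/-- The weight. -/
noncomputable def gw (G : SimpleGraph Pt) (H n : ℕ) (y : Σ _ : Tr × Tr, Pt × Pt × Pt) : ℝ :=
  wt G H n y.1.1.1 y.1.1.2 (0, 0) y.2.1 * wt G H n y.1.2.1 y.1.2.2 (mx y.1.2.1) y.2.2.1

lemma gw_nonneg (H n : ℕ) (y : Σ _ : Tr × Tr, Pt × Pt × Pt) : 0 ≤ gw G H n y :=
  mul_nonneg (wt_nonneg _ _ _ _ _ _) (wt_nonneg _ _ _ _ _ _)

lemma gw_sum_le (hG : Lat G) {H n w : ℕ} (hH : 1 ≤ H) :
    ∑ y ∈ (Pairs hG n w).sigma (fun q => q.1.1 ×ˢ (q.2.1 ×ˢ Dir)), gw G H n y ≤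
      9 * (H : ℝ) ^ 2 * (Pairs hG n w).card := by
  classical
  rw [sum_sigma]
  calc _ ≤ ∑ _q ∈ Pairs hG n w, 9 * (H : ℝ) ^ 2 := by
        refine sum_le_sum fun q hq => ?_
        have hq' : LT G q.1.1 q.1.2 ∧ ((0, 0) : Pt) ∈ q.1.1 ∧ LT G q.2.1 q.2.2 := by
          unfold Pairs at hq
          rw [mem_biUnion] at hq
          obtain ⟨m, _, hq⟩ := hq
          rw [mem_union, mem_product, mem_product] at hq
          rcases hq with hq | hq
          · exact ⟨(mem_Wf.mp hq.1).1.1, (mem_Wf.mp hq.1).1.2.2.1, (mem_NTf.mp hq.2).1⟩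
          · exact ⟨(mem_NTf.mp hq.1).1, (mem_NTf.mp hq.1).2.2.1, (mem_Wf.mp hq.2).1.1⟩
        have k1 := kraft hH n q.1.1 q.1.2 (0, 0) hq'.1 hq'.2.1
        have k2 := kraft hH n q.2.1 q.2.2 (mx q.2.1) hq'.2.2 (mx_spec hq'.2.2.nonempty).1
        have k1' : 0 ≤ ∑ u ∈ q.1.1, wt G H n q.1.1 q.1.2 (0, 0) u :=
          sum_nonneg fun _ _ => wt_nonneg _ _ _ _ _ _
        have k2' : 0 ≤ ∑ u ∈ q.2.1, wt G H n q.2.1 q.2.2 (mx q.2.1) u :=
          sum_nonneg fun _ _ => wt_nonneg _ _ _ _ _ _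
        have e : ∑ s ∈ q.1.1 ×ˢ (q.2.1 ×ˢ Dir), gw G H n ⟨q, s⟩ =
            9 * ((∑ u ∈ q.1.1, wt G H n q.1.1 q.1.2 (0, 0) u) *
              ∑ u ∈ q.2.1, wt G H n q.2.1 q.2.2 (mx q.2.1) u) := by
          rw [sum_product, sum_mul, mul_sum]
          refine sum_congr rfl fun u _ => ?_
          rw [sum_product, mul_sum, mul_sum]
          refine sum_congr rfl fun v _ => ?_
          unfold gw
          simp only [sum_const, card_Dir, nsmul_eq_mul]
          norm_num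
        rw [e]
        nlinarith [mul_le_mul k1 k2 k2' (by positivity : (0 : ℝ) ≤ H)]
    _ = _ := by rw [sum_const, nsmul_eq_mul, mul_comm]


lemma VI_subset {Vp : ℕ → Finset Pt} {i j i' j' : ℕ} (h1 : i' ≤ i) (h2 : j ≤ j') :
    VI Vp i j ⊆ VI Vp i' j' := by
  intro x hx
  rw [mem_VI] at hx ⊢
  obtain ⟨k, hk, hx⟩ := hx
  exact ⟨k, ⟨by omega, by omega⟩, hx⟩

lemma cutF_mem (hG : Lat G) {n w w' : ℕ} (hw : 2 * w' ≤ w) (x : Σ _ : Tr, ℕ)
    (hx : x ∈ (Wf hG n w).sigma (fun T => range (Ln G T))) :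
    cutF G x ∈ (Pairs hG n w').sigma (fun q => q.1.1 ×ˢ (q.2.1 ×ˢ Dir)) := by
  classical
  rw [mem_sigma, mem_range] at hx
  obtain ⟨hT, ht⟩ := hx
  rw [mem_Wf] at hT
  obtain ⟨⟨hLT, hcard, hN⟩, v, hv, hvw⟩ := hT
  have ch := cd_spec hLT hN.1
  unfold Ln at ht
  obtain ⟨T, t⟩ := x
  unfold cutF
  simp only at hLT hcard hN hv ch ht ⊢
  set L := (cd G T).1 with hL
  set p := (cd G T).2.1 with hp
  set Vp := (cd G T).2.2.1 with hVp
  set Ep := (cd G T).2.2.2 with hEp
  have hs := ch.spl (i := 0) (t := t) (j := L) (Nat.zero_le _) ht le_rfl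
  set A := VI Vp 0 t with hA
  set B := VI Vp (t + 1) L with hB
  have hBne : B.Nonempty := hs.h2.nonempty
  obtain ⟨hτB, hτN⟩ := nrm_spec hBne
  set τ := nrm B with hτ
  have hV : T.1 = A ∪ B := by rw [ch.hV]; exact hs.hV
  have hAV : A ⊆ T.1 := by rw [hV]; exact subset_union_left
  have hAN : Norm A := by
    refine ⟨?_, fun a ha => hN.2 a (hAV ha)⟩
    have := ch.hp 0 (Nat.zero_le _)
    rw [ch.h0] at this
    exact mem_VI.mpr ⟨0, ⟨le_rfl, Nat.zero_le _⟩, this⟩
  have hcAB : A.card + B.card = n := by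
    rw [← hcard, hV, card_union_of_disjoint hs.hd]
  have hB0 : LT G (shiftV (-τ) B) (shiftE (-τ) (EI p Ep (t + 1) L)) := hs.h2.shift hG (-τ)
  have hpB : p (t + 1) ∈ B := hs.hc
  have hpA : p t ∈ A := hs.hr
  rw [mem_sigma]
  refine ⟨?_, ?_⟩
  · -- the pair
    unfold Pairs
    rw [mem_biUnion]
    refine ⟨B.card, by rw [mem_range]; omega, ?_⟩
    rw [mem_union, mem_product, mem_product]
    by_cases hwA : ∃ a ∈ A, (w' : ℤ) ≤ a.1
    · left
      refine ⟨mem_Wf.mpr ⟨⟨hs.h1, by simp only; omega, hAN⟩, hwA⟩, mem_NTf.mpr ⟨hB0, ?_, hτN⟩⟩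
      show (shiftV _ _).card = _
      rw [card_shiftV]
    · right
      push Not at hwA
      refine ⟨mem_NTf.mpr ⟨hs.h1, by simp only; omega, hAN⟩, mem_Wf.mpr ⟨⟨hB0, ?_, hτN⟩, ?_⟩⟩
      · show (shiftV _ _).card = _
        rw [card_shiftV]
      · have hM := mx_spec hLT.nonempty
        have hmB : mx T.1 ∈ B := by
          have := ch.hp L le_rfl
          rw [ch.hL] at this
          exact mem_VI.mpr ⟨L, ⟨by omega, le_rfl⟩, this⟩
        refine ⟨mx T.1 - τ, ?_, ?_⟩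
        · show _ ∈ shiftV _ _
          rw [mem_shiftV]
          simpa using hmB
        · have h1 := hM.2 v hv
          have h2 := hwA _ hpA
          have h3 := abs_le.mp (hG.dx _ _ hs.hadj)
          have h4 : p (t + 1) - τ ∈ shiftV (-τ) B := by
            rw [mem_shiftV]; simpa using hpB
          have h5 := (hτN.2 _ h4).1
          simp only [Prod.fst_sub] at h5 ⊢
          omega
  · rw [mem_product, mem_product]
    refine ⟨hpA, ?_, dir_mem hG hs.hadj⟩
    show p (t + 1) - τ ∈ shiftV (-τ) B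
    rw [mem_shiftV]; simpa using hpB

lemma cutF_inj (hG : Lat G) {n w : ℕ} :
    Set.InjOn (cutF G) ((Wf hG n w).sigma (fun T => range (Ln G T)) : Set (Σ _ : Tr, ℕ)) := by
  classical
  have key : ∀ x ∈ (Wf hG n w).sigma (fun T => range (Ln G T)),
      x.1 = ((cutF G x).1.1.1 ∪ shiftV ((cutF G x).2.1 + (cutF G x).2.2.2 - (cutF G x).2.2.1)
          (cutF G x).1.2.1,
        insert s((cutF G x).2.1, (cutF G x).2.1 + (cutF G x).2.2.2) ((cutF G x).1.1.2 ∪
          shiftE ((cutF G x).2.1 + (cutF G x).2.2.2 - (cutF G x).2.2.1) (cutF G x).1.2.2)) ∧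
      (cutF G x).2.1 = (cd G x.1).2.1 x.2 := by
    intro x hx
    rw [mem_sigma, mem_range] at hx
    obtain ⟨hT, ht⟩ := hx
    rw [mem_Wf] at hT
    obtain ⟨⟨hLT, hcard, hN⟩, _⟩ := hT
    have ch := cd_spec hLT hN.1
    unfold Ln at ht
    obtain ⟨T, t⟩ := x
    unfold cutF
    simp only at hLT hcard hN ch ht ⊢
    refine ⟨?_, trivial⟩
    have hs := ch.spl (i := 0) (t := t) (j := (cd G T).1) (Nat.zero_le _) ht le_rfl
    set L := (cd G T).1 with hL
    set p := (cd G T).2.1 with hp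
    set Vp := (cd G T).2.2.1 with hVp
    set Ep := (cd G T).2.2.2 with hEp
    set τ := nrm (VI Vp (t + 1) L) with hτ
    have e1 : p t + (p (t + 1) - p t) - (p (t + 1) - τ) = τ := by abel
    have e2 : p t + (p (t + 1) - p t) = p (t + 1) := by abel
    rw [e1, e2]
    unfold sh
    simp only [shiftV_shiftV, shiftE_shiftE, neg_add_cancel, shiftV_zero, shiftE_zero]
    have hV : T.1 = VI Vp 0 L := ch.hV
    have hE : T.2 = EI p Ep 0 L := ch.hE
    exact Prod.ext (hV.trans hs.hV) (hE.trans hs.hE)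
  intro x hx y hy hxy
  have hx0 : x ∈ (Wf hG n w).sigma (fun T => range (Ln G T)) := by exact_mod_cast hx
  have hy0 : y ∈ (Wf hG n w).sigma (fun T => range (Ln G T)) := by exact_mod_cast hy
  obtain ⟨h1, h2⟩ := key x hx0
  obtain ⟨h3, h4⟩ := key y hy0
  rw [hxy] at h1 h2
  have hT : x.1 = y.1 := h1.trans h3.symm
  have hpp : (cd G x.1).2.1 x.2 = (cd G y.1).2.1 y.2 := h2.symm.trans h4
  rw [mem_sigma, mem_range] at hx0 hy0
  obtain ⟨T, t⟩ := x
  obtain ⟨T', t'⟩ := y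
  simp only at hT hpp hx0 hy0
  subst hT
  have hT' := (mem_Wf.mp hx0.1).1
  have ch := cd_spec hT'.1 hT'.2.2.1
  unfold Ln at hx0 hy0
  have : t = t' := by
    rcases lt_trichotomy t t' with h | h | h
    · exfalso
      have := ch.hd t t' h (by omega)
      refine (Finset.disjoint_left.mp this) (ch.hp t (by omega)) ?_
      rw [hpp]; exact ch.hp t' (by omega)
    · exact h
    · exfalso
      have := ch.hd t' t h (by omega)
      refine (Finset.disjoint_left.mp this) (ch.hp t' (by omega)) ?_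
      rw [← hpp]; exact ch.hp t (by omega)
  subst this
  rfl

lemma cut_sum (hG : Lat G) {H n w w' : ℕ} (hH : 1 ≤ H) (hw : 2 * w' ≤ w) :
    ∑ T ∈ Wf hG n w, ∑ t ∈ range (Ln G T), gw G H n (cutF G ⟨T, t⟩) ≤
      9 * (H : ℝ) ^ 2 * (Pairs hG n w').card := by
  classical
  rw [← sum_sigma (Wf hG n w) (fun T => range (Ln G T)) (fun x => gw G H n (cutF G x))]
  refine le_trans ?_ (gw_sum_le hG hH)
  rw [← sum_image (f := fun y => gw G H n y) (cutF_inj hG)]
  refine sum_le_sum_of_subset_of_nonneg ?_ fun y _ _ => gw_nonneg H n y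
  intro y hy
  rw [mem_image] at hy
  obtain ⟨x, hx, rfl⟩ := hy
  exact cutF_mem hG hw x hx

end Pool.Agent.H97.LTCore
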