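import Mathlib
import Pool.Agent.H97.LTSurg
import Pool.Agent.H97.LTSeq2

set_option autoImplicit false

open Finset

namespace Pool.Agent.H97.LTCore

open Pool.Agent.H97.LTSeq

variable {G : SimpleGraph Pt}

lemma exp_le_pr {R x y : ℝ} (hR : 0 < R) (hx : 0 ≤ x) (hxy : x ≤ y) :
    Real.exp (-Real.log (1 + (y / R) ^ 2)) ≤ pr R x := by
  rw [Real.exp_neg, Real.exp_log (by positivity)]
  unfold pr
  rw [inv_le_iff_one_le_mul₀ (by positivity)]
  have h1 : 0 < R ^ 2 + x ^ 2 := by positivity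
  rw [div_mul_eq_mul_div, le_div_iff₀ h1]
  have h2 : R ^ 2 * (1 + (y / R) ^ 2) = R ^ 2 + y ^ 2 := by field_simp
  rw [h2]
  nlinarith

lemma prod_lower {s : Finset ℕ} {R x y : ℕ → ℝ} (hR : ∀ z ∈ s, 0 < R z) (hx : ∀ z ∈ s, 0 ≤ x z)
    (hxy : ∀ z ∈ s, x z ≤ y z) :
    Real.exp (-∑ z ∈ s, Real.log (1 + (y z / R z) ^ 2)) ≤ ∏ z ∈ s, pr (R z) (x z) := by
  rw [← sum_neg_distrib, Real.exp_sum]
  exact prod_le_prod (fun _ _ => (Real.exp_pos _).le) fun z hz =>
    exp_le_pr (hR z hz) (hx z hz) (hxy z hz)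

/-- costs -/
noncomputable def cA (G : SimpleGraph Pt) (T : Tr) (t : ℕ) : ℝ :=
  ∑ z ∈ range t, Real.log (1 + ((ms G T z : ℝ) / ∑ y ∈ Ico (z + 1) (t + 1), (ms G T y : ℝ)) ^ 2)

noncomputable def cB (G : SimpleGraph Pt) (T : Tr) (t : ℕ) : ℝ :=
  ∑ z ∈ Ico (t + 1) (Ln G T + 1),
    Real.log (1 + ((ms G T z : ℝ) / ∑ y ∈ Ico t z, (ms G T y : ℝ)) ^ 2)

lemma cA_nonneg (T : Tr) (t : ℕ) : 0 ≤ cA G T t :=
  sum_nonneg fun z _ => Real.log_nonneg (by
    have := sq_nonneg ((ms G T z : ℝ) / ∑ y ∈ Ico (z + 1) (t + 1), (ms G T y : ℝ)); linarith)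

lemma cB_nonneg (T : Tr) (t : ℕ) : 0 ≤ cB G T t :=
  sum_nonneg fun z _ => Real.log_nonneg (by
    have := sq_nonneg ((ms G T z : ℝ) / ∑ y ∈ Ico t z, (ms G T y : ℝ)); linarith)

section
variable {T : Tr} (hT : LT G T.1 T.2) (h0 : ((0, 0) : Pt) ∈ T.1)
include hT h0

lemma one_le_ms {z : ℕ} (hz : z ≤ Ln G T) : 1 ≤ ms G T z := by
  have ch := cd_spec hT h0
  unfold ms
  exact card_pos.mpr ⟨_, ch.hp z hz⟩

lemma sum_ms : ∑ z ∈ range (Ln G T + 1), ms G T z = T.1.card := by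
  have ch := cd_spec hT h0
  have := ch.card (i := 0) (cd G T).1 (Nat.zero_le _) le_rfl
  rw [← ch.hV] at this
  rw [this, range_eq_Ico]
  rfl

lemma PA_lower {t : ℕ} (ht : t ≤ Ln G T) : Real.exp (-cA G T t) ≤ PA G T t := by
  unfold cA PA
  refine prod_lower ?_ ?_ ?_
  · intro z hz
    rw [mem_range] at hz
    refine sum_pos (fun y hy => ?_) ⟨z + 1, by rw [mem_Ico]; omega⟩
    rw [mem_Ico] at hy
    have := one_le_ms hT h0 (z := y) (by omega)
    exact_mod_cast this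
  · intro z hz
    rw [mem_range] at hz
    have := one_le_ms hT h0 (z := z) (by omega)
    have : (1 : ℝ) ≤ ms G T z := by exact_mod_cast this
    linarith
  · intro z _; linarith

lemma PB_lower {t : ℕ} : Real.exp (-cB G T t) ≤ PB G T t := by
  unfold cB PB
  refine prod_lower ?_ ?_ ?_
  · intro z hz
    rw [mem_Ico] at hz
    refine sum_pos (fun y hy => ?_) ⟨t, by rw [mem_Ico]; omega⟩
    rw [mem_Ico] at hy
    have := one_le_ms hT h0 (z := y) (by omega)
    exact_mod_cast this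
  · intro z hz
    rw [mem_Ico] at hz
    have := one_le_ms hT h0 (z := z) (by omega)
    have : (1 : ℝ) ≤ ms G T z := by exact_mod_cast this
    linarith
  · intro z _; linarith

lemma sum_cA {n : ℕ} (hn : T.1.card = n) :
    ∑ t ∈ range (Ln G T + 1), cA G T t ≤ ((Ln G T + 1 : ℕ) : ℝ) * AA n ((Ln G T + 1 : ℕ) : ℝ) := by
  unfold cA
  refine cost_bwd (Nat.succ_pos _) (m := fun z => (ms G T z : ℝ)) ?_ ?_
  · intro i hi
    exact_mod_cast one_le_ms hT h0 (z := i) (by omega)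
  · rw [← Nat.cast_sum, sum_ms hT h0, hn]

lemma sum_cB {n : ℕ} (hn : T.1.card = n) :
    ∑ t ∈ range (Ln G T + 1), cB G T t ≤ ((Ln G T + 1 : ℕ) : ℝ) * AA n ((Ln G T + 1 : ℕ) : ℝ) := by
  unfold cB
  refine cost_fwd (Nat.succ_pos _) (m := fun z => (ms G T z : ℝ)) ?_ ?_
  · intro i hi
    exact_mod_cast one_le_ms hT h0 (z := i) (by omega)
  · rw [← Nat.cast_sum, sum_ms hT h0, hn]

lemma gw_lower (hG : Lat G) {n H t : ℕ} (hn : T.1.card = n) (ht : t < Ln G T)
    (h1 : ms G T t ≤ H) (h2 : ms G T (t + 1) ≤ H) :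
    PA G T t * PB G T (t + 1) ≤ gw G H n (cutF G ⟨T, t⟩) := by
  have ch := cd_spec hT h0
  unfold Ln at ht
  unfold ms at h1 h2
  unfold gw cutF
  simp only
  set L := (cd G T).1 with hL
  set p := (cd G T).2.1 with hp
  set Vp := (cd G T).2.2.1 with hVp
  set Ep := (cd G T).2.2.2 with hEp
  set τ := nrm (VI Vp (t + 1) L) with hτ
  have hA := LB_cut_A ch ht h1 hn.le
  have hB := LB_cut_B hG ch ht h2 hn.le (-τ)
  have hM := mx_spec hT.nonempty
  have hmB : mx T.1 ∈ VI Vp (t + 1) L := by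
    have := ch.hp L le_rfl
    rw [ch.hL] at this
    exact mem_VI.mpr ⟨L, ⟨by omega, le_rfl⟩, this⟩
  have hsub : VI Vp (t + 1) L ⊆ T.1 := by
    rw [ch.hV]; exact VI_subset (by omega) le_rfl
  have hM2 : mx (shiftV (-τ) (VI Vp (t + 1) L)) = mx T.1 + -τ :=
    mx_eq ((hM.mono hsub hmB).shift (-τ))
  have e1 : (sh (-τ) (VI Vp (t + 1) L, EI p Ep (t + 1) L)).1 = shiftV (-τ) (VI Vp (t + 1) L) := rfl
  have e2 : (sh (-τ) (VI Vp (t + 1) L, EI p Ep (t + 1) L)).2 = shiftE (-τ) (EI p Ep (t + 1) L) :=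
    rfl
  rw [e1, e2, hM2, sub_eq_add_neg (p (t + 1)) τ]
  unfold PA PB
  exact mul_le_mul hA hB (prod_pr_bounds).1 (wt_nonneg _ _ _ _ _ _)

end

lemma sum_exp_lower {s : Finset ℕ} {f : ℕ → ℝ} {μ : ℝ} (h : ∑ t ∈ s, f t ≤ s.card * μ) :
    (s.card : ℝ) * Real.exp (-μ) ≤ ∑ t ∈ s, Real.exp (-f t) := by
  have h1 : ∀ t ∈ s, Real.exp (-μ) * (1 + (μ - f t)) ≤ Real.exp (-f t) := by
    intro t _
    have h2 := Real.add_one_le_exp (μ - f t)
    have h3 : Real.exp (-f t) = Real.exp (-μ) * Real.exp (μ - f t) := by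
      rw [← Real.exp_add]; congr 1; ring
    rw [h3]
    exact mul_le_mul_of_nonneg_left (by linarith) (Real.exp_pos _).le
  refine le_trans ?_ (sum_le_sum h1)
  rw [← mul_sum, sum_add_distrib, sum_sub_distrib, sum_const, sum_const, nsmul_eq_mul,
    nsmul_eq_mul, mul_one, mul_comm]
  exact mul_le_mul_of_nonneg_left (by linarith) (Real.exp_pos _).le

lemma card_heavy {N : ℕ} {m : ℕ → ℕ} {n H w : ℕ} (hn : ∑ z ∈ range N, m z = n)
    (hH : 16 * n ≤ H * w) (hH0 : 1 ≤ H) :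
    16 * ((range N).filter (fun z => H < m z)).card ≤ w := by
  have h1 : H * ((range N).filter (fun z => H < m z)).card ≤ n := by
    rw [← hn, mul_comm, ← smul_eq_mul, ← sum_const]
    refine (sum_le_sum fun z hz => ?_).trans (sum_le_sum_of_subset (filter_subset _ _))
    exact (mem_filter.mp hz).2.le
  have h2 : H * (16 * ((range N).filter (fun z => H < m z)).card) ≤ H * w := by
    calc _ = 16 * (H * ((range N).filter (fun z => H < m z)).card) := by ring
      _ ≤ 16 * n := by gcongr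
      _ ≤ _ := hH
  exact Nat.le_of_mul_le_mul_left h2 hH0


lemma chain_dist (hG : Lat G) {V : Finset Pt} {E : Finset (Sym2 Pt)} {r r' : Pt} {L : ℕ}
    {p : ℕ → Pt} {Vp : ℕ → Finset Pt} {Ep : ℕ → Finset (Sym2 Pt)}
    (h : Chain G V E r r' L p Vp Ep) : ∀ i ≤ L, (p i).1 ≤ r.1 + i := by
  intro i
  induction i with
  | zero => intro _; rw [h.h0]; simp
  | succ i ih =>
    intro hi
    have h1 := ih (by omega)
    have h2 := abs_le.mp (hG.dx _ _ (h.hadj i (by omega)))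
    push_cast
    omega

lemma le_Ln (hG : Lat G) {T : Tr} {n w : ℕ} (hT : T ∈ Wf hG n w) : w ≤ Ln G T := by
  rw [mem_Wf] at hT
  obtain ⟨⟨hLT, _, hN⟩, v, hv, hvw⟩ := hT
  have ch := cd_spec hLT hN.1
  have h1 := chain_dist hG ch _ le_rfl
  rw [ch.hL] at h1
  have h2 := (mx_spec hLT.nonempty).2 v hv
  unfold Ln
  simp only at h1
  omega

lemma AA_mono {n N w : ℝ} (hn : 0 < n) (hw : 0 < w) (hwN : w ≤ N) : AA n N ≤ AA n w := by
  unfold AA
  have h1 : Real.log (2 * n / N) ≤ Real.log (2 * n / w) :=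
    Real.log_le_log (by have := hw.trans_le hwN; positivity) (by gcongr)
  have h2 : 0 ≤ 14 + 2 * Real.log 8 * (12 / (1 / 200)) := by
    have : 0 ≤ Real.log 8 := Real.log_nonneg (by norm_num)
    positivity
  nlinarith [mul_le_mul_of_nonneg_left h1 h2]

lemma Z_lower (hG : Lat G) {n w H : ℕ} (hH0 : 1 ≤ H) (hH : 16 * n ≤ H * w) (hw : 11 ≤ w) {T : Tr}
    (hT : T ∈ Wf hG n w) :
    (7 / 8 : ℝ) * w * Real.exp (-((5 / 2) * AA n w)) ≤
      ∑ t ∈ range (Ln G T), gw G H n (cutF G ⟨T, t⟩) := by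
  classical
  have hwL := le_Ln hG hT
  rw [mem_Wf] at hT
  obtain ⟨⟨hLT, hcard, hN⟩, _⟩ := hT
  have h0 := hN.1
  set L := Ln G T with hL
  set S := (range L).filter (fun t => ms G T t ≤ H ∧ ms G T (t + 1) ≤ H) with hS
  have hheavy := card_heavy (N := L + 1) (m := ms G T) (w := w) (sum_ms hLT h0 |>.trans hcard) hH hH0
  set B := (range (L + 1)).filter (fun z => H < ms G T z) with hB
  have hcardS : L ≤ S.card + 2 * B.card := by
    have hsub : range L ⊆ S ∪ (B ∪ (B.image (fun z => z - 1))) := by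
      intro t ht
      rw [mem_range] at ht
      rw [mem_union, mem_union, hS, mem_filter, mem_range]
      by_cases h1 : ms G T t ≤ H
      · by_cases h2 : ms G T (t + 1) ≤ H
        · exact Or.inl ⟨ht, h1, h2⟩
        · right; right
          rw [mem_image]
          refine ⟨t + 1, ?_, by omega⟩
          rw [hB, mem_filter, mem_range]
          exact ⟨by omega, by omega⟩
      · right; left
        rw [hB, mem_filter, mem_range]
        exact ⟨by omega, by omega⟩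
    have h1 := card_le_card hsub
    rw [card_range] at h1
    have h2 := card_union_le S (B ∪ (B.image (fun z => z - 1)))
    have h3 := card_union_le B (B.image (fun z => z - 1))
    have h4 : (B.image (fun z => z - 1)).card ≤ B.card := card_image_le
    omega
  have hS1 : 7 * L ≤ 8 * S.card := by omega
  have hLr : (11 : ℝ) ≤ L := by exact_mod_cast hw.trans hwL
  have hwr : (11 : ℝ) ≤ w := by exact_mod_cast hw
  have hwLr : (w : ℝ) ≤ L := by exact_mod_cast hwL
  have hS1r : 7 * (L : ℝ) ≤ 8 * S.card := by exact_mod_cast hS1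
  have hn0 : (0 : ℝ) < n := by
    have : 0 < n := by rw [← hcard]; exact card_pos.mpr ⟨_, h0⟩
    exact_mod_cast this
  have hsA := sum_cA hLT h0 hcard
  have hsB := sum_cB hLT h0 hcard
  rw [← hL] at hsA hsB
  push_cast at hsA hsB
  have hAA0 : 0 ≤ AA n ((L : ℝ) + 1) := by
    have h1 : 0 ≤ ((L : ℝ) + 1) * AA n ((L : ℝ) + 1) :=
      le_trans (sum_nonneg fun t _ => cA_nonneg T t) hsA
    by_contra hneg
    push Not at hneg
    nlinarith
  have hAAm : AA n ((L : ℝ) + 1) ≤ AA n w := AA_mono hn0 (by linarith) (by linarith)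
  have hsum : ∑ t ∈ S, (cA G T t + cB G T (t + 1)) ≤ S.card * ((5 / 2) * AA n w) := by
    rw [sum_add_distrib]
    have h1 : ∑ t ∈ S, cA G T t ≤ ∑ t ∈ range (L + 1), cA G T t := by
      refine sum_le_sum_of_subset_of_nonneg ?_ fun t _ _ => cA_nonneg T t
      intro t ht
      rw [hS, mem_filter, mem_range] at ht
      rw [mem_range]; omega
    have h2 : ∑ t ∈ S, cB G T (t + 1) ≤ ∑ t ∈ range (L + 1), cB G T t := by
      rw [← sum_image (f := fun t => cB G T t) (g := fun t => t + 1) (s := S)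
        (by intro a _ b _ hab; simpa using hab)]
      refine sum_le_sum_of_subset_of_nonneg ?_ fun t _ _ => cB_nonneg T t
      intro t ht
      rw [mem_image] at ht
      obtain ⟨a, ha, rfl⟩ := ht
      rw [hS, mem_filter, mem_range] at ha
      rw [mem_range]; omega
    have h3 : 2 * (((L : ℝ) + 1) * AA n ((L : ℝ) + 1)) ≤ S.card * ((5 / 2) * AA n w) := by
      have h4 : 2 * ((L : ℝ) + 1) ≤ (5 / 2) * S.card := by linarith
      calc 2 * (((L : ℝ) + 1) * AA n ((L : ℝ) + 1)) = (2 * ((L : ℝ) + 1)) * AA n ((L : ℝ) + 1) := by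
            ring
        _ ≤ ((5 / 2) * S.card) * AA n w := mul_le_mul h4 hAAm hAA0 (by positivity)
        _ = _ := by ring
    linarith
  have hexp := sum_exp_lower hsum
  calc (7 / 8 : ℝ) * w * Real.exp (-((5 / 2) * AA n w)) ≤
      S.card * Real.exp (-((5 / 2) * AA n w)) := by
        refine mul_le_mul_of_nonneg_right ?_ (Real.exp_pos _).le
        linarith
    _ ≤ ∑ t ∈ S, Real.exp (-(cA G T t + cB G T (t + 1))) := hexp
    _ ≤ ∑ t ∈ S, gw G H n (cutF G ⟨T, t⟩) := by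
        refine sum_le_sum fun t ht => ?_
        rw [hS, mem_filter, mem_range] at ht
        refine le_trans ?_ (gw_lower hLT h0 hG hcard (by rw [← hL]; exact ht.1) ht.2.1 ht.2.2)
        rw [neg_add, Real.exp_add]
        exact mul_le_mul (PA_lower hLT h0 (by omega)) (PB_lower hLT h0) (Real.exp_pos _).le
          (prod_pr_bounds).1
    _ ≤ _ := by
        refine sum_le_sum_of_subset_of_nonneg ?_ fun t _ _ => gw_nonneg H n _
        rw [hS]
        exact filter_subset _ _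

/-- The main bound on the number of wide trees. -/
theorem wide_bound (hG : Lat G) {n w H : ℕ} (hH0 : 1 ≤ H) (hH : 16 * n ≤ H * w) (hw : 11 ≤ w) :
    ((Wf hG n w).card : ℝ) * (w : ℝ) ^ 2 ≤
      42 * (H : ℝ) ^ 2 * n * Real.exp ((5 / 2) * AA n w) * (NTf hG n).card := by
  have h1 := cut_sum hG (H := H) (n := n) (w := w) (w' := w / 2) hH0 (by omega)
  have h2 : ((Wf hG n w).card : ℝ) * ((7 / 8 : ℝ) * w * Real.exp (-((5 / 2) * AA n w))) ≤
      9 * (H : ℝ) ^ 2 * (Pairs hG n (w / 2)).card := by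
    refine le_trans ?_ h1
    rw [← nsmul_eq_mul, ← sum_const]
    exact sum_le_sum fun T hT => Z_lower hG hH0 hH hw hT
  have h3 : (((w / 2 : ℕ) : ℝ) + 1) * (Pairs hG n (w / 2)).card ≤ 2 * (n * (NTf hG n).card) := by
    exact_mod_cast card_Pairs hG n (w / 2)
  have h4 : (w : ℝ) / 2 ≤ ((w / 2 : ℕ) : ℝ) + 1 := by
    have : w ≤ 2 * (w / 2 + 1) := by omega
    have : (w : ℝ) ≤ 2 * (((w / 2 : ℕ) : ℝ) + 1) := by exact_mod_cast this
    linarith
  have hwr : (11 : ℝ) ≤ w := by exact_mod_cast hw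
  have h5 : (w : ℝ) / 2 * (Pairs hG n (w / 2)).card ≤ 2 * (n * (NTf hG n).card) :=
    (mul_le_mul_of_nonneg_right h4 (Nat.cast_nonneg _)).trans h3
  set W := ((Wf hG n w).card : ℝ) with hW
  set P := ((Pairs hG n (w / 2)).card : ℝ) with hP
  set X := Real.exp ((5 / 2) * AA n w) with hX
  have hXpos : 0 < X := Real.exp_pos _
  have hXinv : Real.exp (-((5 / 2) * AA n w)) * X = 1 := by
    rw [hX, ← Real.exp_add, neg_add_cancel, Real.exp_zero]
  have h6 : W * (7 / 8) * w ≤ 9 * (H : ℝ) ^ 2 * P * X := by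
    have := mul_le_mul_of_nonneg_right h2 hXpos.le
    calc W * (7 / 8) * w = W * ((7 / 8 : ℝ) * w * Real.exp (-((5 / 2) * AA n w))) * X := by
          rw [mul_assoc W, mul_assoc W, mul_assoc (7 / 8 * (w : ℝ)), hXinv, mul_one]
      _ ≤ _ := this
  calc W * (w : ℝ) ^ 2 = (16 / 7) * ((W * (7 / 8) * w) * (w / 2)) := by ring
    _ ≤ (16 / 7) * ((9 * (H : ℝ) ^ 2 * P * X) * (w / 2)) := by gcongr
    _ = (144 / 7) * (H : ℝ) ^ 2 * X * (w / 2 * P) := by ring
    _ ≤ (144 / 7) * (H : ℝ) ^ 2 * X * (2 * (n * (NTf hG n).card)) := by gcongr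
    _ ≤ 42 * (H : ℝ) ^ 2 * n * X * (NTf hG n).card := by
        have : 0 ≤ (H : ℝ) ^ 2 * X * (n * (NTf hG n).card) := by positivity
        nlinarith

end Pool.Agent.H97.LTCore
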