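import Mathlib
import Pool.Agent.H97.LTPoly

set_option autoImplicit false

open Finset

namespace Pool.Agent.H97.LTCore

variable {G : SimpleGraph Pt}

/-- The width of a finite set of points. -/
def wd (V : Finset Pt) : ℕ := (V ×ˢ V).sup (fun z => (z.2.1 - z.1.1).toNat)

/-- The height of a finite set of points. -/
def ht (V : Finset Pt) : ℕ := (V ×ˢ V).sup (fun z => (z.2.2 - z.1.2).toNat)

lemma le_wd {V : Finset Pt} {a b : Pt} (ha : a ∈ V) (hb : b ∈ V) : b.1 - a.1 ≤ wd V := by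
  have : (b.1 - a.1).toNat ≤ wd V :=
    le_sup (f := fun z : Pt × Pt => (z.2.1 - z.1.1).toNat) (mem_product.mpr ⟨ha, hb⟩ : (a, b) ∈ _)
  have h2 := Int.self_le_toNat (b.1 - a.1)
  omega

lemma le_ht {V : Finset Pt} {a b : Pt} (ha : a ∈ V) (hb : b ∈ V) : b.2 - a.2 ≤ ht V := by
  have : (b.2 - a.2).toNat ≤ ht V :=
    le_sup (f := fun z : Pt × Pt => (z.2.2 - z.1.2).toNat) (mem_product.mpr ⟨ha, hb⟩ : (a, b) ∈ _)
  have h2 := Int.self_le_toNat (b.2 - a.2)
  omega

lemma exists_wd {V : Finset Pt} (hV : V.Nonempty) {w : ℕ} (hw : w ≤ wd V) :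
    ∃ a ∈ V, ∃ b ∈ V, (w : ℤ) ≤ b.1 - a.1 := by
  obtain ⟨z, hz, hz'⟩ := exists_mem_eq_sup (V ×ˢ V) (hV.product hV)
    (fun z => (z.2.1 - z.1.1).toNat)
  rw [mem_product] at hz
  by_cases h0 : w = 0
  · obtain ⟨a, ha⟩ := hV
    exact ⟨a, ha, a, ha, by simp [h0]⟩
  · refine ⟨z.1, hz.1, z.2, hz.2, ?_⟩
    unfold wd at hw
    rw [hz'] at hw
    omega

lemma wd_shift (t : Pt) (V : Finset Pt) : wd (shiftV t V) = wd V := by
  apply le_antisymm
  · refine Finset.sup_le fun z hz => ?_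
    rw [mem_product, mem_shiftV, mem_shiftV] at hz
    have := le_wd hz.1 hz.2
    simp only [Prod.fst_sub] at this
    omega
  · refine Finset.sup_le fun z hz => ?_
    rw [mem_product] at hz
    have := le_wd (add_mem_shiftV (t := t) hz.1) (add_mem_shiftV (t := t) hz.2)
    simp only [Prod.fst_add] at this
    omega

lemma LT.wd_lt (hG : Lat G) {V : Finset Pt} {E : Finset (Sym2 Pt)} (h : LT G V E) :
    wd V < V.card := by
  obtain ⟨a, ha, b, hb, hab⟩ := exists_wd h.nonempty (le_refl (wd V))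
  have := h.width_lt hG ha hb
  omega

/-- Trees with `n` vertices containing the origin. -/
def RTs (G : SimpleGraph Pt) (n : ℕ) : Set Tr :=
  {T | LT G T.1 T.2 ∧ T.1.card = n ∧ ((0, 0) : Pt) ∈ T.1}

lemma RT_finite (hG : Lat G) (n : ℕ) : (RTs G n).Finite := by
  set box : Finset Pt := Finset.Icc (-n : ℤ) n ×ˢ Finset.Icc (-n : ℤ) n with hbox
  refine Set.Finite.subset (Finset.finite_toSet (box.powerset ×ˢ (box.sym2).powerset)) ?_
  rintro ⟨V, E⟩ ⟨h, hc, hN⟩
  simp only at h hc hN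
  have hV : V ⊆ box := by
    intro v hv
    have h1 := h.width_lt hG hN hv
    have h2 := h.width_lt hG hv hN
    have h3 := h.height_lt hG hN hv
    have h4 := h.height_lt hG hv hN
    rw [hbox, mem_product, mem_Icc, mem_Icc]
    simp only at h1 h2 h3 h4
    omega
  simp only [coe_product, Set.mem_prod, mem_coe, mem_powerset]
  refine ⟨hV, ?_⟩
  intro e he
  induction e using Sym2.ind with
  | _ a b =>
    have := h.edge a b he
    rw [Finset.mk_mem_sym2_iff]
    exact ⟨hV this.1, hV this.2.1⟩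

noncomputable def RT (hG : Lat G) (n : ℕ) : Finset Tr := (RT_finite hG n).toFinset

lemma mem_RT {hG : Lat G} {n : ℕ} {T : Tr} :
    T ∈ RT hG n ↔ LT G T.1 T.2 ∧ T.1.card = n ∧ ((0, 0) : Pt) ∈ T.1 := by
  unfold RT; rw [Set.Finite.mem_toFinset]; rfl

/-- Sums over rooted trees of translation invariant functions. -/
lemma sum_RT (hG : Lat G) (n : ℕ) (f : Tr → ℝ) (hf : ∀ s T, f (sh s T) = f T) :
    ∑ T ∈ RT hG n, f T = n * ∑ T ∈ NTf hG n, f T := by
  classical
  have h1 : ∑ x ∈ (NTf hG n).sigma (fun T => T.1), f x.1 = n * ∑ T ∈ NTf hG n, f T := by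
    rw [sum_sigma, mul_sum]
    refine sum_congr rfl fun T hT => ?_
    simp only [sum_const, nsmul_eq_mul, (mem_NTf.mp hT).2.1]
  rw [← h1]
  symm
  refine sum_bij (fun x _ => sh (-x.2) x.1) ?_ ?_ ?_ ?_
  · rintro ⟨T, v⟩ hx
    rw [mem_sigma, mem_NTf] at hx
    obtain ⟨⟨hT, hc, hN⟩, hv⟩ := hx
    rw [mem_RT]
    refine ⟨hT.shift hG _, ?_, ?_⟩
    · show (shiftV _ _).card = n
      rw [card_shiftV]; exact hc
    · show (0, 0) ∈ shiftV _ _
      rw [mem_shiftV]
      have : ((0, 0) : Pt) - -v = v := by ext <;> simp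
      simp only at this ⊢
      rw [this]; exact hv
  · rintro ⟨T, v⟩ hx ⟨T', v'⟩ hx' heq
    rw [mem_sigma, mem_NTf] at hx hx'
    simp only at heq hx hx'
    obtain ⟨h1, h2⟩ := sh_norm_unique hx.1.2.2 hx'.1.2.2 heq
    have : v = v' := neg_injective h1
    subst h2 this
    rfl
  · intro T hT
    rw [mem_RT] at hT
    obtain ⟨hLT, hc, h0⟩ := hT
    obtain ⟨ht, hN⟩ := nrm_spec hLT.nonempty
    refine ⟨⟨sh (-nrm T.1) T, -nrm T.1⟩, ?_, ?_⟩
    · rw [mem_sigma, mem_NTf]
      refine ⟨⟨hLT.shift hG _, ?_, hN⟩, ?_⟩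
      · show (shiftV _ _).card = n
        rw [card_shiftV]; exact hc
      · show -nrm T.1 ∈ shiftV _ _
        rw [mem_shiftV]
        have : -nrm T.1 - -nrm T.1 = (0, 0) := by ext <;> simp
        rw [this]; exact h0
    · simp only
      rw [sh_sh, neg_neg, neg_add_cancel, sh_zero]
  · rintro ⟨T, v⟩ _
    exact (hf _ _).symm

lemma card_RT (hG : Lat G) (n : ℕ) : ((RT hG n).card : ℝ) = n * (NTf hG n).card := by
  have := sum_RT hG n (fun _ => 1) (fun _ _ => rfl)
  simpa using this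

lemma sum_wd_NTf (hG : Lat G) (n w : ℕ) :
    ∑ T ∈ NTf hG n, (wd T.1 : ℝ) ≤ w * (NTf hG n).card + n * (Wf hG n w).card := by
  classical
  have h1 : ∀ T ∈ NTf hG n, (wd T.1 : ℝ) ≤ w + if T ∈ Wf hG n w then (n : ℝ) else 0 := by
    intro T hT
    rw [mem_NTf] at hT
    split_ifs with h
    · have := hT.1.wd_lt hG
      rw [hT.2.1] at this
      have : (wd T.1 : ℝ) ≤ n := by exact_mod_cast this.le
      have : (0 : ℝ) ≤ w := Nat.cast_nonneg _
      linarith
    · rw [add_zero]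
      by_contra hcon
      push Not at hcon
      have hcon : w < wd T.1 := by exact_mod_cast hcon
      apply h
      rw [mem_Wf]
      refine ⟨hT, ?_⟩
      obtain ⟨a, ha, b, hb, hab⟩ := exists_wd hT.1.nonempty hcon.le
      have := (hT.2.2.2 a ha).1
      exact ⟨b, hb, by omega⟩
  refine (sum_le_sum h1).trans ?_
  rw [sum_add_distrib, sum_const, nsmul_eq_mul, sum_ite_mem, sum_const, nsmul_eq_mul]
  have h2 : (NTf hG n ∩ Wf hG n w).card ≤ (Wf hG n w).card := card_le_card inter_subset_right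
  have h3 : ((NTf hG n ∩ Wf hG n w).card : ℝ) ≤ (Wf hG n w).card := by exact_mod_cast h2
  have : (0 : ℝ) ≤ n := Nat.cast_nonneg _
  nlinarith

lemma sum_wd_RT (hG : Lat G) (n w : ℕ) :
    ∑ T ∈ RT hG n, (wd T.1 : ℝ) ≤ n * (w * (NTf hG n).card + n * (Wf hG n w).card) := by
  rw [sum_RT hG n (fun T => (wd T.1 : ℝ))]
  · exact mul_le_mul_of_nonneg_left (sum_wd_NTf hG n w) (Nat.cast_nonneg _)
  · intro s T
    show ((wd (shiftV s T.1) : ℕ) : ℝ) = _
    rw [wd_shift]

/-- reflection of a tree -/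
def swT (T : Tr) : Tr := (T.1.image Prod.swap, T.2.image (Sym2.map Prod.swap))

lemma mem_swV {V : Finset Pt} {p : Pt} : p ∈ V.image Prod.swap ↔ p.swap ∈ V := by
  rw [mem_image]
  constructor
  · rintro ⟨a, ha, rfl⟩; simpa using ha
  · intro h; exact ⟨p.swap, h, by simp⟩

lemma LT.sw (hG : Lat G) {V : Finset Pt} {E : Finset (Sym2 Pt)} (h : LT G V E) :
    LT G (V.image Prod.swap) (E.image (Sym2.map Prod.swap)) := by
  induction h with
  | single v =>
    rw [image_singleton, image_empty]; exact LT.single _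
  | @leaf V E u w h0 hu hw hadj ih =>
    rw [image_insert, image_insert]
    refine LT.leaf ih (mem_image_of_mem _ hu) ?_ (hG.swap _ _ hadj)
    rw [mem_swV]; simpa using hw

lemma swT_swT (T : Tr) : swT (swT T) = T := by
  unfold swT
  apply Prod.ext
  · simp only [image_image]
    ext p; simp
  · simp only [image_image]
    ext e
    have : Sym2.map (Prod.swap : Pt → Pt) ∘ Sym2.map Prod.swap = id := by
      ext e
      induction e using Sym2.ind with
      | _ a b => simp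
    rw [this]; simp

lemma swT_mem (hG : Lat G) {n : ℕ} {T : Tr} (hT : T ∈ RT hG n) : swT T ∈ RT hG n := by
  rw [mem_RT] at hT ⊢
  refine ⟨hT.1.sw hG, ?_, ?_⟩
  · show (T.1.image Prod.swap).card = n
    rw [card_image_of_injective _ Prod.swap_injective]; exact hT.2.1
  · show (0, 0) ∈ T.1.image Prod.swap
    rw [mem_swV]; exact hT.2.2

lemma ht_eq (V : Finset Pt) : ht V = wd (V.image Prod.swap) := by
  apply le_antisymm
  · refine Finset.sup_le fun z hz => ?_
    rw [mem_product] at hz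
    have := le_wd (mem_image_of_mem Prod.swap hz.1) (mem_image_of_mem Prod.swap hz.2)
    simp only [Prod.fst_swap] at this
    omega
  · refine Finset.sup_le fun z hz => ?_
    rw [mem_product, mem_swV, mem_swV] at hz
    have := le_ht hz.1 hz.2
    simp only [Prod.snd_swap] at this
    omega

lemma sum_ht_RT (hG : Lat G) (n : ℕ) :
    ∑ T ∈ RT hG n, (ht T.1 : ℝ) = ∑ T ∈ RT hG n, (wd T.1 : ℝ) := by
  refine sum_bij (fun T _ => swT T) (fun T hT => swT_mem hG hT) ?_ ?_ ?_
  · intro T _ T' _ h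
    rw [← swT_swT T, h, swT_swT]
  · intro T hT
    exact ⟨swT T, swT_mem hG hT, swT_swT T⟩
  · intro T _
    rw [ht_eq]; rfl

end Pool.Agent.H97.LTCore
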