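import Mathlib
import Pool.Agent.H97.LTRoot

set_option autoImplicit false

open Finset

namespace Pool.Agent.H97.LTCore

open Pool.Agent.H97.LTSeq

variable {G : SimpleGraph Pt}

lemma log8_bounds : 0 ≤ Real.log 8 ∧ Real.log 8 ≤ 2.08 := by
  have h : Real.log 8 = 3 * Real.log 2 := by
    rw [show (8 : ℝ) = 2 ^ 3 by norm_num, Real.log_pow]; norm_num
  have h2 := Real.log_two_lt_d9
  have h3 := Real.log_two_gt_d9
  constructor <;> linarith

/-- `E width ≤ C n^{1-1/100000}` -/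
theorem mean_width (hG : Lat G) {n : ℕ} (hn : 1 ≤ n) :
    ∑ T ∈ RT hG n, (wd T.1 : ℝ) ≤
      Real.exp 30000 * (n : ℝ) ^ (1 - 1 / 100000 : ℝ) * (RT hG n).card := by
  have hn1 : (1 : ℝ) ≤ n := by exact_mod_cast hn
  have hn0 : (0 : ℝ) < n := by linarith
  set e : ℝ := 1 / 100000 with he
  set w : ℕ := ⌈(n : ℝ) ^ (1 - e)⌉₊ + 11 with hw
  have hpow1 : 1 ≤ (n : ℝ) ^ (1 - e) := Real.one_le_rpow hn1 (by rw [he]; norm_num)
  have hw1 : (n : ℝ) ^ (1 - e) ≤ w := by
    rw [hw]; push_cast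
    have := Nat.le_ceil ((n : ℝ) ^ (1 - e))
    linarith
  have hw2 : (w : ℝ) ≤ 13 * (n : ℝ) ^ (1 - e) := by
    rw [hw]; push_cast
    have := (Nat.ceil_lt_add_one (by positivity : (0 : ℝ) ≤ (n : ℝ) ^ (1 - e))).le
    linarith
  have hw11 : 11 ≤ w := by rw [hw]; exact Nat.le_add_left _ _
  have hw0 : (0 : ℝ) < w := by have : 0 < w := by omega
                               exact_mod_cast this
  have hpe : 1 ≤ (n : ℝ) ^ e := Real.one_le_rpow hn1 (by rw [he]; norm_num)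
  have hnw : (n : ℝ) / w ≤ (n : ℝ) ^ e := by
    rw [div_le_iff₀ hw0]
    calc (n : ℝ) = (n : ℝ) ^ e * (n : ℝ) ^ (1 - e) := by
          rw [← Real.rpow_add hn0]; norm_num
      _ ≤ _ := by gcongr
  set H : ℕ := 16 * (n / w + 1) with hH
  have hH0 : 1 ≤ H := by rw [hH]; exact Nat.mul_pos (by norm_num) (Nat.succ_pos _)
  have hH1 : 16 * n ≤ H * w := by
    rw [hH, mul_assoc]
    apply Nat.mul_le_mul_left
    have := Nat.lt_div_mul_add (a := n) (b := w) (by omega)
    rw [Nat.add_mul, one_mul]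
    exact this.le
  have hH2 : (H : ℝ) ≤ 32 * (n : ℝ) ^ e := by
    rw [hH]; push_cast
    have h1 : (((n / w : ℕ) : ℕ) : ℝ) ≤ (n : ℝ) / w := Nat.cast_div_le
    linarith
  have hmain := wide_bound hG hH0 hH1 hw11
  -- bound on AA
  have hlog0 : 0 ≤ Real.log n := Real.log_nonneg hn1
  obtain ⟨hl8, hl8'⟩ := log8_bounds
  have hlog2 := Real.log_two_lt_d9
  have hAA : (5 / 2) * AA n w ≤ (9 / 16) * Real.log n + 29000 := by
    have h1 : Real.log (2 * n / w) ≤ Real.log 2 + e * Real.log n := by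
      rw [← Real.log_rpow hn0, ← Real.log_mul (by norm_num) (by positivity)]
      refine Real.log_le_log (by positivity) ?_
      rw [mul_div_assoc]
      gcongr
    have h0 : 0 ≤ e * Real.log n := by positivity
    unfold AA
    have hC0 : 0 ≤ 14 + 2 * Real.log 8 * (12 / (1 / 200)) := by positivity
    have hC1 : 14 + 2 * Real.log 8 * (12 / (1 / 200)) ≤ 10000 := by norm_num; linarith
    have h2 : (14 + 2 * Real.log 8 * (12 / (1 / 200))) * Real.log (2 * n / w) ≤
        10000 * (0.7 + e * Real.log n) := by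
      calc _ ≤ (14 + 2 * Real.log 8 * (12 / (1 / 200))) * (0.7 + e * Real.log n) := by
            apply mul_le_mul_of_nonneg_left _ hC0
            linarith
        _ ≤ _ := mul_le_mul_of_nonneg_right hC1 (by linarith)
    rw [he] at h2
    linarith
  have hexp : Real.exp ((5 / 2) * AA n w) ≤ Real.exp 29000 * (n : ℝ) ^ (9 / 16 : ℝ) := by
    rw [Real.rpow_def_of_pos hn0, ← Real.exp_add]
    apply Real.exp_le_exp.mpr
    linarith
  -- bound on the number of wide trees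
  have hWf : ((Wf hG n w).card : ℝ) * n ≤
      43008 * Real.exp 29000 * (n : ℝ) ^ (1 - e) * (NTf hG n).card := by
    have hp : (0 : ℝ) < (n : ℝ) ^ (1 - e) := by positivity
    have h1 : ((Wf hG n w).card : ℝ) * ((n : ℝ) ^ (1 - e)) ^ 2 ≤
        ((Wf hG n w).card : ℝ) * (w : ℝ) ^ 2 := by gcongr
    have h2 : 42 * (H : ℝ) ^ 2 * n * Real.exp ((5 / 2) * AA n w) * (NTf hG n).card ≤
        42 * (32 * (n : ℝ) ^ e) ^ 2 * n * (Real.exp 29000 * (n : ℝ) ^ (9 / 16 : ℝ)) *
          (NTf hG n).card := by gcongr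
    have h3 : n * (n * ((n : ℝ) ^ e) ^ 2 * (n : ℝ) ^ (9 / 16 : ℝ)) ≤
        (n : ℝ) ^ (1 - e) * ((n : ℝ) ^ (1 - e)) ^ 2 := by
      have e1 : n * (n * ((n : ℝ) ^ e) ^ 2 * (n : ℝ) ^ (9 / 16 : ℝ)) =
          (n : ℝ) ^ (1 + 1 + 2 * e + 9 / 16 : ℝ) := by
        rw [Real.rpow_add hn0, Real.rpow_add hn0, Real.rpow_add hn0, Real.rpow_one,
          mul_comm 2 e, Real.rpow_mul hn0.le, Real.rpow_two]
        ring
      have e2 : (n : ℝ) ^ (1 - e) * ((n : ℝ) ^ (1 - e)) ^ 2 = (n : ℝ) ^ (3 * (1 - e)) := by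
        rw [← Real.rpow_two, ← Real.rpow_mul hn0.le, ← Real.rpow_add hn0]
        congr 1; ring
      rw [e1, e2]
      apply Real.rpow_le_rpow_of_exponent_le hn1
      rw [he]; norm_num
    have h4 : ((Wf hG n w).card : ℝ) * n * ((n : ℝ) ^ (1 - e)) ^ 2 ≤
        43008 * Real.exp 29000 * (n : ℝ) ^ (1 - e) * (NTf hG n).card *
          ((n : ℝ) ^ (1 - e)) ^ 2 := by
      calc ((Wf hG n w).card : ℝ) * n * ((n : ℝ) ^ (1 - e)) ^ 2 =
          (((Wf hG n w).card : ℝ) * ((n : ℝ) ^ (1 - e)) ^ 2) * n := by ring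
        _ ≤ (42 * (32 * (n : ℝ) ^ e) ^ 2 * n * (Real.exp 29000 * (n : ℝ) ^ (9 / 16 : ℝ)) *
          (NTf hG n).card) * n := by
            apply mul_le_mul_of_nonneg_right _ hn0.le
            exact h1.trans (hmain.trans h2)
        _ = 43008 * Real.exp 29000 * (NTf hG n).card *
            (n * (n * ((n : ℝ) ^ e) ^ 2 * (n : ℝ) ^ (9 / 16 : ℝ))) := by ring
        _ ≤ 43008 * Real.exp 29000 * (NTf hG n).card *
            ((n : ℝ) ^ (1 - e) * ((n : ℝ) ^ (1 - e)) ^ 2) := by gcongr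
        _ = _ := by ring
    exact le_of_mul_le_mul_right h4 (by positivity)
  refine (sum_wd_RT hG n w).trans ?_
  rw [card_RT]
  have hbig : 13 + 43008 * Real.exp 29000 ≤ Real.exp 30000 := by
    have h1 : Real.exp 30000 = Real.exp 500 * Real.exp 500 * Real.exp 29000 := by
      rw [← Real.exp_add, ← Real.exp_add]; norm_num
    have h2 := Real.add_one_le_exp (500 : ℝ)
    have h3 : 1 ≤ Real.exp 29000 := Real.one_le_exp (by norm_num)
    have h4 : (501 : ℝ) * 501 ≤ Real.exp 500 * Real.exp 500 := by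
      nlinarith
    rw [h1]
    nlinarith
  have hN0 : (0 : ℝ) ≤ (NTf hG n).card := Nat.cast_nonneg _
  calc (n : ℝ) * (w * (NTf hG n).card + n * (Wf hG n w).card) ≤
      n * ((13 * (n : ℝ) ^ (1 - e)) * (NTf hG n).card +
        43008 * Real.exp 29000 * (n : ℝ) ^ (1 - e) * (NTf hG n).card) := by
        apply mul_le_mul_of_nonneg_left _ hn0.le
        apply add_le_add
        · exact mul_le_mul_of_nonneg_right hw2 hN0
        · rw [mul_comm (n : ℝ)]; exact hWf
    _ = (13 + 43008 * Real.exp 29000) * ((n : ℝ) ^ (1 - e) * (n * (NTf hG n).card)) := by ring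
    _ ≤ Real.exp 30000 * ((n : ℝ) ^ (1 - e) * (n * (NTf hG n).card)) := by gcongr
    _ = _ := by ring

end Pool.Agent.H97.LTCore
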