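import Mathlib
import Pool.Agent.H97.LTRoot
import Pool.Agent.H97.LTDefs

set_option autoImplicit false

open Finset

namespace Pool.Agent.H97.LTCore

open Pool.Agent.H97.LTDefs

variable {G : SimpleGraph Pt}

/-- The subgraph given by a pair of vertex and edge sets. -/
def toSub (G : SimpleGraph Pt) (T : Tr) : G.Subgraph where
  verts := (T.1 : Set Pt)
  Adj a b := s(a, b) ∈ T.2 ∧ G.Adj a b ∧ a ∈ T.1 ∧ b ∈ T.1
  adj_sub h := h.2.1
  edge_vert h := h.2.2.1
  symm := ⟨fun a b h => ⟨by rw [Sym2.eq_swap]; exact h.1, h.2.1.symm, h.2.2.2, h.2.2.1⟩⟩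

lemma toSub_adj {T : Tr} (h : LT G T.1 T.2) (a b : Pt) : (toSub G T).Adj a b ↔ s(a, b) ∈ T.2 :=
  ⟨fun h' => h'.1, fun h' => ⟨h', (h.edge a b h').2.2, (h.edge a b h').1, (h.edge a b h').2.1⟩⟩

lemma toSub_edgeSet {T : Tr} (h : LT G T.1 T.2) : (toSub G T).edgeSet = (T.2 : Set (Sym2 Pt)) := by
  ext e
  induction e using Sym2.ind with
  | _ a b => rw [SimpleGraph.Subgraph.mem_edgeSet, toSub_adj h]; rfl

lemma coe_edge_ncard (S : G.Subgraph) : Nat.card S.coe.edgeSet = S.edgeSet.ncard := by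
  rw [← SimpleGraph.Subgraph.image_coe_edgeSet_coe,
    Set.ncard_image_of_injective _ (Sym2.map.injective Subtype.val_injective)]
  rfl

lemma toSub_isTree {T : Tr} (h : LT G T.1 T.2) : (toSub G T).coe.IsTree := by
  have hfin : Finite (toSub G T).verts := Set.Finite.to_subtype (Finset.finite_toSet T.1)
  rw [SimpleGraph.isTree_iff_connected_and_card]
  constructor
  · have hne : Nonempty (toSub G T).verts := by
      obtain ⟨v, hv⟩ := h.nonempty
      exact ⟨⟨v, hv⟩⟩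
    refine SimpleGraph.Connected.mk ?_
    rintro ⟨a, ha⟩ ⟨b, hb⟩
    have hcl := h.closed {x | ∃ hx : x ∈ (toSub G T).verts,
      (toSub G T).coe.Reachable ⟨a, ha⟩ ⟨x, hx⟩} ?_ a ha b hb
    · obtain ⟨_, hr⟩ := hcl.mp ⟨ha, SimpleGraph.Reachable.refl _⟩
      exact hr
    · intro x y hxy
      have hadj : (toSub G T).Adj x y := (toSub_adj h x y).mpr hxy
      have hx : x ∈ (toSub G T).verts := hadj.fst_mem
      have hy : y ∈ (toSub G T).verts := hadj.snd_mem
      have hadj' : (toSub G T).coe.Adj ⟨x, hx⟩ ⟨y, hy⟩ := hadj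
      constructor
      · rintro ⟨_, hr⟩
        exact ⟨hy, hr.trans hadj'.reachable⟩
      · rintro ⟨_, hr⟩
        exact ⟨hx, hr.trans hadj'.symm.reachable⟩
  · rw [coe_edge_ncard, toSub_edgeSet h, Set.ncard_coe_finset, h.card]
    have : Nat.card (toSub G T).verts = (toSub G T).verts.ncard := rfl
    rw [this]
    show _ = Set.ncard (T.1 : Set Pt)
    rw [Set.ncard_coe_finset]

open Classical in
/-- A finite tree is obtained by successively attaching leaves. -/
lemma isTree_to_LT {S : G.Subgraph} (hS : S.coe.IsTree) (hf : S.verts.Finite) :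
    ∃ T : Tr, LT G T.1 T.2 ∧ toSub G T = S := by
  have hfin : Finite S.verts := hf.to_subtype
  have hef : S.edgeSet.Finite := by
    refine Set.Finite.subset (Finset.finite_toSet (hf.toFinset.sym2)) ?_
    intro e he
    induction e using Sym2.ind with
    | _ a b =>
      rw [mem_coe, Finset.mk_mem_sym2_iff, Set.Finite.mem_toFinset, Set.Finite.mem_toFinset]
      exact ⟨SimpleGraph.Subgraph.Adj.fst_mem he, SimpleGraph.Subgraph.Adj.snd_mem he⟩
  rw [SimpleGraph.isTree_iff_connected_and_card] at hS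
  obtain ⟨hconn, hcard⟩ := hS
  obtain ⟨⟨v0, hv0⟩⟩ := hconn.nonempty
  -- the family of subtrees
  set F : Finset Tr := (hf.toFinset.powerset ×ˢ hef.toFinset.powerset).filter
    (fun T => LT G T.1 T.2) with hF
  have hFne : F.Nonempty := by
    refine ⟨({v0}, ∅), ?_⟩
    rw [hF, mem_filter, mem_product, mem_powerset, mem_powerset]
    refine ⟨⟨?_, empty_subset _⟩, LT.single v0⟩
    intro x hx
    rw [mem_singleton] at hx
    rw [Set.Finite.mem_toFinset, hx]; exact hv0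
  obtain ⟨T, hT, hmax⟩ := exists_max_image F (fun T => T.1.card) hFne
  rw [hF, mem_filter, mem_product, mem_powerset, mem_powerset] at hT
  obtain ⟨⟨hV, hE⟩, hLT⟩ := hT
  have hVeq : T.1 = hf.toFinset := by
    by_contra hne
    obtain ⟨b, hb, hbT⟩ := exists_of_ssubset (hV.ssubset_of_ne hne)
    rw [Set.Finite.mem_toFinset] at hb
    obtain ⟨a, ha⟩ := hLT.nonempty
    have haS : a ∈ S.verts := by
      have := hV ha
      rwa [Set.Finite.mem_toFinset] at this
    obtain ⟨p⟩ := hconn.preconnected ⟨a, haS⟩ ⟨b, hb⟩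
    obtain ⟨d, _, hd1, hd2⟩ := p.exists_boundary_dart {x | (x : Pt) ∈ T.1} ha hbT
    have hadj : S.Adj d.fst d.snd := d.adj
    have hd1' : (d.fst : Pt) ∈ T.1 := hd1
    have hd2' : (d.snd : Pt) ∉ T.1 := hd2
    have hnew : (insert (d.snd : Pt) T.1, insert s((d.fst : Pt), (d.snd : Pt)) T.2) ∈ F := by
      rw [hF, mem_filter, mem_product, mem_powerset, mem_powerset]
      refine ⟨⟨?_, ?_⟩, LT.leaf hLT hd1' hd2' (S.adj_sub hadj)⟩
      · refine insert_subset ?_ hV
        rw [Set.Finite.mem_toFinset]; exact d.snd.2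
      · refine insert_subset ?_ hE
        rw [Set.Finite.mem_toFinset, SimpleGraph.Subgraph.mem_edgeSet]; exact hadj
    have := hmax _ hnew
    simp only at this
    rw [card_insert_of_notMem hd2'] at this
    omega
  have hEeq : T.2 = hef.toFinset := by
    refine eq_of_subset_of_card_le hE ?_
    have h1 := hLT.card
    rw [coe_edge_ncard, Set.ncard_eq_toFinset_card _ hef] at hcard
    have h2 : Nat.card S.verts = S.verts.ncard := rfl
    rw [h2, Set.ncard_eq_toFinset_card _ hf, ← hVeq] at hcard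
    omega
  refine ⟨T, hLT, ?_⟩
  apply SimpleGraph.Subgraph.ext
  · show (T.1 : Set Pt) = _
    rw [hVeq, Set.Finite.coe_toFinset]
  · funext a b
    rw [eq_iff_iff, toSub_adj hLT, hEeq, Set.Finite.mem_toFinset, SimpleGraph.Subgraph.mem_edgeSet]

lemma toSub_injOn : Set.InjOn (toSub G) {T : Tr | LT G T.1 T.2} := by
  intro T hT T' hT' h
  have h1 : (T.1 : Set Pt) = T'.1 := congrArg SimpleGraph.Subgraph.verts h
  have h2 : (T.2 : Set (Sym2 Pt)) = T'.2 := by
    rw [← toSub_edgeSet hT, ← toSub_edgeSet hT', h]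
  exact Prod.ext (by exact_mod_cast h1) (by exact_mod_cast h2)

lemma bijOn_toSub {n : ℕ} (hn : 1 ≤ n) :
    Set.BijOn (toSub G) (RTs G n) (treesAt G n) := by
  refine ⟨?_, toSub_injOn.mono fun T hT => hT.1, ?_⟩
  · intro T hT
    refine ⟨hT.2.2, ?_, toSub_isTree hT.1⟩
    show Set.ncard (T.1 : Set Pt) = n
    rw [Set.ncard_coe_finset]; exact hT.2.1
  · intro S hS
    obtain ⟨h0, hc, ht⟩ := hS
    have hf : S.verts.Finite := Set.finite_of_ncard_ne_zero (by omega)
    obtain ⟨T, hT, rfl⟩ := isTree_to_LT ht hf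
    refine ⟨T, ⟨hT, ?_, h0⟩, rfl⟩
    have : Set.ncard (T.1 : Set Pt) = n := hc
    rwa [Set.ncard_coe_finset] at this

lemma diam_body {pos : Pt → EuclideanSpace ℝ (Fin 2)}
    (hpos : ∀ a b, dist (pos a) (pos b) ≤ |(a.1 : ℝ) - b.1| + |(a.2 : ℝ) - b.2|) {T : Tr}
    (h : LT G T.1 T.2) : Metric.diam (body G pos (toSub G T)) ≤ wd T.1 + ht T.1 := by
  have hsub : body G pos (toSub G T) ⊆ convexHull ℝ (pos '' (T.1 : Set Pt)) := by
    rintro x (hx | hx)
    · exact subset_convexHull ℝ _ hx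
    · simp only [Set.mem_iUnion] at hx
      obtain ⟨p, q, hpq, hx⟩ := hx
      have hp : p ∈ T.1 := hpq.2.2.1
      have hq : q ∈ T.1 := hpq.2.2.2
      have hp' : pos p ∈ pos '' (T.1 : Set Pt) := Set.mem_image_of_mem pos hp
      have hq' : pos q ∈ pos '' (T.1 : Set Pt) := Set.mem_image_of_mem pos hq
      exact (convex_convexHull ℝ _).segment_subset
        (subset_convexHull ℝ _ hp') (subset_convexHull ℝ _ hq') hx
  have hbdd : Bornology.IsBounded (convexHull ℝ (pos '' (T.1 : Set Pt))) := by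
    rw [isBounded_convexHull]
    exact ((Finset.finite_toSet T.1).image pos).isBounded
  refine (Metric.diam_mono hsub hbdd).trans ?_
  rw [convexHull_diam]
  refine Metric.diam_le_of_forall_dist_le (by positivity) ?_
  rintro _ ⟨a, ha, rfl⟩ _ ⟨b, hb, rfl⟩
  refine (hpos a b).trans (add_le_add ?_ ?_)
  · rw [abs_le]
    have h1 := le_wd ha hb
    have h2 := le_wd hb ha
    have h1' : (b.1 : ℝ) - a.1 ≤ wd T.1 := by exact_mod_cast h1
    have h2' : (a.1 : ℝ) - b.1 ≤ wd T.1 := by exact_mod_cast h2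
    constructor <;> linarith
  · rw [abs_le]
    have h1 := le_ht ha hb
    have h2 := le_ht hb ha
    have h1' : (b.2 : ℝ) - a.2 ≤ ht T.1 := by exact_mod_cast h1
    have h2' : (a.2 : ℝ) - b.2 ≤ ht T.1 := by exact_mod_cast h2
    constructor <;> linarith

lemma ncard_treesAt (hG : Lat G) {n : ℕ} (hn : 1 ≤ n) :
    (treesAt G n).ncard = (RT hG n).card := by
  rw [← (bijOn_toSub hn).image_eq, (bijOn_toSub hn).injOn.ncard_image,
    Set.ncard_eq_toFinset_card _ (RT_finite hG n)]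
  rfl

lemma finsum_treesAt (hG : Lat G) {n : ℕ} (hn : 1 ≤ n) (f : G.Subgraph → ℝ) :
    ∑ᶠ T ∈ treesAt G n, f T = ∑ T ∈ RT hG n, f (toSub G T) := by
  rw [← finsum_mem_eq_of_bijOn (f := fun T => f (toSub G T)) (toSub G) (bijOn_toSub hn)
    (fun _ _ => rfl)]
  rw [← finsum_mem_coe_finset]
  unfold RT
  rw [Set.Finite.coe_toFinset]


/-- Mean diameter in terms of the mean width. -/
lemma meanDiam_le (hG : Lat G) {pos : Pt → EuclideanSpace ℝ (Fin 2)}
    (hpos : ∀ a b, dist (pos a) (pos b) ≤ |(a.1 : ℝ) - b.1| + |(a.2 : ℝ) - b.2|) {n : ℕ}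
    (hn : 1 ≤ n) :
    meanDiam G pos n ≤ 2 * (∑ T ∈ RT hG n, (wd T.1 : ℝ)) / (RT hG n).card := by
  unfold meanDiam
  rw [finsum_treesAt hG hn, ncard_treesAt hG hn]
  apply div_le_div_of_nonneg_right _ (Nat.cast_nonneg _)
  calc ∑ T ∈ RT hG n, Metric.diam (body G pos (toSub G T)) ≤
      ∑ T ∈ RT hG n, ((wd T.1 : ℝ) + ht T.1) :=
        sum_le_sum fun T hT => diam_body hpos (mem_RT.mp hT).1
    _ = 2 * ∑ T ∈ RT hG n, (wd T.1 : ℝ) := by
        rw [sum_add_distrib, sum_ht_RT, two_mul]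

lemma square_adj (p q : Pt) : square.Adj p q ↔
    (q.1 = p.1 + 1 ∧ q.2 = p.2) ∨ (q.1 = p.1 ∧ q.2 = p.2 + 1) ∨
    (p.1 = q.1 + 1 ∧ p.2 = q.2) ∨ (p.1 = q.1 ∧ p.2 = q.2 + 1) := by
  unfold square
  rw [SimpleGraph.fromRel_adj]
  simp only [Prod.ext_iff, ne_eq, Prod.fst_sub, Prod.snd_sub]
  omega

lemma triangular_adj (p q : Pt) : triangular.Adj p q ↔
    (q.1 = p.1 + 1 ∧ q.2 = p.2) ∨ (q.1 = p.1 ∧ q.2 = p.2 + 1) ∨ (q.1 = p.1 + 1 ∧ q.2 = p.2 + 1) ∨
    (p.1 = q.1 + 1 ∧ p.2 = q.2) ∨ (p.1 = q.1 ∧ p.2 = q.2 + 1) ∨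
    (p.1 = q.1 + 1 ∧ p.2 = q.2 + 1) := by
  unfold triangular
  rw [SimpleGraph.fromRel_adj]
  simp only [Prod.ext_iff, ne_eq, Prod.fst_sub, Prod.snd_sub]
  omega

lemma lat_square : Lat square where
  trans p q t h := by
    rw [square_adj] at h ⊢
    simp only [Prod.fst_add, Prod.snd_add]
    omega
  dx p q h := by
    rw [square_adj] at h
    rw [abs_le]; omega
  dy p q h := by
    rw [square_adj] at h
    rw [abs_le]; omega
  up p := by
    rw [square_adj]
    simp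
  swap p q h := by
    rw [square_adj] at h ⊢
    simp only [Prod.fst_swap, Prod.snd_swap]
    omega

lemma lat_triangular : Lat triangular where
  trans p q t h := by
    rw [triangular_adj] at h ⊢
    simp only [Prod.fst_add, Prod.snd_add]
    omega
  dx p q h := by
    rw [triangular_adj] at h
    rw [abs_le]; omega
  dy p q h := by
    rw [triangular_adj] at h
    rw [abs_le]; omega
  up p := by
    rw [triangular_adj]
    simp
  swap p q h := by
    rw [triangular_adj] at h ⊢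
    simp only [Prod.fst_swap, Prod.snd_swap]
    omega

lemma squarePos_dist (a b : Pt) :
    dist (squarePos a) (squarePos b) ≤ |(a.1 : ℝ) - b.1| + |(a.2 : ℝ) - b.2| := by
  rw [EuclideanSpace.dist_eq, Fin.sum_univ_two]
  unfold squarePos
  simp only [Real.dist_eq, sq_abs]
  apply Real.sqrt_le_iff.mpr
  refine ⟨by positivity, ?_⟩
  simp
  nlinarith [abs_nonneg ((a.1 : ℝ) - b.1), abs_nonneg ((a.2 : ℝ) - b.2),
    sq_abs ((a.1 : ℝ) - b.1), sq_abs ((a.2 : ℝ) - b.2),
    mul_nonneg (abs_nonneg ((a.1 : ℝ) - b.1)) (abs_nonneg ((a.2 : ℝ) - b.2))]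

lemma triangularPos_dist (a b : Pt) :
    dist (triangularPos a) (triangularPos b) ≤ |(a.1 : ℝ) - b.1| + |(a.2 : ℝ) - b.2| := by
  rw [EuclideanSpace.dist_eq, Fin.sum_univ_two]
  unfold triangularPos
  simp only [Real.dist_eq, sq_abs]
  apply Real.sqrt_le_iff.mpr
  refine ⟨by positivity, ?_⟩
  simp
  have h3 : √3 * √3 = (3 : ℝ) := Real.mul_self_sqrt (by norm_num)
  set x : ℝ := (a.1 : ℝ) - b.1 with hx
  set y : ℝ := (a.2 : ℝ) - b.2 with hy
  have e1 : (a.1 : ℝ) - a.2 / 2 - (b.1 - b.2 / 2) = x - y / 2 := by rw [hx, hy]; ring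
  have e2 : √3 / 2 * (a.2 : ℝ) - √3 / 2 * b.2 = √3 / 2 * y := by rw [hy]; ring
  rw [e1, e2]
  have e3 : (√3 / 2 * y) ^ 2 = 3 / 4 * y ^ 2 := by
    calc (√3 / 2 * y) ^ 2 = (√3 * √3) / 4 * y ^ 2 := by ring
      _ = _ := by rw [h3]
  rw [e3]
  have h1 := neg_abs_le (x * y)
  rw [abs_mul] at h1
  nlinarith [abs_nonneg x, abs_nonneg y, sq_abs x, sq_abs y, mul_nonneg (abs_nonneg x) (abs_nonneg y)]

end Pool.Agent.H97.LTCore
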