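import Mathlib
import Pool.Agent.H97.LTBound
import Pool.Agent.H97.LTGraph

set_option autoImplicit false

open Finset

namespace Pool.Agent.H97.LTCore

open Pool.Agent.H97.LTDefs

variable {G : SimpleGraph Pt}

lemma pow_le_choose_of {A : ℝ} (hA : 0 ≤ A) {W : ℕ} :
    ∀ r : ℕ, (A + 1) * r ≤ W → A ^ r ≤ (W.choose r : ℝ) := by
  intro r
  induction r with
  | zero => intro _; simp
  | succ r ih =>
    intro hr
    push_cast at hr
    have h1 := ih (by nlinarith)
    have hrW : r ≤ W := by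
      have : (r : ℝ) ≤ W := by nlinarith [Nat.cast_nonneg (α := ℝ) r]
      exact_mod_cast this
    have h2 : ((W.choose (r + 1) : ℕ) : ℝ) * (r + 1) = (W.choose r : ℝ) * (W - r) := by
      have := Nat.choose_succ_right_eq W r
      have h3 : ((W.choose (r + 1) * (r + 1) : ℕ) : ℝ) = ((W.choose r * (W - r) : ℕ) : ℝ) := by
        rw [this]
      rw [Nat.cast_mul, Nat.cast_mul, Nat.cast_sub hrW] at h3
      push_cast at h3
      exact h3
    have hr1 : (0 : ℝ) < (r : ℝ) + 1 := by positivity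
    have h4 : A ^ (r + 1) * ((r : ℝ) + 1) ≤ (W.choose (r + 1) : ℝ) * (r + 1) := by
      rw [h2, pow_succ]
      have h5 : A * ((r : ℝ) + 1) ≤ W - r := by nlinarith
      calc A ^ r * A * ((r : ℝ) + 1) = A ^ r * (A * ((r : ℝ) + 1)) := by ring
        _ ≤ (W.choose r : ℝ) * (W - r) := by
          apply mul_le_mul h1 h5 (by positivity) (Nat.cast_nonneg _)
    exact le_of_mul_le_mul_right h4 hr1

lemma Lam_le {K w n : ℕ} {b : ℝ} (hb : 1 ≤ b) (h : aa K w n ≤ b) :
    Lam K w n ≤ (K + 1) * b ^ K := by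
  unfold Lam
  calc ∑ j ∈ range (K + 1), aa K w n ^ j ≤ ∑ _j ∈ range (K + 1), b ^ K := by
        refine sum_le_sum fun j hj => ?_
        rw [mem_range] at hj
        calc aa K w n ^ j ≤ b ^ j := pow_le_pow_left₀ (aa_nonneg _ _ _) h j
          _ ≤ b ^ K := pow_le_pow_right₀ hb (by omega)
    _ = _ := by rw [sum_const, card_range, nsmul_eq_mul]; push_cast; ring

/-- Exponential tail for the width. -/
theorem tail_width (hG : Lat G) {ε : ℝ} (hε : 0 < ε) :
    ∃ δ : ℝ, 0 < δ ∧ ∃ N : ℕ, ∀ n ≥ N, ∀ w : ℕ, ε * n ≤ w →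
      ((Wf hG n w).card : ℝ) ≤ Real.exp (-(δ * n)) * (NTf hG n).card := by
  -- `h ≈ ε n / 4`
  set K : ℕ := ⌈32 / ε⌉₊ with hK
  set b : ℝ := 3 * (K : ℝ) ^ 2 * (8 / ε) + 1 with hb
  set A : ℝ := 2 * ((K + 1) * b ^ K) with hA
  have hb1 : 1 ≤ b := by rw [hb]; have : 0 ≤ 3 * (K : ℝ) ^ 2 * (8 / ε) := by positivity
                         linarith
  have hA0 : 0 < A := by rw [hA]; positivity
  have hlog2 : 0 < Real.log 2 := Real.log_pos (by norm_num)
  refine ⟨Real.log 2 * (ε / (32 * (A + 1))), by positivity, ⌈64 * (A + 1) / ε⌉₊ + 1, ?_⟩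
  intro n hn w hw
  have hn' : 64 * (A + 1) / ε ≤ n := by
    have := Nat.le_ceil (64 * (A + 1) / ε)
    have h2 : ((⌈64 * (A + 1) / ε⌉₊ + 1 : ℕ) : ℝ) ≤ n := by exact_mod_cast hn
    push_cast at h2
    linarith
  rw [div_le_iff₀ hε] at hn'
  have hn0 : (0 : ℝ) < n := by
    by_contra hcon
    push Not at hcon
    nlinarith
  set h : ℕ := ⌊ε * n / 4⌋₊ with hh
  have hh1 : (h : ℝ) ≤ ε * n / 4 := Nat.floor_le (by positivity)
  have hh2 : ε * n / 4 < h + 1 := Nat.lt_floor_add_one _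
  have hh3 : ε * n / 8 ≤ h := by nlinarith
  have hKr : 32 / ε ≤ K := Nat.le_ceil _
  have h4n : 4 * n ≤ (K + 1) * h := by
    have : (4 : ℝ) * n ≤ (K + 1) * h := by
      calc (4 : ℝ) * n = (32 / ε) * (ε * n / 8) := by field_simp; ring
        _ ≤ (K + 1) * h := by
          apply mul_le_mul (by linarith) hh3 (by positivity) (by positivity)
    exact_mod_cast this
  have haa : aa K h n ≤ b := by
    unfold aa
    rw [div_le_iff₀ (by positivity)]
    have h1 : (n : ℝ) ≤ (8 / ε) * (h + 1) := by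
      calc (n : ℝ) = (8 / ε) * (ε * n / 8) := by field_simp
        _ ≤ (8 / ε) * (h + 1) := by gcongr; linarith
    calc 3 * (K : ℝ) ^ 2 * n ≤ 3 * (K : ℝ) ^ 2 * ((8 / ε) * (h + 1)) := by gcongr
      _ ≤ b * (h + 1) := by
        rw [hb]
        have : (0 : ℝ) ≤ (h : ℝ) + 1 := by positivity
        nlinarith
  have hLam : 2 * Lam K h n ≤ A := by
    rw [hA]
    have := Lam_le (K := K) hb1 haa
    linarith
  set W : ℕ := (h + 1) / 2 with hW
  have hWr : (h : ℝ) / 2 ≤ W := by
    have : h ≤ 2 * W := by rw [hW]; omega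
    have : (h : ℝ) ≤ 2 * W := by exact_mod_cast this
    linarith
  set r : ℕ := ⌊W / (A + 1)⌋₊ with hr
  have hr1 : (A + 1) * r ≤ W := by
    have : (r : ℝ) ≤ W / (A + 1) := Nat.floor_le (by positivity)
    rw [le_div_iff₀ (by positivity)] at this
    linarith
  have hchoose := pow_le_choose_of hA0.le r hr1
  have hmain := main_count hG (r := r) h4n (W := W) (by rw [hW]; omega)
  have hsub : ((Wf hG n w).card : ℝ) ≤ (Wf hG n (2 * h)).card := by
    have : (Wf hG n w).card ≤ (Wf hG n (2 * h)).card := by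
      apply card_le_card
      intro T hT
      rw [mem_Wf] at hT ⊢
      refine ⟨hT.1, ?_⟩
      obtain ⟨v, hv, hvw⟩ := hT.2
      refine ⟨v, hv, ?_⟩
      have : 2 * h ≤ w := by
        have : (2 : ℝ) * h ≤ w := by nlinarith
        exact_mod_cast this
      omega
    exact_mod_cast this
  have hLam1 := one_le_Lam K h n
  have hcount : (2 : ℝ) ^ r * (Wf hG n (2 * h)).card ≤ (NTf hG n).card := by
    have h1 : (2 * Lam K h n) ^ r * (Wf hG n (2 * h)).card ≤
        Lam K h n ^ r * (NTf hG n).card := by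
      refine le_trans ?_ hmain
      apply mul_le_mul_of_nonneg_right _ (Nat.cast_nonneg _)
      exact (pow_le_pow_left₀ (by linarith) hLam r).trans hchoose
    rw [mul_pow] at h1
    have h2 : 0 < Lam K h n ^ r := by positivity
    have h3 : Lam K h n ^ r * (2 ^ r * (Wf hG n (2 * h)).card) ≤
        Lam K h n ^ r * (NTf hG n).card := by linarith
    exact le_of_mul_le_mul_left h3 h2
  have hr2 : ε / (32 * (A + 1)) * n ≤ r := by
    have h1 : (W : ℝ) / (A + 1) < r + 1 := Nat.lt_floor_add_one _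
    rw [div_lt_iff₀ (by positivity)] at h1
    have h2 : ε * n / 16 ≤ W := by linarith
    have h3 : ε / (32 * (A + 1)) * n = (ε * n / 32) / (A + 1) := by field_simp
    have h5 : ((r : ℝ) + 1) * (A + 1) = r * (A + 1) + (A + 1) := by ring
    rw [h3, div_le_iff₀ (by positivity)]
    linarith
  have hexp : Real.exp (-(Real.log 2 * (ε / (32 * (A + 1))) * n)) * 2 ^ r ≥ 1 := by
    have h1 : (2 : ℝ) ^ r = Real.exp (Real.log 2 * r) := by
      rw [mul_comm, Real.exp_nat_mul, Real.exp_log (by norm_num)]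
    rw [h1, ← Real.exp_add]
    apply Real.one_le_exp
    nlinarith
  calc ((Wf hG n w).card : ℝ) ≤ (Wf hG n (2 * h)).card := hsub
    _ ≤ (Real.exp (-(Real.log 2 * (ε / (32 * (A + 1))) * n)) * 2 ^ r) * (Wf hG n (2 * h)).card := by
        have : (0 : ℝ) ≤ (Wf hG n (2 * h)).card := Nat.cast_nonneg _
        nlinarith
    _ = Real.exp (-(Real.log 2 * (ε / (32 * (A + 1))) * n)) *
          (2 ^ r * (Wf hG n (2 * h)).card) := by ring
    _ ≤ _ := mul_le_mul_of_nonneg_left hcount (Real.exp_pos _).le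

end Pool.Agent.H97.LTCore
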