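import Mathlib
import Pool.Agent.H97.LTTail

set_option autoImplicit false

open Finset

namespace Pool.Agent.H97.LTCore

open Pool.Agent.H97.LTDefs

variable {G : SimpleGraph Pt}

open Classical in
lemma card_wide (hG : Lat G) (n w : ℕ) :
    (((RT hG n).filter (fun T => w ≤ wd T.1)).card : ℝ) ≤ n * (Wf hG n w).card := by
  have h1 := sum_RT hG n (fun T => if w ≤ wd T.1 then 1 else 0) (fun s T => by
    show (if w ≤ wd (shiftV s T.1) then (1 : ℝ) else 0) = _
    rw [wd_shift])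
  rw [← sum_filter, ← sum_filter, sum_const, sum_const] at h1
  simp only [nsmul_eq_mul, mul_one] at h1
  rw [h1]
  apply mul_le_mul_of_nonneg_left _ (Nat.cast_nonneg _)
  have : ((NTf hG n).filter (fun T => w ≤ wd T.1)).card ≤ (Wf hG n w).card := by
    apply card_le_card
    intro T hT
    rw [mem_filter, mem_NTf] at hT
    rw [mem_Wf]
    refine ⟨hT.1, ?_⟩
    obtain ⟨a, ha, b, hb, hab⟩ := exists_wd hT.1.1.nonempty hT.2
    have := (hT.1.2.2.2 a ha).1
    exact ⟨b, hb, by omega⟩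
  exact_mod_cast this

open Classical in
lemma card_high (hG : Lat G) (n w : ℕ) :
    ((RT hG n).filter (fun T => w ≤ ht T.1)).card =
      ((RT hG n).filter (fun T => w ≤ wd T.1)).card := by
  refine card_bij (fun T _ => swT T) ?_ ?_ ?_
  · intro T hT
    rw [mem_filter] at hT ⊢
    refine ⟨swT_mem hG hT.1, ?_⟩
    have := ht_eq T.1
    unfold swT
    simp only
    rw [← this]; exact hT.2
  · intro T _ T' _ h
    rw [← swT_swT T, h, swT_swT]
  · intro T hT
    rw [mem_filter] at hT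
    refine ⟨swT T, ?_, swT_swT T⟩
    rw [mem_filter]
    refine ⟨swT_mem hG hT.1, ?_⟩
    rw [ht_eq]
    have : (swT T).1.image Prod.swap = T.1 := congrArg Prod.fst (swT_swT T)
    rw [this]; exact hT.2

/-- Exponential tail for the diameter. -/
theorem tail_diam (hG : Lat G) {pos : Pt → EuclideanSpace ℝ (Fin 2)}
    (hpos : ∀ a b, dist (pos a) (pos b) ≤ |(a.1 : ℝ) - b.1| + |(a.2 : ℝ) - b.2|) {ε : ℝ}
    (hε : 0 < ε) :
    ∃ δ : ℝ, 0 < δ ∧ ∃ N : ℕ, ∀ n ≥ N, probDiam G pos n (ε * n) ≤ Real.exp (-(δ * n)) := by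
  classical
  obtain ⟨δ, hδ, N, hN⟩ := tail_width hG (half_pos hε)
  refine ⟨δ / 2, by positivity, max N (⌈2 * Real.log 2 / δ⌉₊ + 1), fun n hn => ?_⟩
  have hn1 : N ≤ n := (le_max_left _ _).trans hn
  have hn2 : ⌈2 * Real.log 2 / δ⌉₊ + 1 ≤ n := (le_max_right _ _).trans hn
  have hn0 : 1 ≤ n := by omega
  have hn0r : (0 : ℝ) < n := by exact_mod_cast hn0
  have hn3 : 2 * Real.log 2 ≤ δ * n := by
    have h1 := Nat.le_ceil (2 * Real.log 2 / δ)
    have h2 : ((⌈2 * Real.log 2 / δ⌉₊ + 1 : ℕ) : ℝ) ≤ n := by exact_mod_cast hn2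
    push_cast at h2
    rw [div_le_iff₀ hδ] at h1
    nlinarith
  set w : ℕ := ⌈ε / 2 * n⌉₊ with hw
  have hW := hN n hn1 w (Nat.le_ceil _)
  unfold probDiam
  have hset : {T ∈ treesAt G n | ε * n ≤ Metric.diam (body G pos T)} ⊆
      toSub G '' (((RT hG n).filter (fun T => w ≤ wd T.1 ∨ w ≤ ht T.1) : Finset Tr) : Set Tr) := by
    rintro S ⟨hS, hd⟩
    obtain ⟨T, hT, rfl⟩ := (bijOn_toSub hn0).surjOn hS
    refine ⟨T, ?_, rfl⟩
    have hT' : T ∈ RT hG n := mem_RT.mpr hT
    rw [mem_coe, mem_filter]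
    refine ⟨hT', ?_⟩
    have h1 := diam_body (G := G) hpos hT.1
    by_contra hcon
    push Not at hcon
    have h2 : (wd T.1 : ℝ) < ε / 2 * n := Nat.lt_ceil.mp hcon.1
    have h3 : (ht T.1 : ℝ) < ε / 2 * n := Nat.lt_ceil.mp hcon.2
    linarith
  have hcard : ({T ∈ treesAt G n | ε * n ≤ Metric.diam (body G pos T)}.ncard : ℝ) ≤
      2 * (n * (Wf hG n w).card) := by
    have h1 := Set.ncard_le_ncard hset ((Finset.finite_toSet _).image _)
    have h2 : (toSub G '' (((RT hG n).filter (fun T => w ≤ wd T.1 ∨ w ≤ ht T.1) : Finset Tr) :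
        Set Tr)).ncard ≤ ((RT hG n).filter (fun T => w ≤ wd T.1 ∨ w ≤ ht T.1)).card := by
      refine (Set.ncard_image_le (Finset.finite_toSet _)).trans ?_
      rw [Set.ncard_coe_finset]
    have h3 : ((RT hG n).filter (fun T => w ≤ wd T.1 ∨ w ≤ ht T.1)).card ≤
        ((RT hG n).filter (fun T => w ≤ wd T.1)).card +
        ((RT hG n).filter (fun T => w ≤ ht T.1)).card := by
      rw [filter_or]; exact card_union_le _ _
    rw [card_high] at h3
    have h4 := card_wide hG n w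
    have h5 : ({T ∈ treesAt G n | ε * n ≤ Metric.diam (body G pos T)}.ncard : ℝ) ≤
        ((RT hG n).filter (fun T => w ≤ wd T.1)).card +
        ((RT hG n).filter (fun T => w ≤ wd T.1)).card := by exact_mod_cast h1.trans (h2.trans h3)
    linarith
  rw [ncard_treesAt hG hn0]
  have hRT := card_RT hG n
  rcases (Nat.cast_nonneg (α := ℝ) (RT hG n).card).eq_or_lt with h0 | h0
  · rw [← h0, div_zero]; positivity
  · rw [div_le_iff₀ h0, hRT]
    have h6 : Real.exp (-(δ * n)) * 2 ≤ Real.exp (-(δ / 2 * n)) := by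
      have : (2 : ℝ) = Real.exp (Real.log 2) := (Real.exp_log (by norm_num)).symm
      rw [this, ← Real.exp_add]
      apply Real.exp_le_exp.mpr
      rw [← this]
      linarith
    have hN0 : (0 : ℝ) ≤ (NTf hG n).card := Nat.cast_nonneg _
    refine hcard.trans ?_
    calc 2 * ((n : ℝ) * (Wf hG n w).card) ≤ 2 * (n * (Real.exp (-(δ * n)) * (NTf hG n).card)) := by gcongr
      _ = (Real.exp (-(δ * n)) * 2) * (n * (NTf hG n).card) := by ring
      _ ≤ _ := mul_le_mul_of_nonneg_right h6 (by positivity)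

end Pool.Agent.H97.LTCore
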